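import Pool.Agent.H.MP_fc2485_gt.Sv.Props

/-!
Small facts on reachable solutions: they do not vanish, they are not constant.
-/

set_option maxSynthPendingDepth 3

open Set Filter Topology InnerProductSpace
open scoped ContDiff

namespace Stek.Sv

open Stek Surface GCell

variable {S : Type*} [TopologicalSpace S] {M : Surface S} {σ : ℝ} {m : ℕ} {e : Fin m → S → ℝ}
  {G : Bl m}

theorem GCell.dYat (c : GCell M e G) {z : ℂ} (hz : z ∈ c.O) :
    HasDerivAt c.Y (c.E z • Fv c.φ e 0 z) z :=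
  (c.sol.dY z (RectI_sub _ _ _ _ hz)).hasDerivAt
    (mem_of_superset ((isOpen_RectI _ _ _ _).mem_nhds hz) (RectI_sub _ _ _ _))

theorem GCell.dEat (c : GCell M e G) {z : ℂ} (hz : z ∈ c.O) :
    HasDerivAt c.E (G (c.Y z) (Fv c.φ e 0 z)) z :=
  (c.sol.dE z (RectI_sub _ _ _ _ hz)).hasDerivAt
    (mem_of_superset ((isOpen_RectI _ _ _ _).mem_nhds hz) (RectI_sub _ _ _ _))

/-- a functional which kills a given vector -/
theorem exists_kill (hm2 : 2 ≤ m) (v : V m) : ∃ ξ : V m →L[ℂ] ℂ, ξ ≠ 0 ∧ ξ v = 0 := by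
  let i0 : Fin m := ⟨0, by omega⟩
  let i1 : Fin m := ⟨1, by omega⟩
  have hne : i0 ≠ i1 := by simp [i0, i1]
  rcases eq_or_ne (v i0) 0 with h0 | h0
  · refine ⟨ContinuousLinearMap.proj i0, ?_, h0⟩
    intro h1
    have := congrArg (fun L : V m →L[ℂ] ℂ => L (Pi.single i0 1)) h1
    simp at this
  · refine ⟨v i0 • ContinuousLinearMap.proj i1 - v i1 • ContinuousLinearMap.proj i0, ?_, ?_⟩
    · intro h1
      have := congrArg (fun L : V m →L[ℂ] ℂ => L (Pi.single i1 1)) h1
      simp [hne] at this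
      exact h0 this
    · simp
      ring

theorem const_absurd [ConnectedSpace S] (H : Ctx M σ e G) (hm2 : 2 ≤ m) {C : Set S}
    (hC : C ⊆ M.bdry) {c : GCell M e G} (hc : Reach C c) {z v} {r : ℝ} (hr : 0 < r)
    (hb : Metric.ball z r ⊆ c.O) (hY : ∀ s ∈ Metric.ball z r, c.Y s = v) : False := by
  obtain ⟨ξ, h0, h1⟩ := exists_kill hm2 v
  exact h0 (spanning H hC hc hr hb ξ fun s hs => by rw [hY s hs, h1])

/-- a function with derivative zero on a disc -/
theorem const_on_ball {X : Type*} [NormedAddCommGroup X] [NormedSpace ℂ X] {f : ℂ → X} {z : ℂ}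
    {r : ℝ} (hf : ∀ s ∈ Metric.ball z r, HasDerivAt f 0 s) {s : ℂ} (hs : s ∈ Metric.ball z r) :
    f s = f z := by
  have hz : z ∈ Metric.ball z r :=
    Metric.mem_ball_self (lt_of_le_of_lt dist_nonneg (Metric.mem_ball.mp hs))
  have h2 := (convex_ball z r).norm_image_sub_le_of_norm_hasDerivWithin_le (f := f)
    (f' := fun _ => 0) (C := 0) (fun w hw => (hf w hw).hasDerivWithinAt) (fun w _ => by simp) hz hs
  rw [zero_mul] at h2
  exact sub_eq_zero.mp (norm_eq_zero.mp (le_antisymm h2 (norm_nonneg _)))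

/-- `E` does not vanish on a disc -/
theorem exists_E_ne [ConnectedSpace S] (H : Ctx M σ e G) (hm2 : 2 ≤ m) {C : Set S}
    (hC : C ⊆ M.bdry) {c : GCell M e G} (hc : Reach C c) {z : ℂ} {r : ℝ} (hr : 0 < r)
    (hb : Metric.ball z r ⊆ c.O) : ∃ s ∈ Metric.ball z r, c.E s ≠ 0 := by
  by_contra hcon
  push Not at hcon
  apply const_absurd H hm2 hC hc hr hb (v := c.Y z)
  intro s hs
  apply const_on_ball _ hs
  intro w hw
  have := c.dYat (hb hw)
  rwa [hcon w hw, zero_smul] at this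

/-- a reachable solution does not vanish -/
theorem not_zero [ConnectedSpace S] (H : Ctx M σ e G) (hm2 : 2 ≤ m) {C : Set S}
    (hC : C ⊆ M.bdry) {c : GCell M e G} (hc : Reach C c) {z : ℂ} (hz : z ∈ c.O)
    (hY : c.Y z = 0) (hE : c.E z = 0) : False := by
  have h0 : IsSol G (Fv c.φ e 0) (Rect c.a c.b c.c c.d) (fun _ => 0) (fun _ => 0) := by
    refine ⟨fun w _ => ?_, fun w _ => ?_⟩
    · rw [zero_smul]
      exact hasDerivWithinAt_const _ _ _
    · rw [map_zero, zero_apply]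
      exact hasDerivWithinAt_const _ _ _
  have h1 := ode_unique (convex_Rect _ _ _ _) (Props_niceF H c).cont c.sol h0
    (RectI_sub _ _ _ _ hz) hY hE
  obtain ⟨r, hr, hb⟩ := Metric.mem_nhds_iff.mp ((isOpen_RectI c.a c.b c.c c.d).mem_nhds hz)
  exact const_absurd H hm2 hC hc hr hb (v := 0) fun s hs => (h1 s (RectI_sub _ _ _ _ (hb hs))).1

end Stek.Sv
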