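import Pool.Agent.H.MP_fc2485_gt.Sv.Defs

/-!
Changes of charts at interior points. (By the isometry condition the real derivative of the change
of charts is a non-zero multiple of an isometry of `ℂ`, so `|∂T|² - |∂̄T|²`, the determinant, does
not vanish and `∂T ∂̄T = 0`; on a small disc one of the two factors vanishes identically. In the
second case the change to the mirror chart is holomorphic.)
-/

set_option maxSynthPendingDepth 3
set_option linter.unusedVariables false

open Set Filter Topology InnerProductSpace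
open scoped ContDiff

namespace Stek.Sv

open Stek Surface

variable {S : Type*} [TopologicalSpace S]

/-- a real linear map which multiplies all lengths by the same factor -/
theorem trans_conf {D : ℂ →L[ℝ] ℂ} {k : ℝ} (hk : 0 < k) (h : ∀ v, ‖D v‖ = k * ‖v‖) :
    D Complex.I = Complex.I * D 1 ∨ D Complex.I = -(Complex.I * D 1) := by
  set p := D 1 with hp
  set q := D Complex.I with hq
  have e1 : ‖p‖ = k := by
    rw [hp, h]
    simp
  have e2 : ‖q‖ = k := by
    rw [hq, h]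
    simp
  have e3 : ‖p + q‖ ^ 2 = 2 * k ^ 2 := by
    rw [hp, hq, ← map_add, h, mul_pow]
    have : ‖(1 : ℂ) + Complex.I‖ ^ 2 = 2 := by
      rw [← Complex.normSq_eq_norm_sq, Complex.normSq_apply]
      simp
      norm_num
    rw [this]
    ring
  have n1 : p.re ^ 2 + p.im ^ 2 = k ^ 2 := by
    rw [← e1, ← Complex.normSq_eq_norm_sq, Complex.normSq_apply]
    ring
  have n2 : q.re ^ 2 + q.im ^ 2 = k ^ 2 := by
    rw [← e2, ← Complex.normSq_eq_norm_sq, Complex.normSq_apply]
    ring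
  have n3 : p.re * q.re + p.im * q.im = 0 := by
    rw [← Complex.normSq_eq_norm_sq, Complex.normSq_apply] at e3
    simp only [Complex.add_re, Complex.add_im] at e3
    nlinarith
  have key : (q - Complex.I * p) * (q + Complex.I * p) = 0 := by
    have hne : (starRingEnd ℂ p * starRingEnd ℂ q) ≠ 0 := by
      apply mul_ne_zero
      · rw [Ne, map_eq_zero, ← norm_eq_zero, e1]
        exact hk.ne'
      · rw [Ne, map_eq_zero, ← norm_eq_zero, e2]
        exact hk.ne'
    have h5 : (q - Complex.I * p) * (q + Complex.I * p) * (starRingEnd ℂ p * starRingEnd ℂ q) =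
        0 := by
      have h6 : (q - Complex.I * p) * (q + Complex.I * p) * (starRingEnd ℂ p * starRingEnd ℂ q) =
          (q * starRingEnd ℂ q) * (q * starRingEnd ℂ p) +
            (p * starRingEnd ℂ p) * (p * starRingEnd ℂ q) := by
        linear_combination (-(p * p * (starRingEnd ℂ p * starRingEnd ℂ q))) * Complex.I_sq
      rw [h6, Complex.mul_conj, Complex.mul_conj, Complex.normSq_eq_norm_sq,
        Complex.normSq_eq_norm_sq, e1, e2, ← mul_add]
      have h7 : q * starRingEnd ℂ p + p * starRingEnd ℂ q = 0 := by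
        apply Complex.ext
        · simp
          linarith
        · simp
          ring
      rw [h7, mul_zero]
    exact (mul_eq_zero.mp h5).resolve_right hne
  rcases mul_eq_zero.mp key with h5 | h5
  · left
    exact sub_eq_zero.mp h5
  · right
    exact eq_neg_of_add_eq_zero_left h5

section Basic

variable {M : Surface S} {φ ψ : Chart S}

/-- the inverse of a chart is continuous at interior points -/
theorem trans_symm_cont {z : ℂ} (hz : z ∈ φ.map.target) (hi : 0 < z.im) :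
    ContinuousAt φ.map.symm z :=
  (φ.cont_symm z hz).continuousAt (dom_nhds φ hz hi)

theorem trans_nhds {z : ℂ} (hz : z ∈ φ.map.target) (hi : 0 < z.im)
    (hs : φ.map.symm z ∈ ψ.map.source) : ∀ᶠ w in 𝓝 z, w ∈ φ.map.target ∧ 0 < w.im ∧
      φ.map.symm w ∈ ψ.map.source := by
  have h1 : {z : ℂ | 0 < z.im} ∈ 𝓝 z :=
    (isOpen_lt continuous_const Complex.continuous_im).mem_nhds hi
  filter_upwards [dom_nhds φ hz hi, h1,
    (trans_symm_cont hz hi).eventually_mem (ψ.source_open.mem_nhds hs)] with w h2 h3 h4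
  exact ⟨h2, h3, h4⟩

theorem trans_overlap {z : ℂ} (hz : z ∈ φ.map.target) (hi : 0 < z.im)
    (hs : φ.map.symm z ∈ ψ.map.source) : overlap φ ψ ∈ 𝓝 z := by
  filter_upwards [trans_nhds hz hi hs] with w hw
  exact ⟨hw.1, hw.2.2⟩

theorem trans_contDiffAt (hφ : φ ∈ M.charts) (hψ : ψ ∈ M.charts) {z : ℂ}
    (hz : z ∈ φ.map.target) (hi : 0 < z.im) (hs : φ.map.symm z ∈ ψ.map.source) :
    ContDiffAt ℝ ∞ (fun z => ψ.map (φ.map.symm z)) z :=
  (M.smooth φ hφ ψ hψ).contDiffAt (trans_overlap hz hi hs)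

theorem trans_isom (hφ : φ ∈ M.charts) (hψ : ψ ∈ M.charts) {z : ℂ}
    (hz : z ∈ φ.map.target) (hi : 0 < z.im) (hs : φ.map.symm z ∈ ψ.map.source) :
    ∃ k : ℝ, 0 < k ∧ ∀ v, ‖fderiv ℝ (fun z => ψ.map (φ.map.symm z)) z v‖ = k * ‖v‖ := by
  have h1 := M.isometry φ hφ ψ hψ z ⟨hz, hs⟩
  rw [fderivWithin_of_mem_nhds (trans_overlap hz hi hs)] at h1
  have h2 : 0 < ψ.ρ (ψ.map (φ.map.symm z)) := ψ.ρ_pos _ (ψ.map.map_source hs)
  have h3 : 0 < φ.ρ z := φ.ρ_pos _ hz
  refine ⟨φ.ρ z / ψ.ρ (ψ.map (φ.map.symm z)), div_pos h3 h2, fun v => ?_⟩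
  have h4 := h1 v
  field_simp
  linarith

theorem trans_pos (hφ : φ ∈ M.charts) (hψ : ψ ∈ M.charts) {z : ℂ}
    (hz : z ∈ φ.map.target) (hi : 0 < z.im) (hs : φ.map.symm z ∈ ψ.map.source) :
    0 < (ψ.map (φ.map.symm z)).im := by
  have h1 := M.bdry_iff φ hφ ψ hψ (φ.map.symm z) (φ.map.map_target hz) hs
  rw [φ.map.right_inv hz] at h1
  have h2 := ψ.map.map_source hs
  rw [ψ.target_eq] at h2
  have h3 : 0 ≤ (ψ.map (φ.map.symm z)).im := h2.2
  rcases h3.eq_or_lt with h4 | h4
  · exact absurd (h1.mpr h4.symm) hi.ne'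
  · exact h4

end Basic

/-- the change of charts is holomorphic for `ψ` or for its mirror image -/
theorem trans_holo {M : Surface S} {φ ψ ψ' : Chart S} (hφ : φ ∈ M.charts) (hψ : ψ ∈ M.charts)
    (hm : IsMir ψ ψ') {x : S} (h1 : x ∈ φ.map.source) (h2 : x ∈ ψ.map.source)
    (hi : 0 < (φ.map x).im) :
    (∀ᶠ z in 𝓝 (φ.map x), DifferentiableAt ℂ (fun z => ψ.map (φ.map.symm z)) z) ∨
      (∀ᶠ z in 𝓝 (φ.map x), DifferentiableAt ℂ (fun z => ψ'.map (φ.map.symm z)) z) := by
  set T : ℂ → ℂ := fun z => ψ.map (φ.map.symm z) with hT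
  have hz : φ.map x ∈ φ.map.target := φ.map.map_source h1
  have hs : φ.map.symm (φ.map x) ∈ ψ.map.source := by
    rw [φ.map.left_inv h1]
    exact h2
  have hev := trans_nhds hz hi hs
  have hc : ContinuousAt (fun z => fderiv ℝ T z) (φ.map x) :=
    ((trans_contDiffAt hφ hψ hz hi hs).fderiv_right (m := 0) (by simp)).continuousAt
  have hc1 : ContinuousAt (fun z => fderiv ℝ T z 1) (φ.map x) := hc.clm_apply continuousAt_const
  have hcI : ContinuousAt (fun z => fderiv ℝ T z Complex.I) (φ.map x) :=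
    hc.clm_apply continuousAt_const
  have hne : ∀ z ∈ φ.map.target, 0 < z.im → φ.map.symm z ∈ ψ.map.source →
      fderiv ℝ T z 1 ≠ 0 := by
    intro z hz hi hs h0
    obtain ⟨k, hk, h3⟩ := trans_isom hφ hψ hz hi hs
    have h4 := h3 1
    rw [← hT, h0] at h4
    simp at h4
    exact hk.ne h4
  have hne0 := hne _ hz hi hs
  obtain ⟨k, hk, h3⟩ := trans_isom hφ hψ hz hi hs
  rcases trans_conf hk h3 with h4 | h4
  · left
    have hlt : ∀ᶠ z in 𝓝 (φ.map x),
        ‖fderiv ℝ T z Complex.I - Complex.I * fderiv ℝ T z 1‖ < ‖fderiv ℝ T z 1‖ := by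
      have c1 : ContinuousAt (fun z => ‖fderiv ℝ T z Complex.I - Complex.I * fderiv ℝ T z 1‖)
          (φ.map x) := (hcI.sub (continuousAt_const.mul hc1)).norm
      have c2 : ContinuousAt (fun z => ‖fderiv ℝ T z 1‖) (φ.map x) := hc1.norm
      apply c1.eventually_lt c2
      rw [show fderiv ℝ T (φ.map x) Complex.I = Complex.I * fderiv ℝ T (φ.map x) 1 from h4,
        sub_self, norm_zero]
      exact norm_pos_iff.mpr hne0
    filter_upwards [hev, hlt] with z hz' hlt'
    rw [differentiableAt_complex_iff_differentiableAt_real]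
    refine ⟨(trans_contDiffAt hφ hψ hz'.1 hz'.2.1 hz'.2.2).differentiableAt (by simp), ?_⟩
    obtain ⟨k, hk, h5⟩ := trans_isom hφ hψ hz'.1 hz'.2.1 hz'.2.2
    rcases trans_conf hk h5 with h6 | h6
    · rw [smul_eq_mul]
      exact h6
    · exfalso
      rw [show fderiv ℝ T z Complex.I = -(Complex.I * fderiv ℝ T z 1) from h6] at hlt'
      have : -(Complex.I * fderiv ℝ T z 1) - Complex.I * fderiv ℝ T z 1 =
          -(2 * Complex.I) * fderiv ℝ T z 1 := by ring
      rw [this, norm_mul, norm_neg, norm_mul, Complex.norm_I] at hlt'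
      simp at hlt'
      linarith [norm_nonneg (fderiv ℝ T z 1)]
  · right
    have hlt : ∀ᶠ z in 𝓝 (φ.map x),
        ‖fderiv ℝ T z Complex.I + Complex.I * fderiv ℝ T z 1‖ < ‖fderiv ℝ T z 1‖ := by
      have c1 : ContinuousAt (fun z => ‖fderiv ℝ T z Complex.I + Complex.I * fderiv ℝ T z 1‖)
          (φ.map x) := (hcI.add (continuousAt_const.mul hc1)).norm
      have c2 : ContinuousAt (fun z => ‖fderiv ℝ T z 1‖) (φ.map x) := hc1.norm
      apply c1.eventually_lt c2
      rw [show fderiv ℝ T (φ.map x) Complex.I = -(Complex.I * fderiv ℝ T (φ.map x) 1) from h4,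
        neg_add_cancel, norm_zero]
      exact norm_pos_iff.mpr hne0
    have hlt2 := hev.and hlt
    rw [← eventually_eventually_nhds] at hlt2
    filter_upwards [hlt2] with z hzz
    obtain ⟨hz', hlt'⟩ := hzz.self_of_nhds
    have hD : DifferentiableAt ℝ T z :=
      (trans_contDiffAt hφ hψ hz'.1 hz'.2.1 hz'.2.2).differentiableAt (by simp)
    have hanti : fderiv ℝ T z Complex.I = -(Complex.I * fderiv ℝ T z 1) := by
      obtain ⟨k, hk, h5⟩ := trans_isom hφ hψ hz'.1 hz'.2.1 hz'.2.2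
      rcases trans_conf hk h5 with h6 | h6
      · exfalso
        rw [show fderiv ℝ T z Complex.I = Complex.I * fderiv ℝ T z 1 from h6] at hlt'
        have : Complex.I * fderiv ℝ T z 1 + Complex.I * fderiv ℝ T z 1 =
            (2 * Complex.I) * fderiv ℝ T z 1 := by ring
        rw [this, norm_mul, norm_mul, Complex.norm_I] at hlt'
        simp at hlt'
        linarith [norm_nonneg (fderiv ℝ T z 1)]
      · exact h6
    have hDc : HasFDerivAt (fun z => -star (T z))
        (-((Complex.conjCLE : ℂ ≃L[ℝ] ℂ).toContinuousLinearMap.comp (fderiv ℝ T z))) z := by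
      have h5 := (Complex.conjCLE : ℂ ≃L[ℝ] ℂ).toContinuousLinearMap.hasFDerivAt.comp z
        hD.hasFDerivAt
      exact h5.neg
    have hDiff : DifferentiableAt ℂ (fun z => -star (T z)) z := by
      rw [differentiableAt_complex_iff_differentiableAt_real]
      refine ⟨hDc.differentiableAt, ?_⟩
      rw [hDc.fderiv]
      have e1 : (-((Complex.conjCLE : ℂ ≃L[ℝ] ℂ).toContinuousLinearMap.comp (fderiv ℝ T z)))
          Complex.I = -(starRingEnd ℂ (fderiv ℝ T z Complex.I)) := rfl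
      have e2 : (-((Complex.conjCLE : ℂ ≃L[ℝ] ℂ).toContinuousLinearMap.comp (fderiv ℝ T z)))
          1 = -(starRingEnd ℂ (fderiv ℝ T z 1)) := rfl
      rw [e1, e2, hanti, map_neg, map_mul, Complex.conj_I, smul_eq_mul]
      ring
    apply hDiff.congr_of_eventuallyEq
    filter_upwards [hzz] with w hw
    exact hm.map _ hw.1.2.2

/-- the data of a holomorphic change of charts -/
structure TData (φ ψ : Chart S) (x : S) (T : ℂ → ℂ) (r : ℝ) : Prop where
  hr : 0 < r
  val : T (φ.map x) = ψ.map x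
  eq : ∀ z ∈ Metric.ball (φ.map x) r, z ∈ φ.map.target ∧ 0 < z.im ∧ φ.map.symm z ∈ ψ.map.source ∧
    T z = ψ.map (φ.map.symm z) ∧ T z ∈ ψ.map.target ∧ 0 < (T z).im ∧
    ψ.map.symm (T z) = φ.map.symm z
  holo : DifferentiableOn ℂ T (Metric.ball (φ.map x) r)
  ne : ∀ z ∈ Metric.ball (φ.map x) r, deriv T z ≠ 0

theorem exists_TData {M : Surface S} {φ ψ : Chart S} (hφ : φ ∈ M.charts) (hψ : ψ ∈ M.charts)
    {x : S} (h1 : x ∈ φ.map.source) (h2 : x ∈ ψ.map.source) (hi : 0 < (φ.map x).im)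
    (hh : ∀ᶠ z in 𝓝 (φ.map x), DifferentiableAt ℂ (fun z => ψ.map (φ.map.symm z)) z)
    {N : Set ℂ} (hN : N ∈ 𝓝 (φ.map x)) {N' : Set ℂ} (hN' : N' ∈ 𝓝 (ψ.map x)) :
    ∃ r, TData φ ψ x (fun z => ψ.map (φ.map.symm z)) r ∧
      (∀ z ∈ Metric.ball (φ.map x) r, z ∈ N ∧ ψ.map (φ.map.symm z) ∈ N') := by
  set T : ℂ → ℂ := fun z => ψ.map (φ.map.symm z) with hT
  have hz : φ.map x ∈ φ.map.target := φ.map.map_source h1
  have hs : φ.map.symm (φ.map x) ∈ ψ.map.source := by
    rw [φ.map.left_inv h1]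
    exact h2
  have hval : T (φ.map x) = ψ.map x := by
    simp only [hT]
    rw [φ.map.left_inv h1]
  have hTc : ContinuousAt T (φ.map x) := hh.self_of_nhds.continuousAt
  have hev3 : ∀ᶠ z in 𝓝 (φ.map x), T z ∈ N' := by
    apply hTc.eventually_mem
    rw [hval]
    exact hN'
  obtain ⟨r, hr, hball⟩ := Metric.eventually_nhds_iff_ball.mp
    ((trans_nhds hz hi hs).and (hh.and ((show ∀ᶠ z in 𝓝 (φ.map x), z ∈ N from hN).and hev3)))
  refine ⟨r, ⟨hr, hval, ?_, ?_, ?_⟩, fun z hz => (hball z hz).2.2⟩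
  · intro z hz'
    obtain ⟨⟨a1, a2, a3⟩, -, -⟩ := hball z hz'
    exact ⟨a1, a2, a3, rfl, ψ.map.map_source a3, trans_pos hφ hψ a1 a2 a3, ψ.map.left_inv a3⟩
  · intro z hz'
    exact (hball z hz').2.1.differentiableWithinAt
  · intro z hz' h0
    obtain ⟨⟨a1, a2, a3⟩, a4, -⟩ := hball z hz'
    obtain ⟨k, hk, h5⟩ := trans_isom hφ hψ a1 a2 a3
    have h6 := h5 1
    rw [← hT, a4.fderiv_restrictScalars ℝ] at h6
    have h7 : (ContinuousLinearMap.restrictScalars ℝ (fderiv ℂ T z)) 1 = deriv T z := by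
      simp
    rw [h7, h0] at h6
    simp at h6
    exact hk.ne h6

/-- the inverse change of charts is holomorphic -/
theorem trans_symm {M : Surface S} {φ ψ : Chart S} (hφ : φ ∈ M.charts) (hψ : ψ ∈ M.charts)
    {x : S} (h1 : x ∈ φ.map.source) (h2 : x ∈ ψ.map.source) (hi : 0 < (φ.map x).im)
    (hh : ∀ᶠ z in 𝓝 (φ.map x), DifferentiableAt ℂ (fun z => ψ.map (φ.map.symm z)) z) :
    ∀ᶠ z in 𝓝 (ψ.map x), DifferentiableAt ℂ (fun z => φ.map (ψ.map.symm z)) z := by
  obtain ⟨r, hT, -⟩ := exists_TData hφ hψ h1 h2 hi hh univ_mem univ_mem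
  set T : ℂ → ℂ := fun z => ψ.map (φ.map.symm z) with hTdef
  have hw : ψ.map x ∈ ψ.map.target := ψ.map.map_source h2
  have hi' : 0 < (ψ.map x).im := by
    have := trans_pos hφ hψ (φ.map.map_source h1) hi (by rw [φ.map.left_inv h1]; exact h2)
    rwa [φ.map.left_inv h1] at this
  have hs' : ψ.map.symm (ψ.map x) ∈ φ.map.source := by
    rw [ψ.map.left_inv h2]
    exact h1
  have hR : ∀ w, w ∈ ψ.map.target → 0 < w.im → ψ.map.symm w ∈ φ.map.source →
      ContinuousAt (fun w => φ.map (ψ.map.symm w)) w := by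
    intro w a1 a2 a3
    exact (trans_contDiffAt hψ hφ a1 a2 a3).continuousAt
  have hev := trans_nhds hw hi' hs'
  have hball : ∀ᶠ w in 𝓝 (ψ.map x), φ.map (ψ.map.symm w) ∈ Metric.ball (φ.map x) r := by
    apply (hR _ hw hi' hs').eventually_mem
    rw [ψ.map.left_inv h2]
    exact Metric.ball_mem_nhds _ hT.hr
  have hev2 := hev.and hball
  rw [← eventually_eventually_nhds] at hev2
  filter_upwards [hev2] with w hww
  obtain ⟨⟨a1, a2, a3⟩, a4⟩ := hww.self_of_nhds
  have hTd : HasDerivAt T (deriv T (φ.map (ψ.map.symm w))) (φ.map (ψ.map.symm w)) :=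
    (hT.holo.differentiableAt (Metric.isOpen_ball.mem_nhds a4)).hasDerivAt
  have := HasDerivAt.of_local_left_inverse (f := T) (g := fun w => φ.map (ψ.map.symm w))
    (hR w a1 a2 a3) hTd (hT.ne _ a4) (by
      filter_upwards [hww] with v hv
      obtain ⟨⟨b1, b2, b3⟩, b4⟩ := hv
      simp only [hTdef]
      rw [φ.map.left_inv b3, ψ.map.right_inv b1])
  exact this.differentiableAt

/-- the complex gradients in the two charts -/
theorem Fv_trans {M : Surface S} {σ : ℝ} {m : ℕ} {e : Fin m → S → ℝ}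
    (h : ∀ i, M.IsSteklov σ (e i)) {φ ψ : Chart S} (hφ : φ ∈ M.charts) (hψ : ψ ∈ M.charts)
    {x : S} {T : ℂ → ℂ} {r : ℝ} (hT : TData φ ψ x T r) {z : ℂ}
    (hz : z ∈ Metric.ball (φ.map x) r) :
    Fv φ e 0 z = deriv T z • Fv ψ e 0 (T z) := by
  obtain ⟨a1, a2, a3, a4, a5, a6, a7⟩ := hT.eq z hz
  have hTd : HasDerivAt T (deriv T z) z :=
    (hT.holo.differentiableAt (Metric.isOpen_ball.mem_nhds hz)).hasDerivAt
  have hTr : HasFDerivAt T (((1 : ℂ →L[ℂ] ℂ).smulRight (deriv T z)).restrictScalars ℝ) z :=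
    hTd.hasFDerivAt.restrictScalars ℝ
  funext i
  have hn1 : φ.map.target ∈ 𝓝 z := dom_nhds φ a1 a2
  have hn2 : ψ.map.target ∈ 𝓝 (T z) := dom_nhds ψ a5 a6
  have hd : DifferentiableAt ℝ (loc ψ (e i)) (T z) :=
    (diffAt (h i) hψ a5).differentiableAt hn2
  have heq : loc φ (e i) =ᶠ[𝓝 z] fun w => loc ψ (e i) (T w) := by
    filter_upwards [Metric.isOpen_ball.mem_nhds hz] with w hw
    unfold loc
    rw [(hT.eq w hw).2.2.2.2.2.2]
  have hcomp : HasFDerivAt (loc φ (e i)) ((fderiv ℝ (loc ψ (e i)) (T z)).comp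
      (((1 : ℂ →L[ℂ] ℂ).smulRight (deriv T z)).restrictScalars ℝ)) z :=
    (hd.hasFDerivAt.comp z hTr).congr_of_eventuallyEq heq
  have hx : dx φ (e i) z = fderiv ℝ (loc ψ (e i)) (T z) (deriv T z) := by
    unfold dx
    rw [fderivWithin_of_mem_nhds hn1, hcomp.fderiv]
    simp
  have hy : dy φ (e i) z = fderiv ℝ (loc ψ (e i)) (T z) (Complex.I * deriv T z) := by
    unfold dy
    rw [fderivWithin_of_mem_nhds hn1, hcomp.fderiv]
    simp
  have hx' : dx ψ (e i) (T z) = fderiv ℝ (loc ψ (e i)) (T z) 1 := by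
    unfold dx
    rw [fderivWithin_of_mem_nhds hn2]
  have hy' : dy ψ (e i) (T z) = fderiv ℝ (loc ψ (e i)) (T z) Complex.I := by
    unfold dy
    rw [fderivWithin_of_mem_nhds hn2]
  have hL : ∀ v : ℂ, fderiv ℝ (loc ψ (e i)) (T z) v = v.re * dx ψ (e i) (T z) +
      v.im * dy ψ (e i) (T z) := by
    intro v
    have e5 : v = v.re • (1 : ℂ) + v.im • Complex.I := by simp
    conv_lhs => rw [e5]
    rw [map_add, map_smul, map_smul, ← hx', ← hy']
    simp
  rw [hL] at hx hy
  change (dx φ (e i) z : ℂ) - Complex.I * (dy φ (e i) z : ℂ) =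
    deriv T z * ((dx ψ (e i) (T z) : ℂ) - Complex.I * (dy ψ (e i) (T z) : ℂ))
  rw [hx, hy]
  apply Complex.ext
  · simp
  · simp

end Stek.Sv
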