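import Pool.Agent.H.MP_fc2485_gt.Sv.Link

/-!
Mirror images of cells.
-/

set_option maxSynthPendingDepth 3

open Set Filter Topology InnerProductSpace
open scoped ContDiff

namespace Stek.Sv

open Stek Surface GCell

variable {S : Type*} [TopologicalSpace S] {M : Surface S} {σ : ℝ} {m : ℕ} {e : Fin m → S → ℝ}
  {G : Bl m}

private theorem mir_cont : Continuous fun z : ℂ => -star z := continuous_star.neg

private theorem mir_invol (z : ℂ) : -star (-star z) = z := by simp

/-- conjugation of a holomorphic function by the mirror map -/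
private theorem mir_deriv {X : Type*} [NormedAddCommGroup X] [NormedSpace ℂ X] [StarAddMonoid X]
    [StarModule ℂ X] [ContinuousStar X] {f : ℂ → X} {f' : X} {K K' : Set ℂ} {z : ℂ}
    (hK : ∀ w ∈ K', -star w ∈ K) (h : HasDerivWithinAt f f' K (-star z)) :
    HasDerivWithinAt (fun w => star (f (-star w))) (-star f') K' z := by
  rw [hasDerivWithinAt_iff_tendsto_slope] at h ⊢
  have h1 : Tendsto (fun w : ℂ => -star w) (𝓝[K' \ {z}] z) (𝓝[K \ {-star z}] (-star z)) := by
    refine tendsto_nhdsWithin_iff.2 ⟨?_, ?_⟩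
    · exact (mir_cont.tendsto z).mono_left nhdsWithin_le_nhds
    · filter_upwards [self_mem_nhdsWithin] with w hw
      refine ⟨hK w hw.1, fun h2 => hw.2 ?_⟩
      have h3 : -star w = -star z := h2
      have h4 := congrArg (fun u : ℂ => -star u) h3
      simp only [mir_invol] at h4
      exact h4
  have h2 : Tendsto (fun w => -star (slope f (-star z) (-star w))) (𝓝[K' \ {z}] z)
      (𝓝 (-star f')) := (((continuous_star.tendsto f').comp (h.comp h1)).neg)
  refine h2.congr fun w => ?_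
  rw [slope_def_module, slope_def_module, star_smul, star_sub, ← neg_smul]
  congr 1
  rw [star_inv₀, star_sub, star_neg, star_neg, star_star, star_star, ← inv_neg]
  congr 1
  ring

private theorem mir_dxy (H : Ctx M σ e G) {φ φ' : Chart S} (hφ : φ ∈ M.charts)
    (hm : IsMir φ φ') {z : ℂ} (hz : z ∈ φ'.map.target) (i : Fin m) :
    dx φ' (e i) z = -dx φ (e i) (-star z) ∧ dy φ' (e i) z = dy φ (e i) (-star z) := by
  obtain ⟨κ, hκ⟩ : ∃ κ : ℂ →L[ℝ] ℂ, ∀ w, κ w = -star w :=
    ⟨-(Complex.conjCLE : ℂ →L[ℝ] ℂ), fun w => by simp⟩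
  have hz' : -star z ∈ φ.map.target := (hm.target z).1 hz
  have h1 : HasFDerivWithinAt (loc φ (e i)) (fderivWithin ℝ (loc φ (e i)) φ.map.target (κ z))
      φ.map.target (κ z) := by
    rw [hκ]
    exact (diffAt (H.mem i) hφ hz').hasFDerivWithinAt
  have h2 : HasFDerivWithinAt (fun w => loc φ (e i) (κ w))
      ((fderivWithin ℝ (loc φ (e i)) φ.map.target (κ z)).comp κ) φ'.map.target z :=
    h1.comp z κ.hasFDerivWithinAt fun w hw => by
      rw [hκ]
      exact (hm.target w).1 hw
  have h3 : ∀ w ∈ φ'.map.target, loc φ' (e i) w = loc φ (e i) (κ w) := by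
    intro w hw
    unfold loc
    rw [hm.symm w hw, hκ]
  have h4 : fderivWithin ℝ (loc φ' (e i)) φ'.map.target z =
      (fderivWithin ℝ (loc φ (e i)) φ.map.target (κ z)).comp κ :=
    (h2.congr h3 (h3 z hz)).fderivWithin (uniqueDiffOn φ' z hz)
  unfold dx dy
  rw [h4, ContinuousLinearMap.comp_apply, ContinuousLinearMap.comp_apply, hκ, hκ, hκ]
  constructor
  · rw [star_one, map_neg]
  · congr 1
    simp

private theorem mir_Fv (H : Ctx M σ e G) {φ φ' : Chart S} (hφ : φ ∈ M.charts)
    (hm : IsMir φ φ') {z : ℂ} (hz : z ∈ φ'.map.target) :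
    Fv φ' e 0 z = -star (Fv φ e 0 (-star z)) := by
  funext i
  obtain ⟨h1, h2⟩ := mir_dxy H hφ hm hz i
  change (dx φ' (e i) z : ℂ) - Complex.I * (dy φ' (e i) z : ℂ) =
    -star ((dx φ (e i) (-star z) : ℂ) - Complex.I * (dy φ (e i) (-star z) : ℂ))
  rw [h1, h2]
  apply Complex.ext <;> simp

private theorem mir_rect {a b c d : ℝ} (z : ℂ) :
    z ∈ Rect (-b) (-a) c d ↔ -star z ∈ Rect a b c d := by
  unfold Rect
  simp only [mem_ofPred_eq, Complex.star_def, Complex.neg_re, Complex.conj_re, Complex.neg_im,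
    Complex.conj_im, neg_neg]
  constructor
  · rintro ⟨h1, h2, h3, h4⟩
    exact ⟨by linarith, by linarith, h3, h4⟩
  · rintro ⟨h1, h2, h3, h4⟩
    exact ⟨by linarith, by linarith, h3, h4⟩

private theorem mir_rectI {a b c d : ℝ} (z : ℂ) :
    z ∈ RectI (-b) (-a) c d ↔ -star z ∈ RectI a b c d := by
  unfold RectI
  simp only [mem_ofPred_eq, Complex.star_def, Complex.neg_re, Complex.conj_re, Complex.neg_im,
    Complex.conj_im, neg_neg]
  constructor
  · rintro ⟨h1, h2, h3, h4⟩
    exact ⟨by linarith, by linarith, h3, h4⟩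
  · rintro ⟨h1, h2, h3, h4⟩
    exact ⟨by linarith, by linarith, h3, h4⟩

/-- the mirror image of a cell -/
theorem exists_mir (H : Ctx M σ e G) (c : GCell M e G) {φ' : Chart S} (hφ' : φ' ∈ M.charts)
    (hm : IsMir c.φ φ') : ∃ c' : GCell M e G, c'.φ = φ' ∧ c'.a = -c.b ∧ c'.b = -c.a ∧
      c'.c = c.c ∧ c'.d = c.d ∧ (∀ z, c'.Y z = star (c.Y (-star z))) ∧
      (∀ z, c'.E z = star (c.E (-star z))) := by
  have hsub : Rect (-c.b) (-c.a) c.c c.d ⊆ φ'.map.target := by
    intro z hz
    rw [hm.target]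
    exact c.sub ((mir_rect z).1 hz)
  have hK : ∀ w ∈ Rect (-c.b) (-c.a) c.c c.d, -star w ∈ Rect c.a c.b c.c c.d := fun w hw =>
    (mir_rect w).1 hw
  refine ⟨⟨φ', hφ', -c.b, -c.a, c.c, c.d, by have := c.hab; linarith, c.hcd, hsub,
    fun z => star (c.Y (-star z)), fun z => star (c.E (-star z)), ⟨fun z hz => ?_, fun z hz => ?_⟩⟩,
    rfl, rfl, rfl, rfl, rfl, fun z => rfl, fun z => rfl⟩
  · have h1 := mir_deriv (z := z) hK (c.sol.dY _ (hK z hz))
    refine h1.congr_deriv ?_
    rw [mir_Fv H c.hφ hm (hsub hz), star_smul, smul_neg]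
  · have h1 := mir_deriv (z := z) hK (c.sol.dE _ (hK z hz))
    refine h1.congr_deriv ?_
    rw [mir_Fv H c.hφ hm (hsub hz), map_neg, H.inK.real]

/-- Mirror images of reachable cells are reachable: if `c'` is a mirror image of `c` in any mirror
chart. (Base cells: clear. Steps: mirror both cells; the change of charts of the mirror charts is
`z ↦ -conj (T (-conj z))`.) -/
theorem reach_mir (H : Ctx M σ e G) {C : Set S} {c : GCell M e G} (hc : Reach C c)
    {φ' : Chart S} (hφ' : φ' ∈ M.charts) (hm : IsMir c.φ φ') :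
    ∃ c' : GCell M e G, Reach C c' ∧ c'.φ = φ' ∧ c'.a = -c.b ∧ c'.b = -c.a ∧
      c'.c = c.c ∧ c'.d = c.d ∧ (∀ z, c'.Y z = star (c.Y (-star z))) ∧
      (∀ z, c'.E z = star (c.E (-star z))) := by
  induction hc generalizing φ' with
  | @base c hcb =>
    obtain ⟨c', h1, h2, h3, h4, h5, h6, h7⟩ := exists_mir H c hφ' hm
    refine ⟨c', Reach.base ⟨h4.trans hcb.1, fun t ht => ?_⟩, h1, h2, h3, h4, h5, h6, h7⟩
    have ht' : -t ∈ Icc c.a c.b := by
      rw [h2, h3] at ht
      exact ⟨by linarith [ht.2], by linarith [ht.1]⟩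
    obtain ⟨k1, k2, k3⟩ := hcb.2 (-t) ht'
    have e1 : -star (t : ℂ) = ((-t : ℝ) : ℂ) := by simp
    have hT : (t : ℂ) ∈ φ'.map.target := by
      rw [hm.target, e1]
      refine c.sub ⟨by simpa using ht'.1, by simpa using ht'.2, ?_, ?_⟩
      · rw [hcb.1]
        simp
      · have := c.hcd
        rw [hcb.1] at this
        simpa using this.le
    have e2 : c'.φ.map.symm (t : ℂ) = c.φ.map.symm (((-t : ℝ)) : ℂ) := by
      rw [h1, hm.symm _ hT, e1]
    refine ⟨?_, ?_, ?_⟩
    · rw [e2]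
      exact k1
    · rw [h6, h7, e1, e2, k2, star_smul]
      congr 1
      funext i
      simp [uv]
    · rw [h7, e1, norm_star, k3]
  | @step c c1 x hc hl ih =>
    obtain ⟨φ₀, hφ₀, hm₀⟩ := H.mir c.φ c.hφ
    obtain ⟨c', h0, h1, h2, h3, h4, h5, h6, h7⟩ := ih hφ₀ hm₀
    obtain ⟨c1', g1, g2, g3, g4, g5, g6, g7⟩ := exists_mir H c1 hφ' hm
    obtain ⟨l1, l2, l3, l4, l5, l6, l7⟩ := hl
    refine ⟨c1', Reach.step h0 (x := x) ⟨?_, ?_, ?_, ?_, ?_, ?_, ?_⟩, g1, g2, g3, g4, g5, g6, g7⟩
    · rw [h1, hm₀.source]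
      exact l1
    · rw [g1, hm.source]
      exact l2
    · rw [h1, hm₀.map x l1]
      change -star (c.φ.map x) ∈ RectI c'.a c'.b c'.c c'.d
      rw [h2, h3, h4, h5, mir_rectI, mir_invol]
      exact l3
    · rw [g1, hm.map x l2]
      change -star (c1.φ.map x) ∈ RectI c1'.a c1'.b c1'.c c1'.d
      rw [g2, g3, g4, g5, mir_rectI, mir_invol]
      exact l4
    · rw [h1, g1, hm₀.map x l1, hm.map x l2, h6, g6, mir_invol, mir_invol, l5]
    · rw [h1, g1, hm₀.map x l1, hm.map x l2, h7, g7, mir_invol, mir_invol, l6]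
    · rw [h1, g1, hm₀.map x l1]
      -- near the point the change of charts is the conjugate of the old one
      have hpos : 0 < (c.φ.map x).im := link_im_pos c l3
      have hn : c.φ.map.target ∈ 𝓝 (c.φ.map x) := dom_nhds c.φ (c.φ.map.map_source l1) hpos
      have hsrc : ∀ᶠ w in 𝓝 (c.φ.map x), c.φ.map.symm w ∈ c1.φ.map.source := by
        have hcs : ContinuousAt c.φ.map.symm (c.φ.map x) :=
          (c.φ.cont_symm _ (c.φ.map.map_source l1)).continuousAt hn
        refine hcs.eventually (c1.φ.source_open.mem_nhds ?_)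
        rw [c.φ.map.left_inv l1]
        exact l2
      have hev : ∀ᶠ w in 𝓝 (c.φ.map x), w ∈ c.φ.map.target ∧ c.φ.map.symm w ∈ c1.φ.map.source ∧
          DifferentiableAt ℂ (fun z => c1.φ.map (c.φ.map.symm z)) w := by
        filter_upwards [hn, hsrc, l7] with w a1 a2 a3
        exact ⟨a1, a2, a3⟩
      have hev2 := (mir_cont.tendsto (-star (c.φ.map x))).eventually (by
        rw [mir_invol]
        exact eventually_eventually_nhds.2 hev)
      filter_upwards [hev2] with z hz
      have hz0 := hz.self_of_nhds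
      have hd : HasDerivAt (fun z => c1.φ.map (c.φ.map.symm z))
          (deriv (fun z => c1.φ.map (c.φ.map.symm z)) (-star z)) (-star z) := hz0.2.2.hasDerivAt
      have hd2 := (mir_deriv (K := univ) (K' := univ) (z := z) (fun w _ => mem_univ _)
        hd.hasDerivWithinAt).hasDerivAt univ_mem
      have hd3 := hd2.neg
      have heq : (fun w => φ'.map (φ₀.map.symm w)) =ᶠ[𝓝 z]
          fun w => -star (c1.φ.map (c.φ.map.symm (-star w))) := by
        have h8 := (mir_cont.tendsto z).eventually hz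
        filter_upwards [h8] with w hw
        have hw1 : w ∈ φ₀.map.target := (hm₀.target w).2 hw.1
        rw [hm₀.symm w hw1, hm.map _ hw.2.1]
      exact (hd3.congr_of_eventuallyEq heq).differentiableAt

end Stek.Sv
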