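import Pool.Agent.H.MP_fc2485_gt.Sv.Cell
import Pool.Agent.H.MP_fc2485_gt.Sv.Mir

/-!
Reachable cells exist at all interior points.
-/

set_option maxSynthPendingDepth 3

open Set Filter Topology InnerProductSpace
open scoped ContDiff

namespace Stek.Sv

open Stek Surface GCell

variable {S : Type*} [TopologicalSpace S] {M : Surface S} {σ : ℝ} {m : ℕ} {e : Fin m → S → ℝ}
  {G : Bl m}

/-- the mirror relation is symmetric -/
private theorem reach_isMir_symm {φ φ' : Chart S} (h : IsMir φ φ') : IsMir φ' φ where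
  source := h.source.symm
  map := by
    intro x hx
    rw [h.source] at hx
    rw [h.map x hx]
    simp
  target := by
    intro z
    have := h.target (-star z)
    rw [this]
    simp
  symm := by
    intro z hz
    have h1 : -star z ∈ φ'.map.target := by
      rw [h.target]
      simpa using hz
    rw [h.symm _ h1]
    simp

private theorem reach_im_nonneg (φ : Chart S) {x : S} (hx : x ∈ φ.map.source) :
    0 ≤ (φ.map x).im := by
  have h := φ.map.map_source hx
  rw [φ.target_eq] at h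
  exact h.2

private theorem reach_im_pos {φ ψ : Chart S} (hφ : φ ∈ M.charts) (hψ : ψ ∈ M.charts) {x : S}
    (h1 : x ∈ φ.map.source) (h2 : x ∈ ψ.map.source) (hi : 0 < (φ.map x).im) :
    0 < (ψ.map x).im := by
  refine lt_of_le_of_ne (reach_im_nonneg ψ h2) fun h3 => hi.ne' ?_
  exact (M.bdry_iff φ hφ ψ hψ x h1 h2).2 h3.symm

private theorem reach_bdry {φ : Chart S} (hφ : φ ∈ M.charts) {x : S} (h1 : x ∈ φ.map.source)
    (hi : 0 < (φ.map x).im) : x ∉ M.bdry := by
  rintro ⟨ψ, hψ, h2, h3⟩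
  exact hi.ne' ((M.bdry_iff φ hφ ψ hψ x h1 h2).2 h3)

/-- continuation to a chart with the same orientation -/
private theorem reach_same (H : Ctx M σ e G) {C : Set S} {c : GCell M e G} (hc : Reach C c) {x : S}
    (hx : x ∈ c.φ.map.source) (hxO : c.φ.map x ∈ c.O) {ψ : Chart S} (hψ : ψ ∈ M.charts)
    (hxψ : x ∈ ψ.map.source)
    (hh : ∀ᶠ z in 𝓝 (c.φ.map x), DifferentiableAt ℂ (fun z => ψ.map (c.φ.map.symm z)) z) :
    ∃ c' : GCell M e G, Reach C c' ∧ c'.φ = ψ ∧ ψ.map x ∈ c'.O ∧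
      c'.Y (ψ.map x) = c.Y (c.φ.map x) ∧ c'.E (ψ.map x) = c.E (c.φ.map x) := by
  obtain ⟨a, b, c1, d, hab, hcd, hsub, -, hev, -, hsol⟩ :=
    exists_rect H hψ hxψ (N := univ) univ_mem
  have hev := hev.self_of_nhds
  have hpos : 0 < (ψ.map x).im := reach_im_pos c.hφ hψ hx hxψ (c.im_pos hxO)
  obtain ⟨Y, E, hYE, hY1, hE1⟩ := hsol (ψ.map x) hev.2.1 (c.Y (c.φ.map x)) (c.E (c.φ.map x))
  let c' : GCell M e G := ⟨ψ, hψ, a, b, c1, d, hab, hcd, hsub, Y, E, hYE⟩
  have hO : ψ.map x ∈ c'.O := hev.2.2 hpos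
  refine ⟨c', Reach.step hc ⟨hx, hxψ, hxO, hO, hY1.symm, hE1.symm, hh⟩, rfl, hO, hY1, hE1⟩

/-- Continuation of a reachable solution to any chart at the same point; if the change of charts
reverses the orientation the conjugate solution arrives (trans_holo, exists_rect, reach_mir). -/
theorem transfer (H : Ctx M σ e G) {C : Set S} {c : GCell M e G} (hc : Reach C c) {x : S}
    (hx : x ∈ c.φ.map.source) (hxO : c.φ.map x ∈ c.O) {ψ : Chart S} (hψ : ψ ∈ M.charts)
    (hxψ : x ∈ ψ.map.source) :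
    ∃ c' : GCell M e G, Reach C c' ∧ c'.φ = ψ ∧ ψ.map x ∈ c'.O ∧
      ((c'.Y (ψ.map x) = c.Y (c.φ.map x) ∧ c'.E (ψ.map x) = c.E (c.φ.map x)) ∨
        (c'.Y (ψ.map x) = star (c.Y (c.φ.map x)) ∧
          c'.E (ψ.map x) = star (c.E (c.φ.map x)))) := by
  obtain ⟨ψ', hψ', hm⟩ := H.mir ψ hψ
  have hxψ' : x ∈ ψ'.map.source := by
    rw [hm.source]
    exact hxψ
  rcases trans_holo c.hφ hψ hm hx hxψ (c.im_pos hxO) with hh | hh
  · obtain ⟨c', h1, h2, h3, h4⟩ := reach_same H hc hx hxO hψ hxψ hh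
    exact ⟨c', h1, h2, h3, Or.inl h4⟩
  · obtain ⟨c2, h1, h2, h3, h4, h5⟩ := reach_same H hc hx hxO hψ' hxψ' hh
    have hm' : IsMir c2.φ ψ := by
      rw [h2]
      exact reach_isMir_symm hm
    obtain ⟨c', k1, k2, k3, k4, k5, k6, k7, k8⟩ := reach_mir H h1 hψ hm'
    have hval : ψ'.map x = -star (ψ.map x) := hm.map x hxψ
    refine ⟨c', k1, k2, ?_, Or.inr ⟨?_, ?_⟩⟩
    · have h6 : -star (ψ.map x) ∈ RectI c2.a c2.b c2.c c2.d := by
        rw [← hval]
        exact h3
      obtain ⟨g1, g2, g3, g4⟩ := h6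
      change ψ.map x ∈ RectI c'.a c'.b c'.c c'.d
      rw [k3, k4, k5, k6]
      simp only [Complex.star_def, Complex.neg_re, Complex.conj_re, Complex.neg_im,
        Complex.conj_im, neg_neg] at g1 g2 g3 g4
      exact ⟨by linarith, by linarith, g3, g4⟩
    · rw [k7, ← hval, h4]
    · rw [k8, ← hval, h5]

/-- there are interior points near every point -/
private theorem reach_dense {x : S} {U : Set S} (hU : U ∈ 𝓝 x) : ∃ y ∈ U, y ∉ M.bdry := by
  obtain ⟨φ, hφ, hxs⟩ := M.cover x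
  have hxt : φ.map x ∈ φ.map.target := φ.map.map_source hxs
  have hcs : ContinuousWithinAt φ.map.symm φ.map.target (φ.map x) := φ.cont_symm _ hxt
  have hev : ∀ᶠ w in 𝓝[φ.map.target] (φ.map x), φ.map.symm w ∈ U := by
    have : Tendsto φ.map.symm (𝓝[φ.map.target] (φ.map x)) (𝓝 x) := by
      have := hcs.tendsto
      rwa [φ.map.left_inv hxs] at this
    exact this.eventually hU
  have hdom : φ.map x ∈ φ.dom := by
    rw [φ.target_eq] at hxt
    exact hxt.1
  rw [eventually_nhdsWithin_iff] at hev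
  have hpath : Tendsto (fun t : ℝ => φ.map x + t * Complex.I) (𝓝[>] 0) (𝓝 (φ.map x)) := by
    have hc : ContinuousAt (fun t : ℝ => φ.map x + t * Complex.I) 0 := by fun_prop
    have := hc.tendsto
    simp only [Complex.ofReal_zero, zero_mul, add_zero] at this
    exact this.mono_left nhdsWithin_le_nhds
  obtain ⟨t, ⟨ht1, ht2⟩, ht3⟩ := ((hpath.eventually
    (hev.and (φ.dom_open.eventually_mem hdom))).and self_mem_nhdsWithin).exists
  have ht : 0 < t := ht3
  have him : 0 < (φ.map x + t * Complex.I).im := by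
    have := reach_im_nonneg φ hxs
    simp
    linarith
  have htt : φ.map x + t * Complex.I ∈ φ.map.target := by
    rw [φ.target_eq]
    exact ⟨ht2, him.le⟩
  refine ⟨φ.map.symm (φ.map x + t * Complex.I), ht1 htt, ?_⟩
  apply reach_bdry hφ (φ.map.map_target htt)
  rw [φ.map.right_inv htt]
  exact him

/-- A reachable cell at every interior point in every chart. (The set of the points with a
neighbourhood all of whose interior points are reached is open, closed and not empty.) -/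
theorem reach_at [ConnectedSpace S] (H : Ctx M σ e G) {C : Set S} (hC : IsCC M C) {x : S}
    {ψ : Chart S} (hψ : ψ ∈ M.charts) (hx : x ∈ ψ.map.source) (hi : 0 < (ψ.map x).im) :
    ∃ c : GCell M e G, Reach C c ∧ c.φ = ψ ∧ ψ.map x ∈ c.O := by
  set P : S → Prop := fun y => y ∉ M.bdry → ∃ c : GCell M e G, Reach C c ∧
    y ∈ c.φ.map.source ∧ c.φ.map y ∈ c.O with hP
  set A : Set S := {y | ∀ᶠ z in 𝓝 y, P z} with hA
  have hAo : IsOpen A := isOpen_setOfPred_eventually_nhds
  have hAne : A.Nonempty := by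
    obtain ⟨p, hp, hCp⟩ := hC
    have hpC : p ∈ C := by
      rw [hCp]
      exact mem_connectedComponentIn hp
    obtain ⟨φ, hφ, hps⟩ := M.cover p
    obtain ⟨c, hcφ, hcb, -, hev⟩ := base_exists H ⟨p, hp, hCp⟩ hpC hφ hps (N := univ) univ_mem
    refine ⟨p, ?_⟩
    change ∀ᶠ z in 𝓝 p, P z
    filter_upwards [hev] with y hy hyb
    have h0 : 0 < (φ.map y).im := by
      refine lt_of_le_of_ne (reach_im_nonneg φ hy.1) fun h3 => hyb ?_
      exact ⟨φ, hφ, hy.1, h3.symm⟩
    refine ⟨c, Reach.base hcb, ?_, ?_⟩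
    · rw [hcφ]
      exact hy.1
    · rw [hcφ]
      exact hy.2.2 h0
  have hAc : IsClosed A := by
    rw [← closure_subset_iff_isClosed]
    intro y hy
    obtain ⟨φ, hφ, hys⟩ := M.cover y
    obtain ⟨a, b, c1, d, hab, hcd, hsub, -, hev, -, hsol⟩ :=
      exists_rect H hφ hys (N := univ) univ_mem
    obtain ⟨y0, hy0V, hy0A⟩ := mem_closure_iff_nhds.mp hy _ (eventually_eventually_nhds.2 hev)
    have hy0A' : ∀ᶠ z in 𝓝 y0, P z := hy0A
    have hy0V' : ∀ᶠ z in 𝓝 y0, z ∈ φ.map.source ∧ φ.map z ∈ Rect a b c1 d ∧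
        (0 < (φ.map z).im → φ.map z ∈ RectI a b c1 d) := hy0V
    obtain ⟨y1, ⟨hy1P, hy1s, hy1R, hy1I⟩, hy1b⟩ := reach_dense (M := M) (hy0A'.and hy0V')
    obtain ⟨c, hc, hcs, hcO⟩ := hy1P hy1b
    obtain ⟨c', hc', hc'φ, hc'O, -⟩ := transfer H hc hcs hcO hφ hy1s
    have hpos : 0 < (φ.map y1).im := reach_im_pos c.hφ hφ hcs hy1s (c.im_pos hcO)
    obtain ⟨Y, E, hYE, hY1, hE1⟩ := hsol (φ.map y1) hy1R (c'.Y (φ.map y1)) (c'.E (φ.map y1))
    let c2 : GCell M e G := ⟨φ, hφ, a, b, c1, d, hab, hcd, hsub, Y, E, hYE⟩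
    have hlink : c'.LinkAt c2 y1 := by
      refine ⟨?_, hy1s, ?_, hy1I hpos, ?_, ?_, ?_⟩
      · rw [hc'φ]
        exact hy1s
      · rw [hc'φ]
        exact hc'O
      · rw [hc'φ]
        exact hY1.symm
      · rw [hc'φ]
        exact hE1.symm
      · rw [hc'φ]
        have hn : φ.map.target ∈ 𝓝 (φ.map y1) := dom_nhds φ (φ.map.map_source hy1s) hpos
        filter_upwards [eventually_eventually_nhds.2 hn] with z hz
        have : (fun z => φ.map (φ.map.symm z)) =ᶠ[𝓝 z] id := by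
          filter_upwards [hz] with w hw
          exact φ.map.right_inv hw
        exact this.symm.differentiableAt_iff.1 differentiableAt_id
    have hr2 : Reach C c2 := Reach.step hc' hlink
    change ∀ᶠ z in 𝓝 y, P z
    filter_upwards [hev] with z hz hzb
    have h0 : 0 < (φ.map z).im := by
      refine lt_of_le_of_ne (reach_im_nonneg φ hz.1) fun h3 => hzb ?_
      exact ⟨φ, hφ, hz.1, h3.symm⟩
    exact ⟨c2, hr2, hz.1, hz.2.2 h0⟩
  have hAu : A = univ := IsClopen.eq_univ ⟨hAc, hAo⟩ hAne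
  have hxA : x ∈ A := by
    rw [hAu]
    trivial
  have hxP : P x := (show ∀ᶠ z in 𝓝 x, P z from hxA).self_of_nhds
  obtain ⟨c, hc, hcs, hcO⟩ := hxP (reach_bdry hψ hx hi)
  obtain ⟨c', h1, h2, h3, -⟩ := transfer H hc hcs hcO hψ hx
  exact ⟨c', h1, h2, h3⟩

end Stek.Sv
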