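import Pool.Agent.H.MP_fc2485_gt.Sv.MaxA
import Pool.Agent.H.MP_fc2485_gt.Sv.Reach

/-!
If all reachable solutions are proportional, one of them has an interior zero of `E`: otherwise
`N = G(star Y, Y)/|E|²` is a well defined continuous function on the compact surface (value one on
the boundary), `N ≥ 1` by Cauchy-Schwarz and `G(Y,Y) = E²`, and the maximum principle applies.
(At `y` in the interior: any reachable cell at `y`; two of them have the same `N` at `y` by
`transfer` and `hp`. Near `x` on the boundary use the cell of `base_exists`.)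
-/

set_option maxSynthPendingDepth 3

open Set Filter Topology InnerProductSpace
open scoped ContDiff

namespace Stek.Sv

open Stek Surface GCell

variable {S : Type*} [TopologicalSpace S] {M : Surface S} {σ : ℝ} {m : ℕ} {e : Fin m → S → ℝ}
  {G : Bl m}

theorem maxP_smul {v w : V m} {E E' t : ℂ} (ht : t ≠ 0) (h1 : v = t • w) (h2 : E = t * E') :
    (G (star v) v).re / ‖E‖ ^ 2 = (G (star w) w).re / ‖E'‖ ^ 2 := by
  subst h1 h2
  have h3 : G (star (t • w)) (t • w) = ((‖t‖ ^ 2 : ℝ) : ℂ) * G (star w) w := by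
    rw [star_smul, map_smul, map_smul, ContinuousLinearMap.smul_apply, smul_eq_mul, smul_eq_mul]
    have h4 : t * star t = ((‖t‖ ^ 2 : ℝ) : ℂ) := by
      have h5 := Complex.mul_conj t
      rw [Complex.normSq_eq_norm_sq] at h5
      exact h5
    rw [← h4]
    ring
  rw [h3, Complex.re_ofReal_mul, norm_mul, mul_pow]
  have h6 : (‖t‖ ^ 2 : ℝ) ≠ 0 := by
    have : 0 < ‖t‖ := norm_pos_iff.2 ht
    positivity
  rw [mul_div_mul_left _ _ h6]

theorem maxP_star (hs : ∀ v w, G v w = G w v) {v w : V m} {E E' : ℂ} (h1 : v = star w)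
    (h2 : E = star E') :
    (G (star v) v).re / ‖E‖ ^ 2 = (G (star w) w).re / ‖E'‖ ^ 2 := by
  subst h1 h2
  rw [star_star, norm_star, hs w (star w)]

/-- the value does not depend on the cell -/
theorem maxP_wd (H : Ctx M σ e G)
    (hp : ∀ C C', IsCC M C → IsCC M C' → ∀ c c' : GCell M e G, Reach C c → Reach C' c' →
      CoProp c c') {C C' : Set S} (hC : IsCC M C) (hC' : IsCC M C') {c c' : GCell M e G}
    (hc : Reach C c) (hc' : Reach C' c') {x : S} (h1 : x ∈ c.φ.map.source)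
    (h2 : c.φ.map x ∈ c.O) (h1' : x ∈ c'.φ.map.source) (h2' : c'.φ.map x ∈ c'.O) :
    c.N (c.φ.map x) = c'.N (c'.φ.map x) := by
  obtain ⟨c2, hc2, hφ2, hx2, h3⟩ := transfer H hc h1 h2 c'.hφ h1'
  have h4 : c2.N (c'.φ.map x) = c.N (c.φ.map x) := by
    rcases h3 with h3 | h3
    · show (G (star (c2.Y (c'.φ.map x))) (c2.Y (c'.φ.map x))).re / ‖c2.E (c'.φ.map x)‖ ^ 2 =
        (G (star (c.Y (c.φ.map x))) (c.Y (c.φ.map x))).re / ‖c.E (c.φ.map x)‖ ^ 2
      rw [h3.1, h3.2]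
    · exact maxP_star H.inK.symm h3.1 h3.2
  obtain ⟨t, ht, h5, h6⟩ := hp C C' hC hC' c2 c' hc2 hc' hφ2 _ hx2 h2'
  rw [← h4]
  exact maxP_smul ht h5 h6

/-- continuity of the function at a point -/
theorem maxP_cont (c : GCell M e G) {x : S} (hx : x ∈ c.φ.map.source)
    (hE : c.E (c.φ.map x) ≠ 0) {g : S → ℝ}
    (hg : ∀ᶠ y in 𝓝 x, c.φ.map y ∈ c.K ∧ g y = c.N (c.φ.map y)) : ContinuousAt g x := by
  obtain ⟨hxK, hgx⟩ := hg.self_of_nhds
  have h1 : ContinuousWithinAt c.Y c.K (c.φ.map x) := (c.sol.dY _ hxK).continuousWithinAt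
  have h2 : ContinuousWithinAt c.E c.K (c.φ.map x) := (c.sol.dE _ hxK).continuousWithinAt
  have h3 : Continuous fun v : V m => (G (star v) v).re := by
    have h4 : Continuous fun v : V m => (G (star v) v) := by
      exact (G.continuous.comp continuous_star).clm_apply continuous_id
    exact Complex.continuous_re.comp h4
  have h5 : ContinuousWithinAt c.N c.K (c.φ.map x) := by
    refine ContinuousWithinAt.div ?_ ?_ ?_
    · exact h3.continuousAt.comp_continuousWithinAt h1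
    · exact h2.norm.pow 2
    · have : 0 < ‖c.E (c.φ.map x)‖ := norm_pos_iff.2 hE
      positivity
  have h6 : Tendsto c.φ.map (𝓝 x) (𝓝[c.K] (c.φ.map x)) := by
    refine tendsto_nhdsWithin_iff.2 ⟨?_, hg.mono fun y hy => hy.1⟩
    exact c.φ.cont.continuousAt (c.φ.source_open.mem_nhds hx)
  have h7 : Tendsto (fun y => c.N (c.φ.map y)) (𝓝 x) (𝓝 (c.N (c.φ.map x))) := h5.tendsto.comp h6
  rw [ContinuousAt, hgx]
  exact h7.congr' (hg.mono fun y hy => hy.2.symm)

theorem maxP_star_uv (x : S) : star (uv e x) = uv e x := by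
  funext i
  simp [uv]

/-- the value on the boundary side of a base cell -/
theorem maxP_base (H : Ctx M σ e G) {C : Set S} (hC : IsCC M C) {c : GCell M e G}
    (hc : c.IsBase C) {z : ℂ} (hz : z ∈ c.K) (hi : z.im = 0) : c.E z ≠ 0 ∧ c.N z = 1 := by
  have hz2 : z = ((z.re : ℝ) : ℂ) := by
    apply Complex.ext
    · simp
    · simp [hi]
  have ht : z.re ∈ Icc c.a c.b := ⟨hz.1, hz.2.1⟩
  obtain ⟨h1, h2, h3⟩ := hc.2 z.re ht
  rw [← hz2] at h1 h2 h3
  have h4 : c.E z ≠ 0 := by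
    intro h5
    rw [h5, norm_zero] at h3
    exact zero_ne_one h3
  refine ⟨h4, ?_⟩
  have h6 : c.N z = (G (star (uv e (c.φ.map.symm z))) (uv e (c.φ.map.symm z))).re /
      ‖(1 : ℂ)‖ ^ 2 := maxP_smul h4 h2 (by ring)
  rw [h6, maxP_star_uv, H.inK.sphere _ (hC.sub h1)]
  simp

theorem maxP_isOpen_O (c : GCell M e G) : IsOpen c.O := isOpen_RectI _ _ _ _

theorem maxP_O_sub (c : GCell M e G) : c.O ⊆ c.K := RectI_sub _ _ _ _

/-- the well defined function -/
theorem maxP_exists (H : Ctx M σ e G)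
    (hp : ∀ C C', IsCC M C → IsCC M C' → ∀ c c' : GCell M e G, Reach C c → Reach C' c' →
      CoProp c c') :
    ∃ g : S → ℝ, (∀ x ∈ M.bdry, g x = 1) ∧ ∀ C, IsCC M C → ∀ c : GCell M e G, Reach C c →
      ∀ x ∈ c.φ.map.source, c.φ.map x ∈ c.O → g x = c.N (c.φ.map x) := by
  classical
  have h1 : ∀ x : S, ∃ r : ℝ, (x ∈ M.bdry → r = 1) ∧ ∀ C, IsCC M C → ∀ c : GCell M e G,
      Reach C c → x ∈ c.φ.map.source → c.φ.map x ∈ c.O → r = c.N (c.φ.map x) := by
    intro x
    by_cases h : ∃ C, IsCC M C ∧ ∃ c : GCell M e G, Reach C c ∧ x ∈ c.φ.map.source ∧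
        c.φ.map x ∈ c.O
    · obtain ⟨C, hC, c, hc, hx, hxO⟩ := h
      refine ⟨c.N (c.φ.map x), ?_, ?_⟩
      · intro hxb
        exact absurd hxb (c.not_bdry hx hxO)
      · intro C' hC' c' hc' hx' hxO'
        exact maxP_wd H hp hC hC' hc hc' hx hxO hx' hxO'
    · refine ⟨1, fun _ => rfl, ?_⟩
      intro C' hC' c' hc' hx' hxO'
      exact absurd ⟨C', hC', c', hc', hx', hxO'⟩ h
  choose g hg using h1
  exact ⟨g, fun x hx => (hg x).1 hx, fun C hC c hc x hx hxO => (hg x).2 C hC c hc hx hxO⟩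

theorem exists_zero [CompactSpace S] [ConnectedSpace S] (H : Ctx M σ e G) (hm2 : 2 ≤ m)
    (hb : M.bdry.Nonempty)
    (hp : ∀ C C', IsCC M C → IsCC M C' → ∀ c c' : GCell M e G, Reach C c → Reach C' c' →
      CoProp c c') :
    ∃ C, IsCC M C ∧ ∃ c : GCell M e G, Reach C c ∧ ∃ z ∈ c.O, c.E z = 0 := by
  by_contra hcon
  have hne : ∀ C, IsCC M C → ∀ c : GCell M e G, Reach C c → ∀ z ∈ c.O, c.E z ≠ 0 := by
    intro C hC c hc z hz hE
    exact hcon ⟨C, hC, c, hc, z, hz, hE⟩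
  obtain ⟨g, hg1, hg2⟩ := maxP_exists H hp
  obtain ⟨p0, hp0⟩ := hb
  have hC0 : IsCC M (connectedComponentIn M.bdry p0) := ⟨p0, hp0, rfl⟩
  -- continuity
  have hcont : Continuous g := by
    rw [continuous_iff_continuousAt]
    intro x
    obtain ⟨ψ, hψ, hxψ⟩ := M.cover x
    have hzt : ψ.map x ∈ ψ.map.target := ψ.map.map_source hxψ
    have him : 0 ≤ (ψ.map x).im := by
      rw [ψ.target_eq] at hzt
      exact hzt.2
    rcases him.eq_or_lt with him | him
    · have hxb : x ∈ M.bdry := ⟨ψ, hψ, hxψ, him.symm⟩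
      have hC : IsCC M (connectedComponentIn M.bdry x) := ⟨x, hxb, rfl⟩
      have hxC : x ∈ connectedComponentIn M.bdry x := mem_connectedComponentIn hxb
      obtain ⟨c, hcφ, hbase, -, hev⟩ := base_exists H hC hxC hψ hxψ (univ_mem : univ ∈ 𝓝 x)
      subst hcφ
      have hxK : c.φ.map x ∈ c.K := hev.self_of_nhds.2.1
      refine maxP_cont c hxψ (maxP_base H hC hbase hxK him.symm).1 ?_
      filter_upwards [hev] with y hy
      refine ⟨hy.2.1, ?_⟩
      have hyt : c.φ.map y ∈ c.φ.map.target := c.φ.map.map_source hy.1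
      have hyi : 0 ≤ (c.φ.map y).im := by
        rw [c.φ.target_eq] at hyt
        exact hyt.2
      rcases hyi.eq_or_lt with hyi | hyi
      · rw [(maxP_base H hC hbase hy.2.1 hyi.symm).2]
        exact hg1 y ⟨c.φ, c.hφ, hy.1, hyi.symm⟩
      · exact hg2 _ hC c (Reach.base hbase) y hy.1 (hy.2.2 hyi)
    · obtain ⟨c, hc, hcφ, hxO⟩ := reach_at H hC0 hψ hxψ him
      subst hcφ
      refine maxP_cont c hxψ (hne _ hC0 c hc _ hxO) ?_
      have h1 : ∀ᶠ y in 𝓝 x, y ∈ c.φ.map.source := c.φ.source_open.mem_nhds hxψ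
      have h2 : ∀ᶠ y in 𝓝 x, c.φ.map y ∈ c.O :=
        (c.φ.cont.continuousAt (c.φ.source_open.mem_nhds hxψ)).eventually
          ((maxP_isOpen_O c).mem_nhds hxO)
      filter_upwards [h1, h2] with y hy1 hy2
      exact ⟨maxP_O_sub c hy2, hg2 _ hC0 c hc y hy1 hy2⟩
  -- no maximum at a cell
  have hno : ∀ C, IsCC M C → ∀ c : GCell M e G, Reach C c → ∀ z ∈ c.O,
      ¬ ∀ y, g y ≤ c.N z := by
    intro C hC c hc z hz hall
    refine no_local_max H hm2 hC.sub hc (hne C hC c hc) hz ?_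
    filter_upwards [(maxP_isOpen_O c).mem_nhds hz] with w hw
    have hwt : w ∈ c.φ.map.target := c.sub (maxP_O_sub c hw)
    have h1 : c.φ.map.symm w ∈ c.φ.map.source := c.φ.map.map_target hwt
    have h2 : c.φ.map (c.φ.map.symm w) = w := c.φ.map.right_inv hwt
    have h3 := hg2 C hC c hc (c.φ.map.symm w) h1 (by rw [h2]; exact hw)
    rw [h2] at h3
    rw [← h3]
    exact hall _
  obtain ⟨x0, -, hx0⟩ := isCompact_univ.exists_isMaxOn ⟨p0, mem_univ p0⟩ hcont.continuousOn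
  have hmax : ∀ y, g y ≤ g x0 := fun y => hx0 (mem_univ y)
  obtain ⟨ψ, hψ, hxψ⟩ := M.cover x0
  have hzt : ψ.map x0 ∈ ψ.map.target := ψ.map.map_source hxψ
  have him : 0 ≤ (ψ.map x0).im := by
    rw [ψ.target_eq] at hzt
    exact hzt.2
  rcases him.eq_or_lt with him | him
  · have hxb : x0 ∈ M.bdry := ⟨ψ, hψ, hxψ, him.symm⟩
    have hC : IsCC M (connectedComponentIn M.bdry x0) := ⟨x0, hxb, rfl⟩
    have hxC : x0 ∈ connectedComponentIn M.bdry x0 := mem_connectedComponentIn hxb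
    obtain ⟨c, hcφ, hbase, -, -⟩ := base_exists H hC hxC hψ hxψ (univ_mem : univ ∈ 𝓝 x0)
    obtain ⟨z, hz⟩ := c.O_nonempty
    have hc : Reach (connectedComponentIn M.bdry x0) c := Reach.base hbase
    refine hno _ hC c hc z hz ?_
    intro y
    refine (hmax y).trans ?_
    rw [hg1 x0 hxb]
    exact one_le_N H hC.sub hc hz (hne _ hC c hc z hz)
  · obtain ⟨c, hc, hcφ, hxO⟩ := reach_at H hC0 hψ hxψ him
    subst hcφ
    refine hno _ hC0 c hc _ hxO ?_
    intro y
    rw [← hg2 _ hC0 c hc x0 hxψ hxO]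
    exact hmax y

end Stek.Sv
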