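import Pool.Agent.H.MP_fc2485_gt.Sv.Defs

/-!
The jets of the complex gradient. (In the interior the complex gradient of a harmonic function is
holomorphic, `HarmonicAt.differentiableAt_complex_partial`; compare `HData.cont` and `HData.holo`
in Equi.lean. The Cauchy-Riemann equation for the real derivatives of `Fj φ f j`, which is smooth
on the target, extends to the real axis by continuity, so the real derivative within the target is
complex linear.)
-/

set_option maxSynthPendingDepth 3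
set_option linter.unusedVariables false

open Set Filter Topology InnerProductSpace
open scoped ContDiff

namespace Stek.Sv

open Stek Surface

variable {S : Type*} [TopologicalSpace S]

theorem contDiffOn_Fj {M : Surface S} {σ : ℝ} {f : S → ℝ} (h : M.IsSteklov σ f) {φ : Chart S}
    (hφ : φ ∈ M.charts) (j : ℕ) : ContDiffOn ℝ ∞ (Fj φ f j) φ.map.target := by
  induction j with
  | zero =>
    have h1 : ContDiffOn ℝ ∞ (fderivWithin ℝ (loc φ f) φ.map.target) φ.map.target :=
      (h.smooth φ hφ).fderivWithin (uniqueDiffOn φ) (by simp)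
    have h2 : ContDiffOn ℝ ∞ (fun z => (dx φ f z : ℂ)) φ.map.target :=
      Complex.ofRealCLM.contDiff.comp_contDiffOn (h1.clm_apply contDiffOn_const)
    have h3 : ContDiffOn ℝ ∞ (fun z => (dy φ f z : ℂ)) φ.map.target :=
      Complex.ofRealCLM.contDiff.comp_contDiffOn (h1.clm_apply contDiffOn_const)
    exact h2.sub (contDiffOn_const.mul h3)
  | succ n ih =>
    have h1 : ContDiffOn ℝ ∞ (fderivWithin ℝ (Fj φ f n) φ.map.target) φ.map.target :=
      ih.fderivWithin (uniqueDiffOn φ) (by simp)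
    exact h1.clm_apply contDiffOn_const

theorem Fj_interior {M : Surface S} {σ : ℝ} {f : S → ℝ} (h : M.IsSteklov σ f) {φ : Chart S}
    (hφ : φ ∈ M.charts) (j : ℕ) {z : ℂ} (hz : z ∈ φ.map.target) (hi : 0 < z.im) :
    AnalyticAt ℂ (Fj φ f j) z := by
  have hO : IsOpen (φ.dom ∩ {z : ℂ | 0 < z.im}) :=
    φ.dom_open.inter (isOpen_lt continuous_const Complex.continuous_im)
  have hOt : ∀ w ∈ φ.dom ∩ {z : ℂ | 0 < z.im}, w ∈ φ.map.target := by
    intro w hw
    rw [φ.target_eq]
    have h2 : 0 < w.im := hw.2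
    exact ⟨hw.1, h2.le⟩
  have hzO : z ∈ φ.dom ∩ {z : ℂ | 0 < z.im} := by
    rw [φ.target_eq] at hz
    exact ⟨hz.1, hi⟩
  have key : ∀ j, DifferentiableOn ℂ (Fj φ f j) (φ.dom ∩ {z : ℂ | 0 < z.im}) := by
    intro j
    induction j with
    | zero =>
      intro w hw
      apply DifferentiableAt.differentiableWithinAt
      refine (_root_.HarmonicAt.differentiableAt_complex_partial
        (h.harmonic φ hφ w (hOt w hw) hw.2)).congr_of_eventuallyEq ?_
      filter_upwards [hO.mem_nhds hw] with v hv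
      change (dx φ f v : ℂ) - Complex.I * (dy φ f v : ℂ) = _
      unfold dx dy
      rw [fderivWithin_of_mem_nhds (dom_nhds φ (hOt v hv) hv.2)]
    | succ n ih =>
      have h1 : DifferentiableOn ℂ (deriv (Fj φ f n)) (φ.dom ∩ {z : ℂ | 0 < z.im}) := ih.deriv hO
      refine h1.congr fun w hw => ?_
      have h2 : DifferentiableAt ℂ (Fj φ f n) w := ih.differentiableAt (hO.mem_nhds hw)
      change fderivWithin ℝ (Fj φ f n) φ.map.target w 1 = _
      rw [fderivWithin_of_mem_nhds (dom_nhds φ (hOt w hw) hw.2), h2.fderiv_restrictScalars ℝ]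
      simp
  exact (key j).analyticAt (hO.mem_nhds hzO)

theorem hasDeriv_Fj {M : Surface S} {σ : ℝ} {f : S → ℝ} (h : M.IsSteklov σ f) {φ : Chart S}
    (hφ : φ ∈ M.charts) (j : ℕ) {z : ℂ} (hz : z ∈ φ.map.target) :
    HasDerivWithinAt (Fj φ f j) (Fj φ f (j + 1) z) φ.map.target z := by
  -- the Cauchy-Riemann equation in the interior
  have hCR : ∀ w ∈ φ.map.target, 0 < w.im →
      fderivWithin ℝ (Fj φ f j) φ.map.target w Complex.I -
        Complex.I * fderivWithin ℝ (Fj φ f j) φ.map.target w 1 = 0 := by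
    intro w hw hi
    have h2 : DifferentiableAt ℂ (Fj φ f j) w := (Fj_interior h hφ j hw hi).differentiableAt
    rw [fderivWithin_of_mem_nhds (dom_nhds φ hw hi), h2.fderiv_restrictScalars ℝ]
    simp
  have hCRz : fderivWithin ℝ (Fj φ f j) φ.map.target z Complex.I -
        Complex.I * fderivWithin ℝ (Fj φ f j) φ.map.target z 1 = 0 := by
    have h1 : ContinuousOn (fderivWithin ℝ (Fj φ f j) φ.map.target) φ.map.target :=
      (contDiffOn_Fj h hφ j).continuousOn_fderivWithin (uniqueDiffOn φ) (by simp)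
    have h2 : ContinuousWithinAt (fun w => fderivWithin ℝ (Fj φ f j) φ.map.target w Complex.I -
        Complex.I * fderivWithin ℝ (Fj φ f j) φ.map.target w 1) φ.map.target z :=
      ((h1.clm_apply continuousOn_const).sub
        (continuousOn_const.mul (h1.clm_apply continuousOn_const))) z hz
    have hzd : z ∈ φ.dom ∧ 0 ≤ z.im := by
      rw [φ.target_eq] at hz
      exact hz
    have hpath : Tendsto (fun t : ℝ => z + t * Complex.I) (𝓝[>] 0) (𝓝 z) := by
      have hc : ContinuousAt (fun t : ℝ => z + t * Complex.I) 0 := by fun_prop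
      have := hc.tendsto
      simp only [Complex.ofReal_zero, zero_mul, add_zero] at this
      exact this.mono_left nhdsWithin_le_nhds
    have hev : ∀ᶠ t : ℝ in 𝓝[>] 0, z + t * Complex.I ∈ φ.map.target ∧
        0 < (z + t * Complex.I).im := by
      have h3 := hpath.eventually (φ.dom_open.mem_nhds hzd.1)
      filter_upwards [h3, self_mem_nhdsWithin] with t ht1 ht2
      have h4 : 0 < t := ht2
      have h5 : 0 < (z + t * Complex.I).im := by
        simp
        linarith [hzd.2]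
      refine ⟨?_, h5⟩
      rw [φ.target_eq]
      exact ⟨ht1, h5.le⟩
    have h3 : Tendsto (fun t : ℝ => fderivWithin ℝ (Fj φ f j) φ.map.target (z + t * Complex.I)
        Complex.I - Complex.I * fderivWithin ℝ (Fj φ f j) φ.map.target (z + t * Complex.I) 1)
        (𝓝[>] 0) (𝓝 (fderivWithin ℝ (Fj φ f j) φ.map.target z Complex.I -
          Complex.I * fderivWithin ℝ (Fj φ f j) φ.map.target z 1)) := by
      have h4 : Tendsto (fun t : ℝ => z + t * Complex.I) (𝓝[>] 0) (𝓝[φ.map.target] z) := by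
        rw [tendsto_nhdsWithin_iff]
        exact ⟨hpath, hev.mono fun t ht => ht.1⟩
      exact h2.tendsto.comp h4
    have h4 : Tendsto (fun t : ℝ => fderivWithin ℝ (Fj φ f j) φ.map.target (z + t * Complex.I)
        Complex.I - Complex.I * fderivWithin ℝ (Fj φ f j) φ.map.target (z + t * Complex.I) 1)
        (𝓝[>] 0) (𝓝 0) := by
      apply tendsto_const_nhds.congr'
      filter_upwards [hev] with t ht
      exact (hCR _ ht.1 ht.2).symm
    exact tendsto_nhds_unique h3 h4
  have hd : HasFDerivWithinAt (Fj φ f j) (fderivWithin ℝ (Fj φ f j) φ.map.target z)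
      φ.map.target z :=
    ((contDiffOn_Fj h hφ j).differentiableOn (by simp) z hz).hasFDerivWithinAt
  have hlin : ((1 : ℂ →L[ℂ] ℂ).smulRight (Fj φ f (j + 1) z)).restrictScalars ℝ =
      fderivWithin ℝ (Fj φ f j) φ.map.target z := by
    ext v
    have e5 : v = v.re • (1 : ℂ) + v.im • Complex.I := by simp
    change v • fderivWithin ℝ (Fj φ f j) φ.map.target z 1 =
      fderivWithin ℝ (Fj φ f j) φ.map.target z v
    conv_rhs => rw [e5]
    rw [map_add, map_smul, map_smul, sub_eq_zero.mp hCRz]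
    conv_lhs => rw [e5]
    simp only [Complex.real_smul, smul_eq_mul]
    ring
  exact (hd.of_restrictScalars ℝ hlin).hasDerivWithinAt.congr_deriv (by simp)

theorem hasDeriv_Fv {M : Surface S} {σ : ℝ} {m : ℕ} {e : Fin m → S → ℝ}
    (h : ∀ i, M.IsSteklov σ (e i)) {φ : Chart S} (hφ : φ ∈ M.charts) (j : ℕ) {z : ℂ}
    (hz : z ∈ φ.map.target) :
    HasDerivWithinAt (Fv φ e j) (Fv φ e (j + 1) z) φ.map.target z := by
  rw [hasDerivWithinAt_pi]
  intro i
  exact hasDeriv_Fj (h i) hφ j hz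

/-- in the interior -/
theorem hasDerivAt_Fv {M : Surface S} {σ : ℝ} {m : ℕ} {e : Fin m → S → ℝ}
    (h : ∀ i, M.IsSteklov σ (e i)) {φ : Chart S} (hφ : φ ∈ M.charts) (j : ℕ) {z : ℂ}
    (hz : z ∈ φ.map.target) (hi : 0 < z.im) : HasDerivAt (Fv φ e j) (Fv φ e (j + 1) z) z :=
  (hasDeriv_Fv h hφ j hz).hasDerivAt (dom_nhds φ hz hi)

theorem nice_Fv {M : Surface S} {σ : ℝ} {m : ℕ} {e : Fin m → S → ℝ}
    (h : ∀ i, M.IsSteklov σ (e i)) {φ : Chart S} (hφ : φ ∈ M.charts) (j : ℕ) {a b c d : ℝ}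
    (hs : Rect a b c d ⊆ φ.map.target) :
    Nice (Rect a b c d) (RectI a b c d) (Fv φ e j) := by
  refine ⟨fun z hz => ((hasDeriv_Fv h hφ j (hs hz)).continuousWithinAt.mono hs), fun z hz => ?_⟩
  have h1 : z ∈ φ.map.target := hs (RectI_sub _ _ _ _ hz)
  have h2 : (⟨z.re, c⟩ : ℂ) ∈ φ.map.target :=
    hs ⟨hz.1.le, hz.2.1.le, le_rfl, (hz.2.2.1.trans hz.2.2.2).le⟩
  rw [φ.target_eq] at h2
  have h3 : 0 ≤ c := h2.2
  exact (hasDerivAt_Fv h hφ j h1 (lt_of_le_of_lt h3 hz.2.2.1)).differentiableAt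
    |>.differentiableWithinAt

/-- along the real axis: `u' = F - i λ u`, `λ = σ ρ` -/
theorem hasDerivAt_uv {M : Surface S} {σ : ℝ} {m : ℕ} {e : Fin m → S → ℝ}
    (h : ∀ i, M.IsSteklov σ (e i)) {φ : Chart S} (hφ : φ ∈ M.charts) {t : ℝ}
    (ht : (t : ℂ) ∈ φ.map.target) :
    HasDerivAt (fun t : ℝ => uv e (φ.map.symm (t : ℂ)))
      (Fv φ e 0 (t : ℂ) - (Complex.I * (σ * φ.ρ t)) • uv e (φ.map.symm (t : ℂ))) t := by
  rw [hasDerivAt_pi]
  intro i
  have h1 := (hasDerivAt_real (h i) hφ ht).ofReal_comp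
  refine h1.congr_deriv ?_
  change (dx φ (e i) t : ℂ) = ((dx φ (e i) t : ℂ) - Complex.I * (dy φ (e i) t : ℂ)) -
    (Complex.I * (σ * φ.ρ t)) * (e i (φ.map.symm (t : ℂ)) : ℂ)
  have h2 := (h i).normal φ hφ t ht (by simp)
  have h3 : 0 < φ.ρ t := φ.ρ_pos _ ht
  have h4 : dy φ (e i) t = -(σ * φ.ρ t * e i (φ.map.symm (t : ℂ))) := by
    unfold loc at h2
    field_simp at h2
    linarith
  rw [h4]
  push_cast
  ring

theorem hasDerivAt_Fv_real {M : Surface S} {σ : ℝ} {m : ℕ} {e : Fin m → S → ℝ}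
    (h : ∀ i, M.IsSteklov σ (e i)) {φ : Chart S} (hφ : φ ∈ M.charts) (j : ℕ) {t : ℝ}
    (ht : (t : ℂ) ∈ φ.map.target) :
    HasDerivAt (fun t : ℝ => Fv φ e j (t : ℂ)) (Fv φ e (j + 1) (t : ℂ)) t := by
  have h1 : HasFDerivWithinAt (Fv φ e j)
      (((1 : ℂ →L[ℂ] ℂ).smulRight (Fv φ e (j + 1) (t : ℂ))).restrictScalars ℝ) φ.map.target t :=
    (hasDeriv_Fv h hφ j ht).hasFDerivWithinAt.restrictScalars ℝ
  have h2 : HasDerivAt (fun t : ℝ => (t : ℂ)) 1 t := Complex.ofRealCLM.hasDerivAt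
  have h3 := h1.comp_hasDerivAt t h2 (real_mem_nhds φ ht)
  exact h3.congr_deriv (by simp)

/-- mirror images -/
theorem Fv_mir {M : Surface S} {σ : ℝ} {m : ℕ} {e : Fin m → S → ℝ}
    (h : ∀ i, M.IsSteklov σ (e i)) {φ φ' : Chart S} (hφ : φ ∈ M.charts) (hφ' : φ' ∈ M.charts)
    (hm : IsMir φ φ') {z : ℂ} (hz : z ∈ φ'.map.target) :
    Fv φ' e 0 z = -star (Fv φ e 0 (-star z)) := by
  funext i
  have hz' : -star z ∈ φ.map.target := (hm.target z).mp hz
  let R : ℂ →L[ℝ] ℂ := -(Complex.conjCLE : ℂ ≃L[ℝ] ℂ).toContinuousLinearMap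
  have hR : ∀ w, R w = -star w := fun w => rfl
  have hmaps : MapsTo R φ'.map.target φ.map.target := fun w hw => (hm.target w).mp hw
  have h1 : HasFDerivWithinAt (loc φ (e i)) (fderivWithin ℝ (loc φ (e i)) φ.map.target (R z))
      φ.map.target (R z) := (diffAt (h i) hφ hz').hasFDerivWithinAt
  have h2 := h1.comp z R.hasFDerivWithinAt hmaps
  have h3 : HasFDerivWithinAt (loc φ' (e i))
      ((fderivWithin ℝ (loc φ (e i)) φ.map.target (R z)).comp R) φ'.map.target z := by
    refine h2.congr (fun w hw => ?_) ?_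
    · unfold loc
      rw [hm.symm w hw]
      rfl
    · unfold loc
      rw [hm.symm z hz]
      rfl
  have h4 := h3.fderivWithin (uniqueDiffOn φ' z hz)
  have h5 : dx φ' (e i) z = -dx φ (e i) (-star z) := by
    unfold dx
    rw [h4, ← hR z]
    change fderivWithin ℝ (loc φ (e i)) φ.map.target (R z) (R 1) = _
    have : R 1 = -1 := by
      rw [hR]
      simp
    rw [this, map_neg]
  have h6 : dy φ' (e i) z = dy φ (e i) (-star z) := by
    unfold dy
    rw [h4, ← hR z]
    change fderivWithin ℝ (loc φ (e i)) φ.map.target (R z) (R Complex.I) = _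
    have : R Complex.I = Complex.I := by
      rw [hR]
      simp
    rw [this]
  change (dx φ' (e i) z : ℂ) - Complex.I * (dy φ' (e i) z : ℂ) =
    -star ((dx φ (e i) (-star z) : ℂ) - Complex.I * (dy φ (e i) (-star z) : ℂ))
  rw [h5, h6]
  apply Complex.ext
  · simp
  · simp

end Stek.Sv
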