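import Pool.Agent.H.MP_fc2485_gt.Sv.OdeA

/-!
Uniqueness for the flat system on convex sets, and on arcs of the real axis.
-/

set_option maxSynthPendingDepth 3

open Set Filter Topology

namespace Stek.Sv

theorem convex_Rect (a b c d : ℝ) : Convex ℝ (Rect a b c d) := by
  rw [Rect_eq_rect]
  exact convex_rect

theorem isCompact_Rect (a b c d : ℝ) : IsCompact (Rect a b c d) := by
  rw [Rect_eq_rect]
  exact isCompact_rect

theorem IsSol.mono {m : ℕ} {G : Bl m} {F : ℂ → V m} {K K' : Set ℂ} {Y : ℂ → V m} {E : ℂ → ℂ}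
    (h : IsSol G F K Y E) (hK : K' ⊆ K) : IsSol G F K' Y E :=
  ⟨fun z hz => (h.dY z (hK hz)).mono hK, fun z hz => (h.dE z (hK hz)).mono hK⟩

theorem IsSol.smul {m : ℕ} {G : Bl m} {F : ℂ → V m} {K : Set ℂ} {Y : ℂ → V m} {E : ℂ → ℂ}
    (h : IsSol G F K Y E) (t : ℂ) : IsSol G F K (fun z => t • Y z) (fun z => t * E z) :=
  isSol_iff.mpr ((isSol_iff.mp h).smul t)

theorem IsSol.sub {m : ℕ} {G : Bl m} {F : ℂ → V m} {K : Set ℂ} {Y Y' : ℂ → V m} {E E' : ℂ → ℂ}
    (h : IsSol G F K Y E) (h' : IsSol G F K Y' E') :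
    IsSol G F K (fun z => Y z - Y' z) (fun z => E z - E' z) :=
  isSol_iff.mpr ((isSol_iff.mp h).sub (isSol_iff.mp h'))

theorem ode_unique {m : ℕ} {G : Bl m} {F : ℂ → V m} {K : Set ℂ} (hK : Convex ℝ K)
    (hF : ContinuousOn F K) {Y Y' : ℂ → V m} {E E' : ℂ → ℂ} (h : IsSol G F K Y E)
    (h' : IsSol G F K Y' E') {z1 : ℂ} (hz1 : z1 ∈ K) (hY : Y z1 = Y' z1) (hE : E z1 = E' z1) :
    ∀ z ∈ K, Y z = Y' z ∧ E z = E' z := by
  intro z hz
  have h1 := (isSol_iff.mp h).eq_of_eq (isSol_iff.mp h') hK (odeA_cont G hF) hz1 hz (by rw [hY, hE])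
  exact ⟨congrArg Prod.fst h1, congrArg Prod.snd h1⟩

/-- uniqueness along the real axis -/
theorem ode_unique_real {m : ℕ} {G : Bl m} {F : ℝ → V m} {a b : ℝ} (hF : ContinuousOn F (Icc a b))
    {Y Y' : ℝ → V m} {E E' : ℝ → ℂ}
    (h1 : ∀ t ∈ Icc a b, HasDerivWithinAt Y (E t • F t) (Icc a b) t)
    (h2 : ∀ t ∈ Icc a b, HasDerivWithinAt E (G (Y t) (F t)) (Icc a b) t)
    (h3 : ∀ t ∈ Icc a b, HasDerivWithinAt Y' (E' t • F t) (Icc a b) t)
    (h4 : ∀ t ∈ Icc a b, HasDerivWithinAt E' (G (Y' t) (F t)) (Icc a b) t) {t1 : ℝ}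
    (ht1 : t1 ∈ Icc a b) (hY : Y t1 = Y' t1) (hE : E t1 = E' t1) :
    ∀ t ∈ Icc a b, Y t = Y' t ∧ E t = E' t := by
  -- the difference, in the product space
  let B : ℝ → (V m × ℂ) →L[ℂ] (V m × ℂ) := fun t => LinearMap.toContinuousLinearMap (odeL G) (F t)
  have hB : ∀ t x, B t x = (x.2 • F t, G x.1 (F t)) := by
    intro t x
    simp [B, odeL]
  have hBc : ContinuousOn B (Icc a b) :=
    (LinearMap.toContinuousLinearMap (odeL G)).continuous.comp_continuousOn hF
  let D : ℝ → V m × ℂ := fun t => (Y t - Y' t, E t - E' t)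
  have hD : ∀ t ∈ Icc a b, HasDerivWithinAt D (B t (D t)) (Icc a b) t := by
    intro t ht
    rw [hB]
    have e1 := ((h1 t ht).sub (h3 t ht)).prodMk ((h2 t ht).sub (h4 t ht))
    refine e1.congr_deriv ?_
    simp only [D, sub_smul, map_sub, _root_.sub_apply]
  obtain ⟨M, hM⟩ := isCompact_Icc.exists_bound_of_continuousOn hBc
  have hD0 : D t1 = 0 := by
    simp [D, hY, hE]
  have hbd : ∀ t ∈ Icc a b, ‖B t (D t)‖ ≤ M * ‖D t‖ := fun t ht =>
    ((B t).le_opNorm _).trans (mul_le_mul_of_nonneg_right (hM t ht) (norm_nonneg _))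
  have key : ∀ t ∈ Icc a b, D t = 0 := by
    intro t ht
    rcases le_total t1 t with h | h
    · have hgr := norm_le_gronwallBound_of_norm_deriv_right_le (f := D)
        (f' := fun t => B t (D t)) (δ := 0) (K := M) (ε := 0) (a := t1) (b := t)
        (fun s hs => ((hD s ⟨ht1.1.trans hs.1, hs.2.trans ht.2⟩).mono
          (Icc_subset_Icc ht1.1 ht.2)).continuousWithinAt)
        (fun s hs => (hD s ⟨ht1.1.trans hs.1, hs.2.le.trans ht.2⟩).mono_of_mem_nhdsWithin
          (Icc_mem_nhdsGE_of_mem ⟨ht1.1.trans hs.1, hs.2.trans_le ht.2⟩))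
        (by rw [hD0, norm_zero])
        (fun s hs => by
          rw [add_zero]
          exact hbd s ⟨ht1.1.trans hs.1, hs.2.le.trans ht.2⟩)
        t ⟨h, le_rfl⟩
      rw [gronwallBound_ε0_δ0] at hgr
      exact norm_le_zero_iff.mp hgr
    · -- reversed time
      have hneg : ∀ s ∈ Icc (-t1) (-t), -s ∈ Icc a b := fun s hs =>
        ⟨by linarith [hs.2, ht.1], by linarith [hs.1, ht1.2]⟩
      have hDn : ∀ s ∈ Icc (-b) (-a), HasDerivWithinAt (fun s => D (-s)) (-(B (-s) (D (-s))))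
          (Icc (-b) (-a)) s := by
        intro s hs
        have e1 : HasDerivWithinAt (fun s : ℝ => -s) (-1) (Icc (-b) (-a)) s :=
          (hasDerivAt_neg s).hasDerivWithinAt
        have e2 := (hD (-s) ⟨by linarith [hs.2], by linarith [hs.1]⟩).scomp s e1 (by
          intro r hr
          exact ⟨by linarith [hr.2], by linarith [hr.1]⟩)
        exact e2.congr_deriv (by simp)
      have hgr := norm_le_gronwallBound_of_norm_deriv_right_le (f := fun s => D (-s))
        (f' := fun s => -(B (-s) (D (-s)))) (δ := 0) (K := M) (ε := 0) (a := -t1) (b := -t)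
        (fun s hs => ((hDn s ⟨by linarith [hs.1, ht1.2], by linarith [hs.2, ht.1]⟩).mono
          (Icc_subset_Icc (by linarith [ht1.2]) (by linarith [ht.1]))).continuousWithinAt)
        (fun s hs => (hDn s ⟨by linarith [hs.1, ht1.2],
          by linarith [hs.2, ht.1]⟩).mono_of_mem_nhdsWithin
          (Icc_mem_nhdsGE_of_mem ⟨by linarith [hs.1, ht1.2], by linarith [hs.2, ht.1]⟩))
        (by rw [neg_neg, hD0, norm_zero])
        (fun s hs => by
          rw [add_zero, norm_neg]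
          exact hbd _ (hneg s (Ico_subset_Icc_self hs)))
        (-t) ⟨by linarith, le_rfl⟩
      rw [gronwallBound_ε0_δ0, neg_neg] at hgr
      exact norm_le_zero_iff.mp hgr
  intro t ht
  have h := key t ht
  exact ⟨sub_eq_zero.mp (congrArg Prod.fst h), sub_eq_zero.mp (congrArg Prod.snd h)⟩

end Stek.Sv
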