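import Pool.Agent.H.MP_fc2485_gt.Sv.Grad

/-!
The set of the Gram forms is compact.
-/

set_option maxSynthPendingDepth 3

open Set Filter Topology InnerProductSpace
open scoped ContDiff

namespace Stek.Sv

open Stek Surface

variable {S : Type*} [TopologicalSpace S]

private theorem comp_key [ConnectedSpace S] {M : Surface S} {σ : ℝ} {m : ℕ} {e : Fin m → S → ℝ}
    (he : ∀ i, M.IsSteklov σ (e i)) (hi : LinearIndependent ℝ e) {φ : Chart S}
    (hφ : φ ∈ M.charts) {t0 : ℝ} (ht0 : (t0 : ℂ) ∈ φ.map.target) (r : Fin m → ℝ)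
    (hr : ∀ᶠ t : ℝ in 𝓝 t0, ∑ i, r i * e i (φ.map.symm (t : ℂ)) = 0) (i : Fin m) : r i = 0 := by
  have hfS : (∑ i, r i • e i) ∈ M.eigenspace σ :=
    Submodule.sum_mem _ fun i _ => Submodule.smul_mem _ _ (he i)
  have hfS' : M.IsSteklov σ (∑ i, r i • e i) := hfS
  have h1 : ∀ᶠ t : ℝ in 𝓝 t0, loc φ (∑ i, r i • e i) t = 0 := by
    filter_upwards [hr] with t ht
    rw [← ht, loc, Finset.sum_apply]
    rfl
  have h2 := uc_global hfS' (uc_near hfS' hφ ht0 h1)
  exact Fintype.linearIndependent_iff.1 hi r h2 i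

/-- the values at boundary points span (uc_near, uc_global) -/
theorem span_uv [ConnectedSpace S] {M : Surface S} {σ : ℝ} {m : ℕ} {e : Fin m → S → ℝ}
    (he : ∀ i, M.IsSteklov σ (e i)) (hi : LinearIndependent ℝ e) {φ : Chart S}
    (hφ : φ ∈ M.charts) {t0 : ℝ} (ht0 : (t0 : ℂ) ∈ φ.map.target) (ξ : V m →L[ℂ] ℂ)
    (hξ : ∀ᶠ t : ℝ in 𝓝 t0, ξ (uv e (φ.map.symm (t : ℂ))) = 0) : ξ = 0 := by
  have hv : ∀ v : V m, ξ v = ∑ i, ξ (Pi.single i 1) * v i := by
    intro v
    have h1 : v = ∑ i, v i • (Pi.single i 1 : V m) := by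
      have := pi_eq_sum_univ' v
      rw [this]
      simp [Pi.single_apply, Finset.sum_apply]
    conv_lhs => rw [h1]
    rw [map_sum]
    refine Finset.sum_congr rfl fun i _ => ?_
    rw [map_smul, smul_eq_mul, mul_comm]
  have hre : ∀ i, (ξ (Pi.single i 1)).re = 0 := by
    refine comp_key he hi hφ ht0 _ ?_
    filter_upwards [hξ] with t ht
    have h1 := congrArg Complex.re ht
    rw [hv, Complex.re_sum] at h1
    rw [← h1.trans Complex.zero_re]
    refine Finset.sum_congr rfl fun i _ => ?_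
    simp [uv]
  have him : ∀ i, (ξ (Pi.single i 1)).im = 0 := by
    refine comp_key he hi hφ ht0 _ ?_
    filter_upwards [hξ] with t ht
    have h1 := congrArg Complex.im ht
    rw [hv, Complex.im_sum] at h1
    rw [← h1.trans Complex.zero_im]
    refine Finset.sum_congr rfl fun i _ => ?_
    simp [uv]
  ext v
  rw [hv, ContinuousLinearMap.zero_apply]
  refine Finset.sum_eq_zero fun i _ => ?_
  have h1 : ξ (Pi.single i 1) = 0 := Complex.ext (hre i) (him i)
  rw [h1, zero_mul]

private theorem comp_eval {m : ℕ} (v w : V m) : Continuous fun Q : Bl m => Q v w :=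
  (ContinuousLinearMap.apply ℂ ℂ w).continuous.comp
    (ContinuousLinearMap.apply ℂ (V m →L[ℂ] ℂ) v).continuous

private theorem comp_closed {M : Surface S} {m : ℕ} {e : Fin m → S → ℝ} :
    IsClosed {Q : Bl m | InK M e Q} := by
  have h : {Q : Bl m | InK M e Q} =
      (⋂ v : V m, ⋂ w : V m, {Q : Bl m | Q v w = Q w v}) ∩
      ((⋂ v : V m, ⋂ w : V m, {Q : Bl m | Q (star v) (star w) = star (Q v w)}) ∩
      ((⋂ v : V m, {Q : Bl m | 0 ≤ (Q (star v) v).re}) ∩
      ((⋂ x ∈ M.bdry, {Q : Bl m | Q (uv e x) (uv e x) = 1}) ∩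
      ⋂ φ ∈ M.charts, ⋂ z ∈ φ.map.target, {Q : Bl m | Q (Fv φ e 0 z) (Fv φ e 0 z) = 0}))) := by
    ext Q
    simp only [mem_setOf_eq, mem_inter_iff, mem_iInter]
    exact ⟨fun h => ⟨h.symm, h.real, h.nonneg, h.sphere, h.conf⟩,
      fun h => ⟨h.1, h.2.1, h.2.2.1, h.2.2.2.1, h.2.2.2.2⟩⟩
  rw [h]
  refine IsClosed.inter ?_ (IsClosed.inter ?_ (IsClosed.inter ?_ (IsClosed.inter ?_ ?_)))
  · exact isClosed_iInter fun v => isClosed_iInter fun w =>
      isClosed_eq (comp_eval v w) (comp_eval w v)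
  · exact isClosed_iInter fun v => isClosed_iInter fun w =>
      isClosed_eq (comp_eval _ _) (continuous_star.comp (comp_eval v w))
  · exact isClosed_iInter fun v =>
      isClosed_le continuous_const (Complex.continuous_re.comp (comp_eval _ _))
  · exact isClosed_iInter fun x => isClosed_iInter fun _ =>
      isClosed_eq (comp_eval _ _) continuous_const
  · exact isClosed_iInter fun φ => isClosed_iInter fun _ => isClosed_iInter fun z =>
      isClosed_iInter fun _ => isClosed_eq (comp_eval _ _) continuous_const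

/-- Cauchy-Schwarz for two unit vectors -/
private theorem comp_cs {m : ℕ} {Q : Bl m} (hs : ∀ v w, Q v w = Q w v)
    (hr : ∀ v w, Q (star v) (star w) = star (Q v w)) (hn : ∀ v, 0 ≤ (Q (star v) v).re)
    {v w : V m} (sv : star v = v) (sw : star w = w) (hv : Q v v = 1) (hw : Q w w = 1) :
    ‖Q v w‖ ≤ 1 := by
  have h1 := hn (v + w)
  have h2 := hn (v - w)
  rw [star_add, sv, sw] at h1
  rw [star_sub, sv, sw] at h2
  have e1 : Q (v + w) (v + w) = 2 + 2 * Q v w := by
    have h5 : Q (v + w) = Q v + Q w := map_add Q v w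
    rw [h5, ContinuousLinearMap.add_apply, map_add, map_add, hv, hw, hs w v]
    ring
  have e2 : Q (v - w) (v - w) = 2 - 2 * Q v w := by
    have h5 : Q (v - w) = Q v - Q w := map_sub Q v w
    rw [h5, ContinuousLinearMap.sub_apply, map_sub, map_sub, hv, hw, hs w v]
    ring
  rw [e1] at h1
  rw [e2] at h2
  have h3 : star (Q v w) = Q v w := by
    rw [← hr v w, sv, sw]
  have h4 : ((Q v w).re : ℂ) = Q v w := Complex.conj_eq_iff_re.1 h3
  rw [← h4, Complex.norm_real, Real.norm_eq_abs, abs_le]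
  simp only [Complex.add_re, Complex.sub_re, Complex.mul_re, Complex.re_ofNat, Complex.im_ofNat,
    zero_mul, sub_zero] at h1 h2
  constructor
  · linarith
  · linarith

private theorem comp_basis [ConnectedSpace S] {M : Surface S} {σ : ℝ} {m : ℕ} {e : Fin m → S → ℝ}
    (he : ∀ i, M.IsSteklov σ (e i)) (hi : LinearIndependent ℝ e) (hb : M.bdry.Nonempty) :
    ∃ (ι : Type) (_ : Fintype ι) (b : Module.Basis ι ℂ (V m)),
      ∀ i, ∃ x ∈ M.bdry, uv e x = b i := by
  obtain ⟨s, hs⟩ : ∃ s : Set (V m), s = {v | ∃ x ∈ M.bdry, uv e x = v} := ⟨_, rfl⟩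
  have hspan : ⊤ ≤ Submodule.span ℂ s := by
    by_contra hcon
    obtain ⟨f, hf, hk⟩ := Submodule.exists_le_ker_of_lt_top (Submodule.span ℂ s)
      (lt_top_iff_ne_top.2 fun h => hcon h.ge)
    obtain ⟨p, φ, hφ, hps, him⟩ := hb
    have hx0p : (((φ.map p).re : ℝ) : ℂ) = φ.map p := by
      apply Complex.ext
      · simp
      · simpa using him.symm
    have hxt : (((φ.map p).re : ℝ) : ℂ) ∈ φ.map.target := by
      rw [hx0p]
      exact φ.map.map_source hps
    have h1 := span_uv he hi hφ hxt (LinearMap.toContinuousLinearMap f) (by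
      filter_upwards [real_mem_nhds φ hxt] with t ht
      have h2 : uv e (φ.map.symm (t : ℂ)) ∈ s := by
        rw [hs]
        refine ⟨_, ⟨φ, hφ, φ.map.map_target ht, ?_⟩, rfl⟩
        rw [φ.map.right_inv ht]
        simp
      exact hk (Submodule.subset_span h2))
    apply hf
    ext v
    have h3 := congrArg (fun g : V m →L[ℂ] ℂ => g (Pi.single v 1)) h1
    simpa using h3
  have hsub := Module.Basis.ofSpan_subset hspan
  have hmem : ∀ v ∈ s, ∃ x ∈ M.bdry, uv e x = v := by
    rw [hs]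
    exact fun v hv => hv
  exact ⟨_, FiniteDimensional.fintypeBasisIndex (Module.Basis.ofSpan hspan),
    Module.Basis.ofSpan hspan, fun i => hmem _ (hsub (mem_range_self i))⟩

/-- the set of Gram forms is compact -/
theorem isCompact_K [ConnectedSpace S] {M : Surface S} {σ : ℝ} {m : ℕ} {e : Fin m → S → ℝ}
    (he : ∀ i, M.IsSteklov σ (e i)) (hi : LinearIndependent ℝ e) (hb : M.bdry.Nonempty) :
    IsCompact {Q : Bl m | InK M e Q} := by
  obtain ⟨ι, _, b, hbm⟩ := comp_basis he hi hb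
  let T : Bl m →ₗ[ℂ] (ι → ι → ℂ) :=
    { toFun := fun Q i j => Q (b i) (b j)
      map_add' := fun Q Q' => rfl
      map_smul' := fun c Q => rfl }
  have hker : LinearMap.ker T = ⊥ := by
    rw [LinearMap.ker_eq_bot']
    intro Q hQ
    have h1 : ∀ i j, Q (b i) (b j) = 0 := fun i j => congrFun (congrFun hQ i) j
    have h2 : ∀ i, (Q (b i) : V m →ₗ[ℂ] ℂ) = 0 := fun i => b.ext fun j => h1 i j
    have h3 : (Q : V m →ₗ[ℂ] (V m →L[ℂ] ℂ)) = 0 := b.ext fun i => by
      ext v
      exact congrArg (fun g : V m →ₗ[ℂ] ℂ => g v) (h2 i)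
    ext v w
    exact congrArg (fun g : V m →ₗ[ℂ] (V m →L[ℂ] ℂ) => g v w) h3
  obtain ⟨K, -, hK⟩ := T.exists_antilipschitzWith hker
  have hbd : Bornology.IsBounded {Q : Bl m | InK M e Q} := by
    refine (hK.isBounded_preimage (Metric.isBounded_closedBall (x := (0 : ι → ι → ℂ))
      (r := 1))).subset fun Q hQ => ?_
    have hQ' : InK M e Q := hQ
    rw [mem_preimage, mem_closedBall_zero_iff, pi_norm_le_iff_of_nonneg zero_le_one]
    intro i
    rw [pi_norm_le_iff_of_nonneg zero_le_one]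
    intro j
    obtain ⟨x, hx, hxi⟩ := hbm i
    obtain ⟨y, hy, hyj⟩ := hbm j
    change ‖Q (b i) (b j)‖ ≤ 1
    have hst : ∀ x, star (uv e x) = uv e x := by
      intro x
      funext k
      simp [uv]
    rw [← hxi, ← hyj]
    exact comp_cs hQ'.symm hQ'.real hQ'.nonneg (hst x) (hst y) (hQ'.sphere x hx) (hQ'.sphere y hy)
  haveI : ProperSpace (Bl m) := FiniteDimensional.proper ℂ (Bl m)
  exact Metric.isCompact_of_isClosed_isBounded comp_closed hbd

end Stek.Sv
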