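import Pool.Agent.H.MP_fc2485_gt.Sv.Link
import Pool.Agent.H.MP_fc2485_gt.Sv.Comp

/-!
Identities for reachable solutions: they hold on the real side of a base cell and are transported
by links (link_germ for the link in the other direction gives them on a disc of the new cell, then
uniq_open).
-/

set_option maxSynthPendingDepth 3

open Set Filter Topology InnerProductSpace
open scoped ContDiff

namespace Stek.Sv

open Stek Surface GCell

variable {S : Type*} [TopologicalSpace S] {M : Surface S} {σ : ℝ} {m : ℕ} {e : Fin m → S → ℝ}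
  {G : Bl m}

/-- derivative of a bilinear expression along a real curve -/
theorem Props_bil_real (Q : Bl m) {f g : ℝ → V m} {f' g' : V m} {t : ℝ} (hf : HasDerivAt f f' t)
    (hg : HasDerivAt g g' t) :
    HasDerivAt (fun t => Q (f t) (g t)) (Q f' (g t) + Q (f t) g') t := by
  have h1 := ((Q.isBoundedBilinearMap.hasFDerivAt (f t, g t)).restrictScalars ℝ).comp_hasDerivAt t
    (hf.prodMk hg)
  refine h1.congr_deriv ?_
  simp [IsBoundedBilinearMap.deriv, add_comm]

/-- boundary points near a real point of the target -/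
theorem Props_mem_bdry {φ : Chart S} (hφ : φ ∈ M.charts) {t : ℝ}
    (ht : (t : ℂ) ∈ φ.map.target) : φ.map.symm (t : ℂ) ∈ M.bdry := by
  refine ⟨φ, hφ, φ.map.map_target ht, ?_⟩
  rw [φ.map.right_inv ht]
  simp

/-- on the real axis: `Q(u,F) = i σ ρ τ` -/
theorem B_uF (he : ∀ i, M.IsSteklov σ (e i)) {Q : Bl m} {τ : ℂ} (hQ : InB M e Q τ) {φ : Chart S}
    (hφ : φ ∈ M.charts) {t : ℝ} (ht : (t : ℂ) ∈ φ.map.target) :
    Q (uv e (φ.map.symm t)) (Fv φ e 0 t) = Complex.I * (σ * φ.ρ t) * τ := by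
  have h1 := hasDerivAt_uv he hφ ht
  have h2 := Props_bil_real Q h1 h1
  have h3 : ∀ᶠ s : ℝ in 𝓝 t, Q (uv e (φ.map.symm (s : ℂ))) (uv e (φ.map.symm (s : ℂ))) = τ := by
    filter_upwards [real_mem_nhds φ ht] with s hs
    exact hQ.sphere _ (Props_mem_bdry hφ hs)
  have h4 : HasDerivAt (fun s : ℝ => Q (uv e (φ.map.symm (s : ℂ))) (uv e (φ.map.symm (s : ℂ)))) 0
      t := (hasDerivAt_const t τ).congr_of_eventuallyEq h3
  have h5 := h2.unique h4
  have h6 := h3.self_of_nhds
  rw [hQ.symm _ (uv e (φ.map.symm (t : ℂ)))] at h5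
  simp only [map_sub, map_smul, smul_eq_mul, h6] at h5
  linear_combination (1 / 2) * h5

theorem Props_ne (c : GCell M e G) {z : ℂ} {r : ℝ} (hr : 0 < r) (hz : z ∈ c.O) :
    (Metric.ball z r ∩ RectI c.a c.b c.c c.d).Nonempty := ⟨z, Metric.mem_ball_self hr, hz⟩

theorem Props_real {a b d : ℝ} {z : ℂ} (hz : z ∈ Rect a b 0 d ∧ z.im = 0) :
    ((z.re : ℝ) : ℂ) = z ∧ z.re ∈ Icc a b := by
  refine ⟨?_, hz.1.1, hz.1.2.1⟩
  apply Complex.ext
  · simp
  · simpa using hz.2.symm

theorem Props_niceF (H : Ctx M σ e G) (c : GCell M e G) :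
    Nice (Rect c.a c.b c.c c.d) (RectI c.a c.b c.c c.d) (Fv c.φ e 0) :=
  nice_Fv H.mem c.hφ 0 c.sub

theorem Props_niceY (c : GCell M e G) :
    Nice (Rect c.a c.b c.c c.d) (RectI c.a c.b c.c c.d) c.Y :=
  c.sol.niceY (isOpen_RectI _ _ _ _) (RectI_sub _ _ _ _)

theorem Props_niceE (c : GCell M e G) :
    Nice (Rect c.a c.b c.c c.d) (RectI c.a c.b c.c c.d) c.E :=
  c.sol.niceE (isOpen_RectI _ _ _ _) (RectI_sub _ _ _ _)

/-- the scheme of the transport of identities -/
theorem Props_transport (H : Ctx M σ e G) {C : Set S} (P : (c : GCell M e G) → ℂ → ℂ)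
    (hn : ∀ c : GCell M e G, Nice (Rect c.a c.b c.c c.d) (RectI c.a c.b c.c c.d) (P c))
    (hb : ∀ c : GCell M e G, c.IsBase C → ∀ t ∈ Icc c.a c.b, P c (t : ℂ) = 0)
    (hl : ∀ (c c' : GCell M e G) (z z' a : ℂ), c'.Y z' = c.Y z → c'.E z' = c.E z →
      Fv c'.φ e 0 z' = a • Fv c.φ e 0 z → P c z = 0 → P c' z' = 0)
    {c : GCell M e G} (hc : Reach C c) : ∀ z ∈ c.K, P c z = 0 := by
  induction hc with
  | @base c hcb =>
    apply (uniq_bottom c.hab c.hcd).2 _ (hn c)
    intro z hz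
    have h0 : c.c = 0 := hcb.1
    have hz' : z ∈ Rect c.a c.b 0 c.d ∧ z.im = 0 := by
      have := hz
      rw [h0] at this
      exact this
    obtain ⟨h1, h2⟩ := Props_real hz'
    have := hb c hcb z.re h2
    rwa [h1] at this
  | @step c c1 x _ hlink ih =>
    obtain ⟨r, hT, h1⟩ := link_germ H (link_symm H hlink)
    have hx : c1.φ.map x ∈ c1.O := hlink.2.2.2.1
    apply (uniq_open c1.hab c1.hcd Metric.isOpen_ball (Props_ne c1 hT.hr hx)).2 _ (hn c1)
    intro z hz
    obtain ⟨-, h3, h4, h5, h6⟩ := h1 z hz.1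
    exact hl c c1 _ z _ h4 h5 h6 (ih _ (RectI_sub _ _ _ _ h3))

theorem good (H : Ctx M σ e G) {C : Set S} (hC : C ⊆ M.bdry) {c : GCell M e G}
    (hc : Reach C c) {Q : Bl m} {τ : ℂ} (hQ : InB M e Q τ) :
    ∀ z ∈ c.K, Q (c.Y z) (Fv c.φ e 0 z) = τ * G (c.Y z) (Fv c.φ e 0 z) := by
  have key := Props_transport H (C := C)
    (fun c z => Q (c.Y z) (Fv c.φ e 0 z) - τ * G (c.Y z) (Fv c.φ e 0 z))
    (fun c => ((Props_niceY c).bil Q (Props_niceF H c)).sub
      (by
        have := (Nice.const _ _ τ).smul ((Props_niceY c).bil G (Props_niceF H c))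
        simpa only [smul_eq_mul] using this)) ?_ ?_ hc
  · intro z hz
    exact sub_eq_zero.mp (key z hz)
  · intro c hcb t ht
    obtain ⟨h1, h2, h3⟩ := hcb.2 t ht
    have ht' : (t : ℂ) ∈ c.φ.map.target := by
      apply c.sub
      refine ⟨by simpa using ht.1, by simpa using ht.2, ?_, ?_⟩
      · rw [hcb.1]; simp
      · have := c.hcd
        rw [hcb.1] at this
        simpa using this.le
    have h4 := B_uF H.mem hQ c.hφ ht'
    have h5 := B_uF H.mem H.inK.inB c.hφ ht'
    simp only [h2, map_smul, smul_apply, smul_eq_mul, h4, h5]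
    ring
  · intro c c' z z' a h1 h2 h3 h4
    rw [h1, h3]
    simp only [map_smul, smul_eq_mul]
    linear_combination a * h4

theorem quad (H : Ctx M σ e G) {C : Set S} (hC : C ⊆ M.bdry) {c : GCell M e G}
    (hc : Reach C c) {Q : Bl m} {τ : ℂ} (hQ : InB M e Q τ) :
    ∀ z ∈ c.K, Q (c.Y z) (c.Y z) = τ * c.E z ^ 2 := by
  have key := Props_transport H (C := C)
    (fun c z => Q (c.Y z) (c.Y z) - τ * c.E z ^ 2)
    (fun c => ((Props_niceY c).bil Q (Props_niceY c)).sub
      (by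
        have := (Nice.const _ _ τ).smul ((Props_niceE c).smul (Props_niceE c))
        simpa only [smul_eq_mul, sq] using this)) ?_ ?_ hc
  · intro z hz
    exact sub_eq_zero.mp (key z hz)
  · intro c hcb t ht
    obtain ⟨h1, h2, h3⟩ := hcb.2 t ht
    have h4 := hQ.sphere _ (hC h1)
    simp only [h2, map_smul, smul_apply, smul_eq_mul, h4]
    ring
  · intro c c' z z' a h1 h2 h3 h4
    rw [h1, h2]
    exact h4

theorem Props_span [ConnectedSpace S] (H : Ctx M σ e G) {C : Set S}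
    {c : GCell M e G} (hc : Reach C c) : ∀ ξ : V m →L[ℂ] ℂ, (∀ z ∈ c.K, ξ (c.Y z) = 0) → ξ = 0 := by
  induction hc with
  | @base c hcb =>
    intro ξ hξ
    have hmid : (c.a + c.b) / 2 ∈ Ioo c.a c.b := by
      have := c.hab
      constructor <;> linarith
    have hmem : ∀ t ∈ Icc c.a c.b, (t : ℂ) ∈ Rect c.a c.b c.c c.d := by
      intro t ht
      refine ⟨by simpa using ht.1, by simpa using ht.2, ?_, ?_⟩
      · rw [hcb.1]; simp
      · have := c.hcd
        rw [hcb.1] at this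
        simpa using this.le
    apply span_uv H.mem H.ind c.hφ (t0 := (c.a + c.b) / 2)
      (c.sub (hmem _ (Ioo_subset_Icc_self hmid)))
    filter_upwards [Ioo_mem_nhds hmid.1 hmid.2] with t ht
    have ht' := Ioo_subset_Icc_self ht
    obtain ⟨-, h2, h3⟩ := hcb.2 t ht'
    have h4 := hξ t (hmem t ht')
    rw [h2, map_smul, smul_eq_mul] at h4
    refine (mul_eq_zero.mp h4).resolve_left ?_
    intro h0
    rw [h0, norm_zero] at h3
    exact zero_ne_one h3
  | @step c c1 x _ hlink ih =>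
    intro ξ hξ
    apply ih
    obtain ⟨r, hT, h1⟩ := link_germ H hlink
    have hx : c.φ.map x ∈ c.O := hlink.2.2.1
    apply (uniq_open c.hab c.hcd Metric.isOpen_ball (Props_ne c hT.hr hx)).2 _
      ((Props_niceY c).clm ξ)
    intro z hz
    obtain ⟨-, h3, h4, -, -⟩ := h1 z hz.1
    rw [h4]
    exact hξ _ (RectI_sub _ _ _ _ h3)

/-- the solution spans (base cell: `ξ(u) = 0` on an arc, uc_near and uc_global of Geo.lean) -/
theorem spanning [ConnectedSpace S] (H : Ctx M σ e G) {C : Set S} (hC : C ⊆ M.bdry)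
    {c : GCell M e G} (hc : Reach C c) {z : ℂ} {r : ℝ} (hr : 0 < r)
    (hb : Metric.ball z r ⊆ c.O) (ξ : V m →L[ℂ] ℂ)
    (hξ : ∀ s ∈ Metric.ball z r, ξ (c.Y s) = 0) : ξ = 0 := by
  apply Props_span H hc
  apply (uniq_open c.hab c.hcd Metric.isOpen_ball
    (Props_ne c hr (hb (Metric.mem_ball_self hr)))).2 _ ((Props_niceY c).clm ξ)
  intro s hs
  exact hξ s hs.1

theorem IsCC.sub {C : Set S} (hC : IsCC M C) : C ⊆ M.bdry := by
  obtain ⟨p, -, rfl⟩ := hC
  exact connectedComponentIn_subset _ _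

end Stek.Sv
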