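import Pool.Agent.H.MP_fc2485_gt.Sv.OdeE
import Pool.Agent.H.MP_fc2485_gt.Sv.OdeU
import Pool.Agent.H.MP_fc2485_gt.Sv.Grad
import Pool.Agent.H.MP_fc2485_gt.Sv.Props

/-!
Small rectangles in charts on which the flat system can be solved, and the cells over boundary arcs.
-/

set_option maxSynthPendingDepth 3

open Set Filter Topology InnerProductSpace
open scoped ContDiff

namespace Stek.Sv

open Stek Surface

variable {S : Type*} [TopologicalSpace S]

/-- a small rectangle around `x` in the chart `ψ` on which the flat system can be solved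
(nice_Fv, continuity: `Fv ψ e 0` is bounded by `C` near `ψ x`, take the sides small, ode_exists) -/
theorem exists_rect {M : Surface S} {σ : ℝ} {m : ℕ} {e : Fin m → S → ℝ} {G : Bl m}
    (H : Ctx M σ e G) {ψ : Chart S} (hψ : ψ ∈ M.charts) {x : S} (hx : x ∈ ψ.map.source)
    {N : Set S} (hN : N ∈ 𝓝 x) :
    ∃ a b c d : ℝ, a < b ∧ c < d ∧ Rect a b c d ⊆ ψ.map.target ∧
      (∀ z ∈ Rect a b c d, ψ.map.symm z ∈ N) ∧
      (∀ᶠ y in 𝓝 x, y ∈ ψ.map.source ∧ ψ.map y ∈ Rect a b c d ∧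
        (0 < (ψ.map y).im → ψ.map y ∈ RectI a b c d)) ∧
      ((ψ.map x).im = 0 → c = 0 ∧ a < (ψ.map x).re ∧ (ψ.map x).re < b) ∧
      ∀ z1 ∈ Rect a b c d, ∀ (Y1 : V m) (E1 : ℂ), ∃ (Y : ℂ → V m) (E : ℂ → ℂ),
        IsSol G (Fv ψ e 0) (Rect a b c d) Y E ∧ Y z1 = Y1 ∧ E z1 = E1 := by
  set z0 := ψ.map x with hz0
  have ht : z0 ∈ ψ.map.target := ψ.map.map_source hx
  have ht' := ht
  rw [ψ.target_eq] at ht'
  have him : 0 ≤ z0.im := ht'.2
  have hsx : ψ.map.symm z0 = x := ψ.map.left_inv hx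
  have h1 : ∀ᶠ z in 𝓝[ψ.map.target] z0, ψ.map.symm z ∈ N := by
    have h2 : ContinuousWithinAt ψ.map.symm ψ.map.target z0 := ψ.cont_symm _ ht
    apply h2.eventually_mem
    rw [hsx]
    exact hN
  rw [eventually_nhdsWithin_iff] at h1
  have h3 : ∀ᶠ z in 𝓝 z0, z ∈ ψ.dom := ψ.dom_open.mem_nhds ht'.1
  obtain ⟨ε, hε, hb⟩ := Metric.eventually_nhds_iff.1 (h1.and h3)
  set δ := ε / 4 with hδ
  have hδp : 0 < δ := by positivity
  have hmax0 : (0 : ℝ) ≤ max 0 (z0.im - δ) := le_max_left _ _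
  have hmax1 : z0.im - δ ≤ max 0 (z0.im - δ) := le_max_right _ _
  have hnear : ∀ z ∈ Rect (z0.re - δ) (z0.re + δ) (max 0 (z0.im - δ)) (z0.im + δ),
      dist z z0 < ε ∧ 0 ≤ z.im := by
    rintro z ⟨h4, h5, h6, h7⟩
    refine ⟨?_, by linarith⟩
    rw [Complex.dist_eq]
    have h8 := Complex.norm_le_abs_re_add_abs_im (z - z0)
    have h9 : |(z - z0).re| ≤ δ := by
      rw [Complex.sub_re, abs_le]
      constructor <;> linarith
    have h10 : |(z - z0).im| ≤ δ := by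
      rw [Complex.sub_im, abs_le]
      constructor <;> linarith
    have : ε = 4 * δ := by rw [hδ]; ring
    linarith
  have hsub : Rect (z0.re - δ) (z0.re + δ) (max 0 (z0.im - δ)) (z0.im + δ) ⊆ ψ.map.target := by
    intro z hz
    obtain ⟨h4, h5⟩ := hnear z hz
    rw [ψ.target_eq]
    exact ⟨(hb h4).2, h5⟩
  refine ⟨z0.re - δ, z0.re + δ, max 0 (z0.im - δ), z0.im + δ, by linarith, ?_, hsub, ?_, ?_, ?_, ?_⟩
  · exact max_lt (by linarith) (by linarith)
  · intro z hz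
    exact (hb (hnear z hz).1).1 (hsub hz)
  · have h4 : ∀ᶠ y in 𝓝 x, y ∈ ψ.map.source := ψ.source_open.mem_nhds hx
    have h5 : ContinuousAt ψ.map x := (ψ.cont).continuousAt (ψ.source_open.mem_nhds hx)
    have h6 : ∀ᶠ y in 𝓝 x, ψ.map y ∈ Metric.ball z0 δ :=
      h5.eventually_mem (Metric.ball_mem_nhds _ hδp)
    filter_upwards [h4, h6] with y hy hy'
    have h7 : ψ.map y ∈ ψ.map.target := ψ.map.map_source hy
    rw [ψ.target_eq] at h7
    have h8 : 0 ≤ (ψ.map y).im := h7.2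
    rw [Metric.mem_ball, Complex.dist_eq] at hy'
    have h9 := (Complex.abs_re_le_norm (ψ.map y - z0)).trans_lt hy'
    have h10 := (Complex.abs_im_le_norm (ψ.map y - z0)).trans_lt hy'
    rw [Complex.sub_re, abs_lt] at h9
    rw [Complex.sub_im, abs_lt] at h10
    refine ⟨hy, ⟨by linarith, by linarith, max_le h8 (by linarith), by linarith⟩, fun h => ?_⟩
    exact ⟨by linarith, by linarith, max_lt h (by linarith), by linarith⟩
  · intro h
    refine ⟨?_, by linarith, by linarith⟩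
    rw [h]
    exact max_eq_left (by linarith)
  · intro z1 hz1 Y1 E1
    exact ode_exists' G (nice_Fv H.mem hψ 0 hsub) hz1 Y1 E1

theorem GCell.c_nonneg {M : Surface S} {m : ℕ} {e : Fin m → S → ℝ} {G : Bl m}
    (c : GCell M e G) : 0 ≤ c.c := by
  have h : (⟨c.a, c.c⟩ : ℂ) ∈ c.φ.map.target :=
    c.sub ⟨le_refl _, c.hab.le, le_refl _, c.hcd.le⟩
  rw [c.φ.target_eq] at h
  exact h.2

theorem GCell.im_pos {M : Surface S} {m : ℕ} {e : Fin m → S → ℝ} {G : Bl m}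
    (c : GCell M e G) {z : ℂ} (hz : z ∈ c.O) : 0 < z.im :=
  c.c_nonneg.trans_lt hz.2.2.1

theorem GCell.O_nonempty {M : Surface S} {m : ℕ} {e : Fin m → S → ℝ} {G : Bl m}
    (c : GCell M e G) : c.O.Nonempty := by
  refine ⟨⟨(c.a + c.b) / 2, (c.c + c.d) / 2⟩, ?_⟩
  have h1 := c.hab
  have h2 := c.hcd
  refine ⟨?_, ?_, ?_, ?_⟩ <;> dsimp only <;> linarith

/-- points of a cell in the interior are not boundary points -/
theorem GCell.not_bdry {M : Surface S} {m : ℕ} {e : Fin m → S → ℝ} {G : Bl m}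
    (c : GCell M e G) {x : S} (hx : x ∈ c.φ.map.source) (hz : c.φ.map x ∈ c.O) :
    x ∉ M.bdry := by
  rintro ⟨φ, hφ, hs, h0⟩
  have h1 := (M.bdry_iff φ hφ c.φ c.hφ x hs hx).1 h0
  exact (c.im_pos hz).ne' h1

/-- cells over boundary arcs: solve with `Y = u`, `E = 1` at `ψ p`; on the real side
`(E₀ u, E₀)` with `E₀' = i σ ρ E₀`, `|E₀| = 1`, is a solution of the system along the real axis
(hasDerivAt_uv, `G(u,u) = 1`, so `G(u,F) = i σ ρ`), hence equal to it by ode_unique_real.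
The small arc lies in the component by `arc_mem` of Main.lean. -/
theorem base_exists {M : Surface S} {σ : ℝ} {m : ℕ} {e : Fin m → S → ℝ} {G : Bl m}
    (H : Ctx M σ e G) {C : Set S} (hC : IsCC M C) {p : S} (hp : p ∈ C) {ψ : Chart S}
    (hψ : ψ ∈ M.charts) (hps : p ∈ ψ.map.source) {N : Set S} (hN : N ∈ 𝓝 p) :
    ∃ c : GCell M e G, c.φ = ψ ∧ c.IsBase C ∧ (∀ z ∈ c.K, ψ.map.symm z ∈ N) ∧
      (∀ᶠ y in 𝓝 p, y ∈ ψ.map.source ∧ ψ.map y ∈ c.K ∧
        (0 < (ψ.map y).im → ψ.map y ∈ c.O)) := by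
  obtain ⟨q, hq, rfl⟩ := hC
  have hpb : p ∈ M.bdry := connectedComponentIn_subset _ _ hp
  have him : (ψ.map p).im = 0 := by
    obtain ⟨φ, hφ, hs, h0⟩ := hpb
    exact (M.bdry_iff φ hφ ψ hψ p hs hps).1 h0
  obtain ⟨a, b, c, d, hab, hcd, hsub, hNr, hev, hre, hsol⟩ := exists_rect H hψ hps hN
  obtain ⟨rfl, hax, hxb⟩ := hre him
  set x0 : ℝ := (ψ.map p).re with hx0
  have hx0p : (x0 : ℂ) = ψ.map p := by
    apply Complex.ext
    · simp [hx0]
    · simpa using him.symm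
  have hmem : ∀ t ∈ Icc a b, (t : ℂ) ∈ Rect a b 0 d := by
    intro t ht
    refine ⟨?_, ?_, ?_, ?_⟩
    · simpa using ht.1
    · simpa using ht.2
    · simp
    · simpa using hcd.le
  have hmemT : ∀ t ∈ Icc a b, (t : ℂ) ∈ ψ.map.target := fun t ht => hsub (hmem t ht)
  have hx0I : x0 ∈ Icc a b := ⟨hax.le, hxb.le⟩
  have hsymm : ψ.map.symm (x0 : ℂ) = p := by
    rw [hx0p, ψ.map.left_inv hps]
  -- the arc is in the component
  have hcarc : ContinuousOn (fun t : ℝ => ψ.map.symm (t : ℂ)) (Icc a b) :=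
    ψ.cont_symm.comp Complex.continuous_ofReal.continuousOn hmemT
  have harc : ∀ t ∈ Icc a b, ψ.map.symm (t : ℂ) ∈ connectedComponentIn M.bdry q := by
    have h1 : IsPreconnected ((fun t : ℝ => ψ.map.symm (t : ℂ)) '' Icc a b) :=
      isPreconnected_Icc.image _ hcarc
    have h2 : (fun t : ℝ => ψ.map.symm (t : ℂ)) '' Icc a b ⊆ M.bdry := by
      rintro _ ⟨t, ht, rfl⟩
      exact Props_mem_bdry hψ (hmemT t ht)
    have h3 : p ∈ (fun t : ℝ => ψ.map.symm (t : ℂ)) '' Icc a b := ⟨x0, hx0I, hsymm⟩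
    have h4 := h1.subset_connectedComponentIn h3 h2
    rw [← connectedComponentIn_eq hp] at h4
    intro t ht
    exact h4 ⟨t, ht, rfl⟩
  -- the solution
  obtain ⟨Y, E, hS, hY1, hE1⟩ := hsol (x0 : ℂ) (hmem x0 hx0I) (uv e p) 1
  -- the phase
  have hρc : Continuous (fun s : Icc a b => ψ.ρ ((s : ℝ) : ℂ)) := by
    have h1 : ContinuousOn (fun s : ℝ => ψ.ρ (s : ℂ)) (Icc a b) :=
      ψ.ρ_smooth.continuousOn.comp Complex.continuous_ofReal.continuousOn hmemT
    exact continuousOn_iff_continuous_restrict.1 h1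
  set g : ℝ → ℝ := Set.IccExtend hab.le (fun s : Icc a b => ψ.ρ ((s : ℝ) : ℂ)) with hg
  have hgc : Continuous g := hρc.Icc_extend'
  have hgv : ∀ t ∈ Icc a b, g t = ψ.ρ (t : ℂ) := by
    intro t ht
    rw [hg, Set.IccExtend_of_mem hab.le _ ht]
  set J : ℝ → ℝ := fun t => ∫ s in x0..t, g s with hJ
  have hJd : ∀ t, HasDerivAt J (g t) t := fun t =>
    intervalIntegral.integral_hasDerivAt_right (hgc.intervalIntegrable _ _)
      (hgc.stronglyMeasurableAtFilter _ _) hgc.continuousAt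
  set E0 : ℝ → ℂ := fun t => Complex.exp (((σ * J t : ℝ) : ℂ) * Complex.I) with hE0
  have hE0d : ∀ t, HasDerivAt E0 (E0 t * (((σ * g t : ℝ) : ℂ) * Complex.I)) t := by
    intro t
    have h1 : HasDerivAt (fun t => σ * J t) (σ * g t) t := (hJd t).const_mul σ
    have h2 := (h1.ofReal_comp.mul_const Complex.I).cexp
    exact h2
  have hE0n : ∀ t, ‖E0 t‖ = 1 := fun t => Complex.norm_exp_ofReal_mul_I _
  have hE00 : E0 x0 = 1 := by
    simp [hE0, hJ]
  have hcF : ContinuousOn (fun t : ℝ => Fv ψ e 0 (t : ℂ)) (Icc a b) :=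
    (nice_Fv H.mem hψ 0 hsub).cont.comp Complex.continuous_ofReal.continuousOn hmem
  have hof : ∀ t : ℝ, HasDerivWithinAt (fun t : ℝ => (t : ℂ)) 1 (Icc a b) t := fun t => by
    simpa using (hasDerivAt_id t).ofReal_comp.hasDerivWithinAt
  have key := ode_unique_real (G := G) (F := fun t : ℝ => Fv ψ e 0 (t : ℂ)) hcF
    (Y := fun t : ℝ => Y (t : ℂ)) (E := fun t : ℝ => E (t : ℂ))
    (Y' := fun t : ℝ => E0 t • uv e (ψ.map.symm (t : ℂ))) (E' := E0) ?_ ?_ ?_ ?_ hx0I ?_ ?_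
  · refine ⟨⟨ψ, hψ, a, b, 0, d, hab, hcd, hsub, Y, E, hS⟩, rfl, ⟨rfl, fun t ht => ?_⟩, hNr, hev⟩
    obtain ⟨h1, h2⟩ := key t ht
    refine ⟨harc t ht, ?_, ?_⟩
    · have h3 : Y (t : ℂ) = E (t : ℂ) • uv e (ψ.map.symm (t : ℂ)) := by
        rw [h2]
        exact h1
      exact h3
    · have h3 : ‖E (t : ℂ)‖ = 1 := by
        rw [h2]
        exact hE0n t
      exact h3
  · intro t ht
    have h1 := (hS.dY (t : ℂ) (hmem t ht)).scomp t (hof t) hmem
    rw [one_smul] at h1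
    exact h1
  · intro t ht
    have h1 := (hS.dE (t : ℂ) (hmem t ht)).scomp t (hof t) hmem
    rw [one_smul] at h1
    exact h1
  · intro t ht
    have h1 := (hE0d t).smul (hasDerivAt_uv H.mem hψ (hmemT t ht))
    refine (h1.congr_deriv ?_).hasDerivWithinAt
    rw [hgv t ht, smul_sub, smul_smul, sub_add, ← sub_smul]
    have h2 : E0 t * (Complex.I * (σ * ψ.ρ (t : ℂ))) -
        E0 t * (((σ * ψ.ρ (t : ℂ) : ℝ) : ℂ) * Complex.I) = 0 := by
      push_cast
      ring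
    rw [h2, zero_smul, sub_zero]
  · intro t ht
    refine ((hE0d t).congr_deriv ?_).hasDerivWithinAt
    have h1 := B_uF H.mem H.inK.inB hψ (hmemT t ht)
    rw [map_smul, ContinuousLinearMap.smul_apply, h1, hgv t ht, smul_eq_mul]
    push_cast
    ring
  · rw [hY1, hE00, hsymm, one_smul]
  · rw [hE1, hE00]

end Stek.Sv
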