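import Pool.Agent.H.MP_fc2485_gt.Sv.Defs

/-!
Adding the mirror images `z ↦ -z̄` of the charts to the atlas changes neither the boundary nor the
eigenspaces nor the class of maps.
-/

set_option maxSynthPendingDepth 3

open Set Filter Topology InnerProductSpace
open scoped ContDiff

namespace Stek.Sv

open Stek Surface

variable {S : Type*} [TopologicalSpace S]

/-- an isometric involution of the upper half plane: the identity or the reflection -/
structure DblOk (A : ℂ ≃ₗᵢ[ℝ] ℂ) : Prop where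
  im : ∀ z, (A z).im = z.im
  inv : ∀ z, A (A z) = z
  one : A 1 = 1 ∨ A 1 = -1
  I : A Complex.I = Complex.I

/-- the reflection -/
noncomputable def dblM : ℂ ≃ₗᵢ[ℝ] ℂ := Complex.conjLIE.trans (LinearIsometryEquiv.neg ℝ)

theorem dblM_apply (z : ℂ) : dblM z = -star z := rfl

theorem dblM_ok : DblOk dblM := by
  refine ⟨fun z => ?_, fun z => ?_, Or.inr ?_, ?_⟩
  · rw [dblM_apply]
    simp
  · rw [dblM_apply, dblM_apply]
    simp
  · rw [dblM_apply]
    simp
  · rw [dblM_apply]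
    simp

theorem dblI_ok : DblOk (LinearIsometryEquiv.refl ℝ ℂ) :=
  ⟨fun _ => rfl, fun _ => rfl, Or.inl rfl, rfl⟩

/-- the composition of a chart with an involution -/
noncomputable def dblC (A : ℂ ≃ₗᵢ[ℝ] ℂ) (hA : DblOk A) (φ : Chart S) : Chart S where
  map :=
    { toFun := fun x => A (φ.map x)
      invFun := fun z => φ.map.symm (A z)
      source := φ.map.source
      target := A ⁻¹' φ.map.target
      map_source' := fun x hx => by
        show A (A (φ.map x)) ∈ φ.map.target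
        rw [hA.inv]
        exact φ.map.map_source hx
      map_target' := fun z hz => φ.map.map_target hz
      left_inv' := fun x hx => by
        rw [hA.inv]
        exact φ.map.left_inv hx
      right_inv' := fun z hz => by
        rw [φ.map.right_inv hz, hA.inv] }
  source_open := φ.source_open
  dom := A ⁻¹' φ.dom
  dom_open := φ.dom_open.preimage A.continuous
  target_eq := by
    show A ⁻¹' φ.map.target = A ⁻¹' φ.dom ∩ {z : ℂ | 0 ≤ z.im}
    rw [φ.target_eq]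
    ext z
    show (A z ∈ φ.dom ∧ 0 ≤ (A z).im) ↔ (A z ∈ φ.dom ∧ 0 ≤ z.im)
    rw [hA.im]
  cont := A.continuous.comp_continuousOn φ.cont
  cont_symm := φ.cont_symm.comp A.continuous.continuousOn fun _ hz => hz
  ρ := fun z => φ.ρ (A z)
  ρ_pos := fun z hz => φ.ρ_pos (A z) hz
  ρ_smooth := φ.ρ_smooth.comp A.contDiff.contDiffOn fun _ hz => hz

theorem dbl_overlap_uniq (φ ψ : Chart S) : UniqueDiffOn ℝ (overlap φ ψ) := by
  intro z hz
  have h1 := φ.cont_symm.continuousWithinAt (x := z) hz.1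
  have h2 : φ.map.symm ⁻¹' ψ.map.source ∈ 𝓝[φ.map.target] z :=
    h1 (ψ.source_open.mem_nhds hz.2)
  exact (uniqueDiffOn φ z hz.1).inter' h2

theorem dbl_fderivWithin {X : Type*} [NormedAddCommGroup X] [NormedSpace ℝ X]
    (A : ℂ ≃ₗᵢ[ℝ] ℂ) (f : ℂ → X) {s : Set ℂ} (hs : UniqueDiffOn ℝ s) {z : ℂ} (hz : A z ∈ s)
    (v : ℂ) :
    fderivWithin ℝ (fun z => f (A z)) (A ⁻¹' s) z v = fderivWithin ℝ f s (A z) (A v) := by
  have h1 : UniqueDiffOn ℝ (A.toContinuousLinearEquiv ⁻¹' s) :=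
    A.toContinuousLinearEquiv.uniqueDiffOn_preimage_iff.2 hs
  have h2 := A.toContinuousLinearEquiv.comp_right_fderivWithin (f := f) (s := s) (h1 z hz)
  have h3 : fderivWithin ℝ (fun z => f (A z)) (A ⁻¹' s) z =
      (fderivWithin ℝ f s (A z)).comp (A.toContinuousLinearEquiv : ℂ →L[ℝ] ℂ) := h2
  rw [h3]
  rfl

theorem dbl_laplacian (A : ℂ ≃ₗᵢ[ℝ] ℂ) (f : ℂ → ℝ) (z : ℂ) :
    Laplacian.laplacian (fun z => f (A z)) z = Laplacian.laplacian f (A z) := by
  have h1 := congrFun (laplacian_eq_iteratedFDeriv_orthonormalBasis (fun z => f (A z))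
    Complex.orthonormalBasisOneI) z
  have h2 := congrFun (laplacian_eq_iteratedFDeriv_orthonormalBasis f
    (Complex.orthonormalBasisOneI.map A)) (A z)
  rw [h1, h2]
  refine Finset.sum_congr rfl fun i _ => ?_
  have h3 := A.toContinuousLinearEquiv.iteratedFDerivWithin_comp_right f uniqueDiffOn_univ
    (x := z) (mem_univ _) 2
  rw [preimage_univ, iteratedFDerivWithin_univ, iteratedFDerivWithin_univ] at h3
  have h4 : iteratedFDeriv ℝ 2 (fun z => f (A z)) z =
      (iteratedFDeriv ℝ 2 f (A z)).compContinuousLinearMap fun _ =>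
        (A.toContinuousLinearEquiv : ℂ →L[ℝ] ℂ) := h3
  rw [h4, ContinuousMultilinearMap.compContinuousLinearMap_apply]
  congr 1
  ext j
  fin_cases j <;> rfl

theorem dbl_harmonic (A : ℂ ≃ₗᵢ[ℝ] ℂ) {f : ℂ → ℝ} {z : ℂ} (h : HarmonicAt f (A z)) :
    HarmonicAt (fun z => f (A z)) z := by
  refine ⟨h.1.comp z A.contDiff.contDiffAt, ?_⟩
  have h1 := A.continuous.continuousAt.eventually h.2
  filter_upwards [h1] with w hw
  rw [dbl_laplacian, hw]
  rfl

theorem exists_dbl (M : Surface S) : ∃ M' : Surface S, MirC M' ∧ M'.bdry = M.bdry ∧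
    (∀ σ, M'.eigenspace σ = M.eigenspace σ) ∧
    (∀ (σ : ℝ) (n : ℕ) (Φ : Fin n → S → ℝ), M.IsFree σ Φ → M'.IsFree σ Φ) := by
  let C : Set (Chart S) := {χ | ∃ φ ∈ M.charts, ∃ (A : ℂ ≃ₗᵢ[ℝ] ℂ) (hA : DblOk A),
    (A = LinearIsometryEquiv.refl ℝ ℂ ∨ A = dblM) ∧ χ = dblC A hA φ}
  have hid : ∀ φ ∈ M.charts, dblC (LinearIsometryEquiv.refl ℝ ℂ) dblI_ok φ ∈ C := fun φ hφ =>
    ⟨φ, hφ, _, dblI_ok, Or.inl rfl, rfl⟩
  let M' : Surface S :=
    { charts := C
      cover := fun x => by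
        obtain ⟨φ, hφ, hx⟩ := M.cover x
        exact ⟨_, hid φ hφ, hx⟩
      bdry_iff := by
        rintro _ ⟨φ, hφ, A, hA, -, rfl⟩ _ ⟨ψ, hψ, B, hB, -, rfl⟩ x hx hx'
        show (A (φ.map x)).im = 0 ↔ (B (ψ.map x)).im = 0
        rw [hA.im, hB.im]
        exact M.bdry_iff φ hφ ψ hψ x hx hx'
      smooth := by
        rintro _ ⟨φ, hφ, A, hA, -, rfl⟩ _ ⟨ψ, hψ, B, hB, -, rfl⟩
        show ContDiffOn ℝ ∞ (fun z => B (ψ.map (φ.map.symm (A z)))) (A ⁻¹' overlap φ ψ)
        exact B.contDiff.comp_contDiffOn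
          ((M.smooth φ hφ ψ hψ).comp A.contDiff.contDiffOn fun _ hz => hz)
      isometry := by
        rintro _ ⟨φ, hφ, A, hA, -, rfl⟩ _ ⟨ψ, hψ, B, hB, -, rfl⟩ z hz v
        have hz' : A z ∈ overlap φ ψ := hz
        show ψ.ρ (B (B (ψ.map (φ.map.symm (A z))))) *
          ‖fderivWithin ℝ (fun z => B (ψ.map (φ.map.symm (A z)))) (A ⁻¹' overlap φ ψ) z v‖ =
            φ.ρ (A z) * ‖v‖
        have h1 := dbl_fderivWithin A (fun w => B (ψ.map (φ.map.symm w)))
          (dbl_overlap_uniq φ ψ) hz' v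
        have h2 := B.toContinuousLinearEquiv.comp_fderivWithin
          (f := fun w => ψ.map (φ.map.symm w)) (dbl_overlap_uniq φ ψ (A z) hz')
        have h3 : fderivWithin ℝ (fun w => B (ψ.map (φ.map.symm w))) (overlap φ ψ) (A z) =
            (B.toContinuousLinearEquiv : ℂ →L[ℝ] ℂ).comp
              (fderivWithin ℝ (fun w => ψ.map (φ.map.symm w)) (overlap φ ψ) (A z)) := h2
        rw [h1, h3, hB.inv]
        have h4 := M.isometry φ hφ ψ hψ (A z) hz' (A v)
        rw [A.norm_map] at h4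
        rw [← h4]
        congr 1
        exact B.norm_map _ }
  have hbd : M'.bdry = M.bdry := by
    ext x
    constructor
    · rintro ⟨_, ⟨φ, hφ, A, hA, -, rfl⟩, hx, h0⟩
      refine ⟨φ, hφ, hx, ?_⟩
      have h1 : (A (φ.map x)).im = 0 := h0
      rwa [hA.im] at h1
    · rintro ⟨φ, hφ, hx, h0⟩
      exact ⟨_, hid φ hφ, hx, h0⟩
  have hdx : ∀ (φ : Chart S) (A : ℂ ≃ₗᵢ[ℝ] ℂ) (hA : DblOk A) (f : S → ℝ) (z : ℂ),
      A z ∈ φ.map.target → (dx (dblC A hA φ) f z = dx φ f (A z) ∨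
        dx (dblC A hA φ) f z = -dx φ f (A z)) := by
    intro φ A hA f z hz
    have h1 := dbl_fderivWithin A (loc φ f) (uniqueDiffOn φ) hz 1
    have h2 : dx (dblC A hA φ) f z = fderivWithin ℝ (loc φ f) φ.map.target (A z) (A 1) := h1
    rcases hA.one with h | h
    · left
      rw [h2, h]
      rfl
    · right
      rw [h2, h, map_neg]
      rfl
  have hdx' : ∀ (φ : Chart S) (A : ℂ ≃ₗᵢ[ℝ] ℂ) (hA : DblOk A), ∃ s : ℝ, s ^ 2 = 1 ∧
      ∀ (f : S → ℝ) (z : ℂ), A z ∈ φ.map.target → dx (dblC A hA φ) f z = s * dx φ f (A z) := by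
    intro φ A hA
    rcases hA.one with h | h
    · refine ⟨1, by norm_num, fun f z hz => ?_⟩
      have h1 := dbl_fderivWithin A (loc φ f) (uniqueDiffOn φ) hz 1
      have h2 : dx (dblC A hA φ) f z = fderivWithin ℝ (loc φ f) φ.map.target (A z) (A 1) := h1
      rw [h2, h, one_mul]
      rfl
    · refine ⟨-1, by norm_num, fun f z hz => ?_⟩
      have h1 := dbl_fderivWithin A (loc φ f) (uniqueDiffOn φ) hz 1
      have h2 : dx (dblC A hA φ) f z = fderivWithin ℝ (loc φ f) φ.map.target (A z) (A 1) := h1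
      rw [h2, h, map_neg, neg_one_mul]
      rfl
  have hdy : ∀ (φ : Chart S) (A : ℂ ≃ₗᵢ[ℝ] ℂ) (hA : DblOk A) (f : S → ℝ) (z : ℂ),
      A z ∈ φ.map.target → dy (dblC A hA φ) f z = dy φ f (A z) := by
    intro φ A hA f z hz
    have h1 := dbl_fderivWithin A (loc φ f) (uniqueDiffOn φ) hz Complex.I
    have h2 : dy (dblC A hA φ) f z =
        fderivWithin ℝ (loc φ f) φ.map.target (A z) (A Complex.I) := h1
    rw [h2, hA.I]
    rfl
  have hst : ∀ (σ : ℝ) (f : S → ℝ), M'.IsSteklov σ f ↔ M.IsSteklov σ f := by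
    intro σ f
    constructor
    · intro h
      refine ⟨fun φ hφ => ?_, fun φ hφ z hz hi => ?_, fun φ hφ z hz hi => ?_⟩
      · exact h.smooth _ (hid φ hφ)
      · exact h.harmonic _ (hid φ hφ) z hz hi
      · have h1 := h.normal _ (hid φ hφ) z hz hi
        rw [hdy φ _ dblI_ok f z hz] at h1
        exact h1
    · intro h
      refine ⟨?_, ?_, ?_⟩
      · rintro _ ⟨φ, hφ, A, hA, -, rfl⟩
        exact (h.smooth φ hφ).comp A.contDiff.contDiffOn fun _ hz => hz
      · rintro _ ⟨φ, hφ, A, hA, -, rfl⟩ z hz hi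
        have h1 : HarmonicAt (loc φ f) (A z) := h.harmonic φ hφ (A z) hz (by rw [hA.im]; exact hi)
        exact dbl_harmonic A h1
      · rintro _ ⟨φ, hφ, A, hA, -, rfl⟩ z hz hi
        rw [hdy φ A hA f z hz]
        exact h.normal φ hφ (A z) hz (by rw [hA.im]; exact hi)
  refine ⟨M', ?_, hbd, ?_, ?_⟩
  · rintro _ ⟨φ, hφ, A, hA, hor, rfl⟩
    rcases hor with rfl | rfl
    · refine ⟨dblC dblM dblM_ok φ, ⟨φ, hφ, dblM, dblM_ok, Or.inr rfl, rfl⟩, rfl, fun x _ => rfl,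
        fun z => Iff.rfl, fun z _ => rfl⟩
    · refine ⟨dblC (LinearIsometryEquiv.refl ℝ ℂ) dblI_ok φ, hid φ hφ, rfl, fun x _ => ?_,
        fun z => ?_, fun z _ => ?_⟩
      · show φ.map x = dblM (dblM (φ.map x))
        rw [dblM_ok.inv]
      · show z ∈ φ.map.target ↔ dblM (dblM z) ∈ φ.map.target
        rw [dblM_ok.inv]
      · show φ.map.symm z = φ.map.symm (dblM (dblM z))
        rw [dblM_ok.inv]
  · intro σ
    ext f
    exact hst σ f
  · intro σ n Φ h
    refine ⟨fun k => (hst σ (Φ k)).2 (h.mem k), h.ball, fun x hx => h.sphere x (hbd ▸ hx), ?_, ?_⟩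
    · rintro _ ⟨φ, hφ, A, hA, -, rfl⟩ z hz
      obtain ⟨s, -, hs⟩ := hdx' φ A hA
      have h1 := h.orth φ hφ (A z) hz
      have h2 : ∀ k, dx (dblC A hA φ) (Φ k) z * dy (dblC A hA φ) (Φ k) z =
          s * (dx φ (Φ k) (A z) * dy φ (Φ k) (A z)) := by
        intro k
        rw [hs (Φ k) z hz, hdy φ A hA (Φ k) z hz]
        ring
      simp only [h2]
      rw [← Finset.mul_sum, h1, mul_zero]
    · rintro _ ⟨φ, hφ, A, hA, -, rfl⟩ z hz
      obtain ⟨s, hs2, hs⟩ := hdx' φ A hA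
      have h1 := h.norm_eq φ hφ (A z) hz
      have h2 : ∀ k, dx (dblC A hA φ) (Φ k) z ^ 2 = dx φ (Φ k) (A z) ^ 2 := by
        intro k
        rw [hs (Φ k) z hz, mul_pow, hs2, one_mul]
      have h3 : ∀ k, dy (dblC A hA φ) (Φ k) z ^ 2 = dy φ (Φ k) (A z) ^ 2 := by
        intro k
        rw [hdy φ A hA (Φ k) z hz]
      simp only [h2, h3]
      exact h1

end Stek.Sv
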