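import Pool.Agent.H.MP_fc2485_gt.Main

/-!
Definitions for the separation theorem for eigenspaces of dimension at most seven.
-/

set_option maxSynthPendingDepth 3

open Set Filter Topology InnerProductSpace
open scoped ContDiff

namespace Stek.Sv

open Stek Surface

/-- the complexified target space -/
abbrev V (m : ℕ) := Fin m → ℂ

/-- bilinear forms on it -/
abbrev Bl (m : ℕ) := V m →L[ℂ] V m →L[ℂ] ℂ

/-- closed rectangle -/
def Rect (a b c d : ℝ) : Set ℂ := {z | a ≤ z.re ∧ z.re ≤ b ∧ c ≤ z.im ∧ z.im ≤ d}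

/-- its interior -/
def RectI (a b c d : ℝ) : Set ℂ := {z | a < z.re ∧ z.re < b ∧ c < z.im ∧ z.im < d}

theorem isOpen_RectI (a b c d : ℝ) : IsOpen (RectI a b c d) :=
  (isOpen_lt continuous_const Complex.continuous_re).inter
    ((isOpen_lt Complex.continuous_re continuous_const).inter
      ((isOpen_lt continuous_const Complex.continuous_im).inter
        (isOpen_lt Complex.continuous_im continuous_const)))

theorem RectI_sub (a b c d : ℝ) : RectI a b c d ⊆ Rect a b c d :=
  fun _ h => ⟨h.1.le, h.2.1.le, h.2.2.1.le, h.2.2.2.le⟩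

/-- continuous on the closed set `K`, holomorphic on the open set `O` -/
structure Nice {X : Type*} [NormedAddCommGroup X] [NormedSpace ℂ X] (K O : Set ℂ) (h : ℂ → X) :
    Prop where
  cont : ContinuousOn h K
  holo : DifferentiableOn ℂ h O

/-- `A` is a set of uniqueness -/
def Uniq (K O A : Set ℂ) : Prop :=
  A ⊆ K ∧ ∀ h : ℂ → ℂ, Nice K O h → (∀ z ∈ A, h z = 0) → ∀ z ∈ K, h z = 0

/-- the flat system of the form `G` and the function `F` -/
structure IsSol {m : ℕ} (G : Bl m) (F : ℂ → V m) (K : Set ℂ) (Y : ℂ → V m) (E : ℂ → ℂ) :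
    Prop where
  dY : ∀ z ∈ K, HasDerivWithinAt Y (E z • F z) K z
  dE : ∀ z ∈ K, HasDerivWithinAt E (G (Y z) (F z)) K z

variable {S : Type*} [TopologicalSpace S]

/-- the derivatives of the complex gradient `f_x - i f_y` in the chart `φ` -/
noncomputable def Fj (φ : Chart S) (f : S → ℝ) : ℕ → ℂ → ℂ
  | 0 => fun z => (dx φ f z : ℂ) - Complex.I * (dy φ f z : ℂ)
  | n + 1 => fun z => fderivWithin ℝ (Fj φ f n) φ.map.target z 1

/-- the vector of the complex gradients -/
noncomputable def Fv {m : ℕ} (φ : Chart S) (e : Fin m → S → ℝ) (j : ℕ) (z : ℂ) : V m :=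
  fun i => Fj φ (e i) j z

/-- the vector of the values -/
def uv {m : ℕ} (e : Fin m → S → ℝ) (x : S) : V m := fun i => (e i x : ℂ)

/-- the real Gram forms of the maps of the class -/
structure InK (M : Surface S) {m : ℕ} (e : Fin m → S → ℝ) (Q : Bl m) : Prop where
  symm : ∀ v w, Q v w = Q w v
  real : ∀ v w, Q (star v) (star w) = star (Q v w)
  nonneg : ∀ v, 0 ≤ (Q (star v) v).re
  sphere : ∀ x ∈ M.bdry, Q (uv e x) (uv e x) = 1
  conf : ∀ φ ∈ M.charts, ∀ z ∈ φ.map.target, Q (Fv φ e 0 z) (Fv φ e 0 z) = 0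

/-- the complex forms with boundary value `τ` -/
structure InB (M : Surface S) {m : ℕ} (e : Fin m → S → ℝ) (Q : Bl m) (τ : ℂ) : Prop where
  symm : ∀ v w, Q v w = Q w v
  sphere : ∀ x ∈ M.bdry, Q (uv e x) (uv e x) = τ
  conf : ∀ φ ∈ M.charts, ∀ z ∈ φ.map.target, Q (Fv φ e 0 z) (Fv φ e 0 z) = 0

theorem InK.inB {M : Surface S} {m : ℕ} {e : Fin m → S → ℝ} {Q : Bl m} (h : InK M e Q) :
    InB M e Q 1 := ⟨h.symm, h.sphere, h.conf⟩

/-- the space of complex forms -/
def BC (M : Surface S) {m : ℕ} (e : Fin m → S → ℝ) : Submodule ℂ (Bl m) where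
  carrier := {Q | ∃ τ, InB M e Q τ}
  add_mem' := by
    rintro Q Q' ⟨τ, h⟩ ⟨τ', h'⟩
    refine ⟨τ + τ', ?_, ?_, ?_⟩
    · intro v w
      simp [h.symm v w, h'.symm v w]
    · intro x hx
      simp [h.sphere x hx, h'.sphere x hx]
    · intro φ hφ z hz
      simp [h.conf φ hφ z hz, h'.conf φ hφ z hz]
  zero_mem' := ⟨0, by simp, by simp, by simp⟩
  smul_mem' := by
    rintro c Q ⟨τ, h⟩
    refine ⟨c * τ, ?_, ?_, ?_⟩
    · intro v w
      simp [h.symm v w]
    · intro x hx
      simp [h.sphere x hx]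
    · intro φ hφ z hz
      simp [h.conf φ hφ z hz]

theorem mem_BC {M : Surface S} {m : ℕ} {e : Fin m → S → ℝ} {Q : Bl m} :
    Q ∈ BC M e ↔ ∃ τ, InB M e Q τ := Iff.rfl

/-- `φ'` is the mirror image of `φ` -/
structure IsMir (φ φ' : Chart S) : Prop where
  source : φ'.map.source = φ.map.source
  map : ∀ x ∈ φ.map.source, φ'.map x = -star (φ.map x)
  target : ∀ z, z ∈ φ'.map.target ↔ -star z ∈ φ.map.target
  symm : ∀ z ∈ φ'.map.target, φ'.map.symm z = φ.map.symm (-star z)

/-- the atlas is closed under mirror images -/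
def MirC (M : Surface S) : Prop := ∀ φ ∈ M.charts, ∃ φ' ∈ M.charts, IsMir φ φ'

/-- a boundary component -/
def IsCC (M : Surface S) (C : Set S) : Prop := ∃ p ∈ M.bdry, C = connectedComponentIn M.bdry p

/-- the form kills the differences of the values at `p` and `q` for all pairs in different
components -/
def Covd (M : Surface S) {m : ℕ} (e : Fin m → S → ℝ) : Prop :=
  ∀ C C', IsCC M C → IsCC M C' → C ≠ C' → ∀ p ∈ C, ∀ q ∈ C',
    ∃ Q, InK M e Q ∧ Q (uv e p - uv e q) = 0

/-- the standing assumptions -/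
structure Ctx (M : Surface S) (σ : ℝ) {m : ℕ} (e : Fin m → S → ℝ) (G : Bl m) : Prop where
  hσ : 0 < σ
  mem : ∀ i, M.IsSteklov σ (e i)
  ind : LinearIndependent ℝ e
  mir : MirC M
  inK : InK M e G
  pd : ∀ v : V m, v ≠ 0 → 0 < (G (star v) v).re

/-- a solution of the flat system on a rectangle in a chart -/
structure GCell (M : Surface S) {m : ℕ} (e : Fin m → S → ℝ) (G : Bl m) where
  φ : Chart S
  hφ : φ ∈ M.charts
  a : ℝ
  b : ℝ
  c : ℝ
  d : ℝ
  hab : a < b
  hcd : c < d
  sub : Rect a b c d ⊆ φ.map.target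
  Y : ℂ → V m
  E : ℂ → ℂ
  sol : IsSol G (Fv φ e 0) (Rect a b c d) Y E

namespace GCell

variable {M : Surface S} {m : ℕ} {e : Fin m → S → ℝ} {G : Bl m}

/-- the rectangle -/
def K (c : GCell M e G) : Set ℂ := Rect c.a c.b c.c c.d

/-- its interior -/
def O (c : GCell M e G) : Set ℂ := RectI c.a c.b c.c c.d

/-- the rectangle lies above an arc in the set `C` of boundary points and the solution is
`(E u, E)` there -/
def IsBase (C : Set S) (c : GCell M e G) : Prop :=
  c.c = 0 ∧ ∀ t ∈ Icc c.a c.b, c.φ.map.symm (t : ℂ) ∈ C ∧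
    c.Y t = c.E t • uv e (c.φ.map.symm (t : ℂ)) ∧ ‖c.E t‖ = 1

/-- the two solutions have the same values at a point, and the charts have the same orientation
there -/
def LinkAt (c c' : GCell M e G) (x : S) : Prop :=
  x ∈ c.φ.map.source ∧ x ∈ c'.φ.map.source ∧ c.φ.map x ∈ c.O ∧ c'.φ.map x ∈ c'.O ∧
    c.Y (c.φ.map x) = c'.Y (c'.φ.map x) ∧ c.E (c.φ.map x) = c'.E (c'.φ.map x) ∧
    ∀ᶠ z in 𝓝 (c.φ.map x), DifferentiableAt ℂ (fun z => c'.φ.map (c.φ.map.symm z)) z

/-- solutions reached from the boundary points in `C` -/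
inductive Reach (C : Set S) : GCell M e G → Prop
  | base {c : GCell M e G} : c.IsBase C → Reach C c
  | step {c c' : GCell M e G} {x : S} : Reach C c → c.LinkAt c' x → Reach C c'

end GCell

end Stek.Sv
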