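import Pool.Agent.H.MP_fc2485_gt.Sv.Defs
import Pool.Agent.H.MP_fc2485_gt.Sv.LocBB

/-!
Case B, local lemma: two solutions of the flat system which are not proportional at `z` and a form
which kills `Z = E_2 Y_1 - E_1 Y_2` give eight independent vectors.

Proof. Let `f j = F^(j)(z)/j!`, `ω i j = Q (f i) (f j)` (symmetric, `∑_{i+j=N} ω i j = 0`), `n` the
lowest degree with `ω i j ≠ 0` for some `i + j = n` (it exists: otherwise `Q (Y_2 s) (F t) = 0`,
and `Q = 0` by spanning), `c i = ω i (n-i)`, so `c i = c (n-i)`, `∑ c i = 0`. With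
`Q (Y_k s) (F s) = 0`, `∂_s Q (Y_k s) (F t) = E_k s * Q (F s) (F t)` one gets
`Q (Y_k z) (f N) = -∑_{a<N} 1/(a+1) ∑_{i≤a} ε_{k,a-i} ω i (N-1-a)`, `ε` the Taylor coefficients of
`E_k`. So `Q (Y_2 z) (f N) = 0` for `N ≤ n`, `= -E_2 z * ∑ c i/(i+1)` for `N = n+1`, and from
`Q Z (f (n+2)) = 0`: `w * ∑ c i/(i+2) = 0`, `w = E_2 E_1' - E_1 E_2' ≠ 0`.
In terms of the orbits `{i, n-i}`, `p = i (n-i)` increasing, `C_o` = sum of `c` over the orbit:
`∑ C_o = 0`, `∑ C_o/(p_o+2n+4) = 0`, so at least three orbits, at least five `c i ≠ 0`;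
`κ = ∑ c i/(i+1) = (n+2)/2 ∑ C_o/(p_o+n+1)`. If `κ = 0` there are at least four orbits, at least
seven `c i ≠ 0`. The vectors `w_0 = Y_2 z`, `w_{i+1} = f i` (`i ≤ n+1`) have an anti-triangular Gram
matrix (zero for `a + b < n + 2`), with antidiagonal entries `-E_2 z κ` (twice) and `c i`; so the
`w_a` with non-zero antidiagonal entry (at least seven) are independent modulo the radical of `Q`,
which contains `Z ≠ 0`. Hence `m ≥ 8`.
-/

set_option maxSynthPendingDepth 3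

open Set Filter Topology

namespace Stek.Sv

/-- Taylor coefficients -/
private noncomputable def locB_tc (z : ℂ) (g : ℂ → ℂ) (n : ℕ) : ℂ :=
  iteratedDeriv n g z / (n.factorial : ℂ)

/-- Taylor coefficients of vector valued functions -/
private noncomputable def locB_vc {m : ℕ} (z : ℂ) (X : ℂ → V m) (n : ℕ) : V m :=
  fun a => locB_tc z (fun s => X s a) n

private theorem locB_tc_mul {z : ℂ} {g h : ℂ → ℂ} (hg : AnalyticAt ℂ g z)
    (hh : AnalyticAt ℂ h z) (n : ℕ) :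
    locB_tc z (fun s => g s * h s) n =
      ∑ p ∈ Finset.HasAntidiagonal.antidiagonal n, locB_tc z g p.1 * locB_tc z h p.2 := by
  unfold locB_tc
  rw [iteratedDeriv_fun_mul hg.contDiffAt hh.contDiffAt,
    Finset.Nat.sum_antidiagonal_eq_sum_range_succ (fun i j =>
      iteratedDeriv i g z / (i.factorial : ℂ) * (iteratedDeriv j h z / (j.factorial : ℂ))) n,
    Finset.sum_div]
  apply Finset.sum_congr rfl
  intro i hi
  have hi' : i ≤ n := by simpa [Nat.lt_succ_iff] using hi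
  have hc : ((n.choose i : ℕ) : ℂ) * (i.factorial : ℂ) * ((n - i).factorial : ℂ) =
      (n.factorial : ℂ) := by
    exact_mod_cast Nat.choose_mul_factorial_mul_factorial hi'
  have h1 : (i.factorial : ℂ) ≠ 0 := by exact_mod_cast Nat.factorial_ne_zero i
  have h2 : ((n - i).factorial : ℂ) ≠ 0 := by exact_mod_cast Nat.factorial_ne_zero (n - i)
  have h3 : ((n.choose i : ℕ) : ℂ) ≠ 0 := by exact_mod_cast (Nat.choose_pos hi').ne'
  rw [← hc]
  field_simp

private theorem locB_tc_congr {z : ℂ} {g h : ℂ → ℂ} (hgh : g =ᶠ[𝓝 z] h) (n : ℕ) :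
    locB_tc z g n = locB_tc z h n := by
  unfold locB_tc
  rw [hgh.iteratedDeriv_eq]

private theorem locB_tc_zero {z : ℂ} {g : ℂ → ℂ} (hg : ∀ᶠ s in 𝓝 z, g s = 0) (n : ℕ) :
    locB_tc z g n = 0 := by
  rw [locB_tc_congr (h := fun _ => 0) hg n]
  unfold locB_tc
  simp

private theorem locB_tc_sum {z : ℂ} {ι : Type*} (I : Finset ι) {g : ι → ℂ → ℂ}
    (hg : ∀ i ∈ I, AnalyticAt ℂ (g i) z) (n : ℕ) :
    locB_tc z (fun s => ∑ i ∈ I, g i s) n = ∑ i ∈ I, locB_tc z (g i) n := by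
  unfold locB_tc
  rw [iteratedDeriv_fun_sum (fun i hi => (hg i hi).contDiffAt), Finset.sum_div]

private theorem locB_tc_const {z : ℂ} (g : ℂ → ℂ) (c : ℂ) (n : ℕ) :
    locB_tc z (fun s => g s * c) n = locB_tc z g n * c := by
  unfold locB_tc
  rw [iteratedDeriv_mul_const_field]
  ring

private theorem locB_expand {m : ℕ} (ξ : V m →L[ℂ] ℂ) (x : V m) :
    ξ x = ∑ a, x a * ξ (Pi.single a 1) := by
  have h : x = ∑ a, x a • (Pi.single a (1 : ℂ) : V m) := by
    have := (Pi.basisFun ℂ (Fin m)).sum_repr x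
    simpa using this.symm
  conv_lhs => rw [h]
  simp [map_sum]

private theorem locB_expand2 {m : ℕ} (Q : Bl m) (x y : V m) :
    Q x y = ∑ a, ∑ b, x a * y b * Q (Pi.single a 1) (Pi.single b 1) := by
  have h : x = ∑ a, x a • (Pi.single a (1 : ℂ) : V m) := by
    have := (Pi.basisFun ℂ (Fin m)).sum_repr x
    simpa using this.symm
  conv_lhs => rw [h]
  rw [map_sum, _root_.sum_apply]
  apply Finset.sum_congr rfl
  intro a _
  rw [map_smul, _root_.smul_apply, locB_expand (Q (Pi.single a 1)) y, smul_eq_mul,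
    Finset.mul_sum]
  exact Finset.sum_congr rfl (fun b _ => by ring)

private theorem locB_tc_lin {m : ℕ} {z : ℂ} (ξ : V m →L[ℂ] ℂ) {X : ℂ → V m}
    (hX : ∀ a, AnalyticAt ℂ (fun s => X s a) z) (n : ℕ) :
    locB_tc z (fun s => ξ (X s)) n = ξ (locB_vc z X n) := by
  have h1 : (fun s => ξ (X s)) = fun s => ∑ a, X s a * ξ (Pi.single a 1) := by
    funext s
    exact locB_expand ξ (X s)
  have h2 : ∀ a, AnalyticAt ℂ (fun s => X s a * ξ (Pi.single a 1)) z := fun a =>
    (hX a).mul analyticAt_const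
  rw [h1, locB_tc_sum Finset.univ (fun a _ => h2 a) n,
    locB_expand ξ (locB_vc z X n)]
  exact Finset.sum_congr rfl (fun a _ => locB_tc_const _ _ _)

private theorem locB_tc_bil {m : ℕ} {z : ℂ} (Q : Bl m) {X W : ℂ → V m}
    (hX : ∀ a, AnalyticAt ℂ (fun s => X s a) z) (hW : ∀ a, AnalyticAt ℂ (fun s => W s a) z)
    (n : ℕ) :
    locB_tc z (fun s => Q (X s) (W s)) n =
      ∑ p ∈ Finset.HasAntidiagonal.antidiagonal n, Q (locB_vc z X p.1) (locB_vc z W p.2) := by
  have h1 : (fun s => Q (X s) (W s)) = fun s => ∑ a, ∑ b,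
      X s a * W s b * Q (Pi.single a 1) (Pi.single b 1) := by
    funext s
    exact locB_expand2 Q (X s) (W s)
  have hab : ∀ a b, AnalyticAt ℂ
      (fun s => X s a * W s b * Q (Pi.single a 1) (Pi.single b 1)) z := fun a b =>
    ((hX a).mul (hW b)).mul analyticAt_const
  rw [h1, locB_tc_sum Finset.univ (fun a _ =>
    Finset.analyticAt_fun_sum _ (fun b _ => hab a b)) n]
  have h2 : ∀ a, locB_tc z (fun s => ∑ b, X s a * W s b * Q (Pi.single a 1) (Pi.single b 1)) n =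
      ∑ b, ∑ p ∈ Finset.HasAntidiagonal.antidiagonal n,
        locB_tc z (fun s => X s a) p.1 * locB_tc z (fun s => W s b) p.2 *
          Q (Pi.single a 1) (Pi.single b 1) := by
    intro a
    rw [locB_tc_sum Finset.univ (fun b _ => hab a b) n]
    apply Finset.sum_congr rfl
    intro b _
    rw [locB_tc_const, locB_tc_mul (hX a) (hW b), Finset.sum_mul]
  rw [Finset.sum_congr rfl (fun a _ => h2 a)]
  have h3 : ∀ p ∈ Finset.HasAntidiagonal.antidiagonal n, Q (locB_vc z X p.1) (locB_vc z W p.2) =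
      ∑ a, ∑ b, locB_tc z (fun s => X s a) p.1 * locB_tc z (fun s => W s b) p.2 *
          Q (Pi.single a 1) (Pi.single b 1) := fun p _ => locB_expand2 Q _ _
  rw [Finset.sum_congr rfl h3]
  symm
  rw [Finset.sum_comm]
  apply Finset.sum_congr rfl
  intro a _
  rw [Finset.sum_comm]

theorem caseB_local {m : ℕ} (hm : m ≤ 7) (Q : Bl m) (hsym : ∀ v w, Q v w = Q w v) (hQ : Q ≠ 0)
    {z : ℂ} {r : ℝ} (hr : 0 < r) {F Y1 Y2 : ℂ → V m} {E1 E2 : ℂ → ℂ}
    (hF : DifferentiableOn ℂ F (Metric.ball z r))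
    (dE1 : DifferentiableOn ℂ E1 (Metric.ball z r)) (dE2 : DifferentiableOn ℂ E2 (Metric.ball z r))
    (dY1 : ∀ s ∈ Metric.ball z r, HasDerivAt Y1 (E1 s • F s) s)
    (dY2 : ∀ s ∈ Metric.ball z r, HasDerivAt Y2 (E2 s • F s) s)
    (hFF : ∀ s ∈ Metric.ball z r, Q (F s) (F s) = 0)
    (hYF1 : ∀ s ∈ Metric.ball z r, Q (Y1 s) (F s) = 0)
    (hYF2 : ∀ s ∈ Metric.ball z r, Q (Y2 s) (F s) = 0)
    (hYY2 : ∀ s ∈ Metric.ball z r, Q (Y2 s) (Y2 s) = 0)
    (hsp : ∀ ξ : V m →L[ℂ] ℂ, (∀ s ∈ Metric.ball z r, ξ (Y2 s) = 0) → ξ = 0)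
    (hE2 : E2 z ≠ 0) (hw : E2 z * deriv E1 z - E1 z * deriv E2 z ≠ 0)
    (hZ0 : E2 z • Y1 z - E1 z • Y2 z ≠ 0) (hZ : Q (E2 z • Y1 z - E1 z • Y2 z) = 0) : False := by
  have hball : Metric.ball z r ∈ 𝓝 z := Metric.ball_mem_nhds z hr
  have hz : z ∈ Metric.ball z r := Metric.mem_ball_self hr
  have hFa : ∀ a, AnalyticAt ℂ (fun s => F s a) z := fun a =>
    (differentiableOn_pi.mp hF a).analyticAt hball
  have hE1a : AnalyticAt ℂ E1 z := dE1.analyticAt hball
  have hE2a : AnalyticAt ℂ E2 z := dE2.analyticAt hball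
  -- solutions
  have hYa : ∀ {E : ℂ → ℂ} {Y : ℂ → V m}, (∀ s ∈ Metric.ball z r, HasDerivAt Y (E s • F s) s) →
      DifferentiableOn ℂ Y (Metric.ball z r) ∧ ∀ a, AnalyticAt ℂ (fun s => Y s a) z := by
    intro E Y hY
    have h1 : DifferentiableOn ℂ Y (Metric.ball z r) := fun s hs =>
      (hY s hs).differentiableAt.differentiableWithinAt
    exact ⟨h1, fun a => (differentiableOn_pi.mp h1 a).analyticAt hball⟩
  have hYrec : ∀ {E : ℂ → ℂ} {Y : ℂ → V m}, AnalyticAt ℂ E z →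
      (∀ s ∈ Metric.ball z r, HasDerivAt Y (E s • F s) s) → ∀ n,
      locB_vc z Y (n + 1) = (1 / ((n : ℂ) + 1)) •
        ∑ p ∈ Finset.HasAntidiagonal.antidiagonal n, locB_tc z E p.1 • locB_vc z F p.2 := by
    intro E Y hEa hY n
    funext a
    have h1 : deriv (fun s => Y s a) =ᶠ[𝓝 z] fun s => E s * F s a := by
      filter_upwards [hball] with s hs
      have := (hasDerivAt_pi.mp (hY s hs) a).deriv
      simpa using this
    have h2 : locB_tc z (fun s => Y s a) (n + 1) =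
        (1 / ((n : ℂ) + 1)) * locB_tc z (fun s => E s * F s a) n := by
      rw [← locB_tc_congr h1 n]
      unfold locB_tc
      rw [iteratedDeriv_succ', Nat.factorial_succ]
      push_cast
      have h3 : (n.factorial : ℂ) ≠ 0 := by exact_mod_cast Nat.factorial_ne_zero n
      have h4 : (n : ℂ) + 1 ≠ 0 := by exact_mod_cast Nat.succ_ne_zero n
      field_simp
    have h5 : locB_vc z Y (n + 1) a = locB_tc z (fun s => Y s a) (n + 1) := rfl
    rw [h5, h2, locB_tc_mul hEa (hFa a) n, Pi.smul_apply, Finset.sum_apply, smul_eq_mul]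
    rfl
  have hzero : ∀ {X W : ℂ → V m}, (∀ a, AnalyticAt ℂ (fun s => X s a) z) →
      (∀ a, AnalyticAt ℂ (fun s => W s a) z) → (∀ s ∈ Metric.ball z r, Q (X s) (W s) = 0) →
      ∀ N, ∑ p ∈ Finset.HasAntidiagonal.antidiagonal N, Q (locB_vc z X p.1) (locB_vc z W p.2) = 0 := by
    intro X W hX hW h N
    rw [← locB_tc_bil Q hX hW N]
    apply locB_tc_zero
    filter_upwards [hball] with s hs using h s hs
  have hv0 : ∀ X : ℂ → V m, locB_vc z X 0 = X z := by
    intro X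
    funext a
    simp [locB_vc, locB_tc]
  have ht0 : ∀ g : ℂ → ℂ, locB_tc z g 0 = g z := by
    intro g
    simp [locB_tc]
  have ht1 : ∀ g : ℂ → ℂ, locB_tc z g 1 = deriv g z := by
    intro g
    simp [locB_tc, iteratedDeriv_one]
  obtain ⟨dY2', hY2a⟩ := hYa dY2
  obtain ⟨dY1', hY1a⟩ := hYa dY1
  refine locB_alg hm Q hsym hQ (f := locB_vc z F) (y1 := locB_vc z Y1) (y2 := locB_vc z Y2)
    (ε1 := locB_tc z E1) (ε2 := locB_tc z E2) (hYrec hE1a dY1) (hYrec hE2a dY2)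
    (hzero hFa hFa hFF) (hzero hY1a hFa hYF1) (hzero hY2a hFa hYF2) ?_ ?_ ?_ ?_ ?_ ?_
  · rw [hv0]
    exact hYY2 z hz
  · intro ξ hξ
    apply hsp ξ
    intro s hs
    have hd : DifferentiableOn ℂ (fun s => ξ (Y2 s)) (Metric.ball z r) :=
      ξ.differentiable.comp_differentiableOn dY2'
    have hsum := Complex.hasSum_taylorSeries_on_ball hd hs
    have h0 : ∀ n : ℕ, iteratedDeriv n (fun s => ξ (Y2 s)) z = 0 := by
      intro n
      have h1 := locB_tc_lin ξ hY2a n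
      rw [hξ n] at h1
      unfold locB_tc at h1
      have h3 : (n.factorial : ℂ) ≠ 0 := by exact_mod_cast Nat.factorial_ne_zero n
      exact (div_eq_zero_iff.mp h1).resolve_right h3
    simp only [h0, smul_zero] at hsum
    exact hsum.unique hasSum_zero
  · rw [ht0]
    exact hE2
  · rw [ht0, ht0, ht1, ht1]
    exact hw
  · rw [ht0, ht0, hv0, hv0]
    exact hZ0
  · rw [ht0, ht0, hv0, hv0]
    exact hZ

end Stek.Sv
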