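import Pool.Agent.H.MP_fc2485_gt.Sv.Props

/-!
The local maximum principle for the squared length of `Y / E`.
-/

set_option maxSynthPendingDepth 3

open Set Filter Topology InnerProductSpace
open scoped ContDiff

namespace Stek.Sv

open Stek Surface GCell

variable {S : Type*} [TopologicalSpace S] {M : Surface S} {σ : ℝ} {m : ℕ} {e : Fin m → S → ℝ}
  {G : Bl m}

/-- two cells in the same chart have proportional solutions at the common interior points -/
def CoProp (c c' : GCell M e G) : Prop :=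
  c.φ = c'.φ → ∀ z ∈ c.O, z ∈ c'.O →
    ∃ t : ℂ, t ≠ 0 ∧ c.Y z = t • c'.Y z ∧ c.E z = t * c'.E z

/-- the squared length of `Y / E` -/
noncomputable def GCell.N (c : GCell M e G) (z : ℂ) : ℝ :=
  (G (star (c.Y z)) (c.Y z)).re / ‖c.E z‖ ^ 2

theorem MaxA_expand (h : InK M e G) (v w : V m) (l : ℂ) :
    (G (star (v - l • w)) (v - l • w)).re =
      (G (star v) v).re - 2 * (l * G (star v) w).re + ‖l‖ ^ 2 * (G (star w) w).re := by
  have h1 : G (star w) v = star (G (star v) w) := by
    rw [← h.real, star_star, h.symm]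
  have h2 : (G (star w) v).re = (G (star v) w).re := by rw [h1]; simp
  have h3 : (G (star w) v).im = -(G (star v) w).im := by rw [h1]; simp
  have h4 : star l * l = ((‖l‖ ^ 2 : ℝ) : ℂ) := by
    rw [Complex.star_def, ← Complex.normSq_eq_conj_mul_self, Complex.normSq_eq_norm_sq]
  rw [star_sub, star_smul]
  simp only [map_sub, map_smul, sub_apply, smul_apply,
    smul_eq_mul]
  have h5 : l * (star l * G (star w) w) = ((‖l‖ ^ 2 : ℝ) : ℂ) * G (star w) w := by
    rw [← mul_assoc, mul_comm l, h4]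
  rw [mul_sub, h5]
  simp only [Complex.sub_re, Complex.mul_re, Complex.ofReal_re, Complex.ofReal_im, zero_mul,
    sub_zero, h2, h3, Complex.star_def, Complex.conj_re, Complex.conj_im]
  ring

theorem cauchy_schwarz (H : Ctx M σ e G) (v w : V m) :
    ‖G (star v) w‖ ^ 2 ≤ (G (star v) v).re * (G (star w) w).re := by
  have hh := H.inK
  set c := G (star v) w with hc
  set a := (G (star v) v).re with ha
  set b := (G (star w) w).re with hb
  rcases eq_or_ne c 0 with h0 | h0
  · rw [h0, norm_zero]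
    have h1 : 0 ≤ a := hh.nonneg v
    have h2 : 0 ≤ b := hh.nonneg w
    have := mul_nonneg h1 h2
    simpa using this
  have hpos : 0 < ‖c‖ ^ 2 := by positivity
  have key : ∀ t : ℝ, 0 ≤ (‖c‖ ^ 2 * b) * (t * t) + (-2 * ‖c‖ ^ 2) * t + a := by
    intro t
    have h1 := hh.nonneg (v - ((t : ℂ) * star c) • w)
    rw [MaxA_expand hh, ← hc, ← ha, ← hb] at h1
    have h2 : ((t : ℂ) * star c * c) = ((t * ‖c‖ ^ 2 : ℝ) : ℂ) := by
      rw [mul_assoc, Complex.star_def, ← Complex.normSq_eq_conj_mul_self,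
        Complex.normSq_eq_norm_sq]
      push_cast
      ring
    rw [h2, Complex.ofReal_re, norm_mul, norm_star, Complex.norm_real, Real.norm_eq_abs, mul_pow,
      sq_abs] at h1
    nlinarith [h1]
  have h1 := discrim_le_zero key
  unfold discrim at h1
  have h2 : ‖c‖ ^ 2 * (‖c‖ ^ 2 - a * b) ≤ 0 := by nlinarith [h1]
  by_contra hcon
  push Not at hcon
  nlinarith [mul_pos hpos (sub_pos.mpr hcon)]

theorem one_le_N (H : Ctx M σ e G) {C : Set S} (hC : C ⊆ M.bdry) {c : GCell M e G}
    (hc : Reach C c) {z : ℂ} (hz : z ∈ c.O) (hE : c.E z ≠ 0) : 1 ≤ c.N z := by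
  have h1 := quad H hC hc H.inK.inB z (RectI_sub _ _ _ _ hz)
  rw [one_mul] at h1
  have h2 := cauchy_schwarz H (star (c.Y z)) (c.Y z)
  rw [star_star, h1, H.inK.symm (c.Y z) (star (c.Y z)), norm_pow] at h2
  have h3 := H.inK.nonneg (c.Y z)
  have h4 : 0 < ‖c.E z‖ := norm_pos_iff.mpr hE
  unfold GCell.N
  rw [one_le_div (by positivity)]
  have h5 : (‖c.E z‖ ^ 2) ^ 2 ≤ (G (star (c.Y z)) (c.Y z)).re ^ 2 := by
    rw [sq (G (star (c.Y z)) (c.Y z)).re]
    exact h2
  exact (pow_le_pow_iff_left₀ (by positivity) h3 (by norm_num)).mp h5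

/-- local maximum principle: `g z = G (star v0) (v z)`, `v = Y / E`, has a local maximum of the
modulus, so it is constant, so `v` is constant, `F = v G(v,F)`, `G(F,F) = 0`, `G(v,v) = 1`, so `F = 0`
and `Y` is constant, contradiction with `spanning` (`m ≥ 2`) -/
theorem no_local_max [ConnectedSpace S] (H : Ctx M σ e G) (hm2 : 2 ≤ m) {C : Set S}
    (hC : C ⊆ M.bdry) {c : GCell M e G} (hc : Reach C c) (hE : ∀ z ∈ c.O, c.E z ≠ 0) {z0 : ℂ}
    (hz0 : z0 ∈ c.O) (hmax : ∀ᶠ z in 𝓝 z0, c.N z ≤ c.N z0) : False := by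
  have hO : IsOpen c.O := isOpen_RectI _ _ _ _
  have hOK : c.O ⊆ c.K := RectI_sub _ _ _ _
  have dY : ∀ z ∈ c.O, HasDerivAt c.Y (c.E z • Fv c.φ e 0 z) z := fun z hz =>
    (c.sol.dY z (hOK hz)).hasDerivAt (mem_of_superset (hO.mem_nhds hz) hOK)
  have dE : ∀ z ∈ c.O, HasDerivAt c.E (G (c.Y z) (Fv c.φ e 0 z)) z := fun z hz =>
    (c.sol.dE z (hOK hz)).hasDerivAt (mem_of_superset (hO.mem_nhds hz) hOK)
  let v : ℂ → V m := fun z => (c.E z)⁻¹ • c.Y z
  have dv : ∀ z ∈ c.O, HasDerivAt v (Fv c.φ e 0 z - G (v z) (Fv c.φ e 0 z) • v z) z := by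
    intro z hz
    have h1 := ((dE z hz).inv (hE z hz)).smul (dY z hz)
    refine h1.congr_deriv ?_
    have hEz := hE z hz
    simp only [v, Pi.inv_apply, map_smul, smul_apply, smul_eq_mul]
    rw [smul_smul, inv_mul_cancel₀ hEz, one_smul, smul_smul, sub_eq_add_neg, ← neg_smul]
    congr 2
    field_simp
  have hNv : ∀ z ∈ c.O, c.N z = (G (star (v z)) (v z)).re := by
    intro z hz
    have hEz := hE z hz
    simp only [v, GCell.N, star_smul, map_smul, smul_apply, smul_eq_mul]
    have h1 : star (c.E z)⁻¹ * ((c.E z)⁻¹ * G (star (c.Y z)) (c.Y z)) =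
        (((‖c.E z‖ ^ 2)⁻¹ : ℝ) : ℂ) * G (star (c.Y z)) (c.Y z) := by
      rw [← mul_assoc]
      congr 1
      rw [Complex.star_def, ← Complex.normSq_eq_conj_mul_self, Complex.normSq_eq_norm_sq,
        norm_inv, inv_pow]
    have h2 : (c.E z)⁻¹ * (star (c.E z)⁻¹ * G (star (c.Y z)) (c.Y z)) =
        (((‖c.E z‖ ^ 2)⁻¹ : ℝ) : ℂ) * G (star (c.Y z)) (c.Y z) := by
      rw [← h1]; ring
    rw [h2, Complex.re_ofReal_mul]
    ring
  set v0 := v z0 with hv0
  -- the scalar function
  let g : ℂ → ℂ := fun z => G (star v0) (v z)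
  have dg : ∀ z ∈ c.O, DifferentiableAt ℂ g z := fun z hz =>
    (G (star v0)).differentiableAt.comp z (dv z hz).differentiableAt
  have hreal : ∀ w : V m, G (star w) w = (((G (star w) w).re : ℝ) : ℂ) := by
    intro w
    have h1 : star (G (star w) w) = G (star w) w := by
      rw [← H.inK.real, star_star, H.inK.symm]
    have h2 : (G (star w) w).im = 0 := by
      have := congrArg Complex.im h1
      simp only [Complex.star_def, Complex.conj_im] at this
      linarith
    apply Complex.ext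
    · simp
    · simpa using h2
  have hmaxg : IsLocalMax (norm ∘ g) z0 := by
    filter_upwards [hmax, hO.mem_nhds hz0] with z h1 h2
    have h3 := cauchy_schwarz H v0 (v z)
    rw [hNv z h2, hNv z0 hz0] at h1
    have h4 : 0 ≤ (G (star v0) v0).re := H.inK.nonneg v0
    have h5 : ‖g z‖ ^ 2 ≤ (G (star v0) v0).re ^ 2 := by
      refine h3.trans ?_
      rw [sq]
      exact mul_le_mul_of_nonneg_left h1 h4
    have h6 : ‖g z0‖ = (G (star v0) v0).re := by
      change ‖G (star v0) (v z0)‖ = _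
      rw [← hv0, hreal v0, Complex.norm_real, Real.norm_eq_abs, Complex.ofReal_re, abs_of_nonneg h4]
    simp only [Function.comp_apply]
    rw [h6]
    exact (pow_le_pow_iff_left₀ (norm_nonneg _) h4 (by norm_num)).mp h5
  have hdg : ∀ᶠ z in 𝓝 z0, DifferentiableAt ℂ g z := by
    filter_upwards [hO.mem_nhds hz0] with z hz
    exact dg z hz
  have hconst := Complex.eventually_eq_of_isLocalMax_norm hdg hmaxg
  -- the vector is constant
  have hvc : ∀ᶠ z in 𝓝 z0, v z = v0 := by
    filter_upwards [hmax, hO.mem_nhds hz0, hconst] with z h1 h2 h3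
    by_contra hne
    have h4 := H.pd (v0 - (1 : ℂ) • v z) (by
      rw [one_smul]
      exact sub_ne_zero.mpr (Ne.symm hne))
    rw [MaxA_expand H.inK, norm_one, one_mul] at h4
    have h5 : G (star v0) (v z) = G (star v0) v0 := h3
    rw [h5] at h4
    rw [hNv z h2, hNv z0 hz0] at h1
    simp only [one_pow, one_mul] at h4
    change (G (star (v z)) (v z)).re ≤ (G (star v0) v0).re at h1
    linarith
  obtain ⟨r, hr, hball⟩ := Metric.mem_nhds_iff.mp (inter_mem hvc (hO.mem_nhds hz0))
  have hballO : Metric.ball z0 r ⊆ c.O := fun z hz => (hball hz).2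
  have hF0 : ∀ z ∈ Metric.ball z0 r, Fv c.φ e 0 z = 0 := by
    intro z hz
    have hzO := hballO hz
    have h1 : ∀ᶠ w in 𝓝 z, v w = v0 := by
      filter_upwards [Metric.isOpen_ball.mem_nhds hz] with w hw
      exact (hball hw).1
    have h2 : HasDerivAt v 0 z := (hasDerivAt_const z v0).congr_of_eventuallyEq h1
    have h3 := (dv z hzO).unique h2
    have h4 : Fv c.φ e 0 z = G (v z) (Fv c.φ e 0 z) • v z := sub_eq_zero.mp h3
    have h5 : G (v z) (v z) = 1 := by
      have h6 := quad H hC hc H.inK.inB z (hOK hzO)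
      have hEz := hE z hzO
      simp only [v, map_smul, smul_apply, smul_eq_mul]
      rw [h6]
      field_simp
    have h6 : G (Fv c.φ e 0 z) (Fv c.φ e 0 z) = 0 := H.inK.conf c.φ c.hφ z (c.sub (hOK hzO))
    rw [h4] at h6
    simp only [map_smul, smul_apply, smul_eq_mul, h5, mul_one] at h6
    have h7 : G (v z) (Fv c.φ e 0 z) = 0 := by
      have h8 : G (v z) (Fv c.φ e 0 z) * G (v z) (Fv c.φ e 0 z) = 0 := by
        simpa using h6
      exact mul_self_eq_zero.mp h8
    rw [h4, h7, zero_smul]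
  -- the solution is constant on the disc
  have hYc : ∀ z ∈ Metric.ball z0 r, c.Y z = c.Y z0 := by
    intro z hz
    have hconv : Convex ℝ (Metric.ball z0 r) := convex_ball _ _
    have h1 : ∀ w ∈ Metric.ball z0 r, HasDerivWithinAt c.Y 0 (Metric.ball z0 r) w := by
      intro w hw
      have := dY w (hballO hw)
      rw [hF0 w hw, smul_zero] at this
      exact this.hasDerivWithinAt
    have h2 := hconv.norm_image_sub_le_of_norm_hasDerivWithin_le (f := c.Y) (f' := fun _ => 0)
      (C := 0) h1 (fun w _ => by simp) (Metric.mem_ball_self hr) hz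
    rw [zero_mul] at h2
    exact sub_eq_zero.mp (norm_eq_zero.mp (le_antisymm h2 (norm_nonneg _)))
  -- a functional which kills the solution
  obtain ⟨ξ, hξ0, hξ⟩ : ∃ ξ : V m →L[ℂ] ℂ, ξ ≠ 0 ∧ ξ (c.Y z0) = 0 := by
    let i0 : Fin m := ⟨0, by omega⟩
    let i1 : Fin m := ⟨1, by omega⟩
    have hne : i0 ≠ i1 := by simp [i0, i1]
    rcases eq_or_ne (c.Y z0 i0) 0 with h0 | h0
    · refine ⟨ContinuousLinearMap.proj i0, ?_, h0⟩
      intro h1
      have := congrArg (fun L : V m →L[ℂ] ℂ => L (Pi.single i0 1)) h1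
      simp at this
    · refine ⟨c.Y z0 i0 • ContinuousLinearMap.proj i1 - c.Y z0 i1 • ContinuousLinearMap.proj i0,
        ?_, ?_⟩
      · intro h1
        have := congrArg (fun L : V m →L[ℂ] ℂ => L (Pi.single i1 1)) h1
        simp [hne] at this
        exact h0 this
      · simp
        ring
  exact hξ0 (spanning H hC hc hr hballO ξ fun s hs => by rw [hYc s hs, hξ])

end Stek.Sv
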