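import Pool.Agent.H.MP_fc2485_gt.Sv.Star
import Pool.Agent.H.MP_fc2485_gt.Sv.MaxA
import Pool.Agent.H.MP_fc2485_gt.Sv.LocB
import Pool.Agent.H.MP_fc2485_gt.Sv.F7A

/-!
Case B: solutions reached from different components are proportional. Proof: both solutions are
not zero at `z` (ode_unique, spanning); if they are not proportional at `z`, then
`w = E_2 E_1' - E_1 E_2'` does not vanish identically on a small disc: otherwise `E_1 = t E_2`,
`Y_1 = t Y_2 + D`, `Q(D,F) = 0` for all `Q` in `K` by `good` with `τ = 1`, `D = 0` by `hnd`. At `z'`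
with `w ≠ 0` take `Q` from cov_reach (`x = y = z'`); `Q(Z,F) = 0` and `good` give `τ w = 0`, `τ = 0`;
apply caseB_local (exchange the two solutions if `E_2 z' = 0`).
-/

set_option maxSynthPendingDepth 3

open Set Filter Topology InnerProductSpace
open scoped ContDiff

namespace Stek.Sv

open Stek Surface GCell

variable {S : Type*} [TopologicalSpace S] {M : Surface S} {σ : ℝ} {m : ℕ} {e : Fin m → S → ℝ}
  {G : Bl m}

/-- the Wronskian of the two functions `E` does not vanish identically -/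
theorem F7B_wron [ConnectedSpace S] (H : Ctx M σ e G) (hm2 : 2 ≤ m)
    (hnd : ∀ (D : V m) (φ : Chart S), φ ∈ M.charts → ∀ z ∈ φ.map.target, 0 < z.im →
      (∀ᶠ w in 𝓝 z, ∀ Q, InK M e Q → Q D (Fv φ e 0 w) = 0) → D = 0)
    {C C' : Set S} (hC : C ⊆ M.bdry) (hC' : C' ⊆ M.bdry) {c c' : GCell M e G}
    (hc : Reach C c) (hc' : Reach C' c') (hφ : c.φ = c'.φ) {z : ℂ} {r : ℝ} (hr : 0 < r)
    (hb : Metric.ball z r ⊆ c.O) (hb' : Metric.ball z r ⊆ c'.O)
    (hno : ¬ ∃ t : ℂ, t ≠ 0 ∧ c.Y z = t • c'.Y z ∧ c.E z = t * c'.E z) :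
    ∃ s ∈ Metric.ball z r, c'.E s * G (c.Y s) (Fv c.φ e 0 s) -
      c.E s * G (c'.Y s) (Fv c.φ e 0 s) ≠ 0 := by
  by_contra hcon
  push Not at hcon
  obtain ⟨s0, hs0, hE0⟩ := exists_E_ne H hm2 hC' hc' hr hb'
  have dE2 : ∀ s ∈ Metric.ball z r, HasDerivAt c'.E (G (c'.Y s) (Fv c.φ e 0 s)) s := fun s hs => by
    rw [hφ]
    exact c'.dEat (hb' hs)
  have dY2 : ∀ s ∈ Metric.ball z r, HasDerivAt c'.Y (c'.E s • Fv c.φ e 0 s) s := fun s hs => by
    rw [hφ]
    exact c'.dYat (hb' hs)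
  -- a disc on which the second function does not vanish
  have hev : ∀ᶠ s in 𝓝 s0, s ∈ Metric.ball z r ∧ c'.E s ≠ 0 :=
    (Metric.isOpen_ball.eventually_mem hs0).and ((dE2 s0 hs0).continuousAt.eventually_ne hE0)
  obtain ⟨r', hr', hb2⟩ := Metric.mem_nhds_iff.mp hev
  have hs0' : s0 ∈ Metric.ball s0 r' := Metric.mem_ball_self hr'
  set t : ℂ := c.E s0 / c'.E s0 with ht
  have hE1 : ∀ s ∈ Metric.ball s0 r', c.E s = t * c'.E s := by
    intro s hs
    have h1 : c.E s / c'.E s = c.E s0 / c'.E s0 := by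
      apply const_on_ball (f := fun s => c.E s / c'.E s) _ hs
      intro w hw
      obtain ⟨hw1, hw2⟩ := hb2 hw
      have h2 := (c.dEat (hb hw1)).div (dE2 w hw1) hw2
      refine h2.congr_deriv ?_
      have h3 := hcon w hw1
      have h4 : G (c.Y w) (Fv c.φ e 0 w) * c'.E w - c.E w * G (c'.Y w) (Fv c.φ e 0 w) = 0 := by
        linear_combination h3
      rw [h4, zero_div]
    have h2 := (hb2 hs).2
    rw [ht, ← h1]
    field_simp
  set D : V m := c.Y s0 - t • c'.Y s0 with hD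
  have hY1 : ∀ s ∈ Metric.ball s0 r', c.Y s = t • c'.Y s + D := by
    intro s hs
    have h1 : c.Y s - t • c'.Y s = c.Y s0 - t • c'.Y s0 := by
      apply const_on_ball (f := fun s => c.Y s - t • c'.Y s) _ hs
      intro w hw
      have hw1 := (hb2 hw).1
      have h2 := (c.dYat (hb hw1)).sub ((dY2 w hw1).const_smul t)
      refine h2.congr_deriv ?_
      rw [hE1 w hw, smul_smul, sub_self]
    rw [hD, ← h1]
    abel
  have hD0 : D = 0 := by
    have hOs : s0 ∈ c.O := hb (hb2 hs0').1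
    apply hnd D c.φ c.hφ s0 (c.sub (RectI_sub _ _ _ _ hOs))
    · have h1 := hOs.2.2.1
      have h2 : (⟨s0.re, c.c⟩ : ℂ) ∈ c.φ.map.target := by
        apply c.sub
        exact ⟨hOs.1.le, hOs.2.1.le, le_rfl, c.hcd.le⟩
      rw [c.φ.target_eq] at h2
      have h3 : 0 ≤ c.c := h2.2
      linarith
    · filter_upwards [Metric.isOpen_ball.mem_nhds hs0'] with w hw Q hQ
      have hw1 := (hb2 hw).1
      have h1 := good H hC hc hQ.inB w (RectI_sub _ _ _ _ (hb hw1))
      have h2 := good H hC' hc' hQ.inB w (RectI_sub _ _ _ _ (hb' hw1))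
      rw [← hφ] at h2
      have h3 : HasDerivAt c.E (t * G (c'.Y w) (Fv c.φ e 0 w)) w := by
        have h4 := (dE2 w hw1).const_mul t
        refine h4.congr_of_eventuallyEq ?_
        filter_upwards [Metric.isOpen_ball.mem_nhds hw] with s hs
        exact hE1 s hs
      have h4 := (c.dEat (hb hw1)).unique h3
      rw [hY1 w hw] at h1
      have h5 : Q (t • c'.Y w + D) (Fv c.φ e 0 w) =
          t * Q (c'.Y w) (Fv c.φ e 0 w) + Q D (Fv c.φ e 0 w) := by
        simp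
      rw [h5, h2, ← hY1 w hw, h4] at h1
      linear_combination h1
  have ht0 : t ≠ 0 := by
    intro h0
    have h1 := hY1 s0 hs0'
    have h2 := hE1 s0 hs0'
    rw [h0, zero_smul, hD0, add_zero] at h1
    rw [h0, zero_mul] at h2
    exact not_zero H hm2 hC hc (hb (hb2 hs0').1) h1 h2
  -- back to the centre
  have hz : z ∈ Metric.ball z r := Metric.mem_ball_self hr
  have hsol1 : IsSol G (Fv c.φ e 0) (Metric.ball z r) c.Y c.E :=
    c.sol.mono (fun s hs => RectI_sub _ _ _ _ (hb hs))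
  have hsol2 : IsSol G (Fv c.φ e 0) (Metric.ball z r) c'.Y c'.E := by
    have := c'.sol.mono (K' := Metric.ball z r) (fun s hs => RectI_sub _ _ _ _ (hb' hs))
    rwa [← hφ] at this
  have hcont : ContinuousOn (Fv c.φ e 0) (Metric.ball z r) :=
    (Props_niceF H c).cont.mono (fun s hs => RectI_sub _ _ _ _ (hb hs))
  have h1 := ode_unique (convex_ball z r) hcont hsol1 (hsol2.smul t) (hb2 hs0').1
    (by
      have := hY1 s0 hs0'
      rwa [hD0, add_zero] at this) (hE1 s0 hs0') z hz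
  exact hno ⟨t, ht0, h1.1, h1.2⟩

/-- Case B is impossible: solutions reached from different components are proportional. -/
theorem coprop_ne [ConnectedSpace S] (H : Ctx M σ e G) (hm2 : 2 ≤ m) (hm : m ≤ 7)
    (hcov : Covd M e)
    (hnd : ∀ (D : V m) (φ : Chart S), φ ∈ M.charts → ∀ z ∈ φ.map.target, 0 < z.im →
      (∀ᶠ w in 𝓝 z, ∀ Q, InK M e Q → Q D (Fv φ e 0 w) = 0) → D = 0)
    {C C' : Set S} (hC : IsCC M C) (hC' : IsCC M C') (hne : C ≠ C') {c c' : GCell M e G}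
    (hc : Reach C c) (hc' : Reach C' c') : CoProp c c' := by
  intro hφ z hz hz'
  by_contra hno
  obtain ⟨r, hr, hball⟩ := Metric.mem_nhds_iff.mp
    (inter_mem ((isOpen_RectI c.a c.b c.c c.d).mem_nhds hz)
      ((isOpen_RectI c'.a c'.b c'.c c'.d).mem_nhds hz'))
  obtain ⟨s0, hs0, hw⟩ := F7B_wron H hm2 hnd hC.sub hC'.sub hc hc' hφ hr
    (fun s hs => (hball hs).1) (fun s hs => (hball hs).2) hno
  obtain ⟨r', hr', hb2⟩ := Metric.mem_nhds_iff.mp (Metric.isOpen_ball.mem_nhds hs0)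
  have hO : ∀ s ∈ Metric.ball s0 r', s ∈ c.O := fun s hs => (hball (hb2 hs)).1
  have hO' : ∀ s ∈ Metric.ball s0 r', s ∈ c'.O := fun s hs => (hball (hb2 hs)).2
  have hs0' : s0 ∈ Metric.ball s0 r' := Metric.mem_ball_self hr'
  have dE2 : ∀ s ∈ Metric.ball s0 r', HasDerivAt c'.E (G (c'.Y s) (Fv c.φ e 0 s)) s :=
    fun s hs => by
      rw [hφ]
      exact c'.dEat (hO' s hs)
  have dY2 : ∀ s ∈ Metric.ball s0 r', HasDerivAt c'.Y (c'.E s • Fv c.φ e 0 s) s := fun s hs => by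
    rw [hφ]
    exact c'.dYat (hO' s hs)
  have dE1 : ∀ s ∈ Metric.ball s0 r', HasDerivAt c.E (G (c.Y s) (Fv c.φ e 0 s)) s :=
    fun s hs => c.dEat (hO s hs)
  have dY1 : ∀ s ∈ Metric.ball s0 r', HasDerivAt c.Y (c.E s • Fv c.φ e 0 s) s :=
    fun s hs => c.dYat (hO s hs)
  obtain ⟨Q, ⟨τ, hQ⟩, hQ0, hQZ⟩ := cov_reach H hcov hC hC' hne hc hc' s0
    (RectI_sub _ _ _ _ (hO s0 hs0')) s0 (RectI_sub _ _ _ _ (hO' s0 hs0'))
  have g1 : ∀ s ∈ Metric.ball s0 r', Q (c.Y s) (Fv c.φ e 0 s) = τ * G (c.Y s) (Fv c.φ e 0 s) :=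
    fun s hs => good H hC.sub hc hQ s (RectI_sub _ _ _ _ (hO s hs))
  have g2 : ∀ s ∈ Metric.ball s0 r', Q (c'.Y s) (Fv c.φ e 0 s) =
      τ * G (c'.Y s) (Fv c.φ e 0 s) := fun s hs => by
    have := good H hC'.sub hc' hQ s (RectI_sub _ _ _ _ (hO' s hs))
    rwa [← hφ] at this
  have hτ : τ = 0 := by
    have h1 := congrArg (fun L : V m →L[ℂ] ℂ => L (Fv c.φ e 0 s0)) hQZ
    simp only [map_sub, map_smul, sub_apply, smul_apply, smul_eq_mul, zero_apply, g1 s0 hs0',
      g2 s0 hs0'] at h1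
    have h2 : τ * (c'.E s0 * G (c.Y s0) (Fv c.φ e 0 s0) -
      c.E s0 * G (c'.Y s0) (Fv c.φ e 0 s0)) = 0 := by linear_combination h1
    exact (mul_eq_zero.mp h2).resolve_right hw
  subst hτ
  have hZ0 : c'.E s0 • c.Y s0 - c.E s0 • c'.Y s0 ≠ 0 := by
    intro h0
    apply hw
    have h1 := congrArg (fun v : V m => G v (Fv c.φ e 0 s0)) h0
    simpa using h1
  have hF : DifferentiableOn ℂ (Fv c.φ e 0) (Metric.ball s0 r') :=
    (Props_niceF H c).holo.mono hO
  have hFF : ∀ s ∈ Metric.ball s0 r', Q (Fv c.φ e 0 s) (Fv c.φ e 0 s) = 0 := fun s hs =>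
    hQ.conf c.φ c.hφ s (c.sub (RectI_sub _ _ _ _ (hO s hs)))
  have q1 : ∀ s ∈ Metric.ball s0 r', Q (c.Y s) (c.Y s) = 0 := fun s hs => by
    have := quad H hC.sub hc hQ s (RectI_sub _ _ _ _ (hO s hs))
    rwa [zero_mul] at this
  have q2 : ∀ s ∈ Metric.ball s0 r', Q (c'.Y s) (c'.Y s) = 0 := fun s hs => by
    have := quad H hC'.sub hc' hQ s (RectI_sub _ _ _ _ (hO' s hs))
    rwa [zero_mul] at this
  have g1' : ∀ s ∈ Metric.ball s0 r', Q (c.Y s) (Fv c.φ e 0 s) = 0 := fun s hs => by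
    rw [g1 s hs, zero_mul]
  have g2' : ∀ s ∈ Metric.ball s0 r', Q (c'.Y s) (Fv c.φ e 0 s) = 0 := fun s hs => by
    rw [g2 s hs, zero_mul]
  have hd1 := (dE1 s0 hs0').deriv
  have hd2 := (dE2 s0 hs0').deriv
  by_cases hE2 : c'.E s0 = 0
  · have hE1 : c.E s0 ≠ 0 := by
      intro h0
      apply hw
      rw [hE2, h0]
      ring
    refine caseB_local hm Q hQ.symm hQ0 hr' hF
      (fun s hs => (dE2 s hs).differentiableAt.differentiableWithinAt)
      (fun s hs => (dE1 s hs).differentiableAt.differentiableWithinAt) dY2 dY1 hFF g2' g1' q1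
      (fun ξ hξ => spanning H hC.sub hc hr' hO ξ hξ) hE1 ?_ ?_ ?_
    · rw [hd1, hd2]
      intro h0
      apply hw
      linear_combination -h0
    · intro h0
      apply hZ0
      rw [← neg_sub, h0, neg_zero]
    · rw [← neg_sub, map_neg, hQZ, neg_zero]
  · refine caseB_local hm Q hQ.symm hQ0 hr' hF
      (fun s hs => (dE1 s hs).differentiableAt.differentiableWithinAt)
      (fun s hs => (dE2 s hs).differentiableAt.differentiableWithinAt) dY1 dY2 hFF g1' g2' q2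
      (fun ξ hξ => spanning H hC'.sub hc' hr' hO' ξ hξ) hE2 ?_ hZ0 hQZ
    rw [hd1, hd2]
    exact hw

end Stek.Sv
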