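import Pool.Agent.H.MP_fc2485_gt.Sv.Red

/-!
Gram forms of maps of the class (compare `IsCurve.isGram` in Main.lean and the proof of
`separation`).
-/

set_option maxSynthPendingDepth 3

open Set Filter Topology InnerProductSpace
open scoped ContDiff

namespace Stek.Sv

open Stek Surface

variable {S : Type*} [TopologicalSpace S]

/-- the linear form with real coefficients `a` -/
private noncomputable def F7G_L {m : ℕ} (a : Fin m → ℝ) : V m →L[ℂ] ℂ :=
  ∑ i, (a i : ℂ) • ContinuousLinearMap.proj i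

private theorem F7G_L_apply {m : ℕ} (a : Fin m → ℝ) (v : V m) :
    F7G_L a v = ∑ i, (a i : ℂ) * v i := by
  simp [F7G_L]

private theorem F7G_L_star {m : ℕ} (a : Fin m → ℝ) (v : V m) :
    F7G_L a (star v) = star (F7G_L a v) := by
  rw [F7G_L_apply, F7G_L_apply, star_sum]
  refine Finset.sum_congr rfl fun i _ => ?_
  simp

private theorem F7G_sum_fderiv {M : Surface S} {σ : ℝ} {m : ℕ} {e : Fin m → S → ℝ}
    (he : ∀ i, M.IsSteklov σ (e i)) {φ : Chart S} (hφ : φ ∈ M.charts) {z : ℂ}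
    (hz : z ∈ φ.map.target) {f : S → ℝ} {a : Fin m → ℝ} (hf : ∀ x, f x = ∑ i, a i * e i x) (v : ℂ) :
    fderivWithin ℝ (loc φ f) φ.map.target z v =
      ∑ i, a i * fderivWithin ℝ (loc φ (e i)) φ.map.target z v := by
  have h1 : loc φ f = fun w => ∑ i, a i * loc φ (e i) w := by
    funext w
    exact hf _
  have h2 : HasFDerivWithinAt (fun w => ∑ i, a i * loc φ (e i) w)
      (∑ i, a i • fderivWithin ℝ (loc φ (e i)) φ.map.target z) φ.map.target z := by
    refine HasFDerivWithinAt.fun_sum fun i _ => ?_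
    exact ((diffAt (he i) hφ hz).hasFDerivWithinAt).const_mul (a i)
  rw [h1, h2.fderivWithin (uniqueDiffOn φ z hz)]
  simp

/-- a non-separated pair is covered by a Gram form -/
theorem covered_of_not_separated {M : Surface S} {σ : ℝ} {m : ℕ}
    (b : Module.Basis (Fin m) ℝ (M.eigenspace σ)) {p q : S} (h : ¬ M.Separated σ p q) :
    ∃ Q, InK M (fun i => (b i : S → ℝ)) Q ∧
      Q (uv (fun i => (b i : S → ℝ)) p - uv (fun i => (b i : S → ℝ)) q) = 0 := by
  unfold Separated at h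
  push Not at h
  obtain ⟨n, Φ, hΦ, hpq⟩ := h
  obtain ⟨A, hA⟩ : ∃ A : Fin n → Fin m → ℝ, ∀ k i, A k i = b.repr ⟨Φ k, hΦ.mem k⟩ i :=
    ⟨_, fun _ _ => rfl⟩
  have hsum : ∀ k x, Φ k x = ∑ i, A k i * (b i : S → ℝ) x := by
    intro k x
    have h1 : (⟨Φ k, hΦ.mem k⟩ : M.eigenspace σ) = ∑ i, A k i • b i := by
      have h2 := (b.sum_repr ⟨Φ k, hΦ.mem k⟩).symm
      refine h2.trans (Finset.sum_congr rfl fun i _ => ?_)
      rw [hA]
    have h2 : Φ k = ((∑ i, A k i • b i : M.eigenspace σ) : S → ℝ) := by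
      rw [← h1]
    rw [h2]
    simp [Finset.sum_apply]
  have hst : ∀ i, M.IsSteklov σ ((b i : M.eigenspace σ) : S → ℝ) := fun i => (b i).2
  have huv : ∀ k x, F7G_L (A k) (uv (fun i => (b i : S → ℝ)) x) = (Φ k x : ℂ) := by
    intro k x
    rw [F7G_L_apply, hsum]
    simp [uv]
  have hFv : ∀ k, ∀ φ ∈ M.charts, ∀ z ∈ φ.map.target,
      F7G_L (A k) (Fv φ (fun i => (b i : S → ℝ)) 0 z) =
        (dx φ (Φ k) z : ℂ) - Complex.I * (dy φ (Φ k) z : ℂ) := by
    intro k φ hφ z hz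
    have hx : dx φ (Φ k) z = ∑ i, A k i * dx φ (b i : S → ℝ) z :=
      F7G_sum_fderiv hst hφ hz (hsum k) 1
    have hy : dy φ (Φ k) z = ∑ i, A k i * dy φ (b i : S → ℝ) z :=
      F7G_sum_fderiv hst hφ hz (hsum k) Complex.I
    rw [F7G_L_apply, hx, hy]
    push_cast
    rw [Finset.mul_sum, ← Finset.sum_sub_distrib]
    refine Finset.sum_congr rfl fun i _ => ?_
    simp only [Fv, Fj]
    ring
  obtain ⟨Q, hQd⟩ : ∃ Q : Bl m, Q = ∑ k, (F7G_L (A k)).smulRight (F7G_L (A k)) := ⟨_, rfl⟩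
  have hQ : ∀ v w, Q v w = ∑ k, F7G_L (A k) v * F7G_L (A k) w := by
    intro v w
    rw [hQd]
    simp
  refine ⟨Q, ⟨?_, ?_, ?_, ?_, ?_⟩, ?_⟩
  · intro v w
    rw [hQ, hQ]
    exact Finset.sum_congr rfl fun k _ => mul_comm _ _
  · intro v w
    rw [hQ, hQ, star_sum]
    refine Finset.sum_congr rfl fun k _ => ?_
    rw [F7G_L_star, F7G_L_star, star_mul, mul_comm]
  · intro v
    rw [hQ, Complex.re_sum]
    refine Finset.sum_nonneg fun k _ => ?_
    rw [F7G_L_star]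
    have h1 : star (F7G_L (A k) v) * F7G_L (A k) v = (Complex.normSq (F7G_L (A k) v) : ℂ) :=
      Complex.normSq_eq_conj_mul_self.symm
    rw [h1, Complex.ofReal_re]
    exact Complex.normSq_nonneg _
  · intro x hx
    rw [hQ]
    simp only [huv]
    have h1 := hΦ.sphere x hx
    have h2 : ∑ k, (Φ k x : ℂ) * (Φ k x : ℂ) = ((∑ k, Φ k x ^ 2 : ℝ) : ℂ) := by
      push_cast
      exact Finset.sum_congr rfl fun k _ => by ring
    rw [h2, h1, Complex.ofReal_one]
  · intro φ hφ z hz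
    rw [hQ]
    have h1 := hΦ.orth φ hφ z hz
    have h2 := hΦ.norm_eq φ hφ z hz
    have h3 : ∑ k, F7G_L (A k) (Fv φ (fun i => (b i : S → ℝ)) 0 z) *
        F7G_L (A k) (Fv φ (fun i => (b i : S → ℝ)) 0 z) =
          ((∑ k, dx φ (Φ k) z ^ 2 : ℝ) : ℂ) - ((∑ k, dy φ (Φ k) z ^ 2 : ℝ) : ℂ) -
            2 * Complex.I * ((∑ k, dx φ (Φ k) z * dy φ (Φ k) z : ℝ) : ℂ) := by
      push_cast
      rw [Finset.mul_sum, ← Finset.sum_sub_distrib, ← Finset.sum_sub_distrib]
      refine Finset.sum_congr rfl fun k _ => ?_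
      rw [hFv k φ hφ z hz]
      linear_combination (dy φ (Φ k) z : ℂ) ^ 2 * Complex.I_sq
    rw [h3, h1, h2]
    simp
  · ext v
    rw [hQ]
    have h1 : ∀ k, F7G_L (A k) (uv (fun i => (b i : S → ℝ)) p -
        uv (fun i => (b i : S → ℝ)) q) = 0 := by
      intro k
      rw [map_sub, huv, huv, hpq k, sub_self]
    simp [h1]

end Stek.Sv
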