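import Pool.Agent.H.MP_fc2485_gt.Sv.PoleA

/-!
A pole: `E` has a zero at `z` with `Y z ≠ 0`; the relations (star) hold for all pairs near `z`;
then the dimension is at least eight.

Proof (`z = 0`). `E` has a zero of order `k ≥ 1`. For `ξ` in the dual space `ξ(Y)' = E ξ(F)`, so
`ξ(Y) - ξ(Y 0)` has a zero of order `≥ k+1`; by spanning there is a basis `ξ_0, ..., ξ_{m-1}` of the
dual with `ξ_0 (Y 0) = 1`, `ξ_j(Y)` of exact order `o_j`, `k + 1 ≤ o_1 < o_2 < ...`, `ξ_j(Y) ~ s^{o_j}`.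
With `G(F,F) = 0`: `G(Y,F_j) = E^{(j+1)}`, `j = 0,1,2`. For `(ξ, τ)` as in the relation at a point `x`
with `E x ≠ 0`, `h = ξ(Y)` satisfies `h = τE, h' = τE', h'' = τ(E'' + E'²/E),
h''' = τ(E''' + 3E'E''/E)` at `x`: the 3-jet of `τ (E(x) + E²/E(x))/2`. Apply at `y = λ` and at
`x = λ x0` with `x0` of the monomial lemma, `λ → 0`, `ξ = ∑ b_j ξ_j`, `β_j = b_j λ^{o_j}`, `τ' = τ E(λ)`:
multiplying the `i`-th equation by `λ^i` (`(λx0)^i`), the system converges to the model system,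
which is injective; injectivity is an open condition.
-/

set_option maxSynthPendingDepth 3

open Set Filter Topology

namespace Stek.Sv

/-- echelon basis -/
private theorem PoleB_ech {D : Type*} [AddCommGroup D] [Module ℂ D] [FiniteDimensional ℂ D]
    (c : ℕ → D →ₗ[ℂ] ℂ) (N : ℕ) : ∀ U : Submodule ℂ D, Module.finrank ℂ U ≤ N →
      (∀ ξ ∈ U, (∀ i, c i ξ = 0) → ξ = 0) →
      ∃ n ≤ N, ∃ (o : Fin n → ℕ) (b : Fin n → D), StrictMono o ∧ (∀ j, b j ∈ U) ∧
        (∀ j, ∀ i < o j, c i (b j) = 0) ∧ (∀ j, c (o j) (b j) = 1) ∧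
        ∀ ξ ∈ U, ∃ a : Fin n → ℂ, ξ = ∑ j, a j • b j := by
  induction N with
  | zero =>
    intro U hU _
    have hb : U = ⊥ := by
      rw [← Submodule.finrank_eq_zero (R := ℂ)]
      omega
    refine ⟨0, le_rfl, Fin.elim0, Fin.elim0, fun a => a.elim0, fun a => a.elim0,
      fun a => a.elim0, fun a => a.elim0, ?_⟩
    intro ξ hξ
    rw [hb, Submodule.mem_bot] at hξ
    exact ⟨Fin.elim0, by simp [hξ]⟩
  | succ N ih =>
    intro U hU hinj
    classical
    by_cases hex : ∃ i, ∃ ξ ∈ U, c i ξ ≠ 0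
    · obtain ⟨ξ1, hξ1, hne⟩ := Nat.find_spec hex
      set i0 := Nat.find hex with hi0
      have hmin : ∀ i < i0, ∀ ξ ∈ U, c i ξ = 0 := by
        intro i hi ξ hξ
        by_contra h
        exact Nat.find_min hex hi ⟨ξ, hξ, h⟩
      set ξ0 : D := (c i0 ξ1)⁻¹ • ξ1 with hξ0
      have hξ0U : ξ0 ∈ U := U.smul_mem _ hξ1
      have hc0 : c i0 ξ0 = 1 := by
        rw [hξ0, map_smul, smul_eq_mul, inv_mul_cancel₀ hne]
      set U' : Submodule ℂ D := U ⊓ LinearMap.ker (c i0) with hU'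
      have hlt : U' < U := by
        refine lt_of_le_of_ne inf_le_left ?_
        intro h
        have h1 : ξ0 ∈ U' := by
          rw [h]
          exact hξ0U
        have h2 : c i0 ξ0 = 0 := h1.2
        rw [hc0] at h2
        exact one_ne_zero h2
      have hfr : Module.finrank ℂ U' ≤ N := by
        have := Submodule.finrank_lt_finrank_of_lt hlt
        omega
      obtain ⟨n, hn, o, b, ho, hbU, hb1, hb2, hb3⟩ := ih U' hfr
        (fun ξ hξ h => hinj ξ hξ.1 h)
      have hgt : ∀ j, i0 < o j := by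
        intro j
        by_contra hcon
        rcases lt_or_eq_of_le (not_lt.mp hcon) with h | h
        · have h1 := hmin _ h (b j) (hbU j).1
          rw [hb2 j] at h1
          exact one_ne_zero h1
        · have h1 : c i0 (b j) = 0 := (hbU j).2
          rw [← h, hb2 j] at h1
          exact one_ne_zero h1
      refine ⟨n + 1, by omega, Fin.cons i0 o, Fin.cons ξ0 b, ?_, ?_, ?_, ?_, ?_⟩
      · intro a a' haa'
        revert haa'
        refine Fin.cases ?_ (fun p => ?_) a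
        · refine Fin.cases ?_ (fun q => ?_) a'
          · intro h
            exact absurd h (lt_irrefl _)
          · intro _
            simpa using hgt q
        · refine Fin.cases ?_ (fun q => ?_) a'
          · intro h
            exact absurd h (by simp)
          · intro h
            simpa using ho (Fin.succ_lt_succ_iff.mp h)
      · intro j
        refine Fin.cases ?_ (fun p => ?_) j
        · simpa using hξ0U
        · simpa using (hbU p).1
      · intro j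
        refine Fin.cases ?_ (fun p => ?_) j
        · intro i hi
          simp only [Fin.cons_zero] at hi ⊢
          exact hmin i hi ξ0 hξ0U
        · intro i hi
          simp only [Fin.cons_succ] at hi ⊢
          exact hb1 p i hi
      · intro j
        refine Fin.cases ?_ (fun p => ?_) j
        · simpa using hc0
        · simpa using hb2 p
      · intro ξ hξ
        have h1 : ξ - c i0 ξ • ξ0 ∈ U' := by
          refine ⟨U.sub_mem hξ (U.smul_mem _ hξ0U), ?_⟩
          change c i0 (ξ - c i0 ξ • ξ0) = 0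
          rw [map_sub, map_smul, hc0, smul_eq_mul, mul_one, sub_self]
        obtain ⟨a, ha⟩ := hb3 _ h1
        refine ⟨Fin.cons (c i0 ξ) a, ?_⟩
        rw [Fin.sum_univ_succ]
        simp only [Fin.cons_zero, Fin.cons_succ]
        rw [← ha]
        abel
    · push Not at hex
      refine ⟨0, by omega, Fin.elim0, Fin.elim0, fun a => a.elim0, fun a => a.elim0,
        fun a => a.elim0, fun a => a.elim0, ?_⟩
      intro ξ hξ
      have := hinj ξ hξ (fun i => hex i ξ hξ)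
      exact ⟨Fin.elim0, by simp [this]⟩

/-- jets of a function with a zero of order `o` -/
private theorem PoleB_jet {f g : ℂ → ℂ} {z : ℂ} {o : ℕ} (hf : AnalyticAt ℂ f z)
    (hg : AnalyticAt ℂ g z) (hfg : ∀ᶠ s in 𝓝 z, f s = (s - z) ^ o * g s) (i : ℕ) :
    ∃ p : ℂ → ℂ, AnalyticAt ℂ p z ∧ p z = ff o i * g z ∧
      ∀ᶠ s in 𝓝 z, (s - z) ^ i * iteratedDeriv i f s = (s - z) ^ o * p s := by
  induction i with
  | zero =>
    refine ⟨g, hg, by simp [ff], ?_⟩
    filter_upwards [hfg] with s hs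
    simpa using hs
  | succ i ih =>
    obtain ⟨p, hp, hpz, hps⟩ := ih
    refine ⟨fun s => ((o : ℂ) - i) * p s + (s - z) * deriv p s, ?_, ?_, ?_⟩
    · exact (analyticAt_const.mul hp).add ((analyticAt_id.sub analyticAt_const).mul hp.deriv)
    · simp only [sub_self, zero_mul, add_zero]
      rw [hpz, ff, ff, Finset.prod_range_succ]
      ring
    · have hfi : ∀ᶠ s in 𝓝 z, AnalyticAt ℂ (iteratedDeriv i f) s := by
        have h1 : AnalyticAt ℂ (iteratedDeriv i f) z := by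
          rw [iteratedDeriv_eq_iterate]
          exact hf.iterated_deriv i
        exact h1.eventually_analyticAt
      have hpi : ∀ᶠ s in 𝓝 z, AnalyticAt ℂ p s := hp.eventually_analyticAt
      filter_upwards [hfi, hpi, eventually_eventually_nhds.mpr hps, hps] with s h1 h2 h3 h4
      have hpow : ∀ n : ℕ, HasDerivAt (fun s : ℂ => (s - z) ^ n) ((n : ℂ) * (s - z) ^ (n - 1)) s := by
        intro n
        have := ((hasDerivAt_id s).sub_const z).fun_pow n
        simpa using this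
      have hL : HasDerivAt (fun s => (s - z) ^ i * iteratedDeriv i f s)
          ((i : ℂ) * (s - z) ^ (i - 1) * iteratedDeriv i f s +
            (s - z) ^ i * iteratedDeriv (i + 1) f s) s := by
        have h5 : HasDerivAt (iteratedDeriv i f) (iteratedDeriv (i + 1) f s) s := by
          rw [iteratedDeriv_succ]
          exact h1.differentiableAt.hasDerivAt
        exact (hpow i).mul h5
      have hR : HasDerivAt (fun s => (s - z) ^ o * p s)
          ((o : ℂ) * (s - z) ^ (o - 1) * p s + (s - z) ^ o * deriv p s) s :=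
        (hpow o).mul h2.differentiableAt.hasDerivAt
      have heq := (hL.congr_of_eventuallyEq (EventuallyEq.symm h3)).unique hR
      have hm : ∀ n : ℕ, (s - z) * ((n : ℂ) * (s - z) ^ (n - 1)) = (n : ℂ) * (s - z) ^ n := by
        intro n
        rcases n with _ | n
        · simp
        · rw [Nat.add_sub_cancel, pow_succ]
          ring
      have h6 : (s - z) * ((i : ℂ) * (s - z) ^ (i - 1) * iteratedDeriv i f s +
            (s - z) ^ i * iteratedDeriv (i + 1) f s) =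
          (s - z) * ((o : ℂ) * (s - z) ^ (o - 1) * p s + (s - z) ^ o * deriv p s) := by
        rw [heq]
      have h7 : (s - z) * ((i : ℂ) * (s - z) ^ (i - 1) * iteratedDeriv i f s +
            (s - z) ^ i * iteratedDeriv (i + 1) f s) =
          (i : ℂ) * ((s - z) ^ i * iteratedDeriv i f s) +
            (s - z) ^ (i + 1) * iteratedDeriv (i + 1) f s := by
        rw [mul_add, ← mul_assoc, hm i]
        ring
      have h8 : (s - z) * ((o : ℂ) * (s - z) ^ (o - 1) * p s + (s - z) ^ o * deriv p s) =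
          (o : ℂ) * (s - z) ^ o * p s + (s - z) ^ o * ((s - z) * deriv p s) := by
        rw [mul_add, ← mul_assoc, hm o]
        ring
      rw [h7, h8, h4] at h6
      linear_combination h6

/-- derivatives along the flow -/
private theorem PoleB_der {m : ℕ} (G : Bl m) (hsym : ∀ v w, G v w = G w v)
    {z : ℂ} {r : ℝ} {F : ℕ → ℂ → V m} {Y : ℂ → V m} {E : ℂ → ℂ}
    (dF : ∀ j, ∀ s ∈ Metric.ball z r, HasDerivAt (F j) (F (j + 1) s) s)
    (dY : ∀ s ∈ Metric.ball z r, HasDerivAt Y (E s • F 0 s) s)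
    (dE : ∀ s ∈ Metric.ball z r, HasDerivAt E (G (Y s) (F 0 s)) s)
    (hFF : ∀ s ∈ Metric.ball z r, G (F 0 s) (F 0 s) = 0) :
    ∀ s ∈ Metric.ball z r, iteratedDeriv 1 E s = G (Y s) (F 0 s) ∧
      iteratedDeriv 2 E s = G (Y s) (F 1 s) ∧ iteratedDeriv 3 E s = G (Y s) (F 2 s) ∧
      ∀ ξ : V m →L[ℂ] ℂ, iteratedDeriv 1 (fun s => ξ (Y s)) s = E s * ξ (F 0 s) ∧
        iteratedDeriv 2 (fun s => ξ (Y s)) s = iteratedDeriv 1 E s * ξ (F 0 s) + E s * ξ (F 1 s) ∧
        iteratedDeriv 3 (fun s => ξ (Y s)) s = iteratedDeriv 2 E s * ξ (F 0 s) +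
          2 * (iteratedDeriv 1 E s * ξ (F 1 s)) + E s * ξ (F 2 s) := by
  have hopen : IsOpen (Metric.ball z r) := Metric.isOpen_ball
  have hnh : ∀ s ∈ Metric.ball z r, ∀ {P : ℂ → Prop}, (∀ t ∈ Metric.ball z r, P t) →
      ∀ᶠ t in 𝓝 s, P t := by
    intro s hs P hP
    filter_upwards [hopen.mem_nhds hs] with t ht
    exact hP t ht
  -- derivative of bilinear terms
  have hbil : ∀ (A B : ℂ → V m) (A' B' : V m) (s : ℂ), HasDerivAt A A' s → HasDerivAt B B' s →
      HasDerivAt (fun t => G (A t) (B t)) (G A' (B s) + G (A s) B') s := by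
    intro A B A' B' s hA hB
    have h1 : HasDerivAt (fun t => G (A t)) (G A') s := G.hasFDerivAt.comp_hasDerivAt s hA
    exact h1.clm_apply hB
  have step : ∀ {f f' : ℂ → ℂ} (i : ℕ), (∀ s ∈ Metric.ball z r, iteratedDeriv i f s = f' s) →
      ∀ (d : ℂ → ℂ), (∀ s ∈ Metric.ball z r, HasDerivAt f' (d s) s) →
      ∀ s ∈ Metric.ball z r, iteratedDeriv (i + 1) f s = d s := by
    intro f f' i h d hd s hs
    rw [iteratedDeriv_succ]
    exact ((hd s hs).congr_of_eventuallyEq (hnh s hs h)).deriv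
  have hF01 : ∀ s ∈ Metric.ball z r, G (F 0 s) (F 1 s) = 0 := by
    intro s hs
    have h1 := hbil (F 0) (F 0) _ _ s (dF 0 s hs) (dF 0 s hs)
    have h2 : HasDerivAt (fun t => G (F 0 t) (F 0 t)) 0 s :=
      (hasDerivAt_const s (0 : ℂ)).congr_of_eventuallyEq (hnh s hs hFF)
    have h3 := h1.unique h2
    simp only [Nat.reduceAdd] at h3
    rw [hsym (F 1 s) (F 0 s)] at h3
    linear_combination h3 / 2
  have E1 : ∀ s ∈ Metric.ball z r, iteratedDeriv 1 E s = G (Y s) (F 0 s) := by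
    intro s hs
    rw [iteratedDeriv_one]
    exact (dE s hs).deriv
  have E2 : ∀ s ∈ Metric.ball z r, iteratedDeriv 2 E s = G (Y s) (F 1 s) := by
    refine step 1 E1 (fun s => G (Y s) (F 1 s)) ?_
    intro s hs
    have h1 := hbil Y (F 0) _ _ s (dY s hs) (dF 0 s hs)
    have h2 : G (E s • F 0 s) (F 0 s) + G (Y s) (F (0 + 1) s) = G (Y s) (F 1 s) := by
      rw [map_smul, ContinuousLinearMap.smul_apply, hFF s hs]
      simp
    rw [h2] at h1
    exact h1
  have E3 : ∀ s ∈ Metric.ball z r, iteratedDeriv 3 E s = G (Y s) (F 2 s) := by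
    refine step 2 E2 (fun s => G (Y s) (F 2 s)) ?_
    intro s hs
    have h1 := hbil Y (F 1) _ _ s (dY s hs) (dF 1 s hs)
    have h2 : G (E s • F 0 s) (F 1 s) + G (Y s) (F (1 + 1) s) = G (Y s) (F 2 s) := by
      rw [map_smul, ContinuousLinearMap.smul_apply, hF01 s hs]
      simp
    rw [h2] at h1
    exact h1
  have dE1 : ∀ s ∈ Metric.ball z r, HasDerivAt (iteratedDeriv 1 E) (iteratedDeriv 2 E s) s := by
    intro s hs
    have h1 := hbil Y (F 0) _ _ s (dY s hs) (dF 0 s hs)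
    have h3 := h1.congr_of_eventuallyEq (f₁ := iteratedDeriv 1 E) (hnh s hs E1)
    have h4 : iteratedDeriv 2 E s = deriv (iteratedDeriv 1 E) s := by
      rw [iteratedDeriv_succ]
    rw [h4]
    exact h3.differentiableAt.hasDerivAt
  have dE0 : ∀ s ∈ Metric.ball z r, HasDerivAt E (iteratedDeriv 1 E s) s := by
    intro s hs
    rw [E1 s hs]
    exact dE s hs
  intro s0 hs0
  refine ⟨E1 s0 hs0, E2 s0 hs0, E3 s0 hs0, ?_⟩
  intro ξ
  have dξ : ∀ j, ∀ s ∈ Metric.ball z r, HasDerivAt (fun t => ξ (F j t)) (ξ (F (j + 1) s)) s :=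
    fun j s hs => ξ.hasFDerivAt.comp_hasDerivAt s (dF j s hs)
  have H1 : ∀ s ∈ Metric.ball z r, iteratedDeriv 1 (fun s => ξ (Y s)) s = E s * ξ (F 0 s) := by
    intro s hs
    rw [iteratedDeriv_one]
    have h1 : HasDerivAt (fun t => ξ (Y t)) (ξ (E s • F 0 s)) s :=
      ξ.hasFDerivAt.comp_hasDerivAt s (dY s hs)
    rw [h1.deriv, map_smul, smul_eq_mul]
  have H2 : ∀ s ∈ Metric.ball z r, iteratedDeriv 2 (fun s => ξ (Y s)) s =
      iteratedDeriv 1 E s * ξ (F 0 s) + E s * ξ (F 1 s) :=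
    step 1 H1 _ (fun s hs => (dE0 s hs).mul (dξ 0 s hs))
  have H3 : ∀ s ∈ Metric.ball z r, iteratedDeriv 3 (fun s => ξ (Y s)) s =
      (iteratedDeriv 2 E s * ξ (F 0 s) + iteratedDeriv 1 E s * ξ (F 1 s)) +
      (iteratedDeriv 1 E s * ξ (F 1 s) + E s * ξ (F 2 s)) :=
    step 2 H2 _ (fun s hs => ((dE1 s hs).mul (dξ 0 s hs)).add ((dE0 s hs).mul (dξ 1 s hs)))
  refine ⟨H1 s0 hs0, H2 s0 hs0, ?_⟩
  rw [H3 s0 hs0]
  ring

/-- linear relations with converging coefficients -/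
private theorem PoleB_lim {n : ℕ} {k : ℕ} {o : Fin n → ℕ} {x0 : ℝ} (hx0 : 0 < x0)
    (hmon : ∀ (β0 τ : ℂ) (β : Fin n → ℂ),
      (∀ i < 4, β0 * ff 0 i + ∑ j, β j * ff (o j) i = τ / 2 * (ff 0 i + ff (2 * k) i)) →
      (∀ i < 4, β0 * ff 0 i + ∑ j, β j * x0 ^ (o j) * ff (o j) i =
        τ / 2 * x0 ^ k * (ff 0 i + ff (2 * k) i)) →
      β0 = 0 ∧ τ = 0 ∧ ∀ j, β j = 0)
    {z : ℂ} {c0 e0 : ℂ} {γ : Fin n → ℂ} (hc0 : c0 ≠ 0) (he0 : e0 ≠ 0) (hγ : ∀ j, γ j ≠ 0)
    (p0 : ℕ → ℂ → ℂ) (p : Fin n → ℕ → ℂ → ℂ) (ε : ℂ → ℂ) (q : ℕ → ℂ → ℂ)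
    (hp0 : ∀ i < 4, Tendsto (p0 i) (𝓝 z) (𝓝 (ff 0 i * c0)))
    (hp : ∀ j, ∀ i < 4, Tendsto (p j i) (𝓝 z) (𝓝 (ff (o j) i * γ j)))
    (hε : Tendsto ε (𝓝 z) (𝓝 e0))
    (hq : ∀ i < 4, Tendsto (q i) (𝓝 z) (𝓝 (e0 ^ 2 / 2 * (ff 0 i + ff (2 * k) i))))
    (h : ∀ᶠ l : ℝ in 𝓝[>] 0, ∃ v : ℂ × ℂ × (Fin n → ℂ), v ≠ 0 ∧
      (∀ i < 4, (v.1 * p0 i (z + l) + ∑ j, v.2.2 j * p j i (z + l)) * ε (z + l) =
        v.2.1 * q i (z + l)) ∧
      (∀ i < 4, (v.1 * p0 i (z + l * x0) + ∑ j, v.2.2 j * x0 ^ (o j) * p j i (z + l * x0)) *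
        ε (z + l * x0) = v.2.1 * x0 ^ k * q i (z + l * x0))) : False := by
  -- unit vectors
  have h1 : ∀ᶠ l : ℝ in 𝓝[>] 0, ∃ v : ℂ × ℂ × (Fin n → ℂ), ‖v‖ = 1 ∧
      (∀ i < 4, (v.1 * p0 i (z + l) + ∑ j, v.2.2 j * p j i (z + l)) * ε (z + l) =
        v.2.1 * q i (z + l)) ∧
      (∀ i < 4, (v.1 * p0 i (z + l * x0) + ∑ j, v.2.2 j * x0 ^ (o j) * p j i (z + l * x0)) *
        ε (z + l * x0) = v.2.1 * x0 ^ k * q i (z + l * x0)) := by
    filter_upwards [h] with l hl
    obtain ⟨v, hv, ha, hb⟩ := hl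
    have hn : ‖v‖ ≠ 0 := norm_ne_zero_iff.mpr hv
    set t : ℂ := ((‖v‖⁻¹ : ℝ) : ℂ) with ht
    refine ⟨t • v, ?_, ?_, ?_⟩
    · rw [norm_smul, ht, Complex.norm_real, norm_inv, norm_norm, inv_mul_cancel₀ hn]
    · intro i hi
      have h2 := ha i hi
      simp only [Prod.smul_fst, Prod.smul_snd, Pi.smul_apply, smul_eq_mul]
      calc (t * v.1 * p0 i (z + l) + ∑ j, t * v.2.2 j * p j i (z + l)) * ε (z + l)
          = t * ((v.1 * p0 i (z + l) + ∑ j, v.2.2 j * p j i (z + l)) * ε (z + l)) := by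
            rw [← mul_assoc, mul_add, Finset.mul_sum]
            simp only [mul_assoc]
        _ = t * v.2.1 * q i (z + l) := by rw [h2, mul_assoc]
    · intro i hi
      have h2 := hb i hi
      simp only [Prod.smul_fst, Prod.smul_snd, Pi.smul_apply, smul_eq_mul]
      calc (t * v.1 * p0 i (z + l * x0) + ∑ j, t * v.2.2 j * x0 ^ (o j) * p j i (z + l * x0)) *
            ε (z + l * x0)
          = t * ((v.1 * p0 i (z + l * x0) + ∑ j, v.2.2 j * x0 ^ (o j) * p j i (z + l * x0)) *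
            ε (z + l * x0)) := by
            rw [← mul_assoc, mul_add, Finset.mul_sum]
            simp only [mul_assoc]
        _ = t * v.2.1 * x0 ^ k * q i (z + l * x0) := by rw [h2]; ring
  -- a sequence
  have hseq : Tendsto (fun N : ℕ => (1 / ((N : ℝ) + 1) : ℝ)) atTop (𝓝[>] 0) := by
    rw [tendsto_nhdsWithin_iff]
    refine ⟨tendsto_one_div_add_atTop_nhds_zero_nat, Eventually.of_forall fun N => ?_⟩
    exact Set.mem_Ioi.mpr (by positivity)
  obtain ⟨N0, hN0⟩ := (hseq.eventually h1).exists_forall_of_atTop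
  have h2 : ∀ N : ℕ, ∃ v : ℂ × ℂ × (Fin n → ℂ), ‖v‖ = 1 ∧
      (∀ i < 4, (v.1 * p0 i (z + (1 / (((N + N0 : ℕ) : ℝ) + 1) : ℝ)) +
        ∑ j, v.2.2 j * p j i (z + (1 / (((N + N0 : ℕ) : ℝ) + 1) : ℝ))) *
          ε (z + (1 / (((N + N0 : ℕ) : ℝ) + 1) : ℝ)) =
        v.2.1 * q i (z + (1 / (((N + N0 : ℕ) : ℝ) + 1) : ℝ))) ∧
      (∀ i < 4, (v.1 * p0 i (z + (1 / (((N + N0 : ℕ) : ℝ) + 1) : ℝ) * x0) +
        ∑ j, v.2.2 j * x0 ^ (o j) * p j i (z + (1 / (((N + N0 : ℕ) : ℝ) + 1) : ℝ) * x0)) *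
        ε (z + (1 / (((N + N0 : ℕ) : ℝ) + 1) : ℝ) * x0) =
          v.2.1 * x0 ^ k * q i (z + (1 / (((N + N0 : ℕ) : ℝ) + 1) : ℝ) * x0)) := by
    intro N
    exact hN0 (N + N0) (by omega)
  choose v hv1 hva hvb using h2
  obtain ⟨w, hw, φ, hφ, hvw⟩ := (isCompact_sphere (0 : ℂ × ℂ × (Fin n → ℂ)) 1).tendsto_subseq
    (x := v) (fun N => by simpa using hv1 N)
  have hw1 : ‖w‖ = 1 := by simpa using hw
  set s : ℕ → ℂ := fun N => z + ((1 / (((φ N + N0 : ℕ) : ℝ) + 1) : ℝ) : ℂ) with hs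
  set s' : ℕ → ℂ := fun N => z + ((1 / (((φ N + N0 : ℕ) : ℝ) + 1) : ℝ) : ℂ) * x0 with hs'
  have hl0 : Tendsto (fun N : ℕ => ((1 / (((φ N + N0 : ℕ) : ℝ) + 1) : ℝ) : ℂ)) atTop (𝓝 0) := by
    have h3 : Tendsto (fun N : ℕ => φ N + N0) atTop atTop :=
      tendsto_atTop_mono (fun N => Nat.le_add_right _ _) hφ.tendsto_atTop
    have h4 := (tendsto_one_div_add_atTop_nhds_zero_nat (𝕜 := ℝ)).comp h3
    have h5 := (Complex.continuous_ofReal.tendsto 0).comp h4
    simpa [Function.comp_def] using h5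
  have hst : Tendsto s atTop (𝓝 z) := by
    have h3 := (tendsto_const_nhds (x := z)).add hl0
    rw [add_zero] at h3
    exact h3
  have hst' : Tendsto s' atTop (𝓝 z) := by
    have h3 := (tendsto_const_nhds (x := z)).add (hl0.mul_const (x0 : ℂ))
    rw [zero_mul, add_zero] at h3
    exact h3
  have hv0 : Tendsto (fun N => (v (φ N)).1) atTop (𝓝 w.1) :=
    (continuous_fst.tendsto w).comp hvw
  have hvt : Tendsto (fun N => (v (φ N)).2.1) atTop (𝓝 w.2.1) :=
    ((continuous_fst.comp continuous_snd).tendsto w).comp hvw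
  have hvj : ∀ j, Tendsto (fun N => (v (φ N)).2.2 j) atTop (𝓝 (w.2.2 j)) := fun j =>
    (((continuous_apply j).comp (continuous_snd.comp continuous_snd)).tendsto w).comp hvw
  have ea : ∀ i < 4, (w.1 * (ff 0 i * c0) + ∑ j, w.2.2 j * (ff (o j) i * γ j)) * e0 =
      w.2.1 * (e0 ^ 2 / 2 * (ff 0 i + ff (2 * k) i)) := by
    intro i hi
    have hL : Tendsto (fun N => ((v (φ N)).1 * p0 i (s N) + ∑ j, (v (φ N)).2.2 j * p j i (s N)) *
        ε (s N)) atTop (𝓝 ((w.1 * (ff 0 i * c0) + ∑ j, w.2.2 j * (ff (o j) i * γ j)) * e0)) := by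
      refine ((hv0.mul ((hp0 i hi).comp hst)).add ?_).mul (hε.comp hst)
      exact tendsto_finsetSum _ (fun j _ => (hvj j).mul ((hp j i hi).comp hst))
    have hR : Tendsto (fun N => (v (φ N)).2.1 * q i (s N)) atTop
        (𝓝 (w.2.1 * (e0 ^ 2 / 2 * (ff 0 i + ff (2 * k) i)))) := hvt.mul ((hq i hi).comp hst)
    refine tendsto_nhds_unique hL (hR.congr fun N => ?_)
    exact (hva (φ N) i hi).symm
  have eb : ∀ i < 4, (w.1 * (ff 0 i * c0) + ∑ j, w.2.2 j * x0 ^ (o j) * (ff (o j) i * γ j)) * e0 =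
      w.2.1 * x0 ^ k * (e0 ^ 2 / 2 * (ff 0 i + ff (2 * k) i)) := by
    intro i hi
    have hL : Tendsto (fun N => ((v (φ N)).1 * p0 i (s' N) +
        ∑ j, (v (φ N)).2.2 j * x0 ^ (o j) * p j i (s' N)) *
        ε (s' N)) atTop
        (𝓝 ((w.1 * (ff 0 i * c0) + ∑ j, w.2.2 j * x0 ^ (o j) * (ff (o j) i * γ j)) * e0)) := by
      refine ((hv0.mul ((hp0 i hi).comp hst')).add ?_).mul (hε.comp hst')
      exact tendsto_finsetSum _ (fun j _ => ((hvj j).mul_const _).mul ((hp j i hi).comp hst'))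
    have hR : Tendsto (fun N => (v (φ N)).2.1 * x0 ^ k * q i (s' N)) atTop
        (𝓝 (w.2.1 * x0 ^ k * (e0 ^ 2 / 2 * (ff 0 i + ff (2 * k) i)))) :=
      (hvt.mul_const _).mul ((hq i hi).comp hst')
    refine tendsto_nhds_unique hL (hR.congr fun N => ?_)
    exact (hvb (φ N) i hi).symm
  obtain ⟨r1, r2, r3⟩ := hmon (w.1 * c0 * e0) (w.2.1 * e0 ^ 2) (fun j => w.2.2 j * γ j * e0)
    (fun i hi => by
      have h3 := ea i hi
      rw [add_mul, Finset.sum_mul] at h3
      calc w.1 * c0 * e0 * ff 0 i + ∑ j, w.2.2 j * γ j * e0 * ff (o j) i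
          = w.1 * (ff 0 i * c0) * e0 + ∑ j, w.2.2 j * (ff (o j) i * γ j) * e0 := by
            congr 1
            · ring
            · exact Finset.sum_congr rfl (fun j _ => by ring)
        _ = w.2.1 * e0 ^ 2 / 2 * (ff 0 i + ff (2 * k) i) := by rw [h3]; ring)
    (fun i hi => by
      have h3 := eb i hi
      rw [add_mul, Finset.sum_mul] at h3
      calc w.1 * c0 * e0 * ff 0 i + ∑ j, w.2.2 j * γ j * e0 * x0 ^ (o j) * ff (o j) i
          = w.1 * (ff 0 i * c0) * e0 + ∑ j, w.2.2 j * x0 ^ (o j) * (ff (o j) i * γ j) * e0 := by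
            congr 1
            · ring
            · exact Finset.sum_congr rfl (fun j _ => by ring)
        _ = w.2.1 * e0 ^ 2 / 2 * x0 ^ k * (ff 0 i + ff (2 * k) i) := by rw [h3]; ring)
  have hw0 : w = 0 := by
    have h4 : w.1 = 0 := by
      rcases mul_eq_zero.mp r1 with h5 | h5
      · exact (mul_eq_zero.mp h5).resolve_right hc0
      · exact absurd h5 he0
    have h5 : w.2.1 = 0 := (mul_eq_zero.mp r2).resolve_right (pow_ne_zero 2 he0)
    have h6 : w.2.2 = 0 := by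
      funext j
      rcases mul_eq_zero.mp (r3 j) with h7 | h7
      · exact (mul_eq_zero.mp h7).resolve_right (hγ j)
      · exact absurd h7 he0
    exact Prod.ext h4 (Prod.ext h5 h6)
  rw [hw0, norm_zero] at hw1
  exact zero_ne_one hw1

theorem pole_absurd {m : ℕ} (hm : m ≤ 7) (G : Bl m) (hsym : ∀ v w, G v w = G w v)
    {z : ℂ} {r : ℝ} (hr : 0 < r) {F : ℕ → ℂ → V m} {Y : ℂ → V m} {E : ℂ → ℂ}
    (dF : ∀ j, ∀ s ∈ Metric.ball z r, HasDerivAt (F j) (F (j + 1) s) s)
    (dY : ∀ s ∈ Metric.ball z r, HasDerivAt Y (E s • F 0 s) s)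
    (dE : ∀ s ∈ Metric.ball z r, HasDerivAt E (G (Y s) (F 0 s)) s)
    (hFF : ∀ s ∈ Metric.ball z r, G (F 0 s) (F 0 s) = 0)
    (hE : E z = 0) (hY : Y z ≠ 0) (hEne : ∃ s ∈ Metric.ball z r, E s ≠ 0)
    (hsp : ∀ ξ : V m →L[ℂ] ℂ, (∀ s ∈ Metric.ball z r, ξ (Y s) = 0) → ξ = 0)
    (hst : ∀ x ∈ Metric.ball z r, ∀ y ∈ Metric.ball z r, ∃ (ξ : V m →L[ℂ] ℂ) (τ : ℂ),
      (ξ, τ) ≠ 0 ∧ (ξ (Y x) = τ * E x ∧ ∀ j < 3, E x * ξ (F j x) = τ * G (Y x) (F j x)) ∧
        (ξ (Y y) = τ * E y ∧ ∀ j < 3, E y * ξ (F j y) = τ * G (Y y) (F j y))) : False := by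
  classical
  have hopen : IsOpen (Metric.ball z r) := Metric.isOpen_ball
  have hzb : z ∈ Metric.ball z r := Metric.mem_ball_self hr
  have hpc : IsPreconnected (Metric.ball z r) := (convex_ball z r).isPreconnected
  have hder := PoleB_der G hsym dF dY dE hFF
  -- analyticity
  have aE : AnalyticOnNhd ℂ E (Metric.ball z r) :=
    DifferentiableOn.analyticOnNhd (fun s hs => (dE s hs).differentiableAt.differentiableWithinAt)
      hopen
  have aY : AnalyticOnNhd ℂ Y (Metric.ball z r) :=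
    DifferentiableOn.analyticOnNhd (fun s hs => (dY s hs).differentiableAt.differentiableWithinAt)
      hopen
  have aF : ∀ j, AnalyticOnNhd ℂ (F j) (Metric.ball z r) := fun j =>
    DifferentiableOn.analyticOnNhd (fun s hs => (dF j s hs).differentiableAt.differentiableWithinAt)
      hopen
  have aξ : ∀ ξ : V m →L[ℂ] ℂ, AnalyticOnNhd ℂ (fun s => ξ (Y s)) (Metric.ball z r) :=
    fun ξ s hs => (ξ.analyticAt _).comp (aY s hs)
  have aξF : ∀ (ξ : V m →L[ℂ] ℂ) (j : ℕ), AnalyticOnNhd ℂ (fun s => ξ (F j s))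
    (Metric.ball z r) := fun ξ j s hs => (ξ.analyticAt _).comp (aF j s hs)
  -- the order of `E`
  have hEtop : analyticOrderAt E z ≠ ⊤ := by
    intro h
    rw [analyticOrderAt_eq_top] at h
    obtain ⟨s, hs, hne⟩ := hEne
    exact hne (aE.eqOn_zero_of_preconnected_of_eventuallyEq_zero hpc hzb h hs)
  obtain ⟨k, hk⟩ := ENat.ne_top_iff_exists.mp hEtop
  obtain ⟨ε, aε, hεz, hEε⟩ := ((aE z hzb).analyticOrderAt_eq_natCast (n := k)).mp hk.symm
  have hk1 : 1 ≤ k := by
    rcases Nat.eq_zero_or_pos k with h | h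
    · exfalso
      have h1 := hEε.self_of_nhds
      rw [h, pow_zero, one_smul, hE] at h1
      exact hεz h1.symm
    · exact h
  -- derivatives of `ξ (Y)`
  have hit : ∀ (ξ : V m →L[ℂ] ℂ) (i : ℕ), ∀ s ∈ Metric.ball z r,
      iteratedDeriv i (fun s => ξ (Y s)) s = ξ (iteratedDeriv i Y s) := by
    intro ξ i
    induction i with
    | zero => intro s _; simp
    | succ i ih =>
      intro s hs
      rw [iteratedDeriv_succ, iteratedDeriv_succ]
      have h1 : iteratedDeriv i (fun s => ξ (Y s)) =ᶠ[𝓝 s] fun s => ξ (iteratedDeriv i Y s) := by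
        filter_upwards [hopen.mem_nhds hs] with t ht
        exact ih t ht
      have h2 : AnalyticAt ℂ (iteratedDeriv i Y) s := by
        rw [iteratedDeriv_eq_iterate]
        exact (aY s hs).iterated_deriv i
      rw [h1.deriv_eq]
      exact (ξ.hasFDerivAt.comp_hasDerivAt s h2.differentiableAt.hasDerivAt).deriv
  set c : ℕ → (V m →L[ℂ] ℂ) →ₗ[ℂ] ℂ := fun i =>
    { toFun := fun ξ => ξ (iteratedDeriv i Y z)
      map_add' := fun ξ η => by simp
      map_smul' := fun a ξ => by simp } with hc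
  have hcv : ∀ i ξ, c i ξ = iteratedDeriv i (fun s => ξ (Y s)) z := fun i ξ =>
    (hit ξ i z hzb).symm
  -- the hyperplane
  obtain ⟨ξ1, hξ1⟩ : ∃ ξ : V m →L[ℂ] ℂ, ξ (Y z) ≠ 0 := by
    obtain ⟨i, hi⟩ := Function.ne_iff.mp hY
    exact ⟨ContinuousLinearMap.proj i, hi⟩
  set ξ0 : V m →L[ℂ] ℂ := (ξ1 (Y z))⁻¹ • ξ1 with hξ0
  have hξ0z : ξ0 (Y z) = 1 := by
    rw [hξ0, ContinuousLinearMap.smul_apply, smul_eq_mul, inv_mul_cancel₀ hξ1]
  set U : Submodule ℂ (V m →L[ℂ] ℂ) := LinearMap.ker (c 0) with hU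
  have hUm : ∀ ξ, ξ ∈ U ↔ ξ (Y z) = 0 := by
    intro ξ
    rw [hU, LinearMap.mem_ker]
    simp [hc]
  have hdimD : Module.finrank ℂ (V m →L[ℂ] ℂ) = m := by
    have h1 : Module.finrank ℂ (V m →L[ℂ] ℂ) = Module.finrank ℂ (V m →ₗ[ℂ] ℂ) :=
      (LinearMap.toContinuousLinearMap (𝕜 := ℂ) (E := V m) (F' := ℂ)).finrank_eq.symm
    rw [h1, Module.finrank_linearMap]
    simp
  have hUlt : U < ⊤ := by
    refine lt_top_iff_ne_top.mpr ?_
    intro h
    have h1 : ξ1 ∈ U := by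
      rw [h]
      exact Submodule.mem_top
    exact hξ1 ((hUm ξ1).mp h1)
  have hfrU : Module.finrank ℂ U ≤ 6 := by
    have h1 := Submodule.finrank_lt hUlt.ne
    omega
  have hUinj : ∀ ξ ∈ U, (∀ i, c i ξ = 0) → ξ = 0 := by
    intro ξ _ h
    apply hsp ξ
    have h1 : ∀ᶠ s in 𝓝 z, ξ (Y s) = 0 := by
      rw [← analyticOrderAt_eq_top (f := fun s => ξ (Y s)), ENat.eq_top_iff_forall_ge]
      intro N
      rw [natCast_le_analyticOrderAt_iff_iteratedDeriv_eq_zero (aξ ξ z hzb)]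
      intro i _
      rw [← hcv]
      exact h i
    intro s hs
    exact (aξ ξ).eqOn_zero_of_preconnected_of_eventuallyEq_zero hpc hzb h1 hs
  obtain ⟨n, hn6, o, b, ho, hbU, hb1, hb2, hb3⟩ := PoleB_ech c 6 U hfrU hUinj
  -- the orders are at least `k + 1`
  have hok : ∀ j, k + 1 ≤ o j := by
    intro j
    by_contra hcon
    have hlt : o j < k + 1 := not_le.mp hcon
    have h1 : ((k + 1 : ℕ) : ℕ∞) ≤ analyticOrderAt (fun s => b j (Y s)) z := by
      have h2 := (aξ (b j) z hzb).analyticOrderAt_deriv_add_one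
      have h3 : (fun s => (b j) (Y s) - (b j) (Y z)) = fun s => b j (Y s) := by
        funext s
        rw [(hUm (b j)).mp (hbU j), sub_zero]
      rw [h3] at h2
      rw [← h2]
      have h4 : deriv (fun s => (b j) (Y s)) =ᶠ[𝓝 z] fun s => E s * b j (F 0 s) := by
        filter_upwards [hopen.mem_nhds hzb] with s hs
        rw [← iteratedDeriv_one]
        exact ((hder s hs).2.2.2 (b j)).1
      rw [analyticOrderAt_congr h4]
      have h5 : (k : ℕ∞) ≤ analyticOrderAt (fun s => E s * b j (F 0 s)) z := by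
        have h6 := analyticOrderAt_mul (aE z hzb) (aξF (b j) 0 z hzb)
        have h7 : analyticOrderAt (fun s => E s * b j (F 0 s)) z =
            analyticOrderAt E z + analyticOrderAt (fun s => b j (F 0 s)) z := h6
        rw [h7, ← hk]
        exact le_self_add
      push_cast
      gcongr
    rw [natCast_le_analyticOrderAt_iff_iteratedDeriv_eq_zero (aξ (b j) z hzb)] at h1
    have h2 := h1 (o j) hlt
    rw [← hcv, hb2 j] at h2
    exact one_ne_zero h2
  -- local forms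
  have hgj : ∀ j, ∃ g : ℂ → ℂ, AnalyticAt ℂ g z ∧ g z ≠ 0 ∧
      ∀ᶠ s in 𝓝 z, b j (Y s) = (s - z) ^ (o j) * g s := by
    intro j
    have h1 : analyticOrderAt (fun s => b j (Y s)) z = (o j : ℕ) := by
      rw [analyticOrderAt_eq_nat_iff_iteratedDeriv_eq_zero (aξ (b j) z hzb)]
      refine ⟨fun i hi => ?_, ?_⟩
      · rw [← hcv]
        exact hb1 j i hi
      · rw [← hcv, hb2 j]
        exact one_ne_zero
    exact ((aξ (b j) z hzb).analyticOrderAt_eq_natCast).mp h1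
  choose g ag hgz hgs using hgj
  have hjet : ∀ j i, ∃ p : ℂ → ℂ, AnalyticAt ℂ p z ∧ p z = ff (o j) i * g j z ∧
      ∀ᶠ s in 𝓝 z, (s - z) ^ i * iteratedDeriv i (fun s => b j (Y s)) s =
        (s - z) ^ (o j) * p s := fun j i =>
    PoleB_jet (aξ (b j) z hzb) (ag j) (hgs j) i
  choose p ap hpz hps using hjet
  have hjet0 : ∀ i, ∃ p : ℂ → ℂ, AnalyticAt ℂ p z ∧ p z = ff 0 i * ξ0 (Y z) ∧
      ∀ᶠ s in 𝓝 z, (s - z) ^ i * iteratedDeriv i (fun s => ξ0 (Y s)) s =
        (s - z) ^ 0 * p s := fun i =>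
    PoleB_jet (o := 0) (aξ ξ0 z hzb) (aξ ξ0 z hzb) (Eventually.of_forall fun s => by simp) i
  choose p0 ap0 hp0z hp0s using hjet0
  have hjetE : ∀ i, ∃ p : ℂ → ℂ, AnalyticAt ℂ p z ∧ p z = ff k i * ε z ∧
      ∀ᶠ s in 𝓝 z, (s - z) ^ i * iteratedDeriv i E s = (s - z) ^ k * p s := fun i =>
    PoleB_jet (aE z hzb) aε (by simpa using hEε) i
  choose e ae hez hes using hjetE
  obtain ⟨x0, hx0, hx01, hmon⟩ := monomial_lemma k hk1 n hn6 o ho hok
  -- right sides
  set q : ℕ → ℂ → ℂ := fun i => match i with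
    | 0 => fun s => e 0 s ^ 2
    | 1 => fun s => e 0 s * e 1 s
    | 2 => fun s => e 0 s * e 2 s + e 1 s ^ 2
    | _ => fun s => e 0 s * e 3 s + 3 * (e 1 s * e 2 s) with hq
  have he0z : e 0 z = ε z := by rw [hez 0]; simp [ff]
  have hqz : ∀ i < 4, Tendsto (q i) (𝓝 z) (𝓝 (ε z ^ 2 / 2 * (ff 0 i + ff (2 * k) i))) := by
    have hce : ∀ i, Tendsto (e i) (𝓝 z) (𝓝 (ff k i * ε z)) := by
      intro i
      rw [← hez i]
      exact (ae i).continuousAt
    intro i hi
    interval_cases i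
    · have h1 := (hce 0).pow 2
      refine h1.congr' (EventuallyEq.refl _ _) |>.trans (le_of_eq ?_)
      congr 1
      simp [ff]
      ring
    · have h1 := (hce 0).mul (hce 1)
      refine h1.congr' (EventuallyEq.refl _ _) |>.trans (le_of_eq ?_)
      congr 1
      simp [ff]
      ring
    · have h1 := ((hce 0).mul (hce 2)).add ((hce 1).pow 2)
      refine h1.congr' (EventuallyEq.refl _ _) |>.trans (le_of_eq ?_)
      congr 1
      simp [ff, Finset.prod_range_succ]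
      ring
    · have h1 := ((hce 0).mul (hce 3)).add (((hce 1).mul (hce 2)).const_mul 3)
      refine h1.congr' (EventuallyEq.refl _ _) |>.trans (le_of_eq ?_)
      congr 1
      simp [ff, Finset.prod_range_succ]
      ring
  -- everything near `z`
  have hP : ∀ᶠ s in 𝓝 z, s ∈ Metric.ball z r ∧ ε s ≠ 0 ∧ E s = (s - z) ^ k * ε s ∧
      (∀ i < 4, (s - z) ^ i * iteratedDeriv i E s = (s - z) ^ k * e i s) ∧
      (∀ i < 4, (s - z) ^ i * iteratedDeriv i (fun s => ξ0 (Y s)) s = (s - z) ^ 0 * p0 i s) ∧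
      (∀ j, ∀ i < 4, (s - z) ^ i * iteratedDeriv i (fun s => b j (Y s)) s =
        (s - z) ^ (o j) * p j i s) := by
    have hfin : ∀ {P : ℕ → ℂ → Prop}, (∀ i, ∀ᶠ s in 𝓝 z, P i s) →
        ∀ᶠ s in 𝓝 z, ∀ i < 4, P i s := by
      intro P h
      filter_upwards [h 0, h 1, h 2, h 3] with s h0 h1 h2 h3 i hi
      interval_cases i
      · exact h0
      · exact h1
      · exact h2
      · exact h3
    have h6 : ∀ᶠ s in 𝓝 z, ∀ j, ∀ i < 4, (s - z) ^ i * iteratedDeriv i (fun s => b j (Y s)) s =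
        (s - z) ^ (o j) * p j i s := by
      rw [eventually_all]
      intro j
      exact hfin (hps j)
    filter_upwards [hopen.mem_nhds hzb, aε.continuousAt.eventually_ne hεz, hEε, hfin hes,
      hfin hp0s, h6] with s h1 h2 h3 h4 h5 h7
    exact ⟨h1, h2, by simpa using h3, h4, h5, h7⟩
  -- the equations at a point
  have key : ∀ s, s ≠ z → s ∈ Metric.ball z r → ε s ≠ 0 → E s = (s - z) ^ k * ε s →
      (∀ i < 4, (s - z) ^ i * iteratedDeriv i E s = (s - z) ^ k * e i s) →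
      (∀ i < 4, (s - z) ^ i * iteratedDeriv i (fun s => ξ0 (Y s)) s = (s - z) ^ 0 * p0 i s) →
      (∀ j, ∀ i < 4, (s - z) ^ i * iteratedDeriv i (fun s => b j (Y s)) s =
        (s - z) ^ (o j) * p j i s) →
      ∀ (a0 : ℂ) (a : Fin n → ℂ) (ξ : V m →L[ℂ] ℂ) (τ : ℂ), ξ = a0 • ξ0 + ∑ j, a j • b j →
      (ξ (Y s) = τ * E s ∧ ∀ j < 3, E s * ξ (F j s) = τ * G (Y s) (F j s)) →
      ∀ i < 4, (a0 * p0 i s + ∑ j, a j * (s - z) ^ (o j) * p j i s) * e 0 s =
        τ * (s - z) ^ k * q i s := by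
    intro s hsz hsb hεs hEs he hp0' hp' a0 a ξ τ hξ hrel
    have hμ : s - z ≠ 0 := sub_ne_zero.mpr hsz
    obtain ⟨hE1, hE2, hE3, hH⟩ := hder s hsb
    obtain ⟨H1, H2, H3⟩ := hH ξ
    have R0 := hrel.2 0 (by norm_num)
    have R1 := hrel.2 1 (by norm_num)
    have R2 := hrel.2 2 (by norm_num)
    rw [← hE1] at R0
    rw [← hE2] at R1
    rw [← hE3] at R2
    have hL : ∀ i < 4, a0 * p0 i s + ∑ j, a j * (s - z) ^ (o j) * p j i s =
        (s - z) ^ i * iteratedDeriv i (fun s => ξ (Y s)) s := by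
      intro i hi
      have h1 := hp0' i hi
      rw [pow_zero, one_mul] at h1
      rw [hit ξ i s hsb, hξ, ← h1, hit ξ0 i s hsb]
      simp only [ContinuousLinearMap.add_apply, ContinuousLinearMap.smul_apply,
        ContinuousLinearMap.sum_apply, smul_eq_mul]
      rw [mul_add, Finset.mul_sum]
      congr 1
      · ring
      · refine Finset.sum_congr rfl (fun j _ => ?_)
        have h2 := hp' j i hi
        rw [hit (b j) i s hsb] at h2
        rw [mul_assoc, ← h2]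
        ring
    have he0 : E s = (s - z) ^ k * e 0 s := by
      have := he 0 (by norm_num)
      simpa using this
    have he1 : (s - z) * iteratedDeriv 1 E s = (s - z) ^ k * e 1 s := by
      have := he 1 (by norm_num)
      rwa [pow_one] at this
    have he2 := he 2 (by norm_num)
    have he3 := he 3 (by norm_num)
    have hcan : ∀ A B : ℂ, (s - z) ^ k * A = (s - z) ^ k * B → A = B := fun A B h =>
      mul_left_cancel₀ (pow_ne_zero k hμ) h
    intro i hi
    rw [hL i hi]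
    apply hcan
    have hgoal : (s - z) ^ k * ((s - z) ^ i * iteratedDeriv i (fun s => ξ (Y s)) s * e 0 s) =
        (s - z) ^ i * iteratedDeriv i (fun s => ξ (Y s)) s * E s := by
      rw [he0]
      ring
    rw [hgoal]
    have hEE : E s * (s - z) ^ 0 = (s - z) ^ k * e 0 s := by
      rw [pow_zero, mul_one]
      exact he0
    interval_cases i
    · simp only [hq, iteratedDeriv_zero, pow_zero, one_mul]
      rw [hrel.1]
      calc τ * E s * E s = τ * (E s * E s) := by ring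
        _ = τ * (((s - z) ^ k * e 0 s) * ((s - z) ^ k * e 0 s)) := by rw [← he0]
        _ = _ := by ring
    · simp only [hq]
      rw [H1, R0]
      calc (s - z) ^ 1 * (τ * iteratedDeriv 1 E s) * E s
          = τ * ((s - z) * iteratedDeriv 1 E s) * E s := by ring
        _ = τ * ((s - z) ^ k * e 1 s) * ((s - z) ^ k * e 0 s) := by rw [he1, ← he0]
        _ = _ := by ring
    · simp only [hq]
      rw [H2]
      calc (s - z) ^ 2 * (iteratedDeriv 1 E s * ξ (F 0 s) + E s * ξ (F 1 s)) * E s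
          = (s - z) ^ 2 * (iteratedDeriv 1 E s * (E s * ξ (F 0 s)) + E s * (E s * ξ (F 1 s))) := by
            ring
        _ = (s - z) ^ 2 * (iteratedDeriv 1 E s * (τ * iteratedDeriv 1 E s) +
            E s * (τ * iteratedDeriv 2 E s)) := by rw [R0, R1]
        _ = τ * (((s - z) * iteratedDeriv 1 E s) ^ 2 +
            E s * ((s - z) ^ 2 * iteratedDeriv 2 E s)) := by ring
        _ = τ * (((s - z) ^ k * e 1 s) ^ 2 +
            ((s - z) ^ k * e 0 s) * ((s - z) ^ k * e 2 s)) := by rw [he1, he2, ← he0]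
        _ = _ := by ring
    · simp only [hq]
      rw [H3]
      calc (s - z) ^ 3 * (iteratedDeriv 2 E s * ξ (F 0 s) +
            2 * (iteratedDeriv 1 E s * ξ (F 1 s)) + E s * ξ (F 2 s)) * E s
          = (s - z) ^ 3 * (iteratedDeriv 2 E s * (E s * ξ (F 0 s)) +
            2 * (iteratedDeriv 1 E s * (E s * ξ (F 1 s))) + E s * (E s * ξ (F 2 s))) := by ring
        _ = (s - z) ^ 3 * (iteratedDeriv 2 E s * (τ * iteratedDeriv 1 E s) +
            2 * (iteratedDeriv 1 E s * (τ * iteratedDeriv 2 E s)) +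
            E s * (τ * iteratedDeriv 3 E s)) := by rw [R0, R1, R2]
        _ = τ * (3 * (((s - z) * iteratedDeriv 1 E s) * ((s - z) ^ 2 * iteratedDeriv 2 E s)) +
            E s * ((s - z) ^ 3 * iteratedDeriv 3 E s)) := by ring
        _ = τ * (3 * (((s - z) ^ k * e 1 s) * ((s - z) ^ k * e 2 s)) +
            ((s - z) ^ k * e 0 s) * ((s - z) ^ k * e 3 s)) := by rw [he1, he2, he3, ← he0]
        _ = _ := by ring
  refine PoleB_lim (n := n) (k := k) (o := o) (x0 := x0) hx0 hmon (z := z) (c0 := 1)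
    (e0 := ε z) (γ := fun j => g j z) one_ne_zero hεz hgz p0 p (e 0) q ?_ ?_ ?_ hqz ?_
  · intro i _
    have h1 := (ap0 i).continuousAt.tendsto
    rw [hp0z i, hξ0z] at h1
    exact h1
  · intro j i _
    have h1 := (ap j i).continuousAt.tendsto
    rw [hpz j i] at h1
    exact h1
  · have h1 := (ae 0).continuousAt.tendsto
    rw [he0z] at h1
    exact h1
  · have t1 : Tendsto (fun l : ℝ => z + (l : ℂ)) (𝓝[>] 0) (𝓝 z) := by
      have h1 : Tendsto (fun l : ℝ => z + (l : ℂ)) (𝓝 0) (𝓝 (z + ((0 : ℝ) : ℂ))) :=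
        (continuous_const.add Complex.continuous_ofReal).tendsto 0
      rw [Complex.ofReal_zero, add_zero] at h1
      exact h1.mono_left nhdsWithin_le_nhds
    have t2 : Tendsto (fun l : ℝ => z + (l : ℂ) * x0) (𝓝[>] 0) (𝓝 z) := by
      have h1 : Tendsto (fun l : ℝ => z + (l : ℂ) * x0) (𝓝 0) (𝓝 (z + ((0 : ℝ) : ℂ) * x0)) :=
        (continuous_const.add (Complex.continuous_ofReal.mul continuous_const)).tendsto 0
      rw [Complex.ofReal_zero, zero_mul, add_zero] at h1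
      exact h1.mono_left nhdsWithin_le_nhds
    filter_upwards [t1.eventually hP, t2.eventually hP, self_mem_nhdsWithin] with l hl1 hl2 hl
    have hl0 : (l : ℂ) ≠ 0 := by
      exact_mod_cast (ne_of_gt hl)
    have hx0c : (x0 : ℂ) ≠ 0 := by
      exact_mod_cast hx0.ne'
    obtain ⟨ξ, τ, hne, hrelx, hrely⟩ := hst (z + l * x0) hl2.1 (z + l) hl1.1
    have hξU : ξ - ξ (Y z) • ξ0 ∈ U := by
      rw [hUm]
      simp [hξ0z]
    obtain ⟨a, ha⟩ := hb3 _ hξU
    have hξ : ξ = ξ (Y z) • ξ0 + ∑ j, a j • b j := by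
      rw [← ha]
      abel
    have s1 : z + (l : ℂ) - z = l := by ring
    have s2 : z + (l : ℂ) * x0 - z = l * x0 := by ring
    refine ⟨(ξ (Y z), τ * (l : ℂ) ^ k, fun j => a j * (l : ℂ) ^ (o j)), ?_, ?_, ?_⟩
    · intro h0
      have h1 : ξ (Y z) = 0 := congrArg Prod.fst h0
      have h2 : τ * (l : ℂ) ^ k = 0 := congrArg (fun w => w.2.1) h0
      have h3 : ∀ j, a j * (l : ℂ) ^ (o j) = 0 := fun j => congrArg (fun w => w.2.2 j) h0
      have h4 : τ = 0 := (mul_eq_zero.mp h2).resolve_right (pow_ne_zero _ hl0)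
      have h5 : ∀ j, a j = 0 := fun j => (mul_eq_zero.mp (h3 j)).resolve_right (pow_ne_zero _ hl0)
      apply hne
      have h6 : ξ = 0 := by
        rw [hξ, h1]
        simp [h5]
      rw [h6, h4]
      rfl
    · intro i hi
      have h1 := key (z + l) (by simpa using hl0) hl1.1 hl1.2.1 hl1.2.2.1 hl1.2.2.2.1
        hl1.2.2.2.2.1 hl1.2.2.2.2.2 (ξ (Y z)) a ξ τ hξ hrely i hi
      rw [s1] at h1
      exact h1
    · intro i hi
      have hz0 : z + (l : ℂ) * x0 ≠ z := by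
        intro h
        exact mul_ne_zero hl0 hx0c (by rw [← s2, h, sub_self])
      have h1 := key (z + l * x0) hz0 hl2.1 hl2.2.1 hl2.2.2.1
        hl2.2.2.2.1 hl2.2.2.2.2.1 hl2.2.2.2.2.2 (ξ (Y z)) a ξ τ hξ hrelx i hi
      rw [s2] at h1
      simp only [mul_pow, ← mul_assoc] at h1
      exact h1

end Stek.Sv
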