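import Pool.Agent.H.MP_fc2485_gt.Sv.Star
import Pool.Agent.H.MP_fc2485_gt.Sv.MaxA
import Pool.Agent.H.MP_fc2485_gt.Sv.Reach
import Pool.Agent.H.MP_fc2485_gt.Sv.PoleB

/-!
The contradiction at a pole: take a component `C' ≠ C` and a cell `c'` reached from it at `z` in the
same chart (reach_at); `c` and `c'` are proportional near `z`, so star_reach gives the relation for
`c` with itself near `z`; pole_absurd.
-/

set_option maxSynthPendingDepth 3

open Set Filter Topology InnerProductSpace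
open scoped ContDiff

namespace Stek.Sv

open Stek Surface GCell

variable {S : Type*} [TopologicalSpace S] {M : Surface S} {σ : ℝ} {m : ℕ} {e : Fin m → S → ℝ}
  {G : Bl m}

/-- every vector is killed by a non-zero functional, in dimension at least two -/
theorem f7p_exists_functional (hm2 : 2 ≤ m) (v : V m) : ∃ ξ : V m →L[ℂ] ℂ, ξ ≠ 0 ∧ ξ v = 0 := by
  let i0 : Fin m := ⟨0, by omega⟩
  let i1 : Fin m := ⟨1, by omega⟩
  have hne : i0 ≠ i1 := by
    intro h
    simp [i0, i1] at h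
  let p : Fin m → (V m →L[ℂ] ℂ) := fun i => ContinuousLinearMap.proj i
  have hp : ∀ i (w : V m), p i w = w i := fun i w => rfl
  by_cases h0 : v i0 = 0
  · refine ⟨p i0, fun h => ?_, by rw [hp, h0]⟩
    have := congrArg (fun L : V m →L[ℂ] ℂ => L (Pi.single i0 1)) h
    simp [hp] at this
  · refine ⟨v i1 • p i0 - v i0 • p i1, fun h => ?_, ?_⟩
    · have := congrArg (fun L : V m →L[ℂ] ℂ => L (Pi.single i1 1)) h
      simp [hp, hne] at this
      exact h0 this
    · simp [hp]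
      ring

/-- the contradiction at a pole -/
theorem pole_case [ConnectedSpace S] (H : Ctx M σ e G) (hm2 : 2 ≤ m) (hm : m ≤ 7)
    (hcov : Covd M e) (h2 : ∃ C C', IsCC M C ∧ IsCC M C' ∧ C ≠ C')
    (hp : ∀ C C', IsCC M C → IsCC M C' → ∀ c c' : GCell M e G, Reach C c → Reach C' c' →
      CoProp c c') {C : Set S} (hC : IsCC M C) {c : GCell M e G} (hc : Reach C c) {z : ℂ}
    (hz : z ∈ c.O) (hE : c.E z = 0) : False := by
  -- another component
  obtain ⟨C', hC', hne⟩ : ∃ C', IsCC M C' ∧ C ≠ C' := by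
    obtain ⟨C1, C2, h1, h2, h3⟩ := h2
    by_cases h : C = C1
    · exact ⟨C2, h2, by rw [h]; exact h3⟩
    · exact ⟨C1, h1, h⟩
  have hzt : z ∈ c.φ.map.target := c.sub (RectI_sub _ _ _ _ hz)
  have hxs : c.φ.map.symm z ∈ c.φ.map.source := c.φ.map.map_target hzt
  have hzz : c.φ.map (c.φ.map.symm z) = z := c.φ.map.right_inv hzt
  obtain ⟨c', hc', hφ, hzc'⟩ := reach_at H hC' c.hφ hxs (by rw [hzz]; exact link_im_pos c hz)
  rw [hzz] at hzc'
  have hO : c.O ∩ c'.O ∈ 𝓝 z := inter_mem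
    ((isOpen_RectI c.a c.b c.c c.d).mem_nhds hz) ((isOpen_RectI c'.a c'.b c'.c c'.d).mem_nhds hzc')
  obtain ⟨r, hr, hball⟩ := Metric.mem_nhds_iff.mp hO
  have hbO : Metric.ball z r ⊆ c.O := fun s hs => (hball hs).1
  have hsp := fun ξ hξ => spanning H hC.sub hc hr hbO ξ hξ
  have hzb : z ∈ Metric.ball z r := Metric.mem_ball_self hr
  have dY : ∀ s ∈ Metric.ball z r, HasDerivAt c.Y (c.E s • Fv c.φ e 0 s) s := fun s hs =>
    (c.sol.dY s (RectI_sub _ _ _ _ (hbO hs))).hasDerivAt (link_K_nhds c (hbO hs))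
  have dE : ∀ s ∈ Metric.ball z r, HasDerivAt c.E (G (c.Y s) (Fv c.φ e 0 s)) s := fun s hs =>
    (c.sol.dE s (RectI_sub _ _ _ _ (hbO hs))).hasDerivAt (link_K_nhds c (hbO hs))
  have dF : ∀ j, ∀ s ∈ Metric.ball z r, HasDerivAt (Fv c.φ e j) (Fv c.φ e (j + 1) s) s :=
    fun j s hs => hasDerivAt_Fv H.mem c.hφ j (c.sub (RectI_sub _ _ _ _ (hbO hs)))
      (link_im_pos c (hbO hs))
  -- if `Y` is constant near `z` there is a contradiction
  have hconst : ¬ ∀ s ∈ Metric.ball z r, c.Y s = c.Y z := by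
    intro h
    obtain ⟨ξ, h1, h2⟩ := f7p_exists_functional hm2 (c.Y z)
    exact h1 (hsp ξ fun s hs => by rw [h s hs, h2])
  have hEne : ∃ s ∈ Metric.ball z r, c.E s ≠ 0 := by
    by_contra hcon
    push Not at hcon
    apply hconst
    intro s hs
    apply Metric.isOpen_ball.is_const_of_deriv_eq_zero (convex_ball z r).isPreconnected
      (fun w hw => (dY w hw).differentiableAt.differentiableWithinAt) _ hs hzb
    intro w hw
    rw [(dY w hw).deriv, hcon w hw, zero_smul]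
    rfl
  have hY : c.Y z ≠ 0 := by
    intro hY
    have hzero : IsSol G (Fv c.φ e 0) (Metric.ball z r) (fun _ => 0) (fun _ => 0) := by
      refine ⟨fun s _ => ?_, fun s _ => ?_⟩
      · simpa using hasDerivWithinAt_const s (Metric.ball z r) (0 : V m)
      · simpa using hasDerivWithinAt_const s (Metric.ball z r) (0 : ℂ)
    have hsol : IsSol G (Fv c.φ e 0) (Metric.ball z r) c.Y c.E :=
      ⟨fun s hs => (dY s hs).hasDerivWithinAt, fun s hs => (dE s hs).hasDerivWithinAt⟩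
    have hun := ode_unique (convex_ball z r)
      (fun s hs => (dF 0 s hs).continuousAt.continuousWithinAt) hsol hzero hzb hY hE
    exact hconst fun s hs => by rw [(hun s hs).1, hY]
  refine pole_absurd hm G H.inK.symm hr dF dY dE
    (fun s hs => H.inK.conf c.φ c.hφ s (c.sub (RectI_sub _ _ _ _ (hbO hs)))) hE hY hEne hsp ?_
  intro x hx y hy
  obtain ⟨ξ, τ, h1, h3, h4⟩ := star_reach H hcov hC hC' hne hc hc' x
    (RectI_sub _ _ _ _ (hball hx).1) y (RectI_sub _ _ _ _ (hball hy).2)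
  refine ⟨ξ, τ, h1, h3, ?_⟩
  obtain ⟨t, -, ht1, ht2⟩ := hp C C' hC hC' c c' hc hc' hφ.symm y (hball hy).1 (hball hy).2
  obtain ⟨h5, h6⟩ := h4
  rw [hφ] at h6
  refine ⟨?_, fun j hj => ?_⟩
  · rw [ht1, ht2, map_smul, smul_eq_mul, h5]
    ring
  · rw [ht1, ht2, map_smul]
    have h7 := h6 j hj
    change t * c'.E y * ξ (Fv c.φ e j y) = τ * (t * G (c'.Y y) (Fv c.φ e j y))
    linear_combination t * h7

end Stek.Sv
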