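import Pool.Agent.H.MP_fc2485_gt.Sv.Nd

/-!
A minimal system of eigenfunctions for which all pairs in different components are covered: there
is a positive definite form, and no vector is orthogonal to the complex gradient for all forms.
-/

set_option maxSynthPendingDepth 3

open Set Filter Topology InnerProductSpace
open scoped ContDiff

namespace Stek.Sv

open Stek Surface

variable {S : Type*} [TopologicalSpace S]

/-- at least two eigenfunctions: for `m ≤ 1` the condition `Q(F,F) = 0` gives `F = 0`, and on the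
boundary `u' + i σ ρ u = 0`, `u = 0` -/
theorem two_le {M : Surface S} {σ : ℝ} (hσ : 0 < σ) {m : ℕ} {e : Fin m → S → ℝ}
    (he : ∀ i, M.IsSteklov σ (e i)) {G : Bl m} (hG : InK M e G) (hb : M.bdry.Nonempty) :
    2 ≤ m := by
  by_contra hcon
  obtain ⟨p, hp⟩ := hb
  have h1 := hG.sphere p hp
  obtain rfl | rfl : m = 0 ∨ m = 1 := by omega
  · have h0 : uv e p = 0 := Subsingleton.elim _ _
    rw [h0, map_zero] at h1
    exact zero_ne_one h1
  · obtain ⟨φ, hφ, hps, hi⟩ := hp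
    have hz : φ.map p ∈ φ.map.target := φ.map.map_source hps
    let s : V 1 := fun _ => 1
    have hs : ∀ v : V 1, G v v = v 0 * v 0 * G s s := by
      intro v
      have hv : v = v 0 • s := by
        funext i
        rw [Fin.fin_one_eq_zero i]
        simp [s]
      conv_lhs => rw [hv]
      simp
      ring
    have h2 := hG.conf φ hφ _ hz
    rw [hs] at h1 h2
    have hg : G s s ≠ 0 := by
      intro h0
      rw [h0, mul_zero] at h1
      exact zero_ne_one h1
    have hF : Fv φ e 0 (φ.map p) 0 = 0 :=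
      mul_self_eq_zero.mp ((mul_eq_zero.mp h2).resolve_right hg)
    have hF' : (dx φ (e 0) (φ.map p) : ℂ) - Complex.I * (dy φ (e 0) (φ.map p) : ℂ) = 0 := hF
    have hdy : dy φ (e 0) (φ.map p) = 0 := by
      have := congrArg Complex.im hF'
      simpa using this
    have hn := (he 0).normal φ hφ _ hz hi
    rw [hdy, mul_zero, neg_zero] at hn
    have hloc : loc φ (e 0) (φ.map p) = 0 := (mul_eq_zero.mp hn.symm).resolve_left hσ.ne'
    unfold loc at hloc
    rw [φ.map.left_inv hps] at hloc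
    have h0 : uv e p 0 = 0 := by
      unfold uv
      rw [hloc]
      simp
    rw [h0] at h1
    simp at h1

theorem min_data [ConnectedSpace S] {M : Surface S} {σ : ℝ} (hσ : 0 < σ) (hmir : MirC M)
    (h2 : ∃ C C', IsCC M C ∧ IsCC M C' ∧ C ≠ C') {n : ℕ} (hP : PM M σ n) :
    ∃ m ≤ n, 2 ≤ m ∧ ∃ (e : Fin m → S → ℝ) (G : Bl m), Ctx M σ e G ∧ Covd M e ∧
      ∀ (D : V m) (φ : Chart S), φ ∈ M.charts → ∀ z ∈ φ.map.target, 0 < z.im →
        (∀ᶠ w in 𝓝 z, ∀ Q, InK M e Q → Q D (Fv φ e 0 w) = 0) → D = 0 := by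
  classical
  obtain ⟨m, hm1, hm2⟩ : ∃ m, PM M σ m ∧ ∀ k < m, ¬ PM M σ k :=
    ⟨Nat.find ⟨n, hP⟩, Nat.find_spec ⟨n, hP⟩, fun k hk => Nat.find_min ⟨n, hP⟩ hk⟩
  have hmn : m ≤ n := by
    by_contra hcon
    exact hm2 n (by omega) hP
  obtain ⟨e, he, hi, hcov⟩ := hm1
  obtain ⟨C, C', hC, hC', hne⟩ := h2
  obtain ⟨p, hp, hCp⟩ := id hC
  obtain ⟨q, hq, hCq⟩ := id hC'
  have hpC : p ∈ C := by
    rw [hCp]
    exact mem_connectedComponentIn hp
  have hqC : q ∈ C' := by
    rw [hCq]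
    exact mem_connectedComponentIn hq
  obtain ⟨Q, hQ, -⟩ := hcov C C' hC hC' hne p hpC q hqC
  have h2m : 2 ≤ m := two_le hσ he hQ ⟨p, hp⟩
  obtain ⟨k, rfl⟩ : ∃ k, m = k + 1 := ⟨m - 1, by omega⟩
  have hmin : ¬ PM M σ k := hm2 k (by omega)
  obtain ⟨G, hG, hpd⟩ := exists_pd he hi hcov ⟨C, C', hC, hC', hne⟩ hmin
  exact ⟨k + 1, hmn, h2m, e, G, ⟨hσ, he, hi, hmir, hG, hpd⟩, hcov, fun D φ hφ z hz hi' hD =>
    nd hσ he hi hmir hcov ⟨C, C', hC, hC', hne⟩ hmin hG hpd hφ hz hi' hD⟩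

end Stek.Sv
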