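import Pool.Agent.H.MP_fc2485_gt.Sv.F7B
import Pool.Agent.H.MP_fc2485_gt.Sv.F7P
import Pool.Agent.H.MP_fc2485_gt.Sv.F7G
import Pool.Agent.H.MP_fc2485_gt.Sv.MaxP
import Pool.Agent.H.MP_fc2485_gt.Sv.Min
import Pool.Agent.H.MP_fc2485_gt.Sv.Dbl

/-!
The separation theorem for eigenspaces of dimension at most seven.
-/

set_option maxSynthPendingDepth 3

open Set Filter Topology InnerProductSpace
open scoped ContDiff

namespace Stek.Sv

open Stek Surface GCell

variable {S : Type*} [TopologicalSpace S] {M : Surface S} {σ : ℝ} {m : ℕ} {e : Fin m → S → ℝ}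
  {G : Bl m}

/-- all reachable solutions are proportional -/
theorem coprop_all [ConnectedSpace S] (H : Ctx M σ e G) (hm2 : 2 ≤ m) (hm : m ≤ 7)
    (hcov : Covd M e)
    (hnd : ∀ (D : V m) (φ : Chart S), φ ∈ M.charts → ∀ z ∈ φ.map.target, 0 < z.im →
      (∀ᶠ w in 𝓝 z, ∀ Q, InK M e Q → Q D (Fv φ e 0 w) = 0) → D = 0)
    (h2 : ∃ C C', IsCC M C ∧ IsCC M C' ∧ C ≠ C')
    {C C' : Set S} (hC : IsCC M C) (hC' : IsCC M C') {c c' : GCell M e G}
    (hc : Reach C c) (hc' : Reach C' c') : CoProp c c' := by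
  by_cases hne : C = C'
  · subst hne
    obtain ⟨C'', hC'', hne''⟩ : ∃ C'', IsCC M C'' ∧ C ≠ C'' := by
      obtain ⟨C1, C2, h1, h2, h3⟩ := h2
      by_cases h4 : C = C1
      · exact ⟨C2, h2, fun h5 => h3 (h4.symm.trans h5)⟩
      · exact ⟨C1, h1, h4⟩
    intro hφ z hz hz'
    have hzt : z ∈ c.φ.map.target := c.sub (RectI_sub _ _ _ _ hz)
    have hx : c.φ.map.symm z ∈ c.φ.map.source := c.φ.map.map_target hzt
    have hi : 0 < (c.φ.map (c.φ.map.symm z)).im := by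
      rw [c.φ.map.right_inv hzt]
      exact c.im_pos hz
    obtain ⟨c'', hc'', hφ'', hz''⟩ := reach_at H hC'' c.hφ hx hi
    rw [c.φ.map.right_inv hzt] at hz''
    obtain ⟨t1, ht1, a1, a2⟩ := coprop_ne H hm2 hm hcov hnd hC hC'' hne'' hc hc'' hφ''.symm z hz hz''
    obtain ⟨t2, ht2, b1, b2⟩ := coprop_ne H hm2 hm hcov hnd hC hC'' hne'' hc' hc''
      (hφ.symm.trans hφ''.symm) z hz' hz''
    refine ⟨t1 / t2, div_ne_zero ht1 ht2, ?_, ?_⟩
    · rw [a1, b1, smul_smul, div_mul_cancel₀ _ ht2]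
    · rw [a2, b2]
      field_simp
  · exact coprop_ne H hm2 hm hcov hnd hC hC' hne hc hc'

theorem not_PM [CompactSpace S] [ConnectedSpace S] {M : Surface S} {σ : ℝ} (hσ : 0 < σ)
    (hmir : MirC M) (h2 : ∃ C C', IsCC M C ∧ IsCC M C' ∧ C ≠ C') {n : ℕ} (hn : n ≤ 7) :
    ¬ PM M σ n := by
  intro hP
  obtain ⟨m, hmn, hm2, e, G, H, hcov, hnd⟩ := min_data hσ hmir h2 hP
  have hp : ∀ C C', IsCC M C → IsCC M C' → ∀ c c' : GCell M e G, Reach C c → Reach C' c' →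
      CoProp c c' := fun C C' hC hC' c c' hc hc' =>
    coprop_all H hm2 (hmn.trans hn) hcov hnd h2 hC hC' hc hc'
  obtain ⟨C, -, hC, -, -⟩ := id h2
  obtain ⟨p, hpb, -⟩ := id hC
  obtain ⟨C0, hC0, c, hc, z, hz, hE⟩ := exists_zero H hm2 ⟨p, hpb⟩ hp
  exact pole_case H hm2 (hmn.trans hn) hcov h2 hp hC0 hc hz hE

theorem separated7 [CompactSpace S] [ConnectedSpace S] (M : Surface S) {σ : ℝ} (hσ : 0 < σ)
    (hdim : Module.rank ℝ (M.eigenspace σ) ≤ 7)
    (h2 : ∃ p ∈ M.bdry, ∃ q ∈ M.bdry,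
      connectedComponentIn M.bdry p ≠ connectedComponentIn M.bdry q) :
    ∃ p ∈ M.bdry, ∃ q ∈ M.bdry,
      connectedComponentIn M.bdry p ≠ connectedComponentIn M.bdry q ∧ M.Separated σ p q := by
  by_contra hno
  push Not at hno
  obtain ⟨M', hmir, hbd, heig, hfree⟩ := exists_dbl M
  have hdim' : Module.rank ℝ (M'.eigenspace σ) ≤ 7 := by
    rw [heig]
    exact hdim
  have hfin : Module.Finite ℝ (M'.eigenspace σ) := by
    rw [← Module.rank_lt_aleph0_iff]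
    exact lt_of_le_of_lt hdim' (by exact_mod_cast Cardinal.natCast_lt_aleph0 (n := 7))
  have hrank : Module.finrank ℝ (M'.eigenspace σ) ≤ 7 :=
    Module.finrank_le_of_rank_le (by exact_mod_cast hdim')
  let b := Module.finBasis ℝ (M'.eigenspace σ)
  have h2' : ∃ C C', IsCC M' C ∧ IsCC M' C' ∧ C ≠ C' := by
    obtain ⟨p, hp, q, hq, hne⟩ := h2
    refine ⟨_, _, ⟨p, ?_, rfl⟩, ⟨q, ?_, rfl⟩, ?_⟩
    · rw [hbd]; exact hp
    · rw [hbd]; exact hq
    · rw [hbd]; exact hne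
  refine not_PM hσ hmir h2' hrank ⟨fun i => (b i : S → ℝ), fun i => (b i).2, ?_, ?_⟩
  · exact b.linearIndependent.map' (M'.eigenspace σ).subtype (Submodule.ker_subtype _)
  · intro C C' hC hC' hne p hp q hq
    apply covered_of_not_separated b
    obtain ⟨p0, hp0, rfl⟩ := hC
    obtain ⟨q0, hq0, rfl⟩ := hC'
    have hpb := connectedComponentIn_subset _ _ hp
    have hqb := connectedComponentIn_subset _ _ hq
    rw [connectedComponentIn_eq hp, connectedComponentIn_eq hq, hbd] at hne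
    rw [hbd] at hpb hqb
    have h3 := hno p hpb q hqb hne
    intro h4
    exact h3 fun n Φ hΦ => h4 n Φ (hfree σ n Φ hΦ)

end Stek.Sv
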