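import Mathlib

/-!
Linear differential equations `S' = A S` on closed rectangles of the complex plane, with `A`
continuous on the closed rectangle and holomorphic in the open one.
-/

open Set Filter Topology Complex MeasureTheory
open scoped Interval

namespace Stek

/-- a closed rectangle -/
def rect (a b c d : ℝ) : Set ℂ := {z | z.re ∈ Icc a b ∧ z.im ∈ Icc c d}

/-- an open rectangle -/
def orect (a b c d : ℝ) : Set ℂ := {z | z.re ∈ Ioo a b ∧ z.im ∈ Ioo c d}

variable {a b c d : ℝ}

theorem mem_rect {z : ℂ} : z ∈ rect a b c d ↔ z.re ∈ Icc a b ∧ z.im ∈ Icc c d := Iff.rfl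

theorem mem_orect {z : ℂ} : z ∈ orect a b c d ↔ z.re ∈ Ioo a b ∧ z.im ∈ Ioo c d := Iff.rfl

theorem orect_subset : orect a b c d ⊆ rect a b c d := fun _ hz =>
  ⟨Ioo_subset_Icc_self hz.1, Ioo_subset_Icc_self hz.2⟩

theorem isOpen_orect : IsOpen (orect a b c d) :=
  (isOpen_Ioo.preimage continuous_re).inter (isOpen_Ioo.preimage continuous_im)

theorem isClosed_rect : IsClosed (rect a b c d) :=
  (isClosed_Icc.preimage continuous_re).inter (isClosed_Icc.preimage continuous_im)

theorem rect_eq : rect a b c d = Icc a b ×ℂ Icc c d := rfl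

theorem isCompact_rect : IsCompact (rect a b c d) := by
  rw [rect_eq]
  exact isCompact_Icc.reProdIm isCompact_Icc

theorem convex_rect : Convex ℝ (rect a b c d) :=
  ((convex_Icc a b).is_linear_preimage (f := Complex.re) ⟨Complex.add_re, by simp⟩).inter
    ((convex_Icc c d).is_linear_preimage (f := Complex.im) ⟨Complex.add_im, by simp⟩)

theorem convex_orect : Convex ℝ (orect a b c d) :=
  ((convex_Ioo a b).is_linear_preimage (f := Complex.re) ⟨Complex.add_re, by simp⟩).inter
    ((convex_Ioo c d).is_linear_preimage (f := Complex.im) ⟨Complex.add_im, by simp⟩)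

theorem rect_mem_nhds {z : ℂ} (hz : z ∈ orect a b c d) : rect a b c d ∈ 𝓝 z :=
  mem_of_superset (isOpen_orect.mem_nhds hz) orect_subset

set_option linter.unusedSectionVars false

variable {V : Type*} [NormedAddCommGroup V] [NormedSpace ℂ V]

theorem int_horiz {f : ℂ → V} (hf : ContinuousOn f (rect a b c d)) {x x' y : ℝ}
    (hx : x ∈ Icc a b) (hx' : x' ∈ Icc a b) (hy : y ∈ Icc c d) :
    IntervalIntegrable (fun t : ℝ => f (t + y * I)) volume x x' := by
  apply ContinuousOn.intervalIntegrable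
  apply hf.comp (by fun_prop)
  intro t ht
  have ht' : t ∈ Icc a b := (convex_Icc a b).ordConnected.uIcc_subset hx hx' ht
  exact ⟨by simpa using ht', by simpa using hy⟩

theorem int_vert {f : ℂ → V} (hf : ContinuousOn f (rect a b c d)) {x y y' : ℝ}
    (hx : x ∈ Icc a b) (hy : y ∈ Icc c d) (hy' : y' ∈ Icc c d) :
    IntervalIntegrable (fun t : ℝ => f (x + t * I)) volume y y' := by
  apply ContinuousOn.intervalIntegrable
  apply hf.comp (by fun_prop)
  intro t ht
  have ht' : t ∈ Icc c d := (convex_Icc c d).ordConnected.uIcc_subset hy hy' ht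
  exact ⟨by simpa using hx, by simpa using ht'⟩

/-- path independence -/
theorem wedge_sub {f : ℂ → V} (hf : ContinuousOn f (rect a b c d))
    (hd : DifferentiableOn ℂ f (orect a b c d)) {z₁ z w : ℂ} (h1 : z₁ ∈ rect a b c d)
    (hz : z ∈ rect a b c d) (hw : w ∈ rect a b c d) :
    wedgeIntegral z₁ w f - wedgeIntegral z₁ z f = wedgeIntegral z w f := by
  have e1 : (∫ x in z₁.re..z.re, f (x + z₁.im * I)) + (∫ x in z.re..w.re, f (x + z₁.im * I)) =
      ∫ x in z₁.re..w.re, f (x + z₁.im * I) :=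
    intervalIntegral.integral_add_adjacent_intervals (int_horiz hf h1.1 hz.1 h1.2)
      (int_horiz hf hz.1 hw.1 h1.2)
  have e2 : (∫ y in z₁.im..z.im, f (w.re + y * I)) + (∫ y in z.im..w.im, f (w.re + y * I)) =
      ∫ y in z₁.im..w.im, f (w.re + y * I) :=
    intervalIntegral.integral_add_adjacent_intervals (int_vert hf hw.1 h1.2 hz.2)
      (int_vert hf hw.1 hz.2 hw.2)
  have e3 := integral_boundary_rect_eq_zero_of_continuousOn_of_differentiableOn f
    (z.re + z₁.im * I : ℂ) (w.re + z.im * I : ℂ) (by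
      apply hf.mono
      rintro t ⟨ht1, ht2⟩
      simp only [add_re, ofReal_re, mul_re, I_re, mul_zero, ofReal_im, I_im, mul_one, sub_self,
        add_zero, mem_preimage] at ht1
      simp only [add_im, ofReal_im, mul_im, ofReal_re, I_im, mul_one, I_re, mul_zero, add_zero,
        zero_add, mem_preimage] at ht2
      exact ⟨(convex_Icc a b).ordConnected.uIcc_subset hz.1 hw.1 ht1,
        (convex_Icc c d).ordConnected.uIcc_subset h1.2 hz.2 ht2⟩) (by
      apply hd.mono
      rintro t ⟨ht1, ht2⟩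
      simp only [add_re, ofReal_re, mul_re, I_re, mul_zero, ofReal_im, I_im, mul_one, sub_self,
        add_zero, mem_preimage] at ht1
      simp only [add_im, ofReal_im, mul_im, ofReal_re, I_im, mul_one, I_re, mul_zero, add_zero,
        zero_add, mem_preimage] at ht2
      exact ⟨⟨lt_of_le_of_lt (le_min hz.1.1 hw.1.1) ht1.1,
        lt_of_lt_of_le ht1.2 (max_le hz.1.2 hw.1.2)⟩,
        ⟨lt_of_le_of_lt (le_min h1.2.1 hz.2.1) ht2.1,
        lt_of_lt_of_le ht2.2 (max_le h1.2.2 hz.2.2)⟩⟩)
  simp only [add_re, ofReal_re, mul_re, I_re, mul_zero, ofReal_im, I_im, mul_one, sub_self,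
        add_zero, add_im, mul_im, zero_add] at e3
  unfold wedgeIntegral
  rw [← e1, ← e2, smul_add]
  refine sub_eq_zero.mp (Eq.trans ?_ e3)
  abel

theorem wedge_norm {f : ℂ → V} {z w : ℂ} (hz : z ∈ rect a b c d)
    (hw : w ∈ rect a b c d) {C : ℝ} (hC : ∀ ζ ∈ rect a b c d, |ζ.re - z.re| ≤ |w.re - z.re| →
      |ζ.im - z.im| ≤ |w.im - z.im| → ‖f ζ‖ ≤ C) :
    ‖wedgeIntegral z w f‖ ≤ C * (|w.re - z.re| + |w.im - z.im|) := by
  unfold wedgeIntegral
  refine (norm_add_le _ _).trans ?_
  rw [norm_smul, norm_I, one_mul, mul_add]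
  apply add_le_add
  · apply intervalIntegral.norm_integral_le_of_norm_le_const
    intro x hx
    have hx' := uIoc_subset_uIcc hx
    have h1 : x ∈ Icc a b := (convex_Icc a b).ordConnected.uIcc_subset hz.1 hw.1 hx'
    apply hC
    · exact ⟨by simpa using h1, by simpa using hz.2⟩
    · simpa using abs_sub_left_of_mem_uIcc hx'
    · simp
  · apply intervalIntegral.norm_integral_le_of_norm_le_const
    intro x hx
    have hx' := uIoc_subset_uIcc hx
    have h1 : x ∈ Icc c d := (convex_Icc c d).ordConnected.uIcc_subset hz.2 hw.2 hx'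
    apply hC
    · exact ⟨by simpa using hw.1, by simpa using h1⟩
    · simp
    · simpa using abs_sub_left_of_mem_uIcc hx'

/-- the wedge integral is a primitive up to the boundary -/
theorem wedge_deriv [CompleteSpace V] {f : ℂ → V} (hf : ContinuousOn f (rect a b c d))
    (hd : DifferentiableOn ℂ f (orect a b c d)) {z₁ z : ℂ} (h1 : z₁ ∈ rect a b c d)
    (hz : z ∈ rect a b c d) :
    HasDerivWithinAt (fun w => wedgeIntegral z₁ w f) (f z) (rect a b c d) z := by
  rw [hasDerivWithinAt_iff_isLittleO, Asymptotics.isLittleO_iff]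
  intro ε hε
  have hc : ∀ᶠ w in 𝓝[rect a b c d] z, ‖f w - f z‖ < ε / 2 := by
    have h2 : Tendsto (fun w => ‖f w - f z‖) (𝓝[rect a b c d] z) (𝓝 ‖f z - f z‖) :=
      ((hf z hz).sub tendsto_const_nhds).norm
    rw [sub_self, norm_zero] at h2
    exact h2.eventually_lt_const (half_pos hε)
  rw [eventually_nhdsWithin_iff, Metric.eventually_nhds_iff] at hc
  obtain ⟨δ, hδ, hc⟩ := hc
  rw [eventually_nhdsWithin_iff, Metric.eventually_nhds_iff]
  refine ⟨δ / 2, half_pos hδ, fun w hw hwR => ?_⟩
  rw [wedge_sub hf hd h1 hz hwR]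
  have e1 : wedgeIntegral z w f - (w - z) • f z = wedgeIntegral z w (fun ζ => f ζ - f z) := by
    unfold wedgeIntegral
    rw [intervalIntegral.integral_sub (int_horiz hf hz.1 hwR.1 hz.2) intervalIntegrable_const,
      intervalIntegral.integral_sub (int_vert hf hwR.1 hz.2 hwR.2) intervalIntegrable_const]
    simp only [intervalIntegral.integral_const]
    have e2 : (w - z) • f z = (w.re - z.re) • f z + I • ((w.im - z.im) • f z) := by
      rw [← Complex.coe_smul, ← Complex.coe_smul, smul_smul, ← add_smul]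
      congr 1
      apply Complex.ext <;> simp
    rw [e2, smul_sub]
    abel
  rw [e1]
  have hnw : ‖w - z‖ < δ / 2 := by rwa [dist_eq_norm] at hw
  have hre := abs_re_le_norm (w - z)
  have him := abs_im_le_norm (w - z)
  rw [sub_re] at hre
  rw [sub_im] at him
  refine (wedge_norm hz hwR (C := ε / 2) ?_).trans ?_
  · intro ζ hζ h3 h4
    apply (hc _ hζ).le
    rw [dist_eq_norm]
    refine lt_of_le_of_lt (norm_le_abs_re_add_abs_im _) ?_
    rw [sub_re, sub_im]
    linarith
  · have : |w.re - z.re| + |w.im - z.im| ≤ 2 * ‖w - z‖ := by linarith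
    nlinarith

theorem int_pow_bound {C h : ℝ} (hC : 0 ≤ C) (hh : 0 ≤ h) (n : ℕ) {g : ℝ → V} {s t : ℝ}
    (hg : ∀ x ∈ uIcc s t, ‖g x‖ ≤ C * (h + |x - s|) ^ n) :
    ‖∫ x in s..t, g x‖ ≤ C / (n + 1) * ((h + |t - s|) ^ (n + 1) - h ^ (n + 1)) := by
  have hn : (0 : ℝ) < n + 1 := by positivity
  have h1 : ‖∫ x in s..t, g x‖ ≤ |∫ x in s..t, C * (h + |x - s|) ^ n| := by
    apply intervalIntegral.norm_integral_le_abs_of_norm_le
    · rw [ae_restrict_iff' measurableSet_uIoc]
      exact Eventually.of_forall fun x hx => hg x (uIoc_subset_uIcc hx)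
    · apply Continuous.intervalIntegrable
      fun_prop
  refine h1.trans ?_
  have hpos : 0 ≤ C / (n + 1) * ((h + |t - s|) ^ (n + 1) - h ^ (n + 1)) := by
    apply mul_nonneg (div_nonneg hC hn.le)
    have : h ^ (n + 1) ≤ (h + |t - s|) ^ (n + 1) :=
      pow_le_pow_left₀ hh (by linarith [abs_nonneg (t - s)]) _
    linarith
  rcases le_total s t with hst | hst
  · have h2 : ∫ x in s..t, C * (h + |x - s|) ^ n = ∫ x in s..t, C * (h + (x - s)) ^ n := by
      apply intervalIntegral.integral_congr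
      intro x hx
      rw [uIcc_of_le hst] at hx
      simp only
      rw [abs_of_nonneg (by linarith [hx.1])]
    have h3 : ∫ x in s..t, C * (h + (x - s)) ^ n =
        C / (n + 1) * (h + (t - s)) ^ (n + 1) - C / (n + 1) * (h + (s - s)) ^ (n + 1) := by
      apply intervalIntegral.integral_eq_sub_of_hasDerivAt
      · intro x _
        have h4 : HasDerivAt (fun x : ℝ => h + (x - s)) 1 x :=
          ((hasDerivAt_id x).sub_const s).const_add h
        have h5 := (h4.pow (n + 1)).const_mul (C / (n + 1))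
        refine h5.congr_deriv ?_
        simp only [Nat.add_sub_cancel, mul_one]
        push_cast
        field_simp
      · apply Continuous.intervalIntegrable
        fun_prop
    rw [h2, h3, abs_of_nonneg (by linarith : (0 : ℝ) ≤ t - s), sub_self, add_zero, ← mul_sub]
    rw [abs_of_nonneg (by linarith : (0 : ℝ) ≤ t - s)] at hpos
    rw [abs_of_nonneg hpos]
  · have h2 : ∫ x in s..t, C * (h + |x - s|) ^ n = ∫ x in s..t, C * (h + (s - x)) ^ n := by
      apply intervalIntegral.integral_congr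
      intro x hx
      rw [uIcc_of_ge hst] at hx
      simp only
      rw [abs_of_nonpos (by linarith [hx.2]), neg_sub]
    have h3 : ∫ x in s..t, C * (h + (s - x)) ^ n =
        -(C / (n + 1)) * (h + (s - t)) ^ (n + 1) - -(C / (n + 1)) * (h + (s - s)) ^ (n + 1) := by
      apply intervalIntegral.integral_eq_sub_of_hasDerivAt
      · intro x _
        have h4 : HasDerivAt (fun x : ℝ => h + (s - x)) (-1) x :=
          ((hasDerivAt_id x).const_sub s).const_add h
        have h5 := (h4.pow (n + 1)).const_mul (-(C / (n + 1)))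
        refine h5.congr_deriv ?_
        simp only [Nat.add_sub_cancel]
        push_cast
        field_simp
      · apply Continuous.intervalIntegrable
        fun_prop
    have hab : |t - s| = s - t := by
      rw [abs_of_nonpos (by linarith), neg_sub]
    rw [h2, h3, hab, sub_self, add_zero, ← mul_sub, neg_mul, abs_neg]
    rw [hab] at hpos
    rw [abs_of_nonneg hpos]

/-- a bound for iterated integrals -/
theorem wedge_pow {f : ℂ → V} {z w : ℂ} (hz : z ∈ rect a b c d)
    (hw : w ∈ rect a b c d) {C : ℝ} (hC0 : 0 ≤ C) (n : ℕ)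
    (hC : ∀ ζ ∈ rect a b c d, ‖f ζ‖ ≤ C * (|ζ.re - z.re| + |ζ.im - z.im|) ^ n) :
    ‖wedgeIntegral z w f‖ ≤ C / (n + 1) * (|w.re - z.re| + |w.im - z.im|) ^ (n + 1) := by
  unfold wedgeIntegral
  have h1 := int_pow_bound (V := V) hC0 le_rfl n (g := fun x : ℝ => f (x + z.im * I))
    (s := z.re) (t := w.re) (by
      intro x hx
      have h1 : x ∈ Icc a b := (convex_Icc a b).ordConnected.uIcc_subset hz.1 hw.1 hx
      have := hC (x + z.im * I) ⟨by simpa using h1, by simpa using hz.2⟩
      simpa using this)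
  have h2 := int_pow_bound (V := V) hC0 (abs_nonneg (w.re - z.re)) n
    (g := fun y : ℝ => f (w.re + y * I)) (s := z.im) (t := w.im) (by
      intro x hx
      have h1 : x ∈ Icc c d := (convex_Icc c d).ordConnected.uIcc_subset hz.2 hw.2 hx
      have := hC (w.re + x * I) ⟨by simpa using hw.1, by simpa using h1⟩
      simpa using this)
  refine (norm_add_le _ _).trans ?_
  rw [norm_smul, norm_I, one_mul]
  rw [zero_add, zero_pow (Nat.succ_ne_zero n), sub_zero] at h1
  rw [mul_sub] at h2
  linarith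

theorem wedge_add {f g : ℂ → V} (hf : ContinuousOn f (rect a b c d))
    (hg : ContinuousOn g (rect a b c d)) {z w : ℂ} (hz : z ∈ rect a b c d)
    (hw : w ∈ rect a b c d) :
    wedgeIntegral z w (fun ζ => f ζ + g ζ) = wedgeIntegral z w f + wedgeIntegral z w g := by
  unfold wedgeIntegral
  rw [intervalIntegral.integral_add (int_horiz hf hz.1 hw.1 hz.2) (int_horiz hg hz.1 hw.1 hz.2),
    intervalIntegral.integral_add (int_vert hf hw.1 hz.2 hw.2) (int_vert hg hw.1 hz.2 hw.2),
    smul_add]
  abel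

theorem wedge_sub' {f g : ℂ → V} (hf : ContinuousOn f (rect a b c d))
    (hg : ContinuousOn g (rect a b c d)) {z w : ℂ} (hz : z ∈ rect a b c d)
    (hw : w ∈ rect a b c d) :
    wedgeIntegral z w (fun ζ => f ζ - g ζ) = wedgeIntegral z w f - wedgeIntegral z w g := by
  unfold wedgeIntegral
  rw [intervalIntegral.integral_sub (int_horiz hf hz.1 hw.1 hz.2) (int_horiz hg hz.1 hw.1 hz.2),
    intervalIntegral.integral_sub (int_vert hf hw.1 hz.2 hw.2) (int_vert hg hw.1 hz.2 hw.2),
    smul_sub]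
  abel

/-- the terms of the Picard series -/
noncomputable def pic (A : ℂ → V →L[ℂ] V) (z₁ : ℂ) (s : V) : ℕ → ℂ → V
  | 0 => fun _ => s
  | n + 1 => fun z => wedgeIntegral z₁ z (fun ζ => A ζ (pic A z₁ s n ζ))

/-- A solution of `S' = A S` on a set, with derivatives relative to the set. -/
def IsFlat (A : ℂ → V →L[ℂ] V) (R : Set ℂ) (S : ℂ → V) : Prop :=
  ∀ z ∈ R, HasDerivWithinAt S (A z (S z)) R z

section Exist

variable [CompleteSpace V] {A : ℂ → V →L[ℂ] V} {M : ℝ}

theorem pic_prop (hA : ContinuousOn A (rect a b c d)) (hA' : DifferentiableOn ℂ A (orect a b c d))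
    (hM : 0 ≤ M) (hAM : ∀ z ∈ rect a b c d, ‖A z‖ ≤ M) {z₁ : ℂ} (h1 : z₁ ∈ rect a b c d) (s : V)
    (n : ℕ) : ContinuousOn (pic A z₁ s n) (rect a b c d) ∧
      DifferentiableOn ℂ (pic A z₁ s n) (orect a b c d) ∧
      ∀ z ∈ rect a b c d, ‖pic A z₁ s n z‖ ≤
        ‖s‖ * M ^ n / n.factorial * (|z.re - z₁.re| + |z.im - z₁.im|) ^ n := by
  induction n with
  | zero =>
    refine ⟨continuousOn_const, differentiableOn_const _, fun z _ => ?_⟩
    simp [pic]
  | succ n ih =>
    obtain ⟨i1, i2, i3⟩ := ih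
    have c1 : ContinuousOn (fun ζ => A ζ (pic A z₁ s n ζ)) (rect a b c d) := hA.clm_apply i1
    have c2 : DifferentiableOn ℂ (fun ζ => A ζ (pic A z₁ s n ζ)) (orect a b c d) :=
      hA'.clm_apply i2
    have c3 : ∀ z ∈ rect a b c d, HasDerivWithinAt (pic A z₁ s (n + 1)) (A z (pic A z₁ s n z))
        (rect a b c d) z := fun z hz => wedge_deriv c1 c2 h1 hz
    refine ⟨fun z hz => (c3 z hz).continuousWithinAt, fun z hz => ?_, fun z hz => ?_⟩
    · exact ((c3 z (orect_subset hz)).hasDerivAt (rect_mem_nhds hz)).differentiableAt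
        |>.differentiableWithinAt
    · have h2 := wedge_pow (f := fun ζ => A ζ (pic A z₁ s n ζ)) h1 hz
        (C := ‖s‖ * M ^ (n + 1) / n.factorial) (by positivity) n (by
          intro ζ hζ
          refine ((A ζ).le_opNorm _).trans ?_
          refine (mul_le_mul (hAM ζ hζ) (i3 ζ hζ) (norm_nonneg _) hM).trans (le_of_eq ?_)
          ring)
      refine h2.trans (le_of_eq ?_)
      rw [Nat.factorial_succ]
      push_cast
      have : (n.factorial : ℝ) ≠ 0 := by positivity
      field_simp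

/-- Existence of solutions of linear differential equations on closed rectangles. -/
theorem exists_flat (hA : ContinuousOn A (rect a b c d))
    (hA' : DifferentiableOn ℂ A (orect a b c d)) {z₁ : ℂ} (h1 : z₁ ∈ rect a b c d) (s : V) :
    ∃ S : ℂ → V, IsFlat A (rect a b c d) S ∧ S z₁ = s := by
  obtain ⟨M, hM⟩ := isCompact_rect.exists_bound_of_continuousOn hA
  have hM0 : 0 ≤ M := (norm_nonneg _).trans (hM z₁ h1)
  set L : ℝ := (b - a) + (d - c) with hL
  have hell : ∀ z ∈ rect a b c d, |z.re - z₁.re| + |z.im - z₁.im| ≤ L := by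
    intro z hz
    have e1 : |z.re - z₁.re| ≤ b - a :=
      abs_le.mpr ⟨by linarith [hz.1.1, h1.1.2], by linarith [hz.1.2, h1.1.1]⟩
    have e2 : |z.im - z₁.im| ≤ d - c :=
      abs_le.mpr ⟨by linarith [hz.2.1, h1.2.2], by linarith [hz.2.2, h1.2.1]⟩
    linarith
  have hL0 : 0 ≤ L := le_trans (by positivity) (hell z₁ h1)
  let u : ℕ → ℝ := fun n => ‖s‖ * ((M * L) ^ n / n.factorial)
  have hu : Summable u := (Real.summable_pow_div_factorial (M * L)).mul_left _
  have hb : ∀ n, ∀ z ∈ rect a b c d, ‖pic A z₁ s n z‖ ≤ u n := by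
    intro n z hz
    refine ((pic_prop hA hA' hM0 hM h1 s n).2.2 z hz).trans ?_
    have e1 : (|z.re - z₁.re| + |z.im - z₁.im|) ^ n ≤ L ^ n :=
      pow_le_pow_left₀ (by positivity) (hell z hz) n
    have e2 : 0 ≤ ‖s‖ * M ^ n / n.factorial := by positivity
    refine (mul_le_mul_of_nonneg_left e1 e2).trans (le_of_eq ?_)
    simp only [u, mul_pow]
    ring
  let S : ℂ → V := fun z => ∑' n, pic A z₁ s n z
  have hSc : ContinuousOn S (rect a b c d) :=
    continuousOn_tsum (fun n => (pic_prop hA hA' hM0 hM h1 s n).1) hu hb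
  have hSd : DifferentiableOn ℂ S (orect a b c d) :=
    differentiableOn_tsum_of_summable_norm hu (fun n => (pic_prop hA hA' hM0 hM h1 s n).2.1)
      isOpen_orect (fun n z hz => hb n z (orect_subset hz))
  have hASc : ContinuousOn (fun ζ => A ζ (S ζ)) (rect a b c d) := hA.clm_apply hSc
  have hASd : DifferentiableOn ℂ (fun ζ => A ζ (S ζ)) (orect a b c d) := hA'.clm_apply hSd
  let T : ℕ → ℂ → V := fun N z => ∑ n ∈ Finset.range N, pic A z₁ s n z
  have hTc : ∀ N, ContinuousOn (T N) (rect a b c d) := fun N =>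
    continuousOn_finsetSum _ fun n _ => (pic_prop hA hA' hM0 hM h1 s n).1
  have hT : ∀ N, ∀ z ∈ rect a b c d,
      T (N + 1) z = s + wedgeIntegral z₁ z (fun ζ => A ζ (T N ζ)) := by
    intro N
    induction N with
    | zero =>
      intro z _
      simp [T, pic, wedgeIntegral]
    | succ N ih =>
      intro z hz
      have e1 : T (N + 1 + 1) z = T (N + 1) z + pic A z₁ s (N + 1) z := by
        simp only [T]
        rw [Finset.sum_range_succ]
      have e2 : (fun ζ => A ζ (T (N + 1) ζ)) = fun ζ => A ζ (T N ζ) + A ζ (pic A z₁ s N ζ) := by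
        funext ζ
        simp only [T]
        rw [Finset.sum_range_succ, map_add]
      rw [e1, ih z hz, e2, wedge_add (hA.clm_apply (hTc N))
        (hA.clm_apply (pic_prop hA hA' hM0 hM h1 s N).1) h1 hz]
      simp only [pic]
      abel
  have hunif := tendstoUniformlyOn_tsum_nat hu hb
  rw [Metric.tendstoUniformlyOn_iff] at hunif
  have hS : ∀ z ∈ rect a b c d, S z = s + wedgeIntegral z₁ z (fun ζ => A ζ (S ζ)) := by
    intro z hz
    have key : ∀ ε > 0, ‖S z - (s + wedgeIntegral z₁ z (fun ζ => A ζ (S ζ)))‖ ≤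
        (1 + M * L) * ε := by
      intro ε hε
      obtain ⟨N, hN⟩ := (eventually_atTop.mp (hunif ε hε))
      have e1 := hN N le_rfl
      have e2 := hN (N + 1) (Nat.le_succ N) z hz
      have e3 : S z - (s + wedgeIntegral z₁ z (fun ζ => A ζ (S ζ))) =
          (S z - T (N + 1) z) - wedgeIntegral z₁ z (fun ζ => A ζ (S ζ) - A ζ (T N ζ)) := by
        rw [hT N z hz, wedge_sub' hASc (hA.clm_apply (hTc N)) h1 hz]
        abel
      rw [e3]
      refine (norm_sub_le _ _).trans ?_
      have e4 : ‖wedgeIntegral z₁ z (fun ζ => A ζ (S ζ) - A ζ (T N ζ))‖ ≤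
          (M * ε) * (|z.re - z₁.re| + |z.im - z₁.im|) := by
        apply wedge_norm h1 hz
        intro ζ hζ _ _
        rw [← map_sub]
        refine ((A ζ).le_opNorm _).trans ?_
        have e5 := (e1 ζ hζ).le
        rw [dist_eq_norm] at e5
        exact mul_le_mul (hM ζ hζ) e5 (norm_nonneg _) hM0
      have e6 : ‖S z - T (N + 1) z‖ ≤ ε := by
        rw [← dist_eq_norm]
        exact e2.le
      have e7 := mul_le_mul_of_nonneg_left (hell z hz) (mul_nonneg hM0 hε.le)
      linarith
    have h0 : ‖S z - (s + wedgeIntegral z₁ z (fun ζ => A ζ (S ζ)))‖ ≤ 0 := by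
      refine le_of_forall_pos_le_add fun ε hε => ?_
      have hp : 0 < 1 + M * L := by positivity
      have := key (ε / (1 + M * L)) (div_pos hε hp)
      rw [mul_div_cancel₀ _ hp.ne'] at this
      linarith
    exact sub_eq_zero.mp (norm_le_zero_iff.mp h0)
  refine ⟨S, fun z hz => ?_, ?_⟩
  · have h2 := (wedge_deriv hASc hASd h1 hz).const_add s
    exact h2.congr hS (hS z hz)
  · rw [hS z₁ h1]
    simp [wedgeIntegral]

end Exist

namespace IsFlat

variable {A : ℂ → V →L[ℂ] V} {R : Set ℂ} {S T : ℂ → V}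

theorem continuousOn (h : IsFlat A R S) : ContinuousOn S R := fun z hz => (h z hz).continuousWithinAt

theorem mono (h : IsFlat A R S) {R' : Set ℂ} (hR : R' ⊆ R) : IsFlat A R' S :=
  fun z hz => (h z (hR hz)).mono hR

theorem congr (h : IsFlat A R S) (hST : ∀ z ∈ R, T z = S z) : IsFlat A R T := by
  intro z hz
  have := (h z hz).congr hST (hST z hz)
  rwa [← hST z hz] at this

theorem add (h : IsFlat A R S) (h' : IsFlat A R T) : IsFlat A R (fun z => S z + T z) := by
  intro z hz
  have := (h z hz).add (h' z hz)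
  rwa [← map_add] at this

theorem sub (h : IsFlat A R S) (h' : IsFlat A R T) : IsFlat A R (fun z => S z - T z) := by
  intro z hz
  have := (h z hz).sub (h' z hz)
  rwa [← map_sub] at this

theorem smul (h : IsFlat A R S) (k : ℂ) : IsFlat A R (fun z => k • S z) := by
  intro z hz
  have := (h z hz).const_smul k
  rwa [← map_smul] at this

theorem zero : IsFlat A R (fun _ => (0 : V)) := by
  intro z _
  simpa using hasDerivWithinAt_const z R (0 : V)

theorem hasDerivAt (h : IsFlat A R S) {z : ℂ} (hz : R ∈ 𝓝 z) : HasDerivAt S (A z (S z)) z :=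
  (h z (mem_of_mem_nhds hz)).hasDerivAt hz

theorem differentiableOn (h : IsFlat A R S) (hR : IsOpen R) : DifferentiableOn ℂ S R :=
  fun _ hz => (h.hasDerivAt (hR.mem_nhds hz)).differentiableAt.differentiableWithinAt

/-- the derivative along a segment of the real axis -/
theorem hasDerivAt_real (h : IsFlat A R S) {x : ℝ} (hx : ∀ᶠ t : ℝ in 𝓝 x, (t : ℂ) ∈ R) :
    HasDerivAt (fun t : ℝ => S t) (A x (S x)) x := by
  have h1 : HasFDerivWithinAt S (((1 : ℂ →L[ℂ] ℂ).smulRight (A x (S x))).restrictScalars ℝ) R x :=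
    (h x hx.self_of_nhds).hasFDerivWithinAt.restrictScalars ℝ
  have h2 : HasDerivAt (fun t : ℝ => (t : ℂ)) 1 x := Complex.ofRealCLM.hasDerivAt
  have h3 := h1.comp_hasDerivAt x h2 hx
  exact h3.congr_deriv (by simp)

/-- uniqueness on convex sets -/
theorem eq_zero (h : IsFlat A R S) (hR : Convex ℝ R) (hA : ContinuousOn A R) {z₁ z : ℂ}
    (h1 : z₁ ∈ R) (hz : z ∈ R) (h0 : S z₁ = 0) : S z = 0 := by
  let γ : ℝ → ℂ := fun t => z₁ + t * (z - z₁)
  have hγ : ∀ t ∈ Icc (0 : ℝ) 1, γ t ∈ R := by
    intro t ht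
    have := hR.add_smul_sub_mem h1 hz ht
    simpa [γ, Complex.real_smul] using this
  have hγd : ∀ t, HasDerivAt γ (z - z₁) t := by
    intro t
    have h2 : HasDerivAt (fun t : ℝ => (t : ℂ)) 1 t := Complex.ofRealCLM.hasDerivAt
    exact ((h2.mul_const (z - z₁)).const_add z₁).congr_deriv (by simp)
  have hγc : Continuous γ := by
    simp only [γ]
    fun_prop
  have hAc : ContinuousOn (fun t => A (γ t)) (Icc (0 : ℝ) 1) := hA.comp hγc.continuousOn hγ
  obtain ⟨M, hM⟩ := isCompact_Icc.exists_bound_of_continuousOn hAc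
  have hg : ∀ t ∈ Icc (0 : ℝ) 1, HasDerivWithinAt (fun t => S (γ t))
      ((z - z₁) • A (γ t) (S (γ t))) (Icc 0 1) t := by
    intro t ht
    have h2 : HasFDerivWithinAt S
        (((1 : ℂ →L[ℂ] ℂ).smulRight (A (γ t) (S (γ t)))).restrictScalars ℝ) R (γ t) :=
      (h (γ t) (hγ t ht)).hasFDerivWithinAt.restrictScalars ℝ
    have h3 := h2.comp_hasDerivWithinAt t (hγd t).hasDerivWithinAt (s := Icc 0 1) hγ
    exact h3.congr_deriv (by simp)
  have hgr := norm_le_gronwallBound_of_norm_deriv_right_le (f := fun t => S (γ t))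
    (f' := fun t => (z - z₁) • A (γ t) (S (γ t))) (δ := 0) (K := ‖z - z₁‖ * M) (ε := 0)
    (a := 0) (b := 1) (fun t ht => (hg t ht).continuousWithinAt)
    (fun t ht => (hg t (Ico_subset_Icc_self ht)).mono_of_mem_nhdsWithin
      (Icc_mem_nhdsGE_of_mem ht))
    (by simp [γ, h0])
    (by
      intro t ht
      rw [norm_smul, add_zero, mul_assoc]
      apply mul_le_mul_of_nonneg_left _ (norm_nonneg _)
      exact ((A (γ t)).le_opNorm _).trans
        (mul_le_mul_of_nonneg_right (hM t (Ico_subset_Icc_self ht)) (norm_nonneg _)))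
    1 ⟨zero_le_one, le_rfl⟩
  rw [gronwallBound_ε0_δ0] at hgr
  have : S (γ 1) = 0 := norm_le_zero_iff.mp hgr
  simpa [γ] using this

theorem eq_of_eq (h : IsFlat A R S) (h' : IsFlat A R T) (hR : Convex ℝ R) (hA : ContinuousOn A R)
    {z₁ z : ℂ} (h1 : z₁ ∈ R) (hz : z ∈ R) (h0 : S z₁ = T z₁) : S z = T z :=
  sub_eq_zero.mp ((h.sub h').eq_zero hR hA h1 hz (sub_eq_zero.mpr h0))

end IsFlat

end Stek
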