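import Pool.Agent.H.MP_fc2485_gt.Sv.Defs

/-!
Sets of uniqueness of holomorphic functions on rectangles.
(bottom side: use `Stek.sq_zero` of UC.lean for small squares above the side, then the identity
theorem in the interior, then continuity.)
-/

set_option maxSynthPendingDepth 3

open Set Filter Topology

namespace Stek.Sv

private theorem Uniq_convex (a b c d : ℝ) : Convex ℝ (RectI a b c d) := by
  have h : RectI a b c d = Complex.reCLM ⁻¹' (Ioo a b) ∩ Complex.imCLM ⁻¹' (Ioo c d) := by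
    ext z
    constructor
    · rintro ⟨h1, h2, h3, h4⟩
      exact ⟨⟨h1, h2⟩, ⟨h3, h4⟩⟩
    · rintro ⟨⟨h1, h2⟩, ⟨h3, h4⟩⟩
      exact ⟨h1, h2, h3, h4⟩
  rw [h]
  exact ((convex_Ioo a b).linear_preimage Complex.reCLM.toLinearMap).inter
    ((convex_Ioo c d).linear_preimage Complex.imCLM.toLinearMap)

private theorem Uniq_closure {a b c d : ℝ} (hab : a < b) (hcd : c < d) :
    Rect a b c d ⊆ closure (RectI a b c d) := by
  have h : RectI a b c d = Ioo a b ×ℂ Ioo c d := by
    ext z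
    constructor
    · rintro ⟨h1, h2, h3, h4⟩
      exact ⟨⟨h1, h2⟩, ⟨h3, h4⟩⟩
    · rintro ⟨⟨h1, h2⟩, ⟨h3, h4⟩⟩
      exact ⟨h1, h2, h3, h4⟩
  rw [h, Complex.closure_reProdIm, closure_Ioo hab.ne, closure_Ioo hcd.ne]
  rintro z ⟨h1, h2, h3, h4⟩
  exact ⟨⟨h1, h2⟩, ⟨h3, h4⟩⟩

theorem uniq_open {a b c d : ℝ} (hab : a < b) (hcd : c < d) {U : Set ℂ} (hU : IsOpen U)
    (hne : (U ∩ RectI a b c d).Nonempty) :
    Uniq (Rect a b c d) (RectI a b c d) (U ∩ RectI a b c d) := by
  refine ⟨fun z hz => RectI_sub _ _ _ _ hz.2, ?_⟩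
  intro h hh hz
  have han : AnalyticOnNhd ℂ h (RectI a b c d) := hh.holo.analyticOnNhd (isOpen_RectI a b c d)
  obtain ⟨z0, hz0⟩ := hne
  have hev : h =ᶠ[𝓝 z0] 0 := by
    filter_upwards [(hU.inter (isOpen_RectI a b c d)).mem_nhds hz0] with z h1
    exact hz z h1
  have hzero : ∀ z ∈ RectI a b c d, h z = 0 := fun z h1 =>
    han.eqOn_zero_of_preconnected_of_eventuallyEq_zero (Uniq_convex a b c d).isPreconnected
      hz0.2 hev h1
  intro z hzK
  have hcl : z ∈ closure (RectI a b c d) := Uniq_closure hab hcd hzK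
  haveI : (𝓝[RectI a b c d] z).NeBot := mem_closure_iff_nhdsWithin_neBot.mp hcl
  have t1 : Tendsto h (𝓝[RectI a b c d] z) (𝓝 (h z)) :=
    (hh.cont z hzK).mono_left (nhdsWithin_mono z (RectI_sub a b c d))
  have t2 : Tendsto h (𝓝[RectI a b c d] z) (𝓝 0) := by
    refine tendsto_const_nhds.congr' ?_
    filter_upwards [self_mem_nhdsWithin] with w hw
    exact (hzero w hw).symm
  exact tendsto_nhds_unique t1 t2

theorem uniq_bottom {a b c d : ℝ} (hab : a < b) (hcd : c < d) :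
    Uniq (Rect a b c d) (RectI a b c d) {z | z ∈ Rect a b c d ∧ z.im = c} := by
  refine ⟨fun z hz => hz.1, ?_⟩
  intro h hh hz
  set x0 : ℝ := (a + b) / 2 with hx0
  set η : ℝ := min ((b - a) / 4) ((d - c) / 4) with hη
  have hη0 : 0 < η := lt_min (by linarith) (by linarith)
  have hη1 : η ≤ (b - a) / 4 := min_le_left _ _
  have hη2 : η ≤ (d - c) / 4 := min_le_right _ _
  set U : Set ℂ := RectI (x0 - η) (x0 + η) c (c + η) with hU
  have hsub : U ⊆ RectI a b c d := by
    rintro z ⟨h1, h2, h3, h4⟩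
    exact ⟨by linarith, by linarith, h3, by linarith⟩
  have hzero : ∀ z ∈ U, h z = 0 := by
    rintro z ⟨h1, h2, h3, h4⟩
    set δ : ℝ := z.im - c with hδ
    have hδ0 : 0 < δ := by linarith
    have hδη : δ < η := by linarith
    set t : ℂ := (c : ℂ) * Complex.I with ht
    have htr : t.re = 0 := by simp [ht]
    have hti : t.im = c := by simp [ht]
    set z1 : ℂ := z - t with hz1
    have hz1r : z1.re = z.re := by simp [hz1, htr]
    have hz1i : z1.im = δ := by simp [hz1, hti, hδ]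
    have hin : ∀ w : ℂ, |w.re - z1.re| ≤ δ → |w.im - δ| ≤ δ → w + t ∈ Rect a b c d := by
      intro w hw1 hw2
      rw [abs_le, hz1r] at hw1
      rw [abs_le] at hw2
      refine ⟨?_, ?_, ?_, ?_⟩
      · rw [Complex.add_re, htr]; linarith [hw1.1]
      · rw [Complex.add_re, htr]; linarith [hw1.2]
      · rw [Complex.add_im, hti]; linarith [hw2.1]
      · rw [Complex.add_im, hti]; linarith [hw2.2]
    have hinI : ∀ w : ℂ, |w.re - z1.re| < δ → |w.im - δ| < δ → w + t ∈ RectI a b c d := by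
      intro w hw1 hw2
      rw [abs_lt, hz1r] at hw1
      rw [abs_lt] at hw2
      refine ⟨?_, ?_, ?_, ?_⟩
      · rw [Complex.add_re, htr]; linarith [hw1.1]
      · rw [Complex.add_re, htr]; linarith [hw1.2]
      · rw [Complex.add_im, hti]; linarith [hw2.1]
      · rw [Complex.add_im, hti]; linarith [hw2.2]
    have key := sq_zero (F := fun w => h (w + t)) (z0 := z1) (d := δ) hδ0 hz1i ?_ ?_ ?_
    · simpa [hz1] using key
    · intro w hw1 hw2
      have h5 : DifferentiableAt ℂ h (w + t) :=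
        (hh.holo _ (hinI w hw1 hw2)).differentiableAt ((isOpen_RectI a b c d).mem_nhds
          (hinI w hw1 hw2))
      exact h5.comp w (differentiableAt_id.add_const t)
    · refine hh.cont.comp (continuous_id.add continuous_const).continuousOn ?_
      intro w hw
      exact hin w hw.1 hw.2
    · intro w hw1 hw2
      have h6 : w + t ∈ Rect a b c d := by
        refine hin w hw1 ?_
        rw [hw2, zero_sub, abs_neg, abs_of_pos hδ0]
      refine hz (w + t) ⟨h6, ?_⟩
      rw [Complex.add_im, hw2, hti, zero_add]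
  have hne : (U ∩ RectI a b c d).Nonempty := by
    refine ⟨⟨x0, c + η / 2⟩, ?_⟩
    have h1 : (⟨x0, c + η / 2⟩ : ℂ) ∈ U := by
      refine ⟨?_, ?_, ?_, ?_⟩ <;> simp only <;> linarith
    exact ⟨h1, hsub h1⟩
  exact (uniq_open hab hcd (isOpen_RectI _ _ _ _) hne).2 h hh (fun z h1 => hzero z h1.1)

theorem uniq_self (K O : Set ℂ) : Uniq K O K := ⟨Subset.rfl, fun _ _ h => h⟩

theorem Nice.const {X : Type*} [NormedAddCommGroup X] [NormedSpace ℂ X] (K O : Set ℂ) (x : X) :
    Nice K O (fun _ => x) :=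
  ⟨continuousOn_const, differentiableOn_const x⟩

theorem Nice.add {X : Type*} [NormedAddCommGroup X] [NormedSpace ℂ X] {K O : Set ℂ}
    {f g : ℂ → X} (hf : Nice K O f) (hg : Nice K O g) : Nice K O (fun z => f z + g z) :=
  ⟨hf.cont.add hg.cont, hf.holo.add hg.holo⟩

theorem Nice.sub {X : Type*} [NormedAddCommGroup X] [NormedSpace ℂ X] {K O : Set ℂ}
    {f g : ℂ → X} (hf : Nice K O f) (hg : Nice K O g) : Nice K O (fun z => f z - g z) :=
  ⟨hf.cont.sub hg.cont, hf.holo.sub hg.holo⟩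

theorem Nice.smul {X : Type*} [NormedAddCommGroup X] [NormedSpace ℂ X] {K O : Set ℂ}
    {f : ℂ → ℂ} {g : ℂ → X} (hf : Nice K O f) (hg : Nice K O g) :
    Nice K O (fun z => f z • g z) :=
  ⟨hf.cont.smul hg.cont, hf.holo.smul hg.holo⟩

theorem Nice.clm {X X' : Type*} [NormedAddCommGroup X] [NormedSpace ℂ X] [NormedAddCommGroup X']
    [NormedSpace ℂ X'] {K O : Set ℂ} {g : ℂ → X} (L : X →L[ℂ] X') (hg : Nice K O g) :
    Nice K O (fun z => L (g z)) :=
  ⟨L.continuous.comp_continuousOn hg.cont, L.differentiable.comp_differentiableOn hg.holo⟩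

theorem Nice.bil {m : ℕ} {K O : Set ℂ} {f g : ℂ → V m} (Q : Bl m) (hf : Nice K O f)
    (hg : Nice K O g) : Nice K O (fun z => Q (f z) (g z)) :=
  ⟨(Q.continuous.comp_continuousOn hf.cont).clm_apply hg.cont,
    (Q.differentiable.comp_differentiableOn hf.holo).clm_apply hg.holo⟩

/-- vector valued functions -/
theorem Uniq.vec {m : ℕ} {K O A : Set ℂ} (hA : Uniq K O A) {h : ℂ → V m} (hh : Nice K O h)
    (hz : ∀ z ∈ A, h z = 0) : ∀ z ∈ K, h z = 0 := by
  intro z hzK
  funext i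
  have h1 : Nice K O (fun z => (ContinuousLinearMap.proj i : V m →L[ℂ] ℂ) (h z)) :=
    Nice.clm _ hh
  exact hA.2 _ h1 (fun w hw => by rw [hz w hw]; simp) z hzK

theorem IsSol.niceY {m : ℕ} {G : Bl m} {F : ℂ → V m} {K O : Set ℂ} {Y : ℂ → V m} {E : ℂ → ℂ}
    (h : IsSol G F K Y E) (hO : IsOpen O) (hOK : O ⊆ K) : Nice K O Y :=
  ⟨fun z hz => (h.dY z hz).continuousWithinAt, fun z hz =>
    ((h.dY z (hOK hz)).hasDerivAt (mem_of_superset (hO.mem_nhds hz) hOK)).differentiableAt.differentiableWithinAt⟩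

theorem IsSol.niceE {m : ℕ} {G : Bl m} {F : ℂ → V m} {K O : Set ℂ} {Y : ℂ → V m} {E : ℂ → ℂ}
    (h : IsSol G F K Y E) (hO : IsOpen O) (hOK : O ⊆ K) : Nice K O E :=
  ⟨fun z hz => (h.dE z hz).continuousWithinAt, fun z hz =>
    ((h.dE z (hOK hz)).hasDerivAt (mem_of_superset (hO.mem_nhds hz) hOK)).differentiableAt.differentiableWithinAt⟩

end Stek.Sv
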