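import Pool.Agent.H.MP_fc2485_gt.Sv.OdeU
import Pool.Agent.H.MP_fc2485_gt.Sv.Grad
import Pool.Agent.H.MP_fc2485_gt.Sv.Trans
import Pool.Agent.H.MP_fc2485_gt.Sv.Uniq

/-!
Links between cells in coordinates.
-/

set_option maxSynthPendingDepth 3
set_option linter.unusedVariables false

open Set Filter Topology InnerProductSpace
open scoped ContDiff

namespace Stek.Sv

open Stek Surface GCell

variable {S : Type*} [TopologicalSpace S] {M : Surface S} {σ : ℝ} {m : ℕ} {e : Fin m → S → ℝ}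
  {G : Bl m}

/-- the points of the open rectangle of a cell are interior points -/
theorem link_im_pos (c : GCell M e G) {z : ℂ} (hz : z ∈ c.O) : 0 < z.im := by
  have h1 : (⟨c.a, c.c⟩ : ℂ) ∈ c.φ.map.target :=
    c.sub ⟨le_rfl, c.hab.le, le_rfl, c.hcd.le⟩
  rw [c.φ.target_eq] at h1
  have h2 : 0 ≤ c.c := h1.2
  exact lt_of_le_of_lt h2 hz.2.2.1

theorem link_K_nhds (c : GCell M e G) {z : ℂ} (hz : z ∈ c.O) : c.K ∈ 𝓝 z :=
  mem_of_superset ((isOpen_RectI c.a c.b c.c c.d).mem_nhds hz) (RectI_sub c.a c.b c.c c.d)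

/-- a link in coordinates: the change of charts `T` carries one solution to the other -/
theorem link_germ (H : Ctx M σ e G) {c c' : GCell M e G} {x : S} (h : c.LinkAt c' x) :
    ∃ r, TData c.φ c'.φ x (fun z => c'.φ.map (c.φ.map.symm z)) r ∧
      ∀ z ∈ Metric.ball (c.φ.map x) r, z ∈ c.O ∧ c'.φ.map (c.φ.map.symm z) ∈ c'.O ∧
        c.Y z = c'.Y (c'.φ.map (c.φ.map.symm z)) ∧
        c.E z = c'.E (c'.φ.map (c.φ.map.symm z)) ∧
        Fv c.φ e 0 z = deriv (fun z => c'.φ.map (c.φ.map.symm z)) z •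
          Fv c'.φ e 0 (c'.φ.map (c.φ.map.symm z)) := by
  obtain ⟨h1, h2, h3, h4, h5, h6, h7⟩ := h
  obtain ⟨r, hT, hr⟩ := exists_TData c.hφ c'.hφ h1 h2 (link_im_pos c h3) h7
    ((isOpen_RectI c.a c.b c.c c.d).mem_nhds h3) ((isOpen_RectI c'.a c'.b c'.c c'.d).mem_nhds h4)
  set T : ℂ → ℂ := fun z => c'.φ.map (c.φ.map.symm z) with hTdef
  set B : Set ℂ := Metric.ball (c.φ.map x) r with hB
  have hF : ∀ z ∈ B, Fv c.φ e 0 z = deriv T z • Fv c'.φ e 0 (T z) := fun z hz =>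
    Fv_trans H.mem c.hφ c'.hφ hT hz
  have hcont : ContinuousOn (Fv c.φ e 0) B := by
    intro z hz
    have hzO := (hr z hz).1
    have h8 := hasDerivAt_Fv H.mem c.hφ 0 (hT.eq z hz).1 (link_im_pos c hzO)
    exact h8.continuousAt.continuousWithinAt
  have hTd : ∀ z ∈ B, HasDerivAt T (deriv T z) z := fun z hz =>
    (hT.holo.differentiableAt (Metric.isOpen_ball.mem_nhds hz)).hasDerivAt
  have hsol : IsSol G (Fv c.φ e 0) B c.Y c.E :=
    c.sol.mono fun z hz => RectI_sub _ _ _ _ (hr z hz).1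
  have hsol' : IsSol G (Fv c.φ e 0) B (fun z => c'.Y (T z)) (fun z => c'.E (T z)) := by
    refine ⟨fun z hz => ?_, fun z hz => ?_⟩
    · have hz' := (hr z hz).2
      have h8 : HasDerivAt c'.Y (c'.E (T z) • Fv c'.φ e 0 (T z)) (T z) :=
        (c'.sol.dY (T z) (RectI_sub _ _ _ _ hz')).hasDerivAt (link_K_nhds c' hz')
      have h9 := h8.scomp z (hTd z hz)
      refine h9.hasDerivWithinAt.congr_deriv ?_
      rw [hF z hz, smul_comm]
    · have hz' := (hr z hz).2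
      have h8 : HasDerivAt c'.E (G (c'.Y (T z)) (Fv c'.φ e 0 (T z))) (T z) :=
        (c'.sol.dE (T z) (RectI_sub _ _ _ _ hz')).hasDerivAt (link_K_nhds c' hz')
      have h9 := h8.scomp z (hTd z hz)
      refine h9.hasDerivWithinAt.congr_deriv ?_
      rw [hF z hz, map_smul]
  have hx : c.φ.map x ∈ B := Metric.mem_ball_self hT.hr
  have hun := ode_unique (convex_ball _ _) hcont hsol hsol' hx
    (by rw [hT.val, h5]) (by rw [hT.val, h6])
  exact ⟨r, hT, fun z hz => ⟨(hr z hz).1, (hr z hz).2, (hun z hz).1, (hun z hz).2, hF z hz⟩⟩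

theorem link_symm (H : Ctx M σ e G) {c c' : GCell M e G} {x : S} (h : c.LinkAt c' x) :
    c'.LinkAt c x := by
  obtain ⟨h1, h2, h3, h4, h5, h6, h7⟩ := h
  exact ⟨h2, h1, h4, h3, h5.symm, h6.symm,
    trans_symm c.hφ c'.hφ h1 h2 (link_im_pos c h3) h7⟩

end Stek.Sv
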