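import Mathlib

/-!
Auxiliary lemmas for the local lemma of case B: the combinatorial lemma on the antidiagonal entries
and the linear algebra of anti-triangular Gram matrices.
-/

open Finset

namespace Stek.Sv

private theorem locB_flip {n : ℕ} (c : ℕ → ℂ) (hs : ∀ i ≤ n, c (n - i) = c i) (g : ℕ → ℂ) :
    2 * ∑ i ∈ range (n + 1), c i * g i = ∑ i ∈ range (n + 1), c i * (g i + g (n - i)) := by
  have h1 : ∑ i ∈ range (n + 1), c i * g (n - i) = ∑ i ∈ range (n + 1), c i * g i := by
    rw [← Finset.sum_range_reflect]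
    apply Finset.sum_congr rfl
    intro i hi
    have hi' : i ≤ n := by simpa [Nat.lt_succ_iff] using hi
    have e1 : n + 1 - 1 - i = n - i := by omega
    rw [e1, hs i hi', Nat.sub_sub_self hi']
  simp only [mul_add, Finset.sum_add_distrib, h1]
  ring

/-- the product `i (n - i)` -/
private noncomputable def locB_P (n i : ℕ) : ℂ := (i : ℂ) * ((n : ℂ) - i)

private theorem locB_P_cast {n i : ℕ} (h : i ≤ n) : locB_P n i = ((i * (n - i) : ℕ) : ℂ) := by
  unfold locB_P
  push_cast [Nat.cast_sub h]
  ring

private theorem locB_P_add_ne {n i : ℕ} (h : i ≤ n) (A : ℕ) (hA : 0 < A) :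
    locB_P n i + (A : ℂ) ≠ 0 := by
  rw [locB_P_cast h, ← Nat.cast_add]
  exact Nat.cast_ne_zero.mpr (by omega)

private theorem locB_P_eq {n i j : ℕ} (hi : i ≤ n) (hj : j ≤ n) (h : locB_P n i = locB_P n j) :
    i = j ∨ i = n - j := by
  have h1 : ((i : ℂ) - j) * ((n : ℂ) - i - j) = 0 := by
    unfold locB_P at h
    linear_combination h
  rcases mul_eq_zero.mp h1 with h2 | h2
  · left
    have : (i : ℂ) = j := by linear_combination h2
    exact_mod_cast this
  · right
    have : ((i + j : ℕ) : ℂ) = (n : ℕ) := by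
      push_cast
      linear_combination -h2
    have h3 : i + j = n := by exact_mod_cast this
    omega

private theorem locB_P_flip {n i : ℕ} (hi : i ≤ n) : locB_P n (n - i) = locB_P n i := by
  unfold locB_P
  push_cast [Nat.cast_sub hi]
  ring

private theorem locB_orbits {n k : ℕ} (c r : ℕ → ℂ) (hs : ∀ i ≤ n, c (n - i) = c i)
    (hr : ∀ i ≤ n, r i ≠ 0) (hrs : ∀ i ≤ n, r (n - i) = r i)
    (H : ∀ T : Finset ℂ, T.card < k →
      ∑ i ∈ range (n + 1), c i * ((∏ τ ∈ T, (locB_P n i - τ)) * r i) = 0)
    (hne : ∃ i ≤ n, c i ≠ 0) :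
    k + 1 ≤ (((range (n + 1)).filter fun i => c i ≠ 0).image (locB_P n)).card := by
  classical
  by_contra hlt
  push Not at hlt
  set S := (range (n + 1)).filter fun i => c i ≠ 0 with hS
  set T := S.image (locB_P n) with hT
  obtain ⟨j, hj, hcj⟩ := hne
  have hjS : j ∈ S := by simp [hS, hcj, Nat.lt_succ_iff, hj]
  have hjT : locB_P n j ∈ T := mem_image_of_mem _ hjS
  have hcard : (T.erase (locB_P n j)).card < k := by
    rw [card_erase_of_mem hjT]
    have : 0 < T.card := card_pos.mpr ⟨_, hjT⟩
    omega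
  have h0 := H _ hcard
  set h : ℂ → ℂ := fun p => ∏ τ ∈ T.erase (locB_P n j), (p - τ) with hh
  have hhj : h (locB_P n j) ≠ 0 := by
    rw [hh]
    simp only
    rw [prod_ne_zero_iff]
    intro τ hτ
    rw [sub_ne_zero]
    exact (ne_of_mem_erase hτ).symm
  have h1 : ∀ i ∈ range (n + 1), c i * ((∏ τ ∈ T.erase (locB_P n j), (locB_P n i - τ)) * r i) =
      if (i = j ∨ i = n - j) then c j * (h (locB_P n j) * r j) else 0 := by
    intro i hi
    have hi' : i ≤ n := by simpa [Nat.lt_succ_iff] using hi
    split_ifs with hij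
    · rcases hij with rfl | rfl
      · rfl
      · rw [hs j hj, locB_P_flip hj, hrs j hj]
    · by_cases hci : c i = 0
      · simp [hci]
      · have hiS : i ∈ S := by simp [hS, hci, Nat.lt_succ_iff, hi']
        have hne : locB_P n i ≠ locB_P n j := fun h => hij (locB_P_eq hi' hj h)
        have : (∏ τ ∈ T.erase (locB_P n j), (locB_P n i - τ)) = 0 :=
          prod_eq_zero (i := locB_P n i)
            (mem_erase.mpr ⟨hne, mem_image_of_mem _ hiS⟩) (sub_self _)
        simp [this]
  rw [sum_congr rfl h1, ← sum_filter, sum_const, nsmul_eq_mul] at h0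
  have hX : c j * (h (locB_P n j) * r j) ≠ 0 :=
    mul_ne_zero hcj (mul_ne_zero hhj (hr j hj))
  rcases mul_eq_zero.mp h0 with h2 | h2
  · have h3 : (filter (fun a => a = j ∨ a = n - j) (range (n + 1))).card = 0 := by exact_mod_cast h2
    rw [card_eq_zero] at h3
    have : j ∈ filter (fun a => a = j ∨ a = n - j) (range (n + 1)) := by
      simp [Nat.lt_succ_iff, hj]
    rw [h3] at this
    simp at this
  · exact hX h2

private theorem locB_card {n : ℕ} (c : ℕ → ℂ) (hs : ∀ i ≤ n, c (n - i) = c i) :
    2 * (((range (n + 1)).filter fun i => c i ≠ 0).image (locB_P n)).card ≤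
      ((range (n + 1)).filter fun i => c i ≠ 0).card + 1 := by
  classical
  set S := (range (n + 1)).filter fun i => c i ≠ 0 with hS
  have h1 : S.card = ∑ t ∈ S.image (locB_P n), (S.filter fun i => locB_P n i = t).card :=
    card_eq_sum_card_image _ _
  have h2 : ∀ t ∈ S.image (locB_P n),
      2 ≤ (S.filter fun i => locB_P n i = t).card +
        (if t = locB_P n (n / 2) then 1 else 0) := by
    intro t ht
    obtain ⟨j, hj, rfl⟩ := mem_image.mp ht
    have hj' : j ≤ n ∧ c j ≠ 0 := by simpa [hS, Nat.lt_succ_iff] using hj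
    have hjm : j ∈ S.filter fun i => locB_P n i = locB_P n j := by simp [hj]
    have hjf : n - j ∈ S.filter fun i => locB_P n i = locB_P n j := by
      rw [mem_filter]
      refine ⟨?_, locB_P_flip hj'.1⟩
      simp only [hS, mem_filter, mem_range]
      exact ⟨by omega, by rw [hs j hj'.1]; exact hj'.2⟩
    by_cases hjn : j = n - j
    · have : n / 2 = j := by omega
      rw [this, if_pos rfl]
      have : 1 ≤ (S.filter fun i => locB_P n i = locB_P n j).card := card_pos.mpr ⟨_, hjm⟩
      omega
    · have hsub : ({j, n - j} : Finset ℕ) ⊆ S.filter fun i => locB_P n i = locB_P n j := by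
        intro x hx
        rcases mem_insert.mp hx with rfl | hx
        · exact hjm
        · rw [mem_singleton.mp hx]
          exact hjf
      have : 2 ≤ (S.filter fun i => locB_P n i = locB_P n j).card := by
        calc 2 = ({j, n - j} : Finset ℕ).card := (card_pair hjn).symm
          _ ≤ _ := card_le_card hsub
      omega
  have h3 : 2 * (S.image (locB_P n)).card ≤
      ∑ t ∈ S.image (locB_P n), ((S.filter fun i => locB_P n i = t).card +
        (if t = locB_P n (n / 2) then 1 else 0)) := by
    calc 2 * (S.image (locB_P n)).card = ∑ _t ∈ S.image (locB_P n), 2 := by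
          rw [sum_const]; simp [mul_comm]
      _ ≤ _ := sum_le_sum h2
  rw [sum_add_distrib, ← h1] at h3
  have h4 : ∑ t ∈ S.image (locB_P n), (if t = locB_P n (n / 2) then 1 else 0) ≤ 1 := by
    rw [sum_ite_eq']
    split_ifs <;> simp
  omega

/-- the combinatorial lemma: at least five non-zero entries, at least seven if `κ = 0` -/
theorem locB_comb {n : ℕ} (c : ℕ → ℂ) (hs : ∀ i ≤ n, c (n - i) = c i)
    (h0 : ∑ i ∈ range (n + 1), c i = 0)
    (h2 : ∑ i ∈ range (n + 1), c i * (1 / ((i : ℂ) + 2)) = 0) (hne : ∃ i ≤ n, c i ≠ 0) :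
    5 ≤ ((range (n + 1)).filter fun i => c i ≠ 0).card ∧
      (∑ i ∈ range (n + 1), c i * (1 / ((i : ℂ) + 1)) = 0 →
        7 ≤ ((range (n + 1)).filter fun i => c i ≠ 0).card) := by
  classical
  have hA0 : ∀ i ≤ n, locB_P n i + ((2 * n + 4 : ℕ) : ℂ) ≠ 0 := fun i hi =>
    locB_P_add_ne hi _ (by omega)
  have hB0 : ∀ i ≤ n, locB_P n i + ((n + 1 : ℕ) : ℂ) ≠ 0 := fun i hi =>
    locB_P_add_ne hi _ (by omega)
  have hle : ∀ i ∈ range (n + 1), i ≤ n := fun i hi => by simpa [Nat.lt_succ_iff] using hi
  -- the second sum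
  have hA : ∑ i ∈ range (n + 1), c i * (1 / (locB_P n i + ((2 * n + 4 : ℕ) : ℂ))) = 0 := by
    have h3 := locB_flip c hs (fun i => 1 / ((i : ℂ) + 2))
    rw [h2, mul_zero] at h3
    have h4 : ∀ i ∈ range (n + 1), c i * ((fun i : ℕ => 1 / ((i : ℂ) + 2)) i +
        (fun i : ℕ => 1 / ((i : ℂ) + 2)) (n - i)) =
        ((n : ℂ) + 4) * (c i * (1 / (locB_P n i + ((2 * n + 4 : ℕ) : ℂ)))) := by
      intro i hi
      have hi' := hle i hi
      have e0 := hA0 i hi'
      have e1 : (i : ℂ) + 2 ≠ 0 := by
        have : ((i + 2 : ℕ) : ℂ) ≠ 0 := Nat.cast_ne_zero.mpr (by omega)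
        push_cast at this
        exact this
      have e2 : ((n - i : ℕ) : ℂ) + 2 ≠ 0 := by
        have : ((n - i + 2 : ℕ) : ℂ) ≠ 0 := Nat.cast_ne_zero.mpr (by omega)
        rw [Nat.cast_add] at this
        exact this
      have e3 : ((n - i : ℕ) : ℂ) = (n : ℂ) - i := by
        push_cast [Nat.cast_sub hi']
        ring
      simp only
      rw [e3] at e2 ⊢
      unfold locB_P at e0 ⊢
      push_cast at e0 ⊢
      field_simp
      ring
    rw [sum_congr rfl h4, ← mul_sum] at h3
    have h5 : ((n : ℂ) + 4) ≠ 0 := by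
      have : ((n + 4 : ℕ) : ℂ) ≠ 0 := Nat.cast_ne_zero.mpr (by omega)
      push_cast at this
      exact this
    exact (mul_eq_zero.mp h3.symm).resolve_left h5
  have hcard := locB_card c hs
  constructor
  · have := locB_orbits (k := 2) c (fun i => 1 / (locB_P n i + ((2 * n + 4 : ℕ) : ℂ))) hs
      (fun i hi => one_div_ne_zero (hA0 i hi)) (fun i hi => by simp only [locB_P_flip hi]) ?_ hne
    · omega
    · intro T hT
      rcases Nat.lt_or_ge T.card 1 with hT0 | hT1
      · have : T = ∅ := card_eq_zero.mp (by omega)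
        subst this
        simpa using hA
      · obtain ⟨τ, rfl⟩ := card_eq_one.mp (show T.card = 1 by omega)
        have h4 : ∀ i ∈ range (n + 1), c i * ((∏ τ ∈ {τ}, (locB_P n i - τ)) *
            (1 / (locB_P n i + ((2 * n + 4 : ℕ) : ℂ)))) =
            c i - (((2 * n + 4 : ℕ) : ℂ) + τ) *
              (c i * (1 / (locB_P n i + ((2 * n + 4 : ℕ) : ℂ)))) := by
          intro i hi
          have e0 := hA0 i (hle i hi)
          rw [prod_singleton]
          field_simp
          ring
        rw [sum_congr rfl h4, sum_sub_distrib, ← mul_sum, hA, h0]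
        simp
  · intro h1
    have hB : ∑ i ∈ range (n + 1), c i * (1 / (locB_P n i + ((n + 1 : ℕ) : ℂ))) = 0 := by
      have h3 := locB_flip c hs (fun i => 1 / ((i : ℂ) + 1))
      rw [h1, mul_zero] at h3
      have h4 : ∀ i ∈ range (n + 1), c i * ((fun i : ℕ => 1 / ((i : ℂ) + 1)) i +
          (fun i : ℕ => 1 / ((i : ℂ) + 1)) (n - i)) =
          ((n : ℂ) + 2) * (c i * (1 / (locB_P n i + ((n + 1 : ℕ) : ℂ)))) := by
        intro i hi
        have hi' := hle i hi
        have e0 := hB0 i hi'
        have e1 : (i : ℂ) + 1 ≠ 0 := by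
          have : ((i + 1 : ℕ) : ℂ) ≠ 0 := Nat.cast_ne_zero.mpr (by omega)
          push_cast at this
          exact this
        have e2 : ((n - i : ℕ) : ℂ) + 1 ≠ 0 := by
          have : ((n - i + 1 : ℕ) : ℂ) ≠ 0 := Nat.cast_ne_zero.mpr (by omega)
          rw [Nat.cast_add, Nat.cast_one] at this
          exact this
        have e3 : ((n - i : ℕ) : ℂ) = (n : ℂ) - i := by
          push_cast [Nat.cast_sub hi']
          ring
        simp only
        rw [e3] at e2 ⊢
        unfold locB_P at e0 ⊢
        push_cast at e0 ⊢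
        field_simp
        ring
      rw [sum_congr rfl h4, ← mul_sum] at h3
      have h5 : ((n : ℂ) + 2) ≠ 0 := by
        have : ((n + 2 : ℕ) : ℂ) ≠ 0 := Nat.cast_ne_zero.mpr (by omega)
        push_cast at this
        exact this
      exact (mul_eq_zero.mp h3.symm).resolve_left h5
    set A : ℂ := ((2 * n + 4 : ℕ) : ℂ) with hAdef
    set B : ℂ := ((n + 1 : ℕ) : ℂ) with hBdef
    set r : ℕ → ℂ := fun i => 1 / ((locB_P n i + A) * (locB_P n i + B)) with hr
    have hAB : A - B ≠ 0 := by
      have : ((n + 3 : ℕ) : ℂ) ≠ 0 := Nat.cast_ne_zero.mpr (by omega)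
      have e : A - B = ((n + 3 : ℕ) : ℂ) := by
        rw [hAdef, hBdef]
        push_cast
        ring
      rw [e]
      exact this
    -- sums of `c r`, `c (P - τ) r`, `c (P - τ) (P - τ') r`
    have s0 : ∑ i ∈ range (n + 1), c i * r i = 0 := by
      have h4 : ∀ i ∈ range (n + 1), (A - B) * (c i * r i) =
          c i * (1 / (locB_P n i + B)) - c i * (1 / (locB_P n i + A)) := by
        intro i hi
        have e0 := hA0 i (hle i hi)
        have e1 := hB0 i (hle i hi)
        rw [hr]
        simp only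
        field_simp
        ring
      have : (A - B) * ∑ i ∈ range (n + 1), c i * r i = 0 := by
        rw [mul_sum, sum_congr rfl h4, sum_sub_distrib, hA, hB, sub_zero]
      exact (mul_eq_zero.mp this).resolve_left hAB
    have s1 : ∀ τ, ∑ i ∈ range (n + 1), c i * ((locB_P n i - τ) * r i) = 0 := by
      intro τ
      have h4 : ∀ i ∈ range (n + 1), c i * ((locB_P n i - τ) * r i) =
          c i * (1 / (locB_P n i + B)) - (A + τ) * (c i * r i) := by
        intro i hi
        have e0 := hA0 i (hle i hi)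
        have e1 := hB0 i (hle i hi)
        rw [hr]
        simp only
        field_simp
        ring
      rw [sum_congr rfl h4, sum_sub_distrib, ← mul_sum, hB, s0]
      simp
    have s2 : ∀ τ τ', ∑ i ∈ range (n + 1),
        c i * (((locB_P n i - τ) * (locB_P n i - τ')) * r i) = 0 := by
      intro τ τ'
      have h4 : ∀ i ∈ range (n + 1), c i * (((locB_P n i - τ) * (locB_P n i - τ')) * r i) =
          (c i - (B + τ) * (c i * (1 / (locB_P n i + B)))) -
            (A + τ') * (c i * ((locB_P n i - τ) * r i)) := by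
        intro i hi
        have e0 := hA0 i (hle i hi)
        have e1 := hB0 i (hle i hi)
        rw [hr]
        simp only
        field_simp
        ring
      rw [sum_congr rfl h4, sum_sub_distrib, sum_sub_distrib, ← mul_sum, ← mul_sum, hB, s1, h0]
      simp
    have := locB_orbits (k := 3) c r hs
      (fun i hi => one_div_ne_zero (mul_ne_zero (hA0 i hi) (hB0 i hi)))
      (fun i hi => by simp only [hr, locB_P_flip hi]) ?_ hne
    · omega
    · intro T hT
      rcases Nat.lt_or_ge T.card 1 with hT0 | hT1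
      · have : T = ∅ := card_eq_zero.mp (by omega)
        subst this
        simpa using s0
      · rcases Nat.lt_or_ge T.card 2 with hT2 | hT2
        · obtain ⟨τ, rfl⟩ := card_eq_one.mp (show T.card = 1 by omega)
          simpa using s1 τ
        · obtain ⟨τ, τ', hne', rfl⟩ := card_eq_two.mp (show T.card = 2 by omega)
          have := s2 τ τ'
          simpa [prod_pair hne'] using this

/-- the vectors of an anti-triangular Gram matrix with non-zero antidiagonal entries are
independent modulo the radical -/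
theorem locB_lin {m N : ℕ} (Q : (Fin m → ℂ) →L[ℂ] (Fin m → ℂ) →L[ℂ] ℂ) (w : ℕ → Fin m → ℂ)
    (hlow : ∀ a b, a + b < N → Q (w a) (w b) = 0) (A : Finset ℕ)
    (hA : ∀ a ∈ A, a ≤ N ∧ Q (w a) (w (N - a)) ≠ 0) {Z : Fin m → ℂ} (hZ0 : Z ≠ 0)
    (hZ : Q Z = 0) : A.card + 1 ≤ m := by
  classical
  have hli : LinearIndependent ℂ (fun a : A => Q (w a)) := by
    rw [Fintype.linearIndependent_iff]
    intro x hx
    by_contra hcon
    push Not at hcon
    have hne : (Finset.univ.filter fun a : A => x a ≠ 0).Nonempty := by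
      obtain ⟨a, ha⟩ := hcon
      exact ⟨a, by simp [ha]⟩
    obtain ⟨a0, ha0, hmax⟩ := Finset.exists_max_image _ (fun a : A => (a : ℕ)) hne
    have hx0 : x a0 ≠ 0 := (Finset.mem_filter.mp ha0).2
    have h1 := congrArg (fun ξ : (Fin m → ℂ) →L[ℂ] ℂ => ξ (w (N - a0))) hx
    simp only [_root_.sum_apply, _root_.smul_apply,
      _root_.zero_apply, smul_eq_mul] at h1
    rw [Finset.sum_eq_single a0] at h1
    · exact (mul_ne_zero hx0 (hA a0 a0.2).2) h1
    · intro b _ hb
      by_cases hxb : x b = 0
      · simp [hxb]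
      · have hle := hmax b (by simp [hxb])
        have hlt : (b : ℕ) < a0 := lt_of_le_of_ne hle (fun h => hb (Subtype.ext h))
        have h2 := (hA a0 a0.2).1
        rw [hlow b (N - a0) (by omega), mul_zero]
    · intro h
      exact absurd (Finset.mem_univ _) h
  set L : (Fin m → ℂ) →ₗ[ℂ] ((Fin m → ℂ) →L[ℂ] ℂ) := Q.toLinearMap with hL
  have h1 : A.card ≤ Module.finrank ℂ (LinearMap.range L) := by
    have hli' : LinearIndependent ℂ (fun a : A => (⟨Q (w a), ⟨w a, rfl⟩⟩ : LinearMap.range L)) := by
      apply LinearIndependent.of_comp (LinearMap.range L).subtype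
      exact hli
    have := hli'.fintype_card_le_finrank
    simpa using this
  have h2 := LinearMap.finrank_range_add_finrank_ker L
  have h3 : 1 ≤ Module.finrank ℂ (LinearMap.ker L) := by
    have hZk : Z ∈ LinearMap.ker L := by
      rw [LinearMap.mem_ker]
      exact hZ
    by_contra hcon
    have h0 : Module.finrank ℂ (LinearMap.ker L) = 0 := by omega
    rw [Submodule.finrank_eq_zero] at h0
    rw [h0] at hZk
    exact hZ0 ((Submodule.mem_bot ℂ).mp hZk)
  have h4 : Module.finrank ℂ (Fin m → ℂ) = m := by simp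
  omega

end Stek.Sv
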