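import Pool.Agent.H.MP_fc2485_gt.Sv.Defs

/-!
A non-trivial kernel is preserved by continuation. (Proof: if `L x y` is injective, choose a left
inverse `T : R → W`; the determinant of `T ∘ L x y` is nice in each variable, vanishes on
`A × A'`, hence on `K × A'`, hence on `K × K'`.)
-/

set_option maxSynthPendingDepth 3

open Set Filter Topology

namespace Stek.Sv

/-- a determinant is nice if the entries are -/
theorem nc_det {W R : Type*} [AddCommGroup W] [Module ℂ W] [FiniteDimensional ℂ W]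
    [AddCommGroup R] [Module ℂ R] {K O : Set ℂ} (L : ℂ → W →ₗ[ℂ] R) (T : R →ₗ[ℂ] W)
    (h : ∀ (w : W) (l : R →ₗ[ℂ] ℂ), Nice K O (fun x => l (L x w))) :
    Nice K O (fun x => LinearMap.det (T ∘ₗ L x)) := by
  classical
  let b := Module.finBasis ℂ W
  have h1 : ∀ x, LinearMap.det (T ∘ₗ L x) = ∑ s : Equiv.Perm (Fin (Module.finrank ℂ W)),
      ((Equiv.Perm.sign s : ℤ) : ℂ) * ∏ i, (b.coord (s i) ∘ₗ T) (L x (b i)) := by
    intro x
    rw [← LinearMap.det_toMatrix b, Matrix.det_apply']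
    simp only [LinearMap.toMatrix_apply, LinearMap.comp_apply, Module.Basis.coord_apply]
  have h2 : (fun x => LinearMap.det (T ∘ₗ L x)) = fun x =>
      ∑ s : Equiv.Perm (Fin (Module.finrank ℂ W)),
      ((Equiv.Perm.sign s : ℤ) : ℂ) * ∏ i, (b.coord (s i) ∘ₗ T) (L x (b i)) := funext h1
  rw [h2]
  refine ⟨?_, ?_⟩
  · apply continuousOn_finsetSum
    intro s _
    apply continuousOn_const.mul
    apply continuousOn_finsetProd
    intro i _
    exact (h (b i) (b.coord (s i) ∘ₗ T)).cont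
  · apply DifferentiableOn.fun_sum
    intro s _
    apply (differentiableOn_const _).mul
    apply DifferentiableOn.fun_finsetProd
    intro i _
    exact (h (b i) (b.coord (s i) ∘ₗ T)).holo

theorem nc {W R : Type*} [AddCommGroup W] [Module ℂ W] [FiniteDimensional ℂ W] [AddCommGroup R]
    [Module ℂ R] [FiniteDimensional ℂ R] {K O A K' O' A' : Set ℂ} (hA : Uniq K O A)
    (hA' : Uniq K' O' A') (L : ℂ → ℂ → W →ₗ[ℂ] R)
    (h1 : ∀ y ∈ K', ∀ (w : W) (l : R →ₗ[ℂ] ℂ), Nice K O (fun x => l (L x y w)))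
    (h2 : ∀ x ∈ K, ∀ (w : W) (l : R →ₗ[ℂ] ℂ), Nice K' O' (fun y => l (L x y w)))
    (h : ∀ x ∈ A, ∀ y ∈ A', ∃ w, w ≠ 0 ∧ L x y w = 0) :
    ∀ x ∈ K, ∀ y ∈ K', ∃ w, w ≠ 0 ∧ L x y w = 0 := by
  intro x0 hx0 y0 hy0
  by_contra hcon
  push Not at hcon
  have hker : LinearMap.ker (L x0 y0) = ⊥ := by
    rw [LinearMap.ker_eq_bot']
    intro w hw
    by_contra hw0
    exact hcon w hw0 hw
  obtain ⟨T, hT⟩ := LinearMap.exists_leftInverse_of_injective _ hker
  have hz1 : ∀ x ∈ A, ∀ y ∈ A', LinearMap.det (T ∘ₗ L x y) = 0 := by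
    intro x hx y hy
    obtain ⟨w, hw, hw0⟩ := h x hx y hy
    rw [LinearMap.det_eq_zero_iff_ker_ne_bot]
    intro hbot
    apply hw
    rw [LinearMap.ker_eq_bot'] at hbot
    apply hbot
    rw [LinearMap.comp_apply, hw0, map_zero]
  have hz2 : ∀ x ∈ K, ∀ y ∈ A', LinearMap.det (T ∘ₗ L x y) = 0 := by
    intro x hx y hy
    exact hA.2 _ (nc_det (fun x => L x y) T (h1 y (hA'.1 hy))) (fun x hx => hz1 x hx y hy) x hx
  have hz3 : LinearMap.det (T ∘ₗ L x0 y0) = 0 :=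
    hA'.2 _ (nc_det (fun y => L x0 y) T (h2 x0 hx0)) (fun y hy => hz2 x0 hx0 y hy) y0 hy0
  rw [hT, LinearMap.det_id] at hz3
  exact one_ne_zero hz3

end Stek.Sv
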