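import Pool.Agent.H.MP_fc2485_gt.Sv.Red
import Pool.Agent.H.MP_fc2485_gt.Sv.Comp
import Pool.Agent.H.MP_fc2485_gt.Sv.Trans
import Pool.Agent.H.MP_fc2485_gt.Sv.Uniq

/-!
No vector is orthogonal to the complex gradient for all forms.
-/

set_option maxSynthPendingDepth 3

open Set Filter Topology InnerProductSpace
open scoped ContDiff

namespace Stek.Sv

open Stek Surface

variable {S : Type*} [TopologicalSpace S]

/-- the property near a point of a chart -/
private def NP (M : Surface S) {m : ℕ} (e : Fin m → S → ℝ) (D : V m) (φ : Chart S) (z : ℂ) :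
    Prop :=
  ∀ᶠ w in 𝓝[φ.map.target] z, ∀ Q, InK M e Q → Q D (Fv φ e 0 w) = 0

/-- change of charts -/
private theorem nd_trans {M : Surface S} {σ : ℝ} {m : ℕ} {e : Fin m → S → ℝ}
    (he : ∀ i, M.IsSteklov σ (e i)) {D : V m} {φ ψ : Chart S} (hφ : φ ∈ M.charts)
    (hψ : ψ ∈ M.charts) {y : S} (h1 : y ∈ φ.map.source) (h2 : y ∈ ψ.map.source)
    (hi : 0 < (φ.map y).im)
    (hh : ∀ᶠ z in 𝓝 (φ.map y), DifferentiableAt ℂ (fun z => ψ.map (φ.map.symm z)) z)
    (hP : NP M e D φ (φ.map y)) : NP M e D ψ (ψ.map y) := by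
  have hN : {z : ℂ | z ∈ φ.map.target → ∀ Q, InK M e Q → Q D (Fv φ e 0 z) = 0} ∈
      𝓝 (φ.map y) := by
    have h3 := hP
    unfold NP at h3
    rw [eventually_nhdsWithin_iff] at h3
    exact h3
  obtain ⟨r, hT, hr⟩ := exists_TData hφ hψ h1 h2 hi hh hN univ_mem
  have ht1 : Tendsto ψ.map.symm (𝓝[ψ.map.target] (ψ.map y)) (𝓝 y) := by
    have := ψ.cont_symm (ψ.map y) (ψ.map.map_source h2)
    have h4 := this.tendsto
    rwa [ψ.map.left_inv h2] at h4
  have ht2 : ContinuousAt φ.map y := φ.cont.continuousAt (φ.source_open.mem_nhds h1)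
  have ht3 : Tendsto (fun w => φ.map (ψ.map.symm w)) (𝓝[ψ.map.target] (ψ.map y))
      (𝓝 (φ.map y)) := ht2.tendsto.comp ht1
  have e1 : ∀ᶠ w in 𝓝[ψ.map.target] (ψ.map y), ψ.map.symm w ∈ φ.map.source :=
    ht1.eventually (φ.source_open.mem_nhds h1)
  have e2 : ∀ᶠ w in 𝓝[ψ.map.target] (ψ.map y),
      φ.map (ψ.map.symm w) ∈ Metric.ball (φ.map y) r :=
    ht3.eventually (Metric.ball_mem_nhds _ hT.hr)
  have e3 : ∀ᶠ w in 𝓝[ψ.map.target] (ψ.map y), w ∈ ψ.map.target := self_mem_nhdsWithin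
  unfold NP
  filter_upwards [e1, e2, e3] with w hw1 hw2 hw3 Q hQ
  have h5 := Fv_trans he hφ hψ hT hw2
  obtain ⟨h6, -, -, -, -, -, -⟩ := hT.eq _ hw2
  have h7 := (hr _ hw2).1 h6 Q hQ
  have h8 : ψ.map (φ.map.symm (φ.map (ψ.map.symm w))) = w := by
    rw [φ.map.left_inv hw1, ψ.map.right_inv hw3]
  have h5' : Fv φ e 0 (φ.map (ψ.map.symm w)) =
      deriv (fun z => ψ.map (φ.map.symm z)) (φ.map (ψ.map.symm w)) • Fv ψ e 0 w := by
    rw [h5]
    simp only [h8]
  rw [h5', map_smul, smul_eq_mul] at h7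
  exact (mul_eq_zero.mp h7).resolve_left (hT.ne _ hw2)

/-- identity theorem in a half disc -/
private theorem nd_local {M : Surface S} {σ : ℝ} {m : ℕ} {e : Fin m → S → ℝ}
    (he : ∀ i, M.IsSteklov σ (e i)) {D : V m} {ψ : Chart S} (hψ : ψ ∈ M.charts) {z0 : ℂ} {r : ℝ}
    (hr : 0 < r) (hsub : Metric.ball z0 r ⊆ ψ.dom) {w0 : ℂ} (hw0 : w0 ∈ Metric.ball z0 r)
    (hi : 0 < w0.im) (hP : NP M e D ψ w0) : NP M e D ψ z0 := by
  set B : Set ℂ := Metric.ball z0 r ∩ {z | 0 < z.im} with hB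
  have hBo : IsOpen B := Metric.isOpen_ball.inter
    (isOpen_lt continuous_const Complex.continuous_im)
  have hBt : B ⊆ ψ.map.target := by
    rw [ψ.target_eq]
    intro w hw
    have hw2 : 0 < w.im := hw.2
    exact ⟨hsub hw.1, hw2.le⟩
  have hBc : IsPreconnected B :=
    ((convex_ball _ _).inter (convex_halfSpace_im_gt 0)).isPreconnected
  have hpath : ∀ w : ℂ, Tendsto (fun t : ℝ => w + t * Complex.I) (𝓝[>] 0) (𝓝 w) := by
    intro w
    have hc : ContinuousAt (fun t : ℝ => w + t * Complex.I) 0 := by fun_prop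
    have := hc.tendsto
    simp only [Complex.ofReal_zero, zero_mul, add_zero] at this
    exact this.mono_left nhdsWithin_le_nhds
  have key : ∀ Q, InK M e Q → ∀ w ∈ Metric.ball z0 r, 0 ≤ w.im → Q D (Fv ψ e 0 w) = 0 := by
    intro Q hQ
    have hd : DifferentiableOn ℂ (fun w => Q D (Fv ψ e 0 w)) B := by
      intro w hw
      have h1 := hasDerivAt_Fv he hψ 0 (hBt hw) hw.2
      exact ((Q D).hasFDerivAt.comp_hasDerivAt w h1).differentiableAt.differentiableWithinAt
    have hmem : w0 ∈ B := ⟨hw0, hi⟩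
    have hev : (fun w => Q D (Fv ψ e 0 w)) =ᶠ[𝓝 w0] 0 := by
      have h3 := hP
      unfold NP at h3
      rw [nhdsWithin_eq_nhds.mpr (dom_nhds ψ (hBt hmem) hi)] at h3
      filter_upwards [h3] with w hw
      exact hw Q hQ
    have hBz := (hd.analyticOnNhd hBo).eqOn_zero_of_preconnected_of_eventuallyEq_zero hBc hmem hev
    intro w hw hwi
    have hwt : w ∈ ψ.map.target := by
      rw [ψ.target_eq]
      exact ⟨hsub hw, hwi⟩
    have hcw : ContinuousWithinAt (fun w => Q D (Fv ψ e 0 w)) ψ.map.target w :=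
      (Q D).continuous.continuousAt.comp_continuousWithinAt
        (hasDeriv_Fv he hψ 0 hwt).continuousWithinAt
    have hp : ∀ᶠ t : ℝ in 𝓝[>] 0, w + t * Complex.I ∈ B := by
      have h1 := (hpath w).eventually (Metric.isOpen_ball.mem_nhds hw)
      filter_upwards [h1, self_mem_nhdsWithin] with t ht1 ht2
      refine ⟨ht1, ?_⟩
      have : 0 < t := ht2
      simp
      linarith
    have hlim : Tendsto (fun t : ℝ => Q D (Fv ψ e 0 (w + t * Complex.I))) (𝓝[>] 0)
        (𝓝 (Q D (Fv ψ e 0 w))) := by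
      apply hcw.tendsto.comp
      rw [tendsto_nhdsWithin_iff]
      exact ⟨hpath w, hp.mono fun t ht => hBt ht⟩
    have hlim2 : Tendsto (fun t : ℝ => Q D (Fv ψ e 0 (w + t * Complex.I))) (𝓝[>] 0) (𝓝 0) := by
      apply tendsto_const_nhds.congr'
      filter_upwards [hp] with t ht
      exact (hBz ht).symm
    exact tendsto_nhds_unique hlim hlim2
  unfold NP
  filter_upwards [mem_nhdsWithin_of_mem_nhds (Metric.ball_mem_nhds z0 hr), self_mem_nhdsWithin]
    with w hw1 hw2 Q hQ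
  rw [ψ.target_eq] at hw2
  exact key Q hQ w hw1 hw2.2

private theorem tendsto_chart (φ : Chart S) {x : S} (hx : x ∈ φ.map.source) :
    Tendsto φ.map (𝓝 x) (𝓝[φ.map.target] (φ.map x)) := by
  rw [tendsto_nhdsWithin_iff]
  refine ⟨φ.cont.continuousAt (φ.source_open.mem_nhds hx), ?_⟩
  filter_upwards [φ.source_open.mem_nhds hx] with y hy
  exact φ.map.map_source hy

private theorem im_nonneg (φ : Chart S) {x : S} (hx : x ∈ φ.map.source) : 0 ≤ (φ.map x).im := by
  have h1 := φ.map.map_source hx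
  rw [φ.target_eq] at h1
  exact h1.2

/-- the property holds everywhere -/
private theorem nd_all [ConnectedSpace S] {M : Surface S} {σ : ℝ} {m : ℕ} {e : Fin m → S → ℝ}
    (he : ∀ i, M.IsSteklov σ (e i)) (hmir : MirC M) {D : V m} {φ0 : Chart S}
    (hφ0 : φ0 ∈ M.charts) {x0 : S} (hx0 : x0 ∈ φ0.map.source) (hP0 : NP M e D φ0 (φ0.map x0))
    (x : S) : ∃ φ ∈ M.charts, x ∈ φ.map.source ∧ NP M e D φ (φ.map x) := by
  set A : Set S := {x | ∃ φ ∈ M.charts, x ∈ φ.map.source ∧ NP M e D φ (φ.map x)} with hA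
  have hAo : IsOpen A := by
    rw [isOpen_iff_mem_nhds]
    rintro x ⟨φ, hφ, hxs, hP⟩
    have h1 : ∀ᶠ w in 𝓝[φ.map.target] (φ.map x), NP M e D φ w :=
      eventually_eventually_nhdsWithin.mpr hP
    filter_upwards [(tendsto_chart φ hxs).eventually h1, φ.source_open.mem_nhds hxs] with y hy1 hy2
    exact ⟨φ, hφ, hy2, hy1⟩
  have hAc : IsClosed A := by
    rw [← closure_subset_iff_isClosed]
    intro x hx
    obtain ⟨ψ, hψ, hxs⟩ := M.cover x
    obtain ⟨ψ', hψ', hm⟩ := hmir ψ hψ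
    have hxs' : x ∈ ψ'.map.source := by
      rw [hm.source]
      exact hxs
    have hball : ∀ χ : Chart S, x ∈ χ.map.source →
        ∃ r : ℝ, 0 < r ∧ Metric.ball (χ.map x) r ⊆ χ.dom := by
      intro χ hχ
      have hzt : χ.map x ∈ χ.map.target := χ.map.map_source hχ
      rw [χ.target_eq] at hzt
      exact Metric.isOpen_iff.mp χ.dom_open _ hzt.1
    obtain ⟨r, hr, hsub⟩ := hball ψ hxs
    obtain ⟨r', hr', hsub'⟩ := hball ψ' hxs'
    have hO : ∀ (χ : Chart S) (s : ℝ), x ∈ χ.map.source → 0 < s →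
        ∀ᶠ y in 𝓝 x, y ∈ χ.map.source ∧ χ.map y ∈ Metric.ball (χ.map x) s := by
      intro χ s hχ hs
      have h1 : ContinuousAt χ.map x := χ.cont.continuousAt (χ.source_open.mem_nhds hχ)
      exact (χ.source_open.eventually_mem hχ).and (h1 (Metric.ball_mem_nhds _ hs))
    have hN := ((hO ψ r hxs hr).and (hO ψ' r' hxs' hr'))
    obtain ⟨y, hyN, φ, hφ, hys, hyP⟩ :=
      mem_closure_iff_nhds.mp hx _ (eventually_eventually_nhds.mpr hN)
    -- an interior point
    have hyt : φ.map y ∈ φ.map.target := φ.map.map_source hys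
    have hcs : Tendsto φ.map.symm (𝓝[φ.map.target] (φ.map y)) (𝓝 y) := by
      have := (φ.cont_symm _ hyt).tendsto
      rwa [φ.map.left_inv hys] at this
    have hev : ∀ᶠ w in 𝓝[φ.map.target] (φ.map y), NP M e D φ w ∧
        ((φ.map.symm w ∈ ψ.map.source ∧ ψ.map (φ.map.symm w) ∈ Metric.ball (ψ.map x) r) ∧
          (φ.map.symm w ∈ ψ'.map.source ∧ ψ'.map (φ.map.symm w) ∈ Metric.ball (ψ'.map x) r')) :=
      (eventually_eventually_nhdsWithin.mpr hyP).and (hcs.eventually hyN)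
    have hpath : Tendsto (fun t : ℝ => φ.map y + t * Complex.I) (𝓝[>] 0)
        (𝓝[φ.map.target] (φ.map y)) := by
      have hc : ContinuousAt (fun t : ℝ => φ.map y + t * Complex.I) 0 := by fun_prop
      have h1 := hc.tendsto
      simp only [Complex.ofReal_zero, zero_mul, add_zero] at h1
      have h2 : Tendsto (fun t : ℝ => φ.map y + t * Complex.I) (𝓝[>] 0) (𝓝 (φ.map y)) :=
        h1.mono_left nhdsWithin_le_nhds
      rw [tendsto_nhdsWithin_iff]
      refine ⟨h2, ?_⟩
      rw [φ.target_eq] at hyt ⊢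
      filter_upwards [h2.eventually (φ.dom_open.mem_nhds hyt.1), self_mem_nhdsWithin]
        with t ht1 ht2
      refine ⟨ht1, ?_⟩
      have h3 : 0 < t := ht2
      have h4 : 0 ≤ (φ.map y).im := hyt.2
      simp
      linarith
    obtain ⟨t, ⟨⟨hw1, ⟨hw2, hw3⟩, hw4, hw5⟩, hw6⟩, hw7⟩ :=
      (((hpath.eventually hev).and (hpath.eventually self_mem_nhdsWithin)).and
        self_mem_nhdsWithin).exists
    set w : ℂ := φ.map y + t * Complex.I with hw
    have hwi : 0 < w.im := by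
      have h3 : 0 < t := hw7
      have h4 : 0 ≤ (φ.map y).im := im_nonneg φ hys
      rw [hw]
      simp
      linarith
    have hs1 : φ.map.symm w ∈ φ.map.source := φ.map.map_target hw6
    have hs2 : φ.map (φ.map.symm w) = w := φ.map.right_inv hw6
    have hpos : ∀ χ ∈ M.charts, φ.map.symm w ∈ χ.map.source →
        0 < (χ.map (φ.map.symm w)).im := by
      intro χ hχ hs
      refine lt_of_le_of_ne (im_nonneg χ hs) ?_
      intro hcon
      have h5 := (M.bdry_iff φ hφ χ hχ _ hs1 hs).mpr hcon.symm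
      rw [hs2] at h5
      exact hwi.ne' h5
    have hP1 : NP M e D φ (φ.map (φ.map.symm w)) := by rwa [hs2]
    have hi1 : 0 < (φ.map (φ.map.symm w)).im := by rwa [hs2]
    rcases trans_holo hφ hψ hm hs1 hw2 hi1 with hh | hh
    · exact ⟨ψ, hψ, hxs, nd_local he hψ hr hsub hw3 (hpos ψ hψ hw2)
        (nd_trans he hφ hψ hs1 hw2 hi1 hh hP1)⟩
    · exact ⟨ψ', hψ', hxs', nd_local he hψ' hr' hsub' hw5 (hpos ψ' hψ' hw4)
        (nd_trans he hφ hψ' hs1 hw4 hi1 hh hP1)⟩
  have hAu : A = univ := IsClopen.eq_univ ⟨hAc, hAo⟩ ⟨x0, φ0, hφ0, hx0, hP0⟩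
  have : x ∈ A := by
    rw [hAu]
    trivial
  exact this

/-- a solution of the equation along the real axis with a zero vanishes -/
private theorem ode_zero {σ : ℝ} {ρ : ℝ → ℝ} {g : ℝ → ℂ} {t0 : ℝ}
    (h : ∀ᶠ t in 𝓝 t0, HasDerivAt g (-(Complex.I * (σ * ρ t)) * g t) t) (h0 : g t0 = 0) :
    ∀ᶠ t in 𝓝 t0, g t = 0 := by
  obtain ⟨δ, hδ, hb⟩ := Metric.eventually_nhds_iff_ball.mp h
  have hd : ∀ t ∈ Metric.ball t0 δ,
      HasDerivAt (fun t => (g t).re * (g t).re + (g t).im * (g t).im) 0 t := by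
    intro t ht
    have h1 := hb t ht
    have h2 : HasDerivAt (fun t => (g t).re) ((-(Complex.I * (σ * ρ t)) * g t).re) t :=
      Complex.reCLM.hasFDerivAt.comp_hasDerivAt t h1
    have h3 : HasDerivAt (fun t => (g t).im) ((-(Complex.I * (σ * ρ t)) * g t).im) t :=
      Complex.imCLM.hasFDerivAt.comp_hasDerivAt t h1
    have h4 := (h2.mul h2).add (h3.mul h3)
    have h5 : (-(Complex.I * (σ * ρ t)) * g t).re * (g t).re +
        (g t).re * (-(Complex.I * (σ * ρ t)) * g t).re +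
        ((-(Complex.I * (σ * ρ t)) * g t).im * (g t).im +
        (g t).im * (-(Complex.I * (σ * ρ t)) * g t).im) = 0 := by
      simp [Complex.mul_re, Complex.mul_im]
      ring
    rw [h5] at h4
    exact h4
  filter_upwards [Metric.ball_mem_nhds t0 hδ] with t ht
  have h6 := Metric.isOpen_ball.is_const_of_deriv_eq_zero (convex_ball t0 δ).isPreconnected
    (fun s hs => (hd s hs).differentiableAt.differentiableWithinAt)
    (fun s hs => (hd s hs).deriv) ht (Metric.mem_ball_self hδ)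
  simp only [h0, Complex.zero_re, Complex.zero_im, mul_zero, add_zero] at h6
  have h7 : (g t).re = 0 := by nlinarith [mul_self_nonneg (g t).re, mul_self_nonneg (g t).im]
  have h8 : (g t).im = 0 := by nlinarith [mul_self_nonneg (g t).re, mul_self_nonneg (g t).im]
  exact Complex.ext h7 h8

/-- small arcs in a given chart lie in the component -/
private theorem arc_in {M : Surface S} {φ : Chart S} (hφ : φ ∈ M.charts) {t0 : ℝ}
    (hxt : (t0 : ℂ) ∈ φ.map.target) :
    ∀ᶠ t : ℝ in 𝓝 t0, φ.map.symm t ∈ connectedComponentIn M.bdry (φ.map.symm t0) := by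
  obtain ⟨R, hR, hsub⟩ := mem_target_real φ hxt
  have hmem : ∀ t : ℝ, |t - t0| < R → φ.map.symm t ∈ M.bdry := by
    intro t ht
    have h2 : (t : ℂ) ∈ φ.map.target := real_mem φ hsub ht
    refine ⟨φ, hφ, φ.map.map_target h2, ?_⟩
    rw [φ.map.right_inv h2]
    simp
  have harc : IsPreconnected ((fun t : ℝ => φ.map.symm t) '' Ioo (t0 - R) (t0 + R)) := by
    apply isPreconnected_Ioo.image
    have h1 : ContinuousOn (fun t : ℝ => (t : ℂ)) (Ioo (t0 - R) (t0 + R)) :=
      Complex.continuous_ofReal.continuousOn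
    apply φ.cont_symm.comp h1
    intro t ht
    apply real_mem φ hsub
    exact abs_lt.mpr ⟨by linarith [ht.1], by linarith [ht.2]⟩
  have hsubset : ((fun t : ℝ => φ.map.symm t) '' Ioo (t0 - R) (t0 + R)) ⊆
      connectedComponentIn M.bdry (φ.map.symm t0) := by
    apply harc.subset_connectedComponentIn
    · exact ⟨t0, ⟨by linarith, by linarith⟩, rfl⟩
    · rintro _ ⟨t, ht, rfl⟩
      exact hmem t (abs_lt.mpr ⟨by linarith [ht.1], by linarith [ht.2]⟩)
  filter_upwards [Ioo_mem_nhds (by linarith : t0 - R < t0) (by linarith : t0 < t0 + R)] with t ht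
  exact hsubset ⟨t, ht, rfl⟩

/-- no vector is orthogonal to the complex gradient near a point for all forms. Proof: the property
`∀ Q, Q D F = 0` near a point, in one chart at the point, propagates to all points (open and closed;
trans_holo, Fv_trans and the identity theorem; Fv_mir for the change of orientation, with `star D`).
So `f_Q = Q(D,u)` satisfies `f_Q' = -i σ ρ f_Q` along the boundary (hasDerivAt_uv), `f_Q = λ_Q f_G`
on an arc, hence on `S` (uc_near, uc_global for real and imaginary part). If `Q` covers `(p,q)` and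
`f_G p ≠ f_G q` then `λ_Q = 0`, `Q D = 0`. Such pairs are dense, so by compactness all pairs are
covered by forms with `Q D = 0`, and a reduction is possible. -/
theorem nd [ConnectedSpace S] {M : Surface S} {σ : ℝ} (hσ : 0 < σ) {n : ℕ}
    {e : Fin (n + 1) → S → ℝ} (he : ∀ i, M.IsSteklov σ (e i)) (hi : LinearIndependent ℝ e)
    (hmir : MirC M) (hcov : Covd M e) (h2 : ∃ C C', IsCC M C ∧ IsCC M C' ∧ C ≠ C')
    (hmin : ¬ PM M σ n) {G : Bl (n + 1)} (hG : InK M e G)
    (hpd : ∀ v : V (n + 1), v ≠ 0 → 0 < (G (star v) v).re) {D : V (n + 1)} {φ : Chart S}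
    (hφ : φ ∈ M.charts) {z : ℂ} (hz : z ∈ φ.map.target) (hi' : 0 < z.im)
    (hD : ∀ᶠ w in 𝓝 z, ∀ Q, InK M e Q → Q D (Fv φ e 0 w) = 0) : D = 0 := by
  by_contra hD0
  have hx0 : φ.map.symm z ∈ φ.map.source := φ.map.map_target hz
  have hP0 : NP M e D φ (φ.map (φ.map.symm z)) := by
    rw [φ.map.right_inv hz]
    exact hD.filter_mono nhdsWithin_le_nhds
  -- the equation along the boundary
  have hbd : ∀ p ∈ M.bdry, ∃ χ ∈ M.charts, ∃ t0 : ℝ, (t0 : ℂ) ∈ χ.map.target ∧
      χ.map.symm t0 = p ∧ ∀ᶠ t : ℝ in 𝓝 t0, ∀ Q, InK M e Q →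
        HasDerivAt (fun t : ℝ => Q D (uv e (χ.map.symm (t : ℂ))))
          (-(Complex.I * (σ * χ.ρ t)) * Q D (uv e (χ.map.symm (t : ℂ)))) t := by
    intro p hp
    obtain ⟨χ, hχ, hps, hP⟩ := nd_all he hmir hφ hx0 hP0 p
    obtain ⟨χ0, hχ0, hps0, hi0⟩ := hp
    have him : (χ.map p).im = 0 := (M.bdry_iff χ0 hχ0 χ hχ p hps0 hps).mp hi0
    have hx0p : ((χ.map p).re : ℂ) = χ.map p := by
      apply Complex.ext
      · simp
      · simpa using him.symm
    refine ⟨χ, hχ, (χ.map p).re, ?_, ?_, ?_⟩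
    · rw [hx0p]
      exact χ.map.map_source hps
    · rw [hx0p]
      exact χ.map.left_inv hps
    · have ht : ((χ.map p).re : ℂ) ∈ χ.map.target := by
        rw [hx0p]
        exact χ.map.map_source hps
      have h1 : Tendsto (fun t : ℝ => (t : ℂ)) (𝓝 (χ.map p).re) (𝓝[χ.map.target] (χ.map p)) := by
        rw [tendsto_nhdsWithin_iff]
        refine ⟨?_, real_mem_nhds χ ht⟩
        have h3 := Complex.continuous_ofReal.continuousAt (x := (χ.map p).re)
        have h4 := h3.tendsto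
        rwa [hx0p] at h4
      filter_upwards [h1.eventually hP, real_mem_nhds χ ht] with t ht1 ht2 Q hQ
      have h5 := ((Q D).restrictScalars ℝ).hasFDerivAt.comp_hasDerivAt t (hasDerivAt_uv he hχ ht2)
      refine h5.congr_deriv ?_
      rw [ContinuousLinearMap.coe_restrictScalars', map_sub, ht1 Q hQ, map_smul, smul_eq_mul]
      ring
  -- the function of `G` has no zero on the boundary
  have hne : ∀ p ∈ M.bdry, G D (uv e p) ≠ 0 := by
    intro p hp hcon
    obtain ⟨χ, hχ, t0, ht0, htp, hev⟩ := hbd p hp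
    have h1 : ∀ᶠ t : ℝ in 𝓝 t0, G D (uv e (χ.map.symm (t : ℂ))) = 0 := by
      apply ode_zero (σ := σ) (ρ := fun t => χ.ρ t)
      · filter_upwards [hev] with t ht
        exact ht G hG
      · rw [htp]
        exact hcon
    have h3 : G D = 0 := span_uv he hi hχ ht0 (G D) h1
    have h4 := hpd D hD0
    rw [hG.symm, h3] at h4
    simp at h4
  obtain ⟨C1, C1', hC1, hC1', hne1⟩ := h2
  obtain ⟨p1, hp1, hC1p⟩ := id hC1
  -- all forms agree with `G` up to a factor
  have hlam : ∀ Q, InK M e Q → ∃ l : ℂ, Q D = l • G D := by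
    intro Q hQ
    obtain ⟨χ, hχ, t0, ht0, htp, hev⟩ := hbd p1 hp1
    have hg := hne p1 hp1
    refine ⟨Q D (uv e p1) / G D (uv e p1), ?_⟩
    have h1 : ∀ᶠ t : ℝ in 𝓝 t0, (Q D - (Q D (uv e p1) / G D (uv e p1)) • G D)
        (uv e (χ.map.symm (t : ℂ))) = 0 := by
      apply ode_zero (σ := σ) (ρ := fun t => χ.ρ t)
      · filter_upwards [hev] with t ht
        have h3 := (ht Q hQ).sub ((ht G hG).const_mul (Q D (uv e p1) / G D (uv e p1)))
        refine (h3.congr_deriv ?_)
        simp only [sub_apply, smul_apply, smul_eq_mul]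
        ring
      · rw [htp]
        simp only [sub_apply, smul_apply, smul_eq_mul]
        field_simp
        ring
    exact sub_eq_zero.mp (span_uv he hi hχ ht0 _ h1)
  -- pairs with different values
  have hpair : ∀ C C', IsCC M C → IsCC M C' → C ≠ C' → ∀ p ∈ C, ∀ q ∈ C',
      G D (uv e p) ≠ G D (uv e q) → ∃ Q, InK M e Q ∧ Q (uv e p - uv e q) = 0 ∧ Q D = 0 := by
    intro C C' hC hC' hCC p hp q hq hpq
    obtain ⟨Q, hQ, hQ0⟩ := hcov C C' hC hC' hCC p hp q hq
    refine ⟨Q, hQ, hQ0, ?_⟩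
    obtain ⟨l, hl⟩ := hlam Q hQ
    have h3 : Q D (uv e p - uv e q) = 0 := by
      rw [hQ.symm, hQ0]
      rfl
    rw [hl, smul_apply, map_sub, smul_eq_mul] at h3
    have h4 : l = 0 := (mul_eq_zero.mp h3).resolve_right (sub_ne_zero.mpr hpq)
    rw [hl, h4, zero_smul]
  have hCs : ∀ C, IsCC M C → ∀ p ∈ C, p ∈ M.bdry ∧ C = connectedComponentIn M.bdry p := by
    rintro C ⟨p', hp', rfl⟩ p hp
    exact ⟨connectedComponentIn_subset _ _ hp, connectedComponentIn_eq hp⟩
  -- all pairs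
  have hall : ∀ C C', IsCC M C → IsCC M C' → C ≠ C' → ∀ p ∈ C, ∀ q ∈ C',
      ∃ Q, InK M e Q ∧ Q (uv e p - uv e q) = 0 ∧ Q D = 0 := by
    intro C C' hC hC' hCC p hp q hq
    obtain ⟨hpb, hCp⟩ := hCs C hC p hp
    obtain ⟨hqb, -⟩ := hCs C' hC' q hq
    obtain ⟨χ, hχ, t0, ht0, htp, hev⟩ := hbd p hpb
    have hfr : ∃ᶠ t : ℝ in 𝓝 t0, G D (uv e (χ.map.symm (t : ℂ))) ≠ G D (uv e q) := by
      intro hcon
      have h3 : (fun t : ℝ => G D (uv e (χ.map.symm (t : ℂ)))) =ᶠ[𝓝 t0]
          fun _ => G D (uv e q) := by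
        filter_upwards [hcon] with t ht
        exact not_not.mp ht
      have h4 := hev.self_of_nhds G hG
      have h5 : HasDerivAt (fun t : ℝ => G D (uv e (χ.map.symm (t : ℂ)))) 0 t0 :=
        (hasDerivAt_const t0 _).congr_of_eventuallyEq h3
      have h6 := h4.unique h5
      rw [htp] at h6
      have h7 := hne p hpb
      have h8 : (χ.ρ t0 : ℂ) ≠ 0 := by
        exact_mod_cast (χ.ρ_pos _ ht0).ne'
      have h9 : (σ : ℂ) ≠ 0 := by exact_mod_cast hσ.ne'
      simp [h7, h8, h9] at h6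
    have harc : ∀ᶠ t : ℝ in 𝓝 t0, χ.map.symm t ∈ C := by
      have := arc_in hχ ht0
      rw [htp, ← hCp] at this
      exact this
    obtain ⟨ts, hts, hts2⟩ := exists_seq_forall_of_frequently (hfr.and_eventually harc)
    have hQs : ∀ k, ∃ Q, InK M e Q ∧ Q (uv e (χ.map.symm (ts k : ℂ)) - uv e q) = 0 ∧ Q D = 0 :=
      fun k => hpair C C' hC hC' hCC _ (hts2 k).2 q hq (hts2 k).1
    choose Qs hQs1 hQs2 hQs3 using hQs
    obtain ⟨Q, hQ, θ, hθ, hlim⟩ := (isCompact_K he hi ⟨p, hpb⟩).tendsto_subseq hQs1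
    refine ⟨Q, hQ, ?_, ?_⟩
    · have hc : Tendsto (fun k => uv e (χ.map.symm (ts (θ k) : ℂ)) - uv e q) atTop
          (𝓝 (uv e p - uv e q)) := by
        have h3 : ContinuousAt (fun t : ℝ => uv e (χ.map.symm (t : ℂ))) t0 :=
          (hasDerivAt_uv he hχ ht0).continuousAt
        have h4 := (h3.tendsto.comp (hts.comp hθ.tendsto_atTop)).sub_const (uv e q)
        rw [htp] at h4
        exact h4
      have h5 : Tendsto (fun k => (Qs ∘ θ) k (uv e (χ.map.symm (ts (θ k) : ℂ)) - uv e q)) atTop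
          (𝓝 (Q (uv e p - uv e q))) :=
        (isBoundedBilinearMap_apply.continuous.tendsto (Q, uv e p - uv e q)).comp
          (hlim.prodMk_nhds hc)
      have h6 : Tendsto (fun k => (Qs ∘ θ) k (uv e (χ.map.symm (ts (θ k) : ℂ)) - uv e q)) atTop
          (𝓝 0) := by
        apply tendsto_const_nhds.congr
        intro k
        exact (hQs2 (θ k)).symm
      exact tendsto_nhds_unique h5 h6
    · have h5 : Tendsto (fun k => (Qs ∘ θ) k D) atTop (𝓝 (Q D)) :=
        (isBoundedBilinearMap_apply.continuous.tendsto (Q, D)).comp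
          (hlim.prodMk_nhds tendsto_const_nhds)
      have h6 : Tendsto (fun k => (Qs ∘ θ) k D) atTop (𝓝 0) := by
        apply tendsto_const_nhds.congr
        intro k
        exact (hQs3 (θ k)).symm
      exact tendsto_nhds_unique h5 h6
  -- the reduction
  have hstar : ∀ Q, InK M e Q → Q D = 0 → Q (star D) = 0 := by
    intro Q hQ h3
    ext v
    have h4 := hQ.real D (star v)
    rw [star_star, h3] at h4
    rw [h4]
    simp
  apply hmin
  by_cases hr : D + star D = 0
  · refine red he hi (r := Complex.I • (D - star D)) ?_ ?_ ?_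
    · intro hcon
      rw [smul_eq_zero] at hcon
      have h3 : D - star D = 0 := hcon.resolve_left Complex.I_ne_zero
      apply hD0
      have h4 : D = star D := sub_eq_zero.mp h3
      rw [← h4] at hr
      have h5 : (2 : ℂ) • D = 0 := by
        rw [two_smul]
        exact hr
      exact (smul_eq_zero.mp h5).resolve_left two_ne_zero
    · rw [star_smul, star_sub, star_star]
      ext i
      simp
      ring
    · intro C C' hC hC' hCC p hp q hq
      obtain ⟨Q, hQ, hQ1, hQ2⟩ := hall C C' hC hC' hCC p hp q hq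
      refine ⟨Q, hQ, hQ1, ?_⟩
      rw [map_smul, map_sub, hQ2, hstar Q hQ hQ2]
      simp
  · refine red he hi (r := D + star D) hr ?_ ?_
    · rw [star_add, star_star]
      exact add_comm _ _
    · intro C C' hC hC' hCC p hp q hq
      obtain ⟨Q, hQ, hQ1, hQ2⟩ := hall C C' hC hC' hCC p hp q hq
      refine ⟨Q, hQ, hQ1, ?_⟩
      rw [map_add, hQ2, hstar Q hQ hQ2]
      simp

end Stek.Sv
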