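import Pool.Agent.H.MP_fc2485_gt.Sv.Defs
import Pool.Agent.H.MP_fc2485_gt.Sv.LinOde

/-!
The flat system as a linear differential equation in the product space.
-/

set_option maxSynthPendingDepth 3

open Set Filter Topology

namespace Stek.Sv

/-- the matrix of the flat system, as a function of the value of `F` -/
noncomputable def odeL {m : ℕ} (G : Bl m) : V m →ₗ[ℂ] ((V m × ℂ) →L[ℂ] (V m × ℂ)) where
  toFun v := ((ContinuousLinearMap.snd ℂ (V m) ℂ).smulRight v).prod
    ((G.flip v).comp (ContinuousLinearMap.fst ℂ (V m) ℂ))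
  map_add' v w := by
    ext x <;> simp
  map_smul' c v := by
    ext x <;> simp

/-- the matrix of the flat system -/
noncomputable def odeA {m : ℕ} (G : Bl m) (F : ℂ → V m) (z : ℂ) : (V m × ℂ) →L[ℂ] (V m × ℂ) :=
  LinearMap.toContinuousLinearMap (odeL G) (F z)

theorem odeA_apply {m : ℕ} (G : Bl m) (F : ℂ → V m) (z : ℂ) (x : V m × ℂ) :
    odeA G F z x = (x.2 • F z, G x.1 (F z)) := by
  simp [odeA, odeL]

theorem odeA_cont {m : ℕ} (G : Bl m) {F : ℂ → V m} {K : Set ℂ} (hF : ContinuousOn F K) :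
    ContinuousOn (odeA G F) K :=
  (LinearMap.toContinuousLinearMap (odeL G)).continuous.comp_continuousOn hF

theorem odeA_diff {m : ℕ} (G : Bl m) {F : ℂ → V m} {O : Set ℂ} (hF : DifferentiableOn ℂ F O) :
    DifferentiableOn ℂ (odeA G F) O :=
  (LinearMap.toContinuousLinearMap (odeL G)).differentiable.comp_differentiableOn hF

theorem isSol_iff {m : ℕ} {G : Bl m} {F : ℂ → V m} {K : Set ℂ} {Y : ℂ → V m} {E : ℂ → ℂ} :
    IsSol G F K Y E ↔ IsFlat (odeA G F) K (fun z => (Y z, E z)) := by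
  constructor
  · intro h z hz
    rw [odeA_apply]
    exact (h.dY z hz).prodMk (h.dE z hz)
  · intro h
    refine ⟨fun z hz => ?_, fun z hz => ?_⟩
    · have h1 := h z hz
      rw [odeA_apply] at h1
      exact (ContinuousLinearMap.fst ℂ (V m) ℂ).hasFDerivAt.comp_hasDerivWithinAt z h1
    · have h1 := h z hz
      rw [odeA_apply] at h1
      exact (ContinuousLinearMap.snd ℂ (V m) ℂ).hasFDerivAt.comp_hasDerivWithinAt z h1

theorem Rect_eq_rect (a b c d : ℝ) : Rect a b c d = rect a b c d := by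
  ext z
  simp [Rect, rect, and_assoc]

theorem RectI_eq_orect (a b c d : ℝ) : RectI a b c d = orect a b c d := by
  ext z
  simp [RectI, orect, and_assoc]

/-- existence on every closed rectangle -/
theorem ode_exists' {m : ℕ} (G : Bl m) {F : ℂ → V m} {a b c d : ℝ}
    (hF : Nice (Rect a b c d) (RectI a b c d) F) {z1 : ℂ} (hz1 : z1 ∈ Rect a b c d)
    (Y1 : V m) (E1 : ℂ) :
    ∃ (Y : ℂ → V m) (E : ℂ → ℂ), IsSol G F (Rect a b c d) Y E ∧ Y z1 = Y1 ∧ E z1 = E1 := by
  have hc := hF.cont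
  have hd := hF.holo
  rw [Rect_eq_rect] at hc hz1 ⊢
  rw [RectI_eq_orect] at hd
  obtain ⟨S, hS, hS1⟩ := exists_flat (odeA_cont G hc) (odeA_diff G hd) hz1 (Y1, E1)
  refine ⟨fun z => (S z).1, fun z => (S z).2, isSol_iff.mpr hS, ?_, ?_⟩
  · simp only [hS1]
  · simp only [hS1]

end Stek.Sv
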