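import Pool.Agent.H.MP_fc2485_gt.Sv.OdeA

/-!
Existence for the flat system on rectangles.
-/

set_option maxSynthPendingDepth 3
set_option linter.unusedVariables false

open Set Filter Topology

namespace Stek.Sv

theorem ode_exists {m : ℕ} (G : Bl m) {F : ℂ → V m} {a b c d : ℝ} (hab : a < b) (hcd : c < d)
    (hF : Nice (Rect a b c d) (RectI a b c d) F) {C : ℝ} (hC : ∀ z ∈ Rect a b c d, ‖F z‖ ≤ C)
    (hs : ((b - a) + (d - c)) * ((1 + ‖G‖) * C) ≤ 1 / 2) {z1 : ℂ} (hz1 : z1 ∈ Rect a b c d)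
    (Y1 : V m) (E1 : ℂ) :
    ∃ (Y : ℂ → V m) (E : ℂ → ℂ), IsSol G F (Rect a b c d) Y E ∧ Y z1 = Y1 ∧ E z1 = E1 :=
  ode_exists' G hF hz1 Y1 E1

end Stek.Sv
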