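import Pool.Agent.H.MP_fc2485_gt.Sv.Defs

/-!
The model equations at a pole. Exponents `0 < k < o 1 < ... < o 6`; for small `x > 0` the
eight equations have only the trivial solution.

Proof. The equations say that the functionals `q ↦ ∑ c0 e * q e` and `q ↦ ∑ c1 e * q e` (sum over
the nodes `0`, `2k`, `o j`) vanish on polynomials of degree at most `3`, where `c0 (o j) = β j`,
`c1 (o j) = x ^ (o j) * β j`, with corrections `β0 - τ/2`, `- τ/2` at `0`, `2k` (and
`β0 - x^k τ/2`, `- x^k τ/2`).  Lagrange interpolation bounds any four of the coefficients by the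
others.  With `A` the two smallest of the `o j ≠ 2k`, the second equation bounds the coefficients
at `0`, `2k`, `A` and the first one those at the remaining nodes.
-/

set_option maxSynthPendingDepth 3

open Set Filter Topology

namespace Stek.Sv

/-- falling factorial `o (o-1) ... (o-i+1)` -/
def ff (o i : ℕ) : ℂ := ∏ l ∈ Finset.range i, ((o : ℂ) - l)

namespace PoleA

theorem lag_bound (N S : Finset ℕ) (hS : S ⊆ N) (hc : S.card ≤ 4) :
    ∃ K : ℝ, 0 ≤ K ∧ ∀ c : ℕ → ℂ, (∀ i < 4, ∑ e ∈ N, c e * (e : ℂ) ^ i = 0) →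
      ∀ e ∈ S, ‖c e‖ ≤ K * ∑ e' ∈ N \ S, ‖c e'‖ := by
  classical
  set v : ℕ → ℂ := fun n => (n : ℂ) with hv
  have hinj : Set.InjOn v S := fun a _ b _ h => Nat.cast_injective h
  refine ⟨∑ e ∈ S, ∑ e' ∈ N, ‖(Lagrange.basis S v e).eval (v e')‖,
    Finset.sum_nonneg fun _ _ => Finset.sum_nonneg fun _ _ => norm_nonneg _, ?_⟩
  intro c hcc e he
  set q := Lagrange.basis S v e with hq
  have hdeg : q.natDegree < 4 := by
    have h1 : q.degree = ((S.card - 1 : ℕ) : WithBot ℕ) := Lagrange.degree_basis hinj he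
    have h2 := Polynomial.natDegree_eq_of_degree_eq_some h1
    have h3 : 0 < S.card := Finset.card_pos.mpr ⟨e, he⟩
    omega
  have h0 : ∑ e' ∈ N, c e' * q.eval (v e') = 0 := by
    have h1 : ∀ e' ∈ N, c e' * q.eval (v e') =
        ∑ i ∈ Finset.range 4, q.coeff i * (c e' * (e' : ℂ) ^ i) := by
      intro e' _
      rw [Polynomial.eval_eq_sum_range' hdeg, Finset.mul_sum]
      refine Finset.sum_congr rfl fun i _ => ?_
      simp only [hv]
      ring
    rw [Finset.sum_congr rfl h1, Finset.sum_comm]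
    refine Finset.sum_eq_zero fun i hi => ?_
    rw [← Finset.mul_sum, hcc i (Finset.mem_range.mp hi), mul_zero]
  have h1 : ∑ e' ∈ S, c e' * q.eval (v e') = c e := by
    rw [Finset.sum_eq_single e]
    · rw [hq, Lagrange.eval_basis_self hinj he, mul_one]
    · intro e' he' hne
      rw [hq, Lagrange.eval_basis_of_ne hne.symm he', mul_zero]
    · intro h
      exact absurd he h
  have h2 : c e = - ∑ e' ∈ N \ S, c e' * q.eval (v e') := by
    have := Finset.sum_sdiff (f := fun e' => c e' * q.eval (v e')) hS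
    rw [h0, h1] at this
    linear_combination this
  rw [h2, norm_neg, Finset.mul_sum]
  refine (norm_sum_le _ _).trans (Finset.sum_le_sum fun e' he' => ?_)
  rw [norm_mul, mul_comm]
  refine mul_le_mul_of_nonneg_right ?_ (norm_nonneg _)
  have h3 : ‖q.eval (v e')‖ ≤ ∑ e' ∈ N, ‖q.eval (v e')‖ :=
    Finset.single_le_sum (f := fun e' => ‖q.eval (v e')‖) (fun _ _ => norm_nonneg _)
      (Finset.mem_sdiff.mp he').1
  exact h3.trans (Finset.single_le_sum
    (f := fun e => ∑ e' ∈ N, ‖(Lagrange.basis S v e).eval (v e')‖)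
    (fun _ _ => Finset.sum_nonneg fun _ _ => norm_nonneg _) he)

theorem exists_initial (O : Finset ℕ) (r : ℕ) : ∃ A ⊆ O, A.card ≤ r ∧
    (O \ A).card ≤ O.card - r ∧ ∀ a ∈ A, ∀ b ∈ O \ A, a < b := by
  classical
  induction r with
  | zero => exact ⟨∅, Finset.empty_subset _, by simp, by simp, by simp⟩
  | succ r ih =>
    obtain ⟨A, hAO, h1, h2, h3⟩ := ih
    by_cases he : (O \ A).Nonempty
    · set x := (O \ A).min' he with hx
      have hxm : x ∈ O \ A := Finset.min'_mem _ _
      refine ⟨insert x A, ?_, ?_, ?_, ?_⟩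
      · exact Finset.insert_subset (Finset.mem_sdiff.mp hxm).1 hAO
      · rw [Finset.card_insert_of_notMem (Finset.mem_sdiff.mp hxm).2]
        omega
      · have : O \ insert x A = (O \ A).erase x := by
          ext y
          simp only [Finset.mem_sdiff, Finset.mem_insert, Finset.mem_erase]
          tauto
        rw [this, Finset.card_erase_of_mem hxm]
        omega
      · intro a ha b hb
        have hbO : b ∈ O \ A := by
          simp only [Finset.mem_sdiff, Finset.mem_insert] at hb ⊢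
          tauto
        rcases Finset.mem_insert.mp ha with h | ha
        · have hne : b ≠ x := by
            intro hbx
            rw [hbx] at hb
            exact (Finset.mem_sdiff.mp hb).2 (Finset.mem_insert_self _ _)
          have := Finset.min'_le _ _ hbO
          rw [← hx] at this
          omega
        · exact h3 a ha b hbO
    · rw [Finset.not_nonempty_iff_eq_empty] at he
      exact ⟨A, hAO, by omega, by rw [he]; simp, by rw [he]; simp⟩

theorem pow_of_ff {N : Finset ℕ} {c : ℕ → ℂ} (h : ∀ i < 4, ∑ e ∈ N, c e * ff e i = 0) :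
    ∀ i < 4, ∑ e ∈ N, c e * (e : ℂ) ^ i = 0 := by
  have h0 := h 0 (by norm_num)
  have h1 := h 1 (by norm_num)
  have h2 := h 2 (by norm_num)
  have h3 := h 3 (by norm_num)
  intro i hi
  interval_cases i
  · rw [← h0]
    refine Finset.sum_congr rfl fun e _ => ?_
    simp [ff]
  · rw [← h1]
    refine Finset.sum_congr rfl fun e _ => ?_
    simp [ff]
  · have : ∑ e ∈ N, c e * (e : ℂ) ^ 2 = ∑ e ∈ N, c e * ff e 2 + ∑ e ∈ N, c e * ff e 1 := by
      rw [← Finset.sum_add_distrib]
      refine Finset.sum_congr rfl fun e _ => ?_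
      simp only [ff, Finset.prod_range_succ, Finset.prod_range_zero]
      push_cast
      ring
    rw [this, h1, h2, add_zero]
  · have : ∑ e ∈ N, c e * (e : ℂ) ^ 3 = ∑ e ∈ N, c e * ff e 3 + 3 * ∑ e ∈ N, c e * ff e 2 +
        ∑ e ∈ N, c e * ff e 1 := by
      rw [Finset.mul_sum, ← Finset.sum_add_distrib, ← Finset.sum_add_distrib]
      refine Finset.sum_congr rfl fun e _ => ?_
      simp only [ff, Finset.prod_range_succ, Finset.prod_range_zero]
      push_cast
      ring
    rw [this, h1, h2, h3]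
    ring

/-- the key estimate -/
theorem key (k : ℕ) (hk : 1 ≤ k) (O A : Finset ℕ) (hO0 : 0 ∉ O) (hOk : 2 * k ∉ O)
    (hO : ∀ e ∈ O, k + 1 ≤ e) (hAO : A ⊆ O) (hA : A.card ≤ 2)
    (hAB : ∀ a ∈ A, ∀ b ∈ O \ A, a < b) (u : Prop) [Decidable u]
    (hB : (O \ A).card ≤ if u then 3 else 4) :
    ∃ δ : ℝ, 0 < δ ∧ ∀ x : ℝ, 0 < x → x < δ → x < 1 → ∀ (b : ℕ → ℂ) (β0 t : ℂ),
      (¬ u → b (2 * k) = 0) →
      (∀ i < 4, ∑ e ∈ insert 0 (insert (2 * k) O),
        (b e + (if e = 0 then β0 - b 0 - t else 0) - (if e = 2 * k then t else 0)) *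
          (e : ℂ) ^ i = 0) →
      (∀ i < 4, ∑ e ∈ insert 0 (insert (2 * k) O),
        ((x : ℂ) ^ e * b e + (if e = 0 then β0 - b 0 - (x : ℂ) ^ k * t else 0) -
          (if e = 2 * k then (x : ℂ) ^ k * t else 0)) * (e : ℂ) ^ i = 0) →
      β0 = 0 ∧ t = 0 ∧ ∀ e ∈ insert (2 * k) O, b e = 0 := by
  classical
  set N : Finset ℕ := insert 0 (insert (2 * k) O) with hN
  set B : Finset ℕ := O \ A with hBdef
  set S1 : Finset ℕ := insert 0 (insert (2 * k) A) with hS1
  set S0 : Finset ℕ := if u then insert (2 * k) B else B with hS0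
  have hBO : B ⊆ O := Finset.sdiff_subset
  have h2k0 : (2 * k : ℕ) ≠ 0 := by omega
  have hS1N : S1 ⊆ N := by
    intro e he
    simp only [hS1, hN, Finset.mem_insert] at he ⊢
    rcases he with h | h | h
    · exact Or.inl h
    · exact Or.inr (Or.inl h)
    · exact Or.inr (Or.inr (hAO h))
  have hS0N : S0 ⊆ N := by
    intro e he
    simp only [hN, Finset.mem_insert]
    by_cases hu : u
    · rw [hS0, if_pos hu] at he
      rcases Finset.mem_insert.mp he with h | h
      · exact Or.inr (Or.inl h)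
      · exact Or.inr (Or.inr (hBO h))
    · rw [hS0, if_neg hu] at he
      exact Or.inr (Or.inr (hBO he))
  have hc1 : S1.card ≤ 4 := by
    have h1 : S1.card ≤ (insert (2 * k) A).card + 1 := Finset.card_insert_le _ _
    have h2 := Finset.card_insert_le (2 * k) A
    omega
  have hc0 : S0.card ≤ 4 := by
    by_cases hu : u
    · rw [if_pos hu] at hB
      rw [hS0, if_pos hu]
      have h2 := Finset.card_insert_le (2 * k) B
      omega
    · rw [if_neg hu] at hB
      rw [hS0, if_neg hu]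
      exact hB
  obtain ⟨K1, hK1, h1⟩ := lag_bound N S1 hS1N hc1
  obtain ⟨K0, hK0, h0⟩ := lag_bound N S0 hS0N hc0
  set C : ℝ := 4 * K0 * N.card * (5 * K1 + 4) with hC
  have hC0 : 0 ≤ C := by positivity
  refine ⟨min (1 / 2) (1 / (C + 1)), by positivity, ?_⟩
  intro x hx0 hxδ hx1 b β0 t hub e0 e1
  have hx2 : x ≤ 1 / 2 := (hxδ.trans_le (min_le_left _ _)).le
  have hxC : x < 1 / (C + 1) := hxδ.trans_le (min_le_right _ _)
  have hxC' : C * x < 1 := by
    rw [lt_div_iff₀ (by positivity)] at hxC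
    nlinarith
  set c0 : ℕ → ℂ := fun e => b e + (if e = 0 then β0 - b 0 - t else 0) -
    (if e = 2 * k then t else 0) with hc0d
  set c1 : ℕ → ℂ := fun e => (x : ℂ) ^ e * b e + (if e = 0 then β0 - b 0 - (x : ℂ) ^ k * t else 0) -
    (if e = 2 * k then (x : ℂ) ^ k * t else 0) with hc1d
  have c00 : c0 0 = β0 - t := by
    simp only [hc0d, if_true, if_neg h2k0.symm]
    ring
  have c02 : c0 (2 * k) = b (2 * k) - t := by
    simp only [hc0d, if_true, if_neg h2k0]
    ring
  have c0e : ∀ e, e ≠ 0 → e ≠ 2 * k → c0 e = b e := by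
    intro e h h'
    simp only [hc0d, if_neg h, if_neg h']
    ring
  have c10 : c1 0 = β0 - (x : ℂ) ^ k * t := by
    simp only [hc1d, if_true, if_neg h2k0.symm]
    ring
  have c12 : c1 (2 * k) = (x : ℂ) ^ k * ((x : ℂ) ^ k * b (2 * k) - t) := by
    simp only [hc1d, if_true, if_neg h2k0]
    ring
  have c1e : ∀ e, e ≠ 0 → e ≠ 2 * k → c1 e = (x : ℂ) ^ e * b e := by
    intro e h h'
    simp only [hc1d, if_neg h, if_neg h']
    ring
  have hOne : ∀ e ∈ O, e ≠ 0 ∧ e ≠ 2 * k := fun e he =>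
    ⟨fun h => hO0 (h ▸ he), fun h => hOk (h ▸ he)⟩
  have hBone : ∀ e ∈ B, e ≠ 0 ∧ e ≠ 2 * k := fun e he => hOne e (hBO he)
  have hBS0 : B ⊆ S0 := by
    by_cases hu : u
    · rw [hS0, if_pos hu]
      exact Finset.subset_insert _ _
    · rw [hS0, if_neg hu]
  set X : ℝ := ∑ e ∈ S0, ‖c0 e‖ with hX
  have hX0 : 0 ≤ X := Finset.sum_nonneg fun _ _ => norm_nonneg _
  set sB : ℝ := ∑ e ∈ B, ‖b e‖ with hsB
  have hsB0 : 0 ≤ sB := Finset.sum_nonneg fun _ _ => norm_nonneg _
  have hsBX : sB ≤ X := by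
    have : sB = ∑ e ∈ B, ‖c0 e‖ := by
      refine Finset.sum_congr rfl fun e he => ?_
      rw [c0e e (hBone e he).1 (hBone e he).2]
    rw [this]
    exact Finset.sum_le_sum_of_subset_of_nonneg hBS0 fun _ _ _ => norm_nonneg _
  -- the second equation
  have hs1 : ∀ r : ℕ, (∀ e ∈ B, r + 1 ≤ e) → ∀ a ∈ S1, ‖c1 a‖ ≤ K1 * (x ^ (r + 1) * sB) := by
    intro r hr a ha
    refine (h1 c1 e1 a ha).trans (mul_le_mul_of_nonneg_left ?_ hK1)
    have hsub : N \ S1 ⊆ B := by
      intro e he
      simp only [hN, hS1, hBdef, Finset.mem_sdiff, Finset.mem_insert] at he ⊢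
      tauto
    calc ∑ e ∈ N \ S1, ‖c1 e‖ ≤ ∑ e ∈ B, ‖c1 e‖ :=
          Finset.sum_le_sum_of_subset_of_nonneg hsub fun _ _ _ => norm_nonneg _
      _ ≤ ∑ e ∈ B, x ^ (r + 1) * ‖b e‖ := by
          refine Finset.sum_le_sum fun e he => ?_
          rw [c1e e (hBone e he).1 (hBone e he).2, norm_mul, norm_pow, Complex.norm_real,
            Real.norm_of_nonneg hx0.le]
          exact mul_le_mul_of_nonneg_right (pow_le_pow_of_le_one hx0.le hx1.le (hr e he))
            (norm_nonneg _)
      _ = x ^ (r + 1) * sB := by rw [hsB, Finset.mul_sum]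
  have hkB : ∀ e ∈ B, k + 1 ≤ e := fun e he => hO e (hBO he)
  have b0 : ‖β0 - (x : ℂ) ^ k * t‖ ≤ K1 * (x ^ (k + 1) * sB) := by
    rw [← c10]
    exact hs1 k hkB 0 (Finset.mem_insert_self _ _)
  have b2 : ‖(x : ℂ) ^ k * b (2 * k) - t‖ ≤ K1 * x * X := by
    have h := hs1 k hkB (2 * k) (by simp [hS1])
    rw [c12, norm_mul, norm_pow, Complex.norm_real, Real.norm_of_nonneg hx0.le] at h
    have hxk : 0 < x ^ k := by positivity
    have h' : ‖(x : ℂ) ^ k * b (2 * k) - t‖ ≤ K1 * (x * sB) := by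
      refine le_of_mul_le_mul_left ?_ hxk
      calc x ^ k * ‖(x : ℂ) ^ k * b (2 * k) - t‖ ≤ K1 * (x ^ (k + 1) * sB) := h
        _ = x ^ k * (K1 * (x * sB)) := by ring
    refine h'.trans ?_
    have : x * sB ≤ x * X := mul_le_mul_of_nonneg_left hsBX hx0.le
    calc K1 * (x * sB) ≤ K1 * (x * X) := mul_le_mul_of_nonneg_left this hK1
      _ = K1 * x * X := by ring
  have ba : ∀ a ∈ A, ‖b a‖ ≤ K1 * x * X := by
    intro a ha
    have h := hs1 a (fun e he => hAB a ha e he) a (by simp [hS1, ha])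
    rw [c1e a (hOne a (hAO ha)).1 (hOne a (hAO ha)).2, norm_mul, norm_pow, Complex.norm_real,
      Real.norm_of_nonneg hx0.le] at h
    have hxk : 0 < x ^ a := by positivity
    have h' : ‖b a‖ ≤ K1 * (x * sB) := by
      refine le_of_mul_le_mul_left ?_ hxk
      calc x ^ a * ‖b a‖ ≤ K1 * (x ^ (a + 1) * sB) := h
        _ = x ^ a * (K1 * (x * sB)) := by ring
    refine h'.trans ?_
    have : x * sB ≤ x * X := mul_le_mul_of_nonneg_left hsBX hx0.le
    calc K1 * (x * sB) ≤ K1 * (x * X) := mul_le_mul_of_nonneg_left this hK1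
      _ = K1 * x * X := by ring
  have hxk1 : x ^ k ≤ x := by
    calc x ^ k ≤ x ^ 1 := pow_le_pow_of_le_one hx0.le hx1.le hk
      _ = x := pow_one x
  have hxX : 0 ≤ x * X := by positivity
  have bt : ‖t‖ ≤ 2 * (1 + K1) * (x * X) := by
    by_cases hu : u
    · have hm : 2 * k ∈ S0 := by
        rw [hS0, if_pos hu]
        exact Finset.mem_insert_self _ _
      have h := Finset.single_le_sum (f := fun e => ‖c0 e‖) (fun _ _ => norm_nonneg _) hm
      rw [c02, ← hX] at h
      have h3 : ((1 - x ^ k : ℝ) : ℂ) * t = (x : ℂ) ^ k * (b (2 * k) - t) -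
          ((x : ℂ) ^ k * b (2 * k) - t) := by
        push_cast
        ring
      have h4 : (1 - x ^ k) * ‖t‖ ≤ x ^ k * X + K1 * x * X := by
        have h5 : ‖((1 - x ^ k : ℝ) : ℂ) * t‖ = (1 - x ^ k) * ‖t‖ := by
          rw [norm_mul, Complex.norm_real, Real.norm_of_nonneg (by linarith)]
        rw [← h5, h3]
        refine (norm_sub_le _ _).trans (add_le_add ?_ b2)
        rw [norm_mul, norm_pow, Complex.norm_real, Real.norm_of_nonneg hx0.le]
        exact mul_le_mul_of_nonneg_left h (by positivity)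
      have h6 : x ^ k * X ≤ x * X := mul_le_mul_of_nonneg_right hxk1 hX0
      have h7 : (1 / 2) * ‖t‖ ≤ (1 - x ^ k) * ‖t‖ :=
        mul_le_mul_of_nonneg_right (by linarith) (norm_nonneg _)
      nlinarith
    · rw [hub hu, mul_zero, zero_sub, norm_neg] at b2
      nlinarith
  have bβ : ‖β0‖ ≤ K1 * (x * X) + ‖t‖ := by
    have h3 : β0 = (β0 - (x : ℂ) ^ k * t) + (x : ℂ) ^ k * t := by ring
    rw [h3]
    refine (norm_add_le _ _).trans (add_le_add (b0.trans ?_) ?_)
    · refine mul_le_mul_of_nonneg_left ?_ hK1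
      have h4 : x ^ (k + 1) ≤ x := by
        calc x ^ (k + 1) ≤ x ^ 1 := pow_le_pow_of_le_one hx0.le hx1.le (by omega)
          _ = x := pow_one x
      exact mul_le_mul h4 hsBX hsB0 hx0.le
    · rw [norm_mul, norm_pow, Complex.norm_real, Real.norm_of_nonneg hx0.le]
      have : x ^ k ≤ 1 := hxk1.trans hx1.le
      calc x ^ k * ‖t‖ ≤ 1 * ‖t‖ := mul_le_mul_of_nonneg_right this (norm_nonneg _)
        _ = ‖t‖ := one_mul _
  -- the first equation
  have hR : ∀ e ∈ N \ S0, ‖c0 e‖ ≤ (5 * K1 + 4) * (x * X) := by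
    intro e he
    obtain ⟨heN, heS⟩ := Finset.mem_sdiff.mp he
    rcases Finset.mem_insert.mp heN with h | h
    · rw [h, c00]
      refine (norm_sub_le _ _).trans ?_
      nlinarith
    rcases Finset.mem_insert.mp h with h | h
    · by_cases hu : u
      · exact absurd (by rw [hS0, if_pos hu, h]; exact Finset.mem_insert_self _ _) heS
      · rw [h, c02, hub hu, zero_sub, norm_neg]
        nlinarith
    · rw [c0e e (hOne e h).1 (hOne e h).2]
      have heA : e ∈ A := by
        by_contra hA'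
        exact heS (hBS0 (Finset.mem_sdiff.mpr ⟨h, hA'⟩))
      have := ba e heA
      nlinarith
  have hXle : X ≤ C * x * X := by
    have h3 : ∑ e ∈ N \ S0, ‖c0 e‖ ≤ N.card * ((5 * K1 + 4) * (x * X)) := by
      calc ∑ e ∈ N \ S0, ‖c0 e‖ ≤ (N \ S0).card • ((5 * K1 + 4) * (x * X)) :=
            Finset.sum_le_card_nsmul _ _ _ hR
        _ = ((N \ S0).card : ℝ) * ((5 * K1 + 4) * (x * X)) := by rw [nsmul_eq_mul]
        _ ≤ N.card * ((5 * K1 + 4) * (x * X)) := by
            refine mul_le_mul_of_nonneg_right ?_ (by positivity)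
            exact_mod_cast Finset.card_le_card Finset.sdiff_subset
    have h4 : ∀ e ∈ S0, ‖c0 e‖ ≤ K0 * (N.card * ((5 * K1 + 4) * (x * X))) := fun e he =>
      (h0 c0 e0 e he).trans (mul_le_mul_of_nonneg_left h3 hK0)
    calc X ≤ S0.card • (K0 * (N.card * ((5 * K1 + 4) * (x * X)))) :=
          Finset.sum_le_card_nsmul _ _ _ h4
      _ = (S0.card : ℝ) * (K0 * (N.card * ((5 * K1 + 4) * (x * X)))) := by rw [nsmul_eq_mul]
      _ ≤ 4 * (K0 * (N.card * ((5 * K1 + 4) * (x * X)))) := by
          refine mul_le_mul_of_nonneg_right ?_ (by positivity)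
          exact_mod_cast hc0
      _ = C * x * X := by rw [hC]; ring
  have hX00 : X = 0 := by
    by_contra hne
    have : 0 < X := lt_of_le_of_ne hX0 (Ne.symm hne)
    nlinarith
  have ht0 : t = 0 := by
    rw [hX00] at bt
    simpa using bt
  have hβ0 : β0 = 0 := by
    rw [hX00, ht0] at bβ
    simpa using bβ
  refine ⟨hβ0, ht0, ?_⟩
  intro e he
  rcases Finset.mem_insert.mp he with h | h
  · rw [h]
    by_cases hu : u
    · have hm : 2 * k ∈ S0 := by
        rw [hS0, if_pos hu]
        exact Finset.mem_insert_self _ _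
      have h := Finset.single_le_sum (f := fun e => ‖c0 e‖) (fun _ _ => norm_nonneg _) hm
      rw [c02, ← hX, hX00, ht0, sub_zero] at h
      simpa using h
    · exact hub hu
  · by_cases heA : e ∈ A
    · have := ba e heA
      rw [hX00] at this
      simpa using this
    · have hm : e ∈ B := Finset.mem_sdiff.mpr ⟨h, heA⟩
      have h3 := Finset.single_le_sum (f := fun e => ‖b e‖) (fun _ _ => norm_nonneg _) hm
      rw [← hsB] at h3
      have : ‖b e‖ ≤ 0 := h3.trans (hsBX.trans hX00.le)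
      simpa using this

end PoleA

open PoleA in
theorem monomial_lemma (k : ℕ) (hk : 1 ≤ k) (n : ℕ) (hn : n ≤ 6) (o : Fin n → ℕ)
    (ho : StrictMono o) (hok : ∀ j, k + 1 ≤ o j) :
    ∃ x0 : ℝ, 0 < x0 ∧ x0 < 1 ∧ ∀ (β0 τ : ℂ) (β : Fin n → ℂ),
      (∀ i < 4, β0 * ff 0 i + ∑ j, β j * ff (o j) i = τ / 2 * (ff 0 i + ff (2 * k) i)) →
      (∀ i < 4, β0 * ff 0 i + ∑ j, β j * x0 ^ (o j) * ff (o j) i =
        τ / 2 * x0 ^ k * (ff 0 i + ff (2 * k) i)) →
      β0 = 0 ∧ τ = 0 ∧ ∀ j, β j = 0 := by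
  classical
  set I : Finset ℕ := Finset.univ.image o with hI
  set O : Finset ℕ := I.erase (2 * k) with hOdef
  set u : Prop := 2 * k ∈ I with hu
  have hIcard : I.card ≤ 6 := by
    have : I.card ≤ (Finset.univ : Finset (Fin n)).card := Finset.card_image_le
    rw [Finset.card_univ, Fintype.card_fin] at this
    omega
  have hIk : ∀ e ∈ I, k + 1 ≤ e := by
    intro e he
    obtain ⟨j, _, rfl⟩ := Finset.mem_image.mp he
    exact hok j
  have hI0 : 0 ∉ I := fun h => by
    have := hIk 0 h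
    omega
  have hO0 : 0 ∉ O := fun h => hI0 (Finset.mem_of_mem_erase h)
  have hOk : 2 * k ∉ O := Finset.notMem_erase _ _
  obtain ⟨A, hAO, hA, hBc, hAB⟩ := exists_initial O 2
  have hB : (O \ A).card ≤ if u then 3 else 4 := by
    by_cases h : u
    · rw [if_pos h]
      have : O.card = I.card - 1 := Finset.card_erase_of_mem h
      omega
    · rw [if_neg h]
      have : O.card = I.card := by rw [hOdef, Finset.erase_eq_of_notMem h]
      omega
  obtain ⟨δ, hδ, hkey⟩ := key k hk O A hO0 hOk (fun e he => hIk e (Finset.mem_of_mem_erase he))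
    hAO hA hAB u hB
  refine ⟨min (δ / 2) (1 / 2), by positivity, (min_le_right _ _).trans_lt (by norm_num), ?_⟩
  set x : ℝ := min (δ / 2) (1 / 2) with hx
  have hx0 : 0 < x := by positivity
  have hxδ : x < δ := (min_le_left _ _).trans_lt (by linarith)
  have hx1 : x < 1 := (min_le_right _ _).trans_lt (by norm_num)
  intro β0 τ β h0 h1
  set b : ℕ → ℂ := fun e => ∑ j, if o j = e then β j else 0 with hb
  have hboj : ∀ j, b (o j) = β j := by
    intro j
    simp only [hb]
    rw [Finset.sum_eq_single j]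
    · rw [if_pos rfl]
    · intro j' _ hne
      rw [if_neg fun h => hne (ho.injective h)]
    · intro h
      exact absurd (Finset.mem_univ j) h
  have hbI : ∀ e, e ∉ I → b e = 0 := by
    intro e he
    refine Finset.sum_eq_zero fun j _ => ?_
    rw [if_neg]
    intro h
    exact he (Finset.mem_image.mpr ⟨j, Finset.mem_univ j, h⟩)
  have hN : insert (2 * k) O = insert (2 * k) I := by
    ext y
    simp only [hOdef, Finset.mem_insert, Finset.mem_erase]
    tauto
  have hb0 : b 0 = 0 := hbI 0 hI0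
  have h2k0 : (2 * k : ℕ) ≠ 0 := by omega
  have hsum : ∀ (g : ℕ → ℂ) (p q : ℂ) (f : ℕ → ℂ),
      ∑ e ∈ insert 0 (insert (2 * k) O), (g e * b e + (if e = 0 then p else 0) -
        (if e = 2 * k then q else 0)) * f e =
        ∑ j, g (o j) * β j * f (o j) + p * f 0 - q * f (2 * k) := by
    intro g p q f
    rw [hN]
    have e1 : ∀ e ∈ insert 0 (insert (2 * k) I), (g e * b e + (if e = 0 then p else 0) -
        (if e = 2 * k then q else 0)) * f e =
        g e * b e * f e + (if e = 0 then p * f 0 else 0) -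
          (if e = 2 * k then q * f (2 * k) else 0) := by
      intro e _
      by_cases h : e = 0
      · rw [if_pos h, if_pos h, h, if_neg h2k0.symm, if_neg h2k0.symm]
        ring
      · by_cases h' : e = 2 * k
        · rw [if_neg h, if_neg h, if_pos h', if_pos h', h']
          ring
        · rw [if_neg h, if_neg h, if_neg h', if_neg h']
          ring
    rw [Finset.sum_congr rfl e1, Finset.sum_sub_distrib, Finset.sum_add_distrib,
      Finset.sum_ite_eq', Finset.sum_ite_eq', if_pos (Finset.mem_insert_self _ _),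
      if_pos (Finset.mem_insert_of_mem (Finset.mem_insert_self _ _))]
    congr 2
    have e2 : ∑ e ∈ insert 0 (insert (2 * k) I), g e * b e * f e = ∑ e ∈ I, g e * b e * f e := by
      symm
      refine Finset.sum_subset ?_ fun e _ he => ?_
      · exact (Finset.subset_insert _ _).trans (Finset.subset_insert _ _)
      · rw [hbI e he]
        ring
    rw [e2, hI, Finset.sum_image fun j _ j' _ h => ho.injective h]
    refine Finset.sum_congr rfl fun j _ => ?_
    rw [hboj]
  have g0 : ∀ i < 4, ∑ e ∈ insert 0 (insert (2 * k) O),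
      (b e + (if e = 0 then β0 - b 0 - τ / 2 else 0) - (if e = 2 * k then τ / 2 else 0)) *
        (e : ℂ) ^ i = 0 := by
    refine pow_of_ff (N := insert 0 (insert (2 * k) O))
      (c := fun e => b e + (if e = 0 then β0 - b 0 - τ / 2 else 0) -
        (if e = 2 * k then τ / 2 else 0)) fun i hi => ?_
    have h := hsum (fun _ => 1) (β0 - b 0 - τ / 2) (τ / 2) (fun e => ff e i)
    simp only [one_mul] at h
    rw [h, hb0]
    linear_combination h0 i hi
  have g1 : ∀ i < 4, ∑ e ∈ insert 0 (insert (2 * k) O),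
      ((x : ℂ) ^ e * b e + (if e = 0 then β0 - b 0 - (x : ℂ) ^ k * (τ / 2) else 0) -
        (if e = 2 * k then (x : ℂ) ^ k * (τ / 2) else 0)) * (e : ℂ) ^ i = 0 := by
    refine pow_of_ff (N := insert 0 (insert (2 * k) O))
      (c := fun e => (x : ℂ) ^ e * b e + (if e = 0 then β0 - b 0 - (x : ℂ) ^ k * (τ / 2) else 0) -
        (if e = 2 * k then (x : ℂ) ^ k * (τ / 2) else 0)) fun i hi => ?_
    rw [hsum (fun e => (x : ℂ) ^ e) (β0 - b 0 - (x : ℂ) ^ k * (τ / 2)) ((x : ℂ) ^ k * (τ / 2))
      (fun e => ff e i), hb0]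
    have h := h1 i hi
    have e3 : ∑ j, (x : ℂ) ^ o j * β j * ff (o j) i = ∑ j, β j * (x : ℂ) ^ o j * ff (o j) i :=
      Finset.sum_congr rfl fun j _ => by ring
    rw [e3]
    linear_combination h
  obtain ⟨hβ, ht, hbz⟩ := hkey x hx0 hxδ hx1 b β0 (τ / 2) (fun h => hbI _ h) g0 g1
  refine ⟨hβ, by simpa using ht, fun j => ?_⟩
  rw [← hboj j]
  refine hbz _ ?_
  rw [hN]
  exact Finset.mem_insert_of_mem (Finset.mem_image.mpr ⟨j, Finset.mem_univ j, rfl⟩)

end Stek.Sv
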