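import Pool.Agent.H.MP_fc2485_gt.Sv.Defs

/-!
Removing an eigenfunction; a positive definite form.
-/

set_option maxSynthPendingDepth 3

open Set Filter Topology InnerProductSpace
open scoped ContDiff

namespace Stek.Sv

open Stek Surface

variable {S : Type*} [TopologicalSpace S]

/-- there are `m` independent eigenfunctions for which all pairs are covered -/
def PM (M : Surface S) (σ : ℝ) (m : ℕ) : Prop :=
  ∃ e : Fin m → S → ℝ, (∀ i, M.IsSteklov σ (e i)) ∧ LinearIndependent ℝ e ∧ Covd M e

/-- the complex gradient is linear -/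
theorem red_Fj {M : Surface S} {σ : ℝ} {f g : S → ℝ} (hf : M.IsSteklov σ f)
    (hg : M.IsSteklov σ g) {φ : Chart S} (hφ : φ ∈ M.charts) {z : ℂ} (hz : z ∈ φ.map.target)
    (k : ℝ) : Fj φ (fun x => f x - k * g x) 0 z = Fj φ f 0 z - k * Fj φ g 0 z := by
  have hd : HasFDerivWithinAt (loc φ (fun x => f x - k * g x))
      (fderivWithin ℝ (loc φ f) φ.map.target z - k • fderivWithin ℝ (loc φ g) φ.map.target z)
      φ.map.target z :=
    (diffAt hf hφ hz).hasFDerivWithinAt.sub ((diffAt hg hφ hz).hasFDerivWithinAt.const_mul k)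
  have h1 := hd.fderivWithin (uniqueDiffOn φ z hz)
  change (dx φ (fun x => f x - k * g x) z : ℂ) - Complex.I * (dy φ (fun x => f x - k * g x) z : ℂ)
    = ((dx φ f z : ℂ) - Complex.I * (dy φ f z : ℂ)) -
      k * ((dx φ g z : ℂ) - Complex.I * (dy φ g z : ℂ))
  have h2 : dx φ (fun x => f x - k * g x) z = dx φ f z - k * dx φ g z := by
    unfold dx
    rw [h1]
    simp
  have h3 : dy φ (fun x => f x - k * g x) z = dy φ f z - k * dy φ g z := by
    unfold dy
    rw [h1]
    simp
  rw [h2, h3]
  push_cast
  ring

/-- the inclusion of the coordinates different from `i0` -/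
noncomputable def redI {n : ℕ} (i0 : Fin (n + 1)) : V n →L[ℂ] V (n + 1) :=
  LinearMap.toContinuousLinearMap
    { toFun := fun w => i0.insertNth (0 : ℂ) w
      map_add' := by
        intro v w
        funext j
        refine Fin.succAboveCases i0 ?_ (fun i => ?_) j <;> simp
      map_smul' := by
        intro c w
        funext j
        refine Fin.succAboveCases i0 ?_ (fun i => ?_) j <;> simp }

theorem redI_self {n : ℕ} (i0 : Fin (n + 1)) (w : V n) : redI i0 w i0 = 0 := by
  simp [redI]

theorem redI_succAbove {n : ℕ} (i0 : Fin (n + 1)) (w : V n) (i : Fin n) :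
    redI i0 w (i0.succAbove i) = w i := by
  simp [redI]

theorem redI_star {n : ℕ} (i0 : Fin (n + 1)) (w : V n) : redI i0 (star w) = star (redI i0 w) := by
  funext j
  refine Fin.succAboveCases i0 ?_ (fun i => ?_) j
  · rw [redI_self, Pi.star_apply, redI_self, star_zero]
  · rw [redI_succAbove, Pi.star_apply, Pi.star_apply, redI_succAbove]

/-- Reduction: if all pairs are covered by forms which kill a fixed real vector `r ≠ 0`, one
eigenfunction can be removed: for `r i0 ≠ 0` take `e' i = e (i0.succAbove i) - (r _ / r i0) e i0`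
and the restriction of the form to the coordinates different from `i0`. -/
theorem red {M : Surface S} {σ : ℝ} {n : ℕ} {e : Fin (n + 1) → S → ℝ}
    (he : ∀ i, M.IsSteklov σ (e i)) (hi : LinearIndependent ℝ e) {r : V (n + 1)} (hr : r ≠ 0)
    (hrr : star r = r)
    (hc : ∀ C C', IsCC M C → IsCC M C' → C ≠ C' → ∀ p ∈ C, ∀ q ∈ C',
      ∃ Q, InK M e Q ∧ Q (uv e p - uv e q) = 0 ∧ Q r = 0) : PM M σ n := by
  obtain ⟨i0, hi0⟩ : ∃ i, r i ≠ 0 := by
    by_contra hcon
    push Not at hcon
    exact hr (funext hcon)
  have hre : ∀ i, ((r i).re : ℂ) = r i := by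
    intro i
    have h1 : star (r i) = r i := congrFun hrr i
    exact Complex.conj_eq_iff_re.mp h1
  have hi0' : (r i0).re ≠ 0 := by
    intro h0
    apply hi0
    rw [← hre i0, h0]
    simp
  let k : Fin n → ℝ := fun i => (r (i0.succAbove i)).re / (r i0).re
  let e' : Fin n → S → ℝ := fun i x => e (i0.succAbove i) x - k i * e i0 x
  have hk : ∀ i, (k i : ℂ) * r i0 = r (i0.succAbove i) := by
    intro i
    rw [← hre i0, ← hre (i0.succAbove i)]
    simp only [k]
    push_cast
    have : ((r i0).re : ℂ) ≠ 0 := by exact_mod_cast hi0'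
    field_simp
  have he' : ∀ i, M.IsSteklov σ (e' i) := by
    intro i
    have h1 : e' i = e (i0.succAbove i) - k i • e i0 := rfl
    have h2 : e (i0.succAbove i) - k i • e i0 ∈ M.eigenspace σ :=
      (M.eigenspace σ).sub_mem (he _) ((M.eigenspace σ).smul_mem _ (he _))
    rw [h1]
    exact h2
  -- the values and the gradients modulo `r`
  have huv : ∀ x, uv e x = redI i0 (uv e' x) + ((e i0 x : ℂ) / r i0) • r := by
    intro x
    funext j
    refine Fin.succAboveCases i0 ?_ (fun i => ?_) j
    · rw [Pi.add_apply, redI_self, Pi.smul_apply, smul_eq_mul, zero_add, div_mul_cancel₀ _ hi0]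
      rfl
    · rw [Pi.add_apply, redI_succAbove, Pi.smul_apply, smul_eq_mul, ← hk i]
      have h1 : (e i0 x : ℂ) / r i0 * (k i * r i0) = k i * e i0 x := by
        field_simp
      rw [h1]
      change (e (i0.succAbove i) x : ℂ) = ((e (i0.succAbove i) x - k i * e i0 x : ℝ) : ℂ) + _
      push_cast
      ring
  have hFv : ∀ φ ∈ M.charts, ∀ z ∈ φ.map.target,
      Fv φ e 0 z = redI i0 (Fv φ e' 0 z) + (Fj φ (e i0) 0 z / r i0) • r := by
    intro φ hφ z hz
    funext j
    refine Fin.succAboveCases i0 ?_ (fun i => ?_) j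
    · rw [Pi.add_apply, redI_self, Pi.smul_apply, smul_eq_mul, zero_add, div_mul_cancel₀ _ hi0]
      rfl
    · rw [Pi.add_apply, redI_succAbove, Pi.smul_apply, smul_eq_mul, ← hk i]
      have h1 : Fj φ (e i0) 0 z / r i0 * (k i * r i0) = k i * Fj φ (e i0) 0 z := by
        field_simp
      rw [h1]
      change Fj φ (e (i0.succAbove i)) 0 z = Fj φ (e' i) 0 z + _
      have h2 := red_Fj (he (i0.succAbove i)) (he i0) hφ hz (k i)
      have h3 : Fj φ (e' i) 0 z = Fj φ (fun x => e (i0.succAbove i) x - k i * e i0 x) 0 z := rfl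
      rw [h3, h2]
      ring
  refine ⟨e', he', ?_, ?_⟩
  · -- independence
    rw [Fintype.linearIndependent_iff]
    intro g hg i
    have h1 : ∑ j, (i0.insertNth (-∑ i, g i * k i) g : Fin (n + 1) → ℝ) j • e j = 0 := by
      rw [Fin.sum_univ_succAbove _ i0]
      funext x
      have h2 := congrFun hg x
      simp only [Finset.sum_apply, Pi.smul_apply, smul_eq_mul, Pi.zero_apply, e'] at h2
      simp only [Pi.add_apply, Finset.sum_apply, Pi.smul_apply, smul_eq_mul, Pi.zero_apply,
        Fin.insertNth_apply_same, Fin.insertNth_apply_succAbove]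
      rw [← h2, neg_mul, Finset.sum_mul, ← Finset.sum_neg_distrib, ← Finset.sum_add_distrib]
      apply Finset.sum_congr rfl
      intro j _
      ring
    have h2 := Fintype.linearIndependent_iff.mp hi _ h1 (i0.succAbove i)
    simpa using h2
  · intro C C' hC hC' hne p hp q hq
    obtain ⟨Q, hQ, hQ1, hQ2⟩ := hc C C' hC hC' hne p hp q hq
    have hQr : ∀ v, Q v r = 0 := by
      intro v
      rw [hQ.symm v r, hQ2]
      rfl
    have hmod : ∀ (v w : V (n + 1)) (s t : ℂ), Q (v + s • r) (w + t • r) = Q v w := by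
      intro v w s t
      have e1 : Q (v + s • r) = Q v := by
        rw [map_add, map_smul, hQ2, smul_zero, add_zero]
      rw [e1, map_add, map_smul, hQr, smul_zero, add_zero]
    let Q' : Bl n := ((ContinuousLinearMap.compL ℂ (V n) (V (n + 1)) ℂ).flip (redI i0)).comp
      (Q.comp (redI i0))
    have hQ' : ∀ v w, Q' v w = Q (redI i0 v) (redI i0 w) := by
      intro v w
      rfl
    refine ⟨Q', ⟨?_, ?_, ?_, ?_, ?_⟩, ?_⟩
    · intro v w
      rw [hQ', hQ', hQ.symm]
    · intro v w
      rw [hQ', hQ', redI_star, redI_star, hQ.real]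
    · intro v
      rw [hQ', redI_star]
      exact hQ.nonneg _
    · intro x hx
      rw [hQ', ← hQ.sphere x hx, huv x, hmod]
    · intro φ hφ z hz
      rw [hQ', ← hQ.conf φ hφ z hz, hFv φ hφ z hz, hmod]
    · ext v
      have h1 : Q' (uv e' p - uv e' q) v =
          Q (redI i0 (uv e' p - uv e' q)) (redI i0 v) := rfl
      have h2 : redI i0 (uv e' p - uv e' q) = (uv e p - uv e q) +
          (-((e i0 p : ℂ) / r i0 - (e i0 q : ℂ) / r i0)) • r := by
        rw [huv p, huv q, map_sub, neg_smul, sub_smul]
        abel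
      rw [h1, h2, map_add, map_smul, hQ2, smul_zero, add_zero, hQ1]
      rfl

/-- the kernel of a form is the set of its isotropic vectors -/
theorem InK.ker {M : Surface S} {m : ℕ} {e : Fin m → S → ℝ} {Q : Bl m} (h : InK M e Q) {v : V m}
    (hv : (Q (star v) v).re = 0) : Q v = 0 := by
  -- `h(w, v)` is zero for all `w`
  have key : ∀ w : V m, Q (star w) v = 0 := by
    intro w
    set a : ℂ := Q (star w) v with ha
    by_contra hne
    have h1 : ∀ t : ℂ, 0 ≤ (Q (star w) w).re + 2 * (t * a).re := by
      intro t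
      have h2 := h.nonneg (w + t • v)
      have h3 : Q (star v) w = star a := by
        rw [ha, ← h.real, star_star, h.symm]
      have h4 : Q (star (w + t • v)) (w + t • v) = Q (star w) w + t * a + star (t * a) +
          (t * star t) * Q (star v) v := by
        rw [star_add, star_smul, map_add, map_add, map_smul, map_smul]
        simp only [_root_.add_apply, _root_.smul_apply, smul_eq_mul, h3, star_mul]
        rw [← ha]
        ring
      rw [h4] at h2
      have h5 : t * star t = ((Complex.normSq t : ℝ) : ℂ) := Complex.mul_conj t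
      rw [h5] at h2
      simp only [Complex.add_re, Complex.re_ofReal_mul, hv, mul_zero, add_zero] at h2
      have h6 : (star (t * a)).re = (t * a).re := Complex.conj_re _
      rw [h6] at h2
      linarith
    have ha0 : 0 < Complex.normSq a := Complex.normSq_pos.mpr hne
    -- choose `t = - s conj a`
    set s : ℝ := ((Q (star w) w).re + 1) / (2 * Complex.normSq a) with hs
    have h7 := h1 (-(s : ℂ) * star a)
    have h8 : (-(s : ℂ) * star a * a).re = -s * Complex.normSq a := by
      have : star a * a = ((Complex.normSq a : ℝ) : ℂ) := by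
        rw [mul_comm]
        exact Complex.mul_conj a
      rw [mul_assoc, this]
      simp
    rw [h8, hs] at h7
    have h9 : 2 * (-(((Q (star w) w).re + 1) / (2 * Complex.normSq a)) * Complex.normSq a) =
        -((Q (star w) w).re + 1) := by
      field_simp
    rw [h9] at h7
    linarith
  have : ∀ w, Q v w = 0 := by
    intro w
    have := key (star w)
    rwa [star_star, h.symm] at this
  ext i
  exact this _

/-- a positive definite form: take one with minimal kernel; a vector of its kernel is in the kernel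
of all forms (convexity) and its real and imaginary parts allow a reduction -/
theorem exists_pd {M : Surface S} {σ : ℝ} {n : ℕ} {e : Fin (n + 1) → S → ℝ}
    (he : ∀ i, M.IsSteklov σ (e i)) (hi : LinearIndependent ℝ e) (hcov : Covd M e)
    (h2 : ∃ C C', IsCC M C ∧ IsCC M C' ∧ C ≠ C') (hmin : ¬ PM M σ n) :
    ∃ G, InK M e G ∧ ∀ v : V (n + 1), v ≠ 0 → 0 < (G (star v) v).re := by
  classical
  -- a form exists
  obtain ⟨G0, hG0⟩ : ∃ G, InK M e G := by
    obtain ⟨C, C', hC, hC', hne⟩ := h2
    obtain ⟨p, hp, rfl⟩ := id hC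
    obtain ⟨q, hq, rfl⟩ := id hC'
    obtain ⟨Q, hQ, -⟩ := hcov _ _ hC hC' hne p (mem_connectedComponentIn hp) q
      (mem_connectedComponentIn hq)
    exact ⟨Q, hQ⟩
  let kd : Bl (n + 1) → ℕ := fun Q => Module.finrank ℂ (LinearMap.ker Q.toLinearMap)
  obtain ⟨k, ⟨G, hG, hGk⟩, hmink⟩ : ∃ k, (∃ G, InK M e G ∧ kd G = k) ∧
      ∀ l < k, ¬ ∃ G, InK M e G ∧ kd G = l := by
    have hex : ∃ k, ∃ G, InK M e G ∧ kd G = k := ⟨_, G0, hG0, rfl⟩
    exact ⟨Nat.find hex, Nat.find_spec hex, fun l hl => Nat.find_min hex hl⟩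
  -- its kernel is contained in the kernels of all forms
  have hker : ∀ Q, InK M e Q → ∀ v, G v = 0 → Q v = 0 := by
    intro Q hQ v hv
    let H : Bl (n + 1) := (1 / 2 : ℂ) • (G + Q)
    have hHv : ∀ v w, H v w = 1 / 2 * (G v w + Q v w) := by
      intro v w
      simp only [H, _root_.smul_apply, _root_.add_apply, smul_eq_mul]
    have hH : InK M e H := by
      refine ⟨?_, ?_, ?_, ?_, ?_⟩
      · intro v w
        rw [hHv, hHv, hG.symm v w, hQ.symm v w]
      · intro v w
        rw [hHv, hHv, hG.real, hQ.real, star_mul, star_add]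
        have : star (1 / 2 : ℂ) = 1 / 2 := by
          simp
        rw [this, mul_comm]
      · intro v
        rw [hHv]
        have e1 := hG.nonneg v
        have e2 := hQ.nonneg v
        have e3 : (1 / 2 * (G (star v) v + Q (star v) v) : ℂ).re =
            1 / 2 * ((G (star v) v).re + (Q (star v) v).re) := by
          simp
        rw [e3]
        positivity
      · intro x hx
        rw [hHv, hG.sphere x hx, hQ.sphere x hx]
        norm_num
      · intro φ hφ z hz
        rw [hHv, hG.conf φ hφ z hz, hQ.conf φ hφ z hz]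
        norm_num
    have hsplit : ∀ v, H v = 0 → G v = 0 ∧ Q v = 0 := by
      intro v hv
      have e0 : H (star v) v = 0 := by
        rw [hH.symm, hv]
        rfl
      rw [hHv] at e0
      have e1 := hG.nonneg v
      have e2 := hQ.nonneg v
      have e3 : (G (star v) v).re + (Q (star v) v).re = 0 := by
        have := congrArg Complex.re e0
        simp at this
        exact this
      exact ⟨hG.ker (by linarith), hQ.ker (by linarith)⟩
    have hle : LinearMap.ker H.toLinearMap ≤ LinearMap.ker G.toLinearMap := by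
      intro w hw
      rw [LinearMap.mem_ker] at hw ⊢
      exact (hsplit w hw).1
    have hge : kd G ≤ kd H := by
      by_contra hcon
      push Not at hcon
      exact hmink (kd H) (by rw [← hGk]; exact hcon) ⟨H, hH, rfl⟩
    have heq : LinearMap.ker H.toLinearMap = LinearMap.ker G.toLinearMap :=
      Submodule.eq_of_le_of_finrank_le hle hge
    have hvH : v ∈ LinearMap.ker H.toLinearMap := by
      rw [heq, LinearMap.mem_ker]
      exact hv
    rw [LinearMap.mem_ker] at hvH
    exact (hsplit v hvH).2
  refine ⟨G, hG, ?_⟩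
  intro v hv
  rcases (hG.nonneg v).eq_or_lt with h0 | h0
  swap
  · exact h0
  exfalso
  have hGv : G v = 0 := hG.ker h0.symm
  have hstar : ∀ Q, InK M e Q → ∀ v, Q v = 0 → Q (star v) = 0 := by
    intro Q hQ v hv
    ext w
    have h3 : Q (star v) (star (star w)) = star (Q v (star w)) := hQ.real _ _
    rw [star_star, hv] at h3
    rw [h3]
    simp
  -- a real vector in all kernels
  obtain ⟨r, hr, hrr, hrQ⟩ : ∃ r : V (n + 1), r ≠ 0 ∧ star r = r ∧ ∀ Q, InK M e Q → Q r = 0 := by
    by_cases h3 : v + star v = 0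
    · refine ⟨Complex.I • v, smul_ne_zero Complex.I_ne_zero hv, ?_, ?_⟩
      · rw [star_smul, eq_neg_of_add_eq_zero_right h3]
        simp
      · intro Q hQ
        rw [map_smul, hker Q hQ v hGv, smul_zero]
    · refine ⟨v + star v, h3, ?_, ?_⟩
      · rw [star_add, star_star]
        exact add_comm _ _
      · intro Q hQ
        rw [map_add, hker Q hQ v hGv, hstar Q hQ v (hker Q hQ v hGv), add_zero]
  apply hmin
  apply red he hi hr hrr
  intro C C' hC hC' hne p hp q hq
  obtain ⟨Q, hQ, hQ1⟩ := hcov C C' hC hC' hne p hp q hq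
  exact ⟨Q, hQ, hQ1, hrQ Q hQ⟩

end Stek.Sv
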