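import Pool.Agent.H.MP_fc2485_gt.Sv.StarB

/-!
The two relations between solutions reached from two different boundary components.
-/

set_option maxSynthPendingDepth 3

open Set Filter Topology InnerProductSpace
open scoped ContDiff

namespace Stek.Sv

open Stek Surface GCell

variable {S : Type*} [TopologicalSpace S] {M : Surface S} {σ : ℝ} {m : ℕ} {e : Fin m → S → ℝ}
  {G : Bl m}

private theorem star_nice_prod {X Y : Type*} [NormedAddCommGroup X] [NormedSpace ℂ X]
    [NormedAddCommGroup Y] [NormedSpace ℂ Y] {K O : Set ℂ} {f : ℂ → X} {g : ℂ → Y}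
    (hf : Nice K O f) (hg : Nice K O g) : Nice K O (fun z => (f z, g z)) :=
  ⟨hf.cont.prodMk hg.cont, hf.holo.prodMk hg.holo⟩

private theorem star_nice_pi {n : ℕ} {K O : Set ℂ} {f : Fin n → ℂ → ℂ}
    (hf : ∀ j, Nice K O (f j)) : Nice K O (fun z => fun j => f j z) :=
  ⟨continuousOn_pi.2 fun j => (hf j).cont, differentiableOn_pi.2 fun j => (hf j).holo⟩

private theorem star_nice_lin {X : Type*} [NormedAddCommGroup X] [NormedSpace ℂ X]
    [FiniteDimensional ℂ X] {K O : Set ℂ} {f : ℂ → X} (hf : Nice K O f) (l : X →ₗ[ℂ] ℂ) :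
    Nice K O (fun z => l (f z)) :=
  hf.clm (LinearMap.toContinuousLinearMap l)

/-- near a link all points are links -/
private theorem star_near (H : Ctx M σ e G) {c c1 : GCell M e G} {x : S} (hl : c.LinkAt c1 x) :
    ∃ r > 0, ∀ z ∈ Metric.ball (c1.φ.map x) r, ∃ x', c1.φ.map x' = z ∧ c.LinkAt c1 x' := by
  have hs := link_symm H hl
  obtain ⟨r, hT, hb⟩ := link_germ H hs
  refine ⟨r, hT.hr, fun z hz => ?_⟩
  obtain ⟨ht, him, hsrc, -, -, -, -⟩ := hT.eq z hz
  obtain ⟨hzO, hTO, hY, hE, -⟩ := hb z hz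
  have hzz : c1.φ.map (c1.φ.map.symm z) = z := c1.φ.map.right_inv ht
  refine ⟨c1.φ.map.symm z, hzz, hsrc, c1.φ.map.map_target ht, hTO, ?_, ?_, ?_, ?_⟩
  · rw [hzz]; exact hzO
  · rw [hzz]; exact hY.symm
  · rw [hzz]; exact hE.symm
  · refine trans_symm c1.hφ c.hφ (c1.φ.map.map_target ht) hsrc (by rw [hzz]; exact him) ?_
    rw [hzz]
    filter_upwards [Metric.isOpen_ball.mem_nhds hz] with w hw
    exact (hT.holo w hw).differentiableAt (Metric.isOpen_ball.mem_nhds hw)

private theorem star_uniq (c1 : GCell M e G) {w : ℂ} (hw : w ∈ c1.O) {r : ℝ} (hr : 0 < r) :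
    Uniq c1.K c1.O (Metric.ball w r ∩ c1.O) :=
  uniq_open c1.hab c1.hcd Metric.isOpen_ball ⟨w, Metric.mem_ball_self hr, hw⟩

private theorem star_niceY (c : GCell M e G) : Nice c.K c.O c.Y :=
  c.sol.niceY (isOpen_RectI _ _ _ _) (RectI_sub _ _ _ _)

private theorem star_niceE (c : GCell M e G) : Nice c.K c.O c.E :=
  c.sol.niceE (isOpen_RectI _ _ _ _) (RectI_sub _ _ _ _)

private theorem star_niceF (H : Ctx M σ e G) (c : GCell M e G) (j : ℕ) :
    Nice c.K c.O (Fv c.φ e j) :=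
  nice_Fv H.mem c.hφ j c.sub

/-- the four rows at a point of a cell -/
private noncomputable def starRow (c : GCell M e G) (z : ℂ) :
    ((V m →L[ℂ] ℂ) × ℂ) →ₗ[ℂ] (ℂ × (Fin 3 → ℂ)) where
  toFun w := (w.1 (c.Y z) - w.2 * c.E z,
    fun j => c.E z * w.1 (Fv c.φ e j z) - w.2 * G (c.Y z) (Fv c.φ e j z))
  map_add' := by
    intro a b
    ext
    · simp; ring
    · simp; ring
  map_smul' := by
    intro t a
    ext
    · simp; ring
    · simp; ring

private theorem starRow_iff (c : GCell M e G) (z : ℂ) (w : (V m →L[ℂ] ℂ) × ℂ) :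
    starRow c z w = 0 ↔ Ann c z w.1 w.2 := by
  constructor
  · intro h
    have h1 : w.1 (c.Y z) - w.2 * c.E z = 0 := congrArg Prod.fst h
    have h2 := congrArg Prod.snd h
    refine ⟨sub_eq_zero.1 h1, fun j hj => ?_⟩
    have h3 : c.E z * w.1 (Fv c.φ e j z) - w.2 * G (c.Y z) (Fv c.φ e j z) = 0 :=
      congrFun h2 ⟨j, hj⟩
    exact sub_eq_zero.1 h3
  · rintro ⟨h1, h2⟩
    refine Prod.ext ?_ (funext fun j => ?_)
    · exact sub_eq_zero.2 h1
    · exact sub_eq_zero.2 (h2 j j.2)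

private theorem starRow_nice (H : Ctx M σ e G) (c : GCell M e G) (w : (V m →L[ℂ] ℂ) × ℂ) :
    Nice c.K c.O (fun z => starRow c z w) := by
  refine star_nice_prod (f := fun z => w.1 (c.Y z) - w.2 * c.E z)
    (g := fun z => fun j : Fin 3 =>
      c.E z * w.1 (Fv c.φ e j z) - w.2 * G (c.Y z) (Fv c.φ e j z)) ?_ (star_nice_pi ?_)
  · exact ((star_niceY c).clm w.1).sub ((Nice.const _ _ w.2).smul (star_niceE c))
  · intro j
    exact ((star_niceE c).smul ((star_niceF H c j).clm w.1)).sub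
      ((Nice.const _ _ w.2).smul (Nice.bil G (star_niceY c) (star_niceF H c j)))

theorem star_step (H : Ctx M σ e G) {c c1 c' : GCell M e G} {x : S} (h : StarR c c')
    (hl : c.LinkAt c1 x) : StarR c1 c' := by
  obtain ⟨r, hr, hb⟩ := star_near H hl
  have hw : c1.φ.map x ∈ c1.O := hl.2.2.2.1
  have key := nc (W := (V m →L[ℂ] ℂ) × ℂ) (R := (ℂ × (Fin 3 → ℂ)) × (ℂ × (Fin 3 → ℂ)))
    (star_uniq c1 hw hr) (uniq_self c'.K c'.O)
    (fun x y => (starRow c1 x).prod (starRow c' y)) ?_ ?_ ?_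
  · intro a ha b hb'
    obtain ⟨w, hw0, hL⟩ := key a ha b hb'
    have h1 : starRow c1 a w = 0 := congrArg Prod.fst hL
    have h2 : starRow c' b w = 0 := congrArg Prod.snd hL
    exact ⟨w.1, w.2, hw0, (starRow_iff c1 a w).1 h1, (starRow_iff c' b w).1 h2⟩
  · intro y _ w l
    exact star_nice_lin (star_nice_prod (starRow_nice H c1 w)
      (Nice.const _ _ (starRow c' y w))) l
  · intro x _ w l
    exact star_nice_lin (star_nice_prod (Nice.const _ _ (starRow c1 x w))
      (starRow_nice H c' w)) l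
  · intro z hz y hy
    obtain ⟨x', hx', hl'⟩ := hb z hz.1
    obtain ⟨ξ, τ, h0, h1, h2⟩ := h _ (RectI_sub _ _ _ _ hl'.2.2.1) y hy
    have h3 := ann_link H hl' h1
    rw [hx'] at h3
    exact ⟨(ξ, τ), h0, Prod.ext ((starRow_iff c1 z (ξ, τ)).2 h3) ((starRow_iff c' y (ξ, τ)).2 h2)⟩

/-- the row of the covering relation -/
private noncomputable def covRow (c c' : GCell M e G) (x y : ℂ) :
    (BC M e) →ₗ[ℂ] (V m →L[ℂ] ℂ) where
  toFun Q := (Q : Bl m) (c'.E y • c.Y x - c.E x • c'.Y y)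
  map_add' := by intro a b; rfl
  map_smul' := by intro t a; rfl

theorem cov_step (H : Ctx M σ e G) {c c1 c' : GCell M e G} {x : S} (h : CovR c c')
    (hl : c.LinkAt c1 x) : CovR c1 c' := by
  obtain ⟨r, hr, hb⟩ := star_near H hl
  have hw : c1.φ.map x ∈ c1.O := hl.2.2.2.1
  have key := nc (W := BC M e) (R := V m →L[ℂ] ℂ)
    (star_uniq c1 hw hr) (uniq_self c'.K c'.O) (fun x y => covRow c1 c' x y) ?_ ?_ ?_
  · intro a ha b hb'
    obtain ⟨Q, hQ0, hL⟩ := key a ha b hb'
    exact ⟨Q, Q.2, fun h => hQ0 (Subtype.ext h), hL⟩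
  · intro y _ Q l
    have h1 : Nice c1.K c1.O (fun z => c'.E y • c1.Y z - c1.E z • c'.Y y) :=
      ((Nice.const _ _ (c'.E y)).smul (star_niceY c1)).sub
        ((star_niceE c1).smul (Nice.const _ _ (c'.Y y)))
    exact star_nice_lin (h1.clm (Q : Bl m)) l
  · intro z _ Q l
    have h1 : Nice c'.K c'.O (fun y => c'.E y • c1.Y z - c1.E z • c'.Y y) :=
      ((star_niceE c').smul (Nice.const _ _ (c1.Y z))).sub
        ((Nice.const _ _ (c1.E z)).smul (star_niceY c'))
    exact star_nice_lin (h1.clm (Q : Bl m)) l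
  · intro z hz y hy
    obtain ⟨x', hx', hl'⟩ := hb z hz.1
    obtain ⟨Q, hQ, hQ0, hQ1⟩ := h _ (RectI_sub _ _ _ _ hl'.2.2.1) y hy
    refine ⟨⟨Q, hQ⟩, fun h => hQ0 (congrArg Subtype.val h), ?_⟩
    have h2 := hl'.2.2.2.2.1
    have h3 := hl'.2.2.2.2.2.1
    rw [hx'] at h2 h3
    rw [h2, h3] at hQ1
    exact hQ1

theorem StarR.symm {c c' : GCell M e G} (h : StarR c c') : StarR c' c := by
  intro x hx y hy
  obtain ⟨ξ, τ, h1, h2, h3⟩ := h y hy x hx
  exact ⟨ξ, τ, h1, h3, h2⟩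

theorem CovR.symm {c c' : GCell M e G} (h : CovR c c') : CovR c' c := by
  intro x hx y hy
  obtain ⟨Q, h1, h2, h3⟩ := h y hy x hx
  refine ⟨Q, h1, h2, ?_⟩
  have : c'.Y x = c'.Y x := rfl
  rw [show c.E y • c'.Y x - c'.E x • c.Y y = -(c'.E x • c.Y y - c.E y • c'.Y x) by abel, map_neg,
    h3, neg_zero]

theorem star_reach (H : Ctx M σ e G) (hcov : Covd M e) {C C' : Set S} (hC : IsCC M C)
    (hC' : IsCC M C') (hne : C ≠ C') {c c' : GCell M e G} (hc : Reach C c)
    (hc' : Reach C' c') : StarR c c' := by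
  induction hc with
  | base hb =>
    induction hc' with
    | base hb' => exact star_base H hcov hC hC' hne hb hb'
    | step _ hl ih => exact (star_step H ih.symm hl).symm
  | step _ hl ih => exact star_step H ih hl

theorem cov_reach (H : Ctx M σ e G) (hcov : Covd M e) {C C' : Set S} (hC : IsCC M C)
    (hC' : IsCC M C') (hne : C ≠ C') {c c' : GCell M e G} (hc : Reach C c)
    (hc' : Reach C' c') : CovR c c' := by
  induction hc with
  | base hb =>
    induction hc' with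
    | base hb' => exact cov_base H hcov hC hC' hne hb hb'
    | step _ hl ih => exact (cov_step H ih.symm hl).symm
  | step _ hl ih => exact cov_step H ih hl

end Stek.Sv
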