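import Pool.Agent.H.MP_fc2485_gt.Sv.Link

/-!
The two relations between solutions reached from two different boundary components, and their
behaviour under links.
-/

set_option maxSynthPendingDepth 3

open Set Filter Topology InnerProductSpace
open scoped ContDiff

namespace Stek.Sv

open Stek Surface GCell

variable {S : Type*} [TopologicalSpace S] {M : Surface S} {σ : ℝ} {m : ℕ} {e : Fin m → S → ℝ}
  {G : Bl m}

/-- `(ξ, τ)` annihilates the four rows at `z` -/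
def Ann (c : GCell M e G) (z : ℂ) (ξ : V m →L[ℂ] ℂ) (τ : ℂ) : Prop :=
  ξ (c.Y z) = τ * c.E z ∧
    ∀ j < 3, c.E z * ξ (Fv c.φ e j z) = τ * G (c.Y z) (Fv c.φ e j z)

/-- the relation (star) -/
def StarR (c c' : GCell M e G) : Prop :=
  ∀ x ∈ c.K, ∀ y ∈ c'.K, ∃ (ξ : V m →L[ℂ] ℂ) (τ : ℂ), (ξ, τ) ≠ 0 ∧ Ann c x ξ τ ∧ Ann c' y ξ τ

/-- the covering relation -/
def CovR (c c' : GCell M e G) : Prop :=
  ∀ x ∈ c.K, ∀ y ∈ c'.K, ∃ Q ∈ BC M e, Q ≠ 0 ∧ Q (c'.E y • c.Y x - c.E x • c'.Y y) = 0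

/-- the first three derivatives of `g = (f ∘ T) T'` -/
theorem jet_comp {B : Set ℂ} (hB : IsOpen B) {T f0 f1 f2 g0 g1 g2 : ℂ → ℂ}
    (hT : DifferentiableOn ℂ T B) (hf0 : ∀ z ∈ B, HasDerivAt f0 (f1 (T z)) (T z))
    (hf1 : ∀ z ∈ B, HasDerivAt f1 (f2 (T z)) (T z)) (hg0 : ∀ z ∈ B, HasDerivAt g0 (g1 z) z)
    (hg1 : ∀ z ∈ B, HasDerivAt g1 (g2 z) z) (hg : ∀ z ∈ B, g0 z = deriv T z * f0 (T z))
    {z : ℂ} (hz : z ∈ B) (hne : deriv T z ≠ 0) (h0 : g0 z = 0) (h1 : g1 z = 0) (h2 : g2 z = 0) :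
    f0 (T z) = 0 ∧ f1 (T z) = 0 ∧ f2 (T z) = 0 := by
  have hT1 : ∀ w ∈ B, HasDerivAt T (deriv T w) w := fun w hw =>
    (hT.differentiableAt (hB.mem_nhds hw)).hasDerivAt
  have hT2 : ∀ w ∈ B, HasDerivAt (deriv T) (deriv (deriv T) w) w := fun w hw =>
    ((hT.deriv hB).differentiableAt (hB.mem_nhds hw)).hasDerivAt
  have hT3 : ∀ w ∈ B, HasDerivAt (deriv (deriv T)) (deriv (deriv (deriv T)) w) w := fun w hw =>
    (((hT.deriv hB).deriv hB).differentiableAt (hB.mem_nhds hw)).hasDerivAt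
  have c0 : ∀ w ∈ B, HasDerivAt (fun w => f0 (T w)) (f1 (T w) * deriv T w) w := fun w hw =>
    (hf0 w hw).comp w (hT1 w hw)
  have c1 : ∀ w ∈ B, HasDerivAt (fun w => f1 (T w)) (f2 (T w) * deriv T w) w := fun w hw =>
    (hf1 w hw).comp w (hT1 w hw)
  have hgg : ∀ w ∈ B, g1 w = deriv (deriv T) w * f0 (T w) + deriv T w * (f1 (T w) * deriv T w) := by
    intro w hw
    have e1 := (hT2 w hw).mul (c0 w hw)
    have e2 : g0 =ᶠ[𝓝 w] fun w => deriv T w * f0 (T w) := by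
      filter_upwards [hB.mem_nhds hw] with v hv
      exact hg v hv
    exact (hg0 w hw).unique (e1.congr_of_eventuallyEq e2)
  have hggg : g2 z = deriv (deriv (deriv T)) z * f0 (T z) +
      deriv (deriv T) z * (f1 (T z) * deriv T z) +
      (deriv (deriv T) z * (f1 (T z) * deriv T z) +
        deriv T z * (f2 (T z) * deriv T z * deriv T z + f1 (T z) * deriv (deriv T) z)) := by
    have e1 := ((hT3 z hz).mul (c0 z hz)).add
      ((hT2 z hz).mul ((c1 z hz).mul (hT2 z hz)))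
    have e2 : g1 =ᶠ[𝓝 z] fun w => deriv (deriv T) w * f0 (T w) +
        deriv T w * (f1 (T w) * deriv T w) := by
      filter_upwards [hB.mem_nhds hz] with v hv
      exact hgg v hv
    exact (hg1 z hz).unique (e1.congr_of_eventuallyEq e2)
  have r0 : f0 (T z) = 0 := by
    have := hg z hz
    rw [h0] at this
    exact (mul_eq_zero.mp this.symm).resolve_left hne
  have r1 : f1 (T z) = 0 := by
    have e := hgg z hz
    rw [h1, r0, mul_zero, zero_add] at e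
    have e' := (mul_eq_zero.mp e.symm).resolve_left hne
    exact (mul_eq_zero.mp e').resolve_right hne
  have r2 : f2 (T z) = 0 := by
    rw [h2, r0, r1] at hggg
    have e' : deriv T z * (f2 (T z) * deriv T z * deriv T z) = 0 := by
      rw [hggg]
      ring
    have e2 := (mul_eq_zero.mp e').resolve_left hne
    have e3 := (mul_eq_zero.mp e2).resolve_right hne
    exact (mul_eq_zero.mp e3).resolve_right hne
  exact ⟨r0, r1, r2⟩

/-- if `g = (f ∘ T) T'` and `g`, `g'`, `g''` vanish at `z0` then `f`, `f'`, `f''` vanish at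
`T z0`; used with `f = ζ(F')`, `g = ζ(F)`, `ζ = E(z0) ξ - τ G(Y(z0),·)` -/
theorem ann_link (H : Ctx M σ e G) {c c' : GCell M e G} {x : S} (h : c.LinkAt c' x)
    {ξ : V m →L[ℂ] ℂ} {τ : ℂ} (ha : Ann c (c.φ.map x) ξ τ) : Ann c' (c'.φ.map x) ξ τ := by
  obtain ⟨r, hT, hr⟩ := link_germ H h
  obtain ⟨h1, h2, h3, h4, h5, h6, h7⟩ := h
  obtain ⟨ha1, ha2⟩ := ha
  set T : ℂ → ℂ := fun z => c'.φ.map (c.φ.map.symm z) with hTdef
  set B : Set ℂ := Metric.ball (c.φ.map x) r with hB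
  have hx : c.φ.map x ∈ B := Metric.mem_ball_self hT.hr
  have hval : T (c.φ.map x) = c'.φ.map x := hT.val
  let ζ : V m →L[ℂ] ℂ := c.E (c.φ.map x) • ξ - τ • G (c.Y (c.φ.map x))
  have hζ : ∀ v, ζ v = c.E (c.φ.map x) * ξ v - τ * G (c.Y (c.φ.map x)) v := by
    intro v
    simp [ζ]
  have hf : ∀ j, ∀ z ∈ B, HasDerivAt (fun w => ζ (Fv c'.φ e j w)) (ζ (Fv c'.φ e (j + 1) (T z)))
      (T z) := by
    intro j z hz
    have h8 := hasDerivAt_Fv H.mem c'.hφ j (hT.eq z hz).2.2.2.2.1 (hT.eq z hz).2.2.2.2.2.1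
    exact ζ.hasFDerivAt.comp_hasDerivAt _ h8
  have hg : ∀ j, ∀ z ∈ B, HasDerivAt (fun w => ζ (Fv c.φ e j w)) (ζ (Fv c.φ e (j + 1) z)) z := by
    intro j z hz
    have h8 := hasDerivAt_Fv H.mem c.hφ j (hT.eq z hz).1 (hT.eq z hz).2.1
    exact ζ.hasFDerivAt.comp_hasDerivAt _ h8
  have hz : ∀ j < 3, ζ (Fv c.φ e j (c.φ.map x)) = 0 := by
    intro j hj
    rw [hζ, ha2 j hj, sub_self]
  have key := jet_comp (B := B) (T := T) (f0 := fun w => ζ (Fv c'.φ e 0 w))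
    (f1 := fun w => ζ (Fv c'.φ e 1 w)) (f2 := fun w => ζ (Fv c'.φ e 2 w))
    (g0 := fun w => ζ (Fv c.φ e 0 w)) (g1 := fun w => ζ (Fv c.φ e 1 w))
    (g2 := fun w => ζ (Fv c.φ e 2 w)) Metric.isOpen_ball hT.holo (hf 0) (hf 1) (hg 0) (hg 1)
    (fun z hz => by
      rw [(hr z hz).2.2.2.2, map_smul, smul_eq_mul])
    hx (hT.ne _ hx) (hz 0 (by norm_num)) (hz 1 (by norm_num)) (hz 2 (by norm_num))
  simp only [hval] at key
  refine ⟨by rw [← h5, ← h6]; exact ha1, fun j hj => ?_⟩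
  have key2 : ζ (Fv c'.φ e j (c'.φ.map x)) = 0 := by
    interval_cases j
    · exact key.1
    · exact key.2.1
    · exact key.2.2
  rw [hζ] at key2
  rw [← h5, ← h6]
  exact sub_eq_zero.mp key2

end Stek.Sv
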