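import Pool.Agent.H.MP_fc2485_gt.Sv.StarA
import Pool.Agent.H.MP_fc2485_gt.Sv.Props
import Pool.Agent.H.MP_fc2485_gt.Sv.Nc

/-!
The two relations for cells over boundary arcs.
-/

set_option maxSynthPendingDepth 3

open Set Filter Topology InnerProductSpace
open scoped ContDiff

namespace Stek.Sv

open Stek Surface GCell

variable {S : Type*} [TopologicalSpace S] {M : Surface S} {σ : ℝ} {m : ℕ} {e : Fin m → S → ℝ}
  {G : Bl m}

/-- product rule for a complex bilinear form along a real variable -/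
theorem starB_hd (Q : Bl m) {f g : ℝ → V m} {f' g' : V m} {t : ℝ} (hf : HasDerivAt f f' t)
    (hg : HasDerivAt g g' t) :
    HasDerivAt (fun t => Q (f t) (g t)) (Q (f t) g' + Q f' (g t)) t :=
  (Q.bilinearRestrictScalars ℝ).hasDerivAt_of_bilinear (fun _ => hf) (fun _ => hg)

/-- a function which vanishes near a point has derivative zero -/
theorem starB_zero {f : ℝ → ℂ} {f' : ℂ} {t : ℝ} (hf : HasDerivAt f f' t)
    (h : ∀ᶠ s in 𝓝 t, f s = 0) : f' = 0 := by
  have h1 : HasDerivAt (fun _ : ℝ => (0 : ℂ)) f' t :=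
    hf.congr_of_eventuallyEq (h.mono fun s hs => hs.symm)
  exact h1.unique (hasDerivAt_const t (0 : ℂ))

theorem starB_bdry {φ : Chart S} (hφ : φ ∈ M.charts) {t : ℝ} (ht : (t : ℂ) ∈ φ.map.target) :
    φ.map.symm t ∈ M.bdry := by
  refine ⟨φ, hφ, φ.map.map_target ht, ?_⟩
  rw [φ.map.right_inv ht]
  exact Complex.ofReal_im t

/-- on the real axis, for `τ = 0`: `Q(u,F_j) = 0`, `j = 0,1,2` (differentiate `Q(u,u) = 0` and
`Q(F,F) = 0` along the axis with hasDerivAt_uv, hasDerivAt_Fv_real) -/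
theorem B_uFj (he : ∀ i, M.IsSteklov σ (e i)) {Q : Bl m} (hQ : InB M e Q 0) {φ : Chart S}
    (hφ : φ ∈ M.charts) {t : ℝ} (ht : (t : ℂ) ∈ φ.map.target) {j : ℕ} (hj : j < 3) :
    Q (uv e (φ.map.symm t)) (Fv φ e j t) = 0 := by
  have q0 : ∀ s : ℝ, (s : ℂ) ∈ φ.map.target → Q (uv e (φ.map.symm s)) (uv e (φ.map.symm s)) = 0 :=
    fun s hs => hQ.sphere _ (starB_bdry hφ hs)
  have f0 : ∀ s : ℝ, (s : ℂ) ∈ φ.map.target → Q (Fv φ e 0 s) (Fv φ e 0 s) = 0 :=
    fun s hs => hQ.conf φ hφ _ hs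
  have f1 : ∀ s : ℝ, (s : ℂ) ∈ φ.map.target → Q (Fv φ e 0 s) (Fv φ e 1 s) = 0 := by
    intro s hs
    have h1 := hasDerivAt_Fv_real he hφ 0 hs
    have h2 := starB_zero (starB_hd Q h1 h1)
      ((real_mem_nhds φ hs).mono fun r hr => f0 r hr)
    rw [hQ.symm (Fv φ e (0 + 1) s), zero_add] at h2
    linear_combination (1 / 2 : ℂ) * h2
  have u0 : ∀ s : ℝ, (s : ℂ) ∈ φ.map.target → Q (uv e (φ.map.symm s)) (Fv φ e 0 s) = 0 := by
    intro s hs
    have h1 := hasDerivAt_uv he hφ hs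
    have h2 := starB_zero (starB_hd Q h1 h1)
      ((real_mem_nhds φ hs).mono fun r hr => q0 r hr)
    rw [hQ.symm (Fv φ e 0 s - _)] at h2
    simp only [map_sub, map_smul, smul_eq_mul] at h2
    rw [q0 s hs] at h2
    linear_combination (1 / 2 : ℂ) * h2
  have u1 : ∀ s : ℝ, (s : ℂ) ∈ φ.map.target → Q (uv e (φ.map.symm s)) (Fv φ e 1 s) = 0 := by
    intro s hs
    have h1 := hasDerivAt_uv he hφ hs
    have h3 := hasDerivAt_Fv_real he hφ 0 hs
    have h2 := starB_zero (starB_hd Q h1 h3)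
      ((real_mem_nhds φ hs).mono fun r hr => u0 r hr)
    simp only [map_sub, map_smul, _root_.sub_apply, _root_.smul_apply,
      smul_eq_mul, zero_add] at h2
    rw [f0 s hs, u0 s hs] at h2
    linear_combination h2
  have u2 : ∀ s : ℝ, (s : ℂ) ∈ φ.map.target → Q (uv e (φ.map.symm s)) (Fv φ e 2 s) = 0 := by
    intro s hs
    have h1 := hasDerivAt_uv he hφ hs
    have h3 := hasDerivAt_Fv_real he hφ 1 hs
    have h2 := starB_zero (starB_hd Q h1 h3)
      ((real_mem_nhds φ hs).mono fun r hr => u1 r hr)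
    simp only [map_sub, map_smul, _root_.sub_apply, _root_.smul_apply,
      smul_eq_mul, Nat.reduceAdd] at h2
    rw [f1 s hs, u1 s hs] at h2
    linear_combination h2
  interval_cases j
  · exact u0 t ht
  · exact u1 t ht
  · exact u2 t ht

/-- `Q(u,·)` annihilates the rows of a base cell -/
theorem starB_ann (H : Ctx M σ e G) {C : Set S} {c : GCell M e G} (hc : c.IsBase C) {x : ℂ}
    (hx : x ∈ c.K) (him : x.im = c.c) {Q : Bl m} (hQ : InK M e Q) :
    Ann c x (Q (uv e (c.φ.map.symm x))) 1 := by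
  have hx0 : x = (x.re : ℂ) := Complex.ext rfl (by rw [him, hc.1, Complex.ofReal_im])
  obtain ⟨-, hY, -⟩ := hc.2 x.re ⟨hx.1, hx.2.1⟩
  rw [← hx0] at hY
  have ht : ((x.re : ℝ) : ℂ) ∈ c.φ.map.target := by
    rw [← hx0]
    exact c.sub hx
  have hb : c.φ.map.symm x ∈ M.bdry := by
    have := starB_bdry c.hφ ht
    rwa [← hx0] at this
  have hd : InB M e (Q - G) 0 := by
    refine ⟨fun v w => ?_, fun y hy => ?_, fun φ hφ z hz => ?_⟩
    · simp only [_root_.sub_apply]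
      rw [hQ.symm v w, H.inK.symm v w]
    · simp only [_root_.sub_apply]
      rw [hQ.sphere y hy, H.inK.sphere y hy, sub_self]
    · simp only [_root_.sub_apply]
      rw [hQ.conf φ hφ z hz, H.inK.conf φ hφ z hz, sub_self]
  refine ⟨?_, fun j hj => ?_⟩
  · rw [hY, map_smul, hQ.sphere _ hb, smul_eq_mul, mul_one, one_mul]
  · have h1 := B_uFj H.mem hd c.hφ ht hj
    rw [← hx0] at h1
    simp only [_root_.sub_apply] at h1
    rw [hY]
    simp only [map_smul, _root_.smul_apply, smul_eq_mul, one_mul]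
    rw [sub_eq_zero.mp h1]

theorem starB_mem {C : Set S} {c : GCell M e G} (hc : c.IsBase C) {x : ℂ}
    (hx : x ∈ c.K) (him : x.im = c.c) : c.φ.map.symm x ∈ C := by
  have hx0 : x = (x.re : ℂ) := Complex.ext rfl (by rw [him, hc.1, Complex.ofReal_im])
  rw [hx0]
  exact (hc.2 x.re ⟨hx.1, hx.2.1⟩).1

/-- the rows of a cell -/
noncomputable def starB_row (c : GCell M e G) (z : ℂ) : ((V m →L[ℂ] ℂ) × ℂ) →ₗ[ℂ] (ℂ × (Fin 3 → ℂ)) where
  toFun w := (w.1 (c.Y z) - w.2 * c.E z,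
    fun j => c.E z * w.1 (Fv c.φ e j z) - w.2 * G (c.Y z) (Fv c.φ e j z))
  map_add' := by
    intro w w'
    refine Prod.ext ?_ (funext fun j => ?_)
    · simp only [Prod.fst_add, Prod.snd_add, _root_.add_apply]
      ring
    · simp only [Prod.fst_add, Prod.snd_add, _root_.add_apply, Pi.add_apply]
      ring
  map_smul' := by
    intro a w
    refine Prod.ext ?_ (funext fun j => ?_)
    · simp only [Prod.smul_fst, Prod.smul_snd, _root_.smul_apply, smul_eq_mul,
        RingHom.id_apply]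
      ring
    · simp only [Prod.smul_fst, Prod.smul_snd, _root_.smul_apply, smul_eq_mul,
        RingHom.id_apply, Pi.smul_apply]
      ring

theorem starB_row_zero {c : GCell M e G} {z : ℂ} {ξ : V m →L[ℂ] ℂ} {τ : ℂ} :
    starB_row c z (ξ, τ) = 0 ↔ Ann c z ξ τ := by
  constructor
  · intro h
    have h1 : ξ (c.Y z) - τ * c.E z = 0 := congrArg Prod.fst h
    have h2 : (fun j : Fin 3 => c.E z * ξ (Fv c.φ e j z) - τ * G (c.Y z) (Fv c.φ e j z)) = 0 :=
      congrArg Prod.snd h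
    exact ⟨sub_eq_zero.mp h1, fun j hj => sub_eq_zero.mp (congrFun h2 ⟨j, hj⟩)⟩
  · rintro ⟨h1, h2⟩
    refine Prod.ext (sub_eq_zero.mpr h1) (funext fun j => sub_eq_zero.mpr (h2 j j.2))

theorem starB_O_open (c : GCell M e G) : IsOpen c.O := isOpen_RectI _ _ _ _

theorem starB_OK (c : GCell M e G) : c.O ⊆ c.K := RectI_sub _ _ _ _

theorem starB_row_nice (he : ∀ i, M.IsSteklov σ (e i)) (c : GCell M e G)
    (w : (V m →L[ℂ] ℂ) × ℂ) : Nice c.K c.O (fun z => starB_row c z w) := by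
  have hY : Nice c.K c.O c.Y := c.sol.niceY (starB_O_open c) (starB_OK c)
  have hE : Nice c.K c.O c.E := c.sol.niceE (starB_O_open c) (starB_OK c)
  have hF : ∀ j, Nice c.K c.O (Fv c.φ e j) := fun j => nice_Fv he c.hφ j c.sub
  have n1 : Nice c.K c.O (fun z => w.1 (c.Y z) - w.2 * c.E z) :=
    (hY.clm w.1).sub ((Nice.const c.K c.O w.2).smul hE)
  have n2 : ∀ j : ℕ, Nice c.K c.O (fun z => c.E z * w.1 (Fv c.φ e j z) -
      w.2 * G (c.Y z) (Fv c.φ e j z)) := fun j =>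
    (hE.smul ((hF j).clm w.1)).sub ((Nice.const c.K c.O w.2).smul (hY.bil G (hF j)))
  exact ⟨n1.cont.prodMk (continuousOn_pi.mpr fun j => (n2 j).cont),
    n1.holo.prodMk (differentiableOn_pi.mpr fun j => (n2 j).holo)⟩

/-- two base cells over different components: `ξ = Q(u(x),·) = Q(u(y),·)`, `τ = 1` -/
theorem star_base (H : Ctx M σ e G) (hcov : Covd M e) {C C' : Set S} (hC : IsCC M C)
    (hC' : IsCC M C') (hne : C ≠ C') {c c' : GCell M e G} (hc : c.IsBase C)
    (hc' : c'.IsBase C') : StarR c c' := by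
  have key := nc (uniq_bottom c.hab c.hcd) (uniq_bottom c'.hab c'.hcd)
    (fun x y => (starB_row c x).prod (starB_row c' y)) ?_ ?_ ?_
  · intro x hx y hy
    obtain ⟨⟨ξ, τ⟩, hw, h⟩ := key x hx y hy
    have h1 : starB_row c x (ξ, τ) = 0 := congrArg Prod.fst h
    have h2 : starB_row c' y (ξ, τ) = 0 := congrArg Prod.snd h
    exact ⟨ξ, τ, hw, starB_row_zero.mp h1, starB_row_zero.mp h2⟩
  · intro y _ w l
    have h1 := starB_row_nice H.mem c w
    have h2 : Nice c.K c.O (fun x => ((starB_row c x w, starB_row c' y w) :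
        (ℂ × (Fin 3 → ℂ)) × (ℂ × (Fin 3 → ℂ)))) :=
      ⟨h1.cont.prodMk continuousOn_const, h1.holo.prodMk (differentiableOn_const _)⟩
    exact h2.clm (LinearMap.toContinuousLinearMap l)
  · intro x _ w l
    have h1 := starB_row_nice H.mem c' w
    have h2 : Nice c'.K c'.O (fun y => ((starB_row c x w, starB_row c' y w) :
        (ℂ × (Fin 3 → ℂ)) × (ℂ × (Fin 3 → ℂ)))) :=
      ⟨continuousOn_const.prodMk h1.cont, (differentiableOn_const _).prodMk h1.holo⟩
    exact h2.clm (LinearMap.toContinuousLinearMap l)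
  · rintro x ⟨hx, hxim⟩ y ⟨hy, hyim⟩
    obtain ⟨Q, hQ, hz⟩ := hcov C C' hC hC' hne _ (starB_mem hc hx hxim) _ (starB_mem hc' hy hyim)
    rw [map_sub, sub_eq_zero] at hz
    refine ⟨(Q (uv e (c.φ.map.symm x)), 1), ?_, ?_⟩
    · intro h
      exact one_ne_zero (congrArg Prod.snd h)
    · refine Prod.ext (starB_row_zero.mpr (starB_ann H hc hx hxim hQ)) ?_
      have := starB_ann H hc' hy hyim hQ
      rw [← hz] at this
      exact starB_row_zero.mpr this

theorem starB_uv {C : Set S} {c : GCell M e G} (hc : c.IsBase C) {x : ℂ}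
    (hx : x ∈ c.K) (him : x.im = c.c) : c.Y x = c.E x • uv e (c.φ.map.symm x) ∧
      c.φ.map.symm x ∈ M.bdry := by
  have hx0 : x = (x.re : ℂ) := Complex.ext rfl (by rw [him, hc.1, Complex.ofReal_im])
  have h1 := (hc.2 x.re ⟨hx.1, hx.2.1⟩).2.1
  rw [← hx0] at h1
  refine ⟨h1, ?_⟩
  have ht : ((x.re : ℝ) : ℂ) ∈ c.φ.map.target := by
    rw [← hx0]
    exact c.sub hx
  have := starB_bdry c.hφ ht
  rwa [← hx0] at this

/-- the value of a form at a vector -/
noncomputable def starB_ev (M : Surface S) (e : Fin m → S → ℝ) (v : V m) :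
    BC M e →ₗ[ℂ] (V m →L[ℂ] ℂ) where
  toFun Q := (Q : Bl m) v
  map_add' _ _ := rfl
  map_smul' _ _ := rfl

theorem starB_ev_nice {K O : Set ℂ} {v : ℂ → V m} (hv : Nice K O v) (Q : BC M e)
    (l : (V m →L[ℂ] ℂ) →ₗ[ℂ] ℂ) : Nice K O (fun z => l (starB_ev M e (v z) Q)) := by
  exact (hv.clm (Q : Bl m)).clm (LinearMap.toContinuousLinearMap l)

theorem cov_base (H : Ctx M σ e G) (hcov : Covd M e) {C C' : Set S} (hC : IsCC M C)
    (hC' : IsCC M C') (hne : C ≠ C') {c c' : GCell M e G} (hc : c.IsBase C)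
    (hc' : c'.IsBase C') : CovR c c' := by
  have hY : Nice c.K c.O c.Y := c.sol.niceY (starB_O_open c) (starB_OK c)
  have hE : Nice c.K c.O c.E := c.sol.niceE (starB_O_open c) (starB_OK c)
  have hY' : Nice c'.K c'.O c'.Y := c'.sol.niceY (starB_O_open c') (starB_OK c')
  have hE' : Nice c'.K c'.O c'.E := c'.sol.niceE (starB_O_open c') (starB_OK c')
  have key := nc (uniq_bottom c.hab c.hcd) (uniq_bottom c'.hab c'.hcd)
    (fun x y => starB_ev M e (c'.E y • c.Y x - c.E x • c'.Y y)) ?_ ?_ ?_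
  · intro x hx y hy
    obtain ⟨Q, hQ, h⟩ := key x hx y hy
    exact ⟨Q, Q.2, fun h0 => hQ (Subtype.ext h0), h⟩
  · intro y _ w l
    exact starB_ev_nice (((Nice.const c.K c.O (c'.E y)).smul hY).sub
      (hE.smul (Nice.const c.K c.O (c'.Y y)))) w l
  · intro x _ w l
    exact starB_ev_nice ((hE'.smul (Nice.const c'.K c'.O (c.Y x))).sub
      ((Nice.const c'.K c'.O (c.E x)).smul hY')) w l
  · rintro x ⟨hx, hxim⟩ y ⟨hy, hyim⟩
    obtain ⟨Q, hQ, hz⟩ := hcov C C' hC hC' hne _ (starB_mem hc hx hxim) _ (starB_mem hc' hy hyim)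
    obtain ⟨e1, hb⟩ := starB_uv hc hx hxim
    obtain ⟨e2, -⟩ := starB_uv hc' hy hyim
    refine ⟨⟨Q, 1, hQ.inB⟩, ?_, ?_⟩
    · intro h
      have h0 : Q = 0 := congrArg Subtype.val h
      have h1 := hQ.sphere _ hb
      rw [h0] at h1
      simp at h1
    · show Q (c'.E y • c.Y x - c.E x • c'.Y y) = 0
      rw [e1, e2]
      have : c'.E y • c.E x • uv e (c.φ.map.symm x) - c.E x • c'.E y • uv e (c'.φ.map.symm y) =
          (c'.E y * c.E x) • (uv e (c.φ.map.symm x) - uv e (c'.φ.map.symm y)) := by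
        rw [smul_smul, smul_smul, smul_sub, mul_comm (c.E x) (c'.E y)]
      rw [this, map_smul, hz, smul_zero]

end Stek.Sv
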